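import Pool.Agent.WPG.Stmts

/-!
# The module CJS: the class `CJ` under the geodesic vector field
-/

set_option autoImplicit false

namespace Pool.Agent.WPG

open MeasureTheory Set Filter Topology

namespace CJSAux

variable {n : ℕ}

/-- the coordinate vectors -/
noncomputable def e (l : Fin n) : E n := EuclideanSpace.single l 1

theorem e_apply (l i : Fin n) : (e l : E n) i = if i = l then 1 else 0 := by
  simp [e]

/-! ### polynomials -/

theorem ev_add (Q R : MvPolynomial (Fin n) ℂ) (q : E n) :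
    ev (Q + R) q = ev Q q + ev R q := by
  simp [ev]

theorem ev_mul (Q R : MvPolynomial (Fin n) ℂ) (q : E n) :
    ev (Q * R) q = ev Q q * ev R q := by
  simp [ev]

theorem ev_X (l : Fin n) (q : E n) :
    ev (MvPolynomial.X l) q = (q l : ℂ) := by
  simp [ev]

theorem ev_C (c : ℂ) (q : E n) : ev (MvPolynomial.C c : MvPolynomial (Fin n) ℂ) q = c := by
  simp [ev]

theorem ev_sum {ι : Type} (s : Finset ι) (F : ι → MvPolynomial (Fin n) ℂ) (q : E n) :
    ev (∑ i ∈ s, F i) q = ∑ i ∈ s, ev (F i) q := by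
  simp [ev]

theorem hasFDerivAt_coord (i : Fin n) (q : E n) :
    HasFDerivAt (fun q : E n => (q i : ℂ))
      (Complex.ofRealCLM.comp (EuclideanSpace.proj (𝕜 := ℝ) i)) q :=
  (Complex.ofRealCLM.comp (EuclideanSpace.proj (𝕜 := ℝ) i)).hasFDerivAt

theorem contDiff_ev (Q : MvPolynomial (Fin n) ℂ) : ContDiff ℝ (⊤ : ℕ∞) (ev Q) := by
  induction Q using MvPolynomial.induction_on with
  | C c =>
    have h : (ev (MvPolynomial.C c) : E n → ℂ) = fun _ => c := by
      funext q; exact ev_C c q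
    rw [h]; exact contDiff_const
  | add p q hp hq =>
    have h : (ev (p + q) : E n → ℂ) = fun x => ev p x + ev q x := by
      funext x; exact ev_add p q x
    rw [h]; exact hp.add hq
  | mul_X p i hp =>
    have h : (ev (p * MvPolynomial.X i) : E n → ℂ) = fun x => ev p x * (x i : ℂ) := by
      funext x; rw [ev_mul, ev_X]
    rw [h]
    exact hp.mul (Complex.ofRealCLM.comp (EuclideanSpace.proj (𝕜 := ℝ) i)).contDiff

theorem differentiable_ev (Q : MvPolynomial (Fin n) ℂ) : Differentiable ℝ (ev Q) :=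
  (contDiff_ev Q).differentiable (by simp)

theorem fderiv_ev (Q : MvPolynomial (Fin n) ℂ) (l : Fin n) (q : E n) :
    fderiv ℝ (ev Q) q (e l) = ev (MvPolynomial.pderiv l Q) q := by
  induction Q using MvPolynomial.induction_on with
  | C c =>
    have h : (ev (MvPolynomial.C c) : E n → ℂ) = fun _ => c := by
      funext q; exact ev_C c q
    rw [h]; simp [ev]
  | add p q' hp hq =>
    have h : (ev (p + q') : E n → ℂ) = fun x => ev p x + ev q' x := by
      funext x; exact ev_add p q' x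
    rw [h, map_add, ev_add, ← hp, ← hq,
      fderiv_fun_add (differentiable_ev p q) (differentiable_ev q' q)]
    rfl
  | mul_X p i hp =>
    have h : (ev (p * MvPolynomial.X i) : E n → ℂ) = fun x => ev p x * (x i : ℂ) := by
      funext x; rw [ev_mul, ev_X]
    have h2 := (((differentiable_ev p q).hasFDerivAt).mul (hasFDerivAt_coord i q)).fderiv
    rw [h]
    have h3 : fderiv ℝ (fun x : E n => ev p x * (x i : ℂ)) q = ev p q •
        (Complex.ofRealCLM.comp (EuclideanSpace.proj (𝕜 := ℝ) i)) + (q i : ℂ) •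
        fderiv ℝ (ev p) q := h2
    rw [h3]
    have h4 : (Complex.ofRealCLM.comp (EuclideanSpace.proj (𝕜 := ℝ) i)) (e l : E n) =
        (((e l : E n) i : ℝ) : ℂ) := rfl
    have h5 : (ev p q • (Complex.ofRealCLM.comp (EuclideanSpace.proj (𝕜 := ℝ) i)) + (q i : ℂ) •
        fderiv ℝ (ev p) q) (e l) = ev p q * (Complex.ofRealCLM.comp
          (EuclideanSpace.proj (𝕜 := ℝ) i)) (e l : E n) + (q i : ℂ) * fderiv ℝ (ev p) q (e l) := rfl
    rw [h5, h4, hp, e_apply, Derivation.leibniz, smul_eq_mul, smul_eq_mul, ev_add, ev_mul, ev_mul,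
      ev_X, MvPolynomial.pderiv_X, Pi.single_apply]
    by_cases h1 : i = l
    · simp [ev, h1]
    · simp [ev, h1]

theorem sum_e (v : E n) : v = ∑ l, v l • e l := by
  ext i
  have h : (∑ l, v l • (e l : E n)) i = ∑ l, v l * (e l : E n) i := by
    rw [WithLp.ofLp_sum, Finset.sum_apply]
    rfl
  rw [h]
  simp [e_apply]

/-- the quadratic form of a linear map, as a polynomial -/
noncomputable def qp (B : E n →L[ℝ] E n) : MvPolynomial (Fin n) ℂ :=
  ∑ l, ∑ m, MvPolynomial.C (((B (e l)) m : ℝ) : ℂ) * (MvPolynomial.X l * MvPolynomial.X m)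

theorem lin_apply (B : E n →L[ℝ] E n) (q : E n) (i : Fin n) :
    (B q) i = ∑ l, (B (e l)) i * q l := by
  conv_lhs => rw [sum_e q]
  rw [map_sum, WithLp.ofLp_sum, Finset.sum_apply]
  refine Finset.sum_congr rfl fun l _ => ?_
  rw [map_smul]
  simp [mul_comm]

theorem ev_qp (B : E n →L[ℝ] E n) (q : E n) :
    ev (qp B) q = ((inner ℝ (B q) q : ℝ) : ℂ) := by
  have h1 : (inner ℝ (B q) q : ℝ) = ∑ m, q m * (B q) m := by
    rw [PiLp.inner_apply]
    refine Finset.sum_congr rfl fun m _ => ?_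
    simp
  rw [h1, qp, ev_sum]
  simp only [ev_sum, ev_mul, ev_C, ev_X]
  rw [Finset.sum_comm]
  push_cast
  refine Finset.sum_congr rfl fun m _ => ?_
  rw [lin_apply B q m]
  push_cast
  rw [Finset.mul_sum]
  refine Finset.sum_congr rfl fun l _ => ?_
  ring

theorem qp_hom (B : E n →L[ℝ] E n) : (qp B).IsHomogeneous 2 := by
  unfold qp
  refine MvPolynomial.IsHomogeneous.sum _ _ _ fun l _ => ?_
  refine MvPolynomial.IsHomogeneous.sum _ _ _ fun m _ => ?_
  have h := (MvPolynomial.isHomogeneous_C (Fin n) (((B (e l)) m : ℝ) : ℂ)).mul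
    ((MvPolynomial.isHomogeneous_X ℂ l).mul (MvPolynomial.isHomogeneous_X ℂ m))
  simpa using h

/-! ### integrals -/

theorem integrable_slice {h : E n → ℂ} (hh : Continuous h) {Φ : P n → ℂ} (hΦ : Continuous Φ)
    (hs : HasCompactSupport Φ) (x : E n) : Integrable (fun q : E n => h q * Φ (x, q)) := by
  refine Continuous.integrable_of_hasCompactSupport
    (hh.mul (hΦ.comp (by fun_prop))) ?_
  refine HasCompactSupport.intro (hs.isCompact.image continuous_snd) ?_
  intro q hq
  have : Φ (x, q) = 0 := by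
    by_contra hne
    exact hq ⟨(x, q), subset_tsupport _ hne, rfl⟩
  rw [this, mul_zero]

theorem cont_fd {Ψ : P n → ℂ} (hΨ : ContDiff ℝ (⊤ : ℕ∞) Ψ) (v : P n) :
    Continuous (fun z => fderiv ℝ Ψ z v) :=
  (hΨ.continuous_fderiv (by simp)).clm_apply continuous_const

theorem supp_fd {Ψ : P n → ℂ} (hs : HasCompactSupport Ψ) (v : P n) :
    HasCompactSupport (fun z => fderiv ℝ Ψ z v) :=
  (hs.fderiv ℝ).comp_left (g := fun A : P n →L[ℝ] ℂ => A v) (by simp)

/-- differentiation under the integral -/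
theorem deriv_int {h : E n → ℂ} (hh : Continuous h) {Ψ : P n → ℂ} (hΨ : ContDiff ℝ (⊤ : ℕ∞) Ψ)
    (hs : HasCompactSupport Ψ) (x v : E n) :
    HasDerivAt (fun t : ℝ => ∫ q : E n, h q * Ψ (x + t • v, q))
      (∫ q : E n, h q * fderiv ℝ Ψ (x, q) (v, 0)) 0 := by
  have hc : Continuous (fun z : P n => h z.2 * fderiv ℝ Ψ z (v, 0)) :=
    (hh.comp continuous_snd).mul (cont_fd hΨ _)
  have hcs : HasCompactSupport (fun z : P n => h z.2 * fderiv ℝ Ψ z (v, 0)) :=
    (supp_fd hs (v, 0)).mul_left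
  obtain ⟨C, hC⟩ := hc.bounded_above_of_compact_support hcs
  have hC0 : 0 ≤ C := (norm_nonneg _).trans (hC 0)
  set K : Set (E n) := Prod.snd '' tsupport (fun z : P n => h z.2 * fderiv ℝ Ψ z (v, 0)) with hK
  have hKc : IsCompact K := hcs.isCompact.image continuous_snd
  have hd := hasDerivAt_integral_of_dominated_loc_of_deriv_le (μ := (volume : Measure (E n)))
    (F := fun (t : ℝ) (q : E n) => h q * Ψ (x + t • v, q))
    (F' := fun (t : ℝ) (q : E n) => h q * fderiv ℝ Ψ (x + t • v, q) (v, 0))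
    (x₀ := (0 : ℝ)) (s := univ) (bound := K.indicator fun _ => C) univ_mem ?_ ?_ ?_ ?_ ?_ ?_
  · have h2 := hd.2
    simpa using h2
  · refine Eventually.of_forall fun t => ?_
    exact (integrable_slice hh hΨ.continuous hs (x + t • v)).aestronglyMeasurable
  · exact integrable_slice hh hΨ.continuous hs _
  · exact (integrable_slice hh (cont_fd hΨ (v, 0)) (supp_fd hs (v, 0)) _).aestronglyMeasurable
  · refine Eventually.of_forall fun q t _ => ?_
    by_cases hq : q ∈ K
    · rw [indicator_of_mem hq]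
      exact hC (x + t • v, q)
    · rw [indicator_of_notMem hq]
      have h0 : h q * fderiv ℝ Ψ (x + t • v, q) (v, 0) = 0 := by
        by_contra hne
        exact hq ⟨(x + t • v, q), subset_tsupport _ hne, rfl⟩
      simp only [h0, norm_zero, le_refl]
  · exact (integrable_indicator_iff hKc.measurableSet).2
      (integrableOn_const hKc.measure_lt_top.ne)
  · refine Eventually.of_forall fun q t _ => ?_
    have h1 : HasDerivAt (fun t : ℝ => ((x + t • v, q) : P n)) (v, 0) t := by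
      have ha : HasDerivAt (fun t : ℝ => x + t • v) v t := by
        simpa using ((hasDerivAt_id t).smul_const v).const_add x
      exact ha.prodMk (hasDerivAt_const t q)
    have h2 : HasFDerivAt Ψ (fderiv ℝ Ψ (x + t • v, q)) (x + t • v, q) :=
      ((hΨ.differentiable (by simp)) _).hasFDerivAt
    exact (h2.comp_hasDerivAt t h1).const_mul (h q)

/-- the first integral -/
theorem int_fst {h : E n → ℂ} (hh : Continuous h) {Ψ : P n → ℂ} (hΨ : ContDiff ℝ (⊤ : ℕ∞) Ψ)
    (hs : HasCompactSupport Ψ) (hi : ∀ x, ∫ q : E n, h q * Ψ (x, q) = 0) (x v : E n) :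
    ∫ q : E n, h q * fderiv ℝ Ψ (x, q) (v, 0) = 0 := by
  have h1 := deriv_int hh hΨ hs x v
  have h2 : (fun t : ℝ => ∫ q : E n, h q * Ψ (x + t • v, q)) = fun _ : ℝ => (0 : ℂ) := by
    funext t; exact hi _
  rw [h2] at h1
  exact h1.unique (hasDerivAt_const _ _)

/-- the second integral: integration by parts -/
theorem int_snd (Q : MvPolynomial (Fin n) ℂ) {Ψ : P n → ℂ} (hΨ : ContDiff ℝ (⊤ : ℕ∞) Ψ)
    (hs : HasCompactSupport Ψ) (x : E n) (l : Fin n) :
    ∫ q : E n, ev Q q * fderiv ℝ Ψ (x, q) (0, e l) =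
      - ∫ q : E n, ev (MvPolynomial.pderiv l Q) q * Ψ (x, q) := by
  have hd : ∀ q : E n, HasFDerivAt (fun q : E n => Ψ (x, q))
      ((fderiv ℝ Ψ (x, q)).comp (ContinuousLinearMap.inr ℝ (E n) (E n))) q := fun q =>
    (((hΨ.differentiable (by simp)) (x, q)).hasFDerivAt).comp q (hasFDerivAt_prodMk_right x q)
  have he : ∀ q : E n, fderiv ℝ (fun q : E n => Ψ (x, q)) q (e l) =
      fderiv ℝ Ψ (x, q) (0, e l) := by
    intro q
    rw [(hd q).fderiv]
    rfl
  have h1 : ∀ q : E n, ev (MvPolynomial.pderiv l Q) q * Ψ (x, q) =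
      fderiv ℝ (ev Q) q (e l) * Ψ (x, q) := fun q => by rw [fderiv_ev]
  have h2 : ∀ q : E n, ev Q q * fderiv ℝ Ψ (x, q) (0, e l) =
      ev Q q * fderiv ℝ (fun q : E n => Ψ (x, q)) q (e l) := fun q => by rw [he]
  have i1 := integrable_slice (contDiff_ev (MvPolynomial.pderiv l Q)).continuous
    hΨ.continuous hs x
  have i2 := integrable_slice (contDiff_ev Q).continuous (cont_fd hΨ (0, e l))
    (supp_fd hs (0, e l)) x
  have i3 := integrable_slice (contDiff_ev Q).continuous hΨ.continuous hs x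
  simp only [h1] at i1 ⊢
  simp only [h2] at i2 ⊢
  exact integral_mul_fderiv_eq_neg_fderiv_mul_of_integrable i1 i2 i3
    (fun q _ => differentiable_ev Q q) (fun q _ => (hd q).differentiableAt)

/-! ### the kinetic energy -/

theorem k_smooth (D : HD n) : ContDiff ℝ (⊤ : ℕ∞) D.k := by
  have h : ContDiff ℝ (⊤ : ℕ∞) (fun z : P n => D.A z.1 z.2) :=
    (D.As.comp contDiff_fst).clm_apply contDiff_snd
  exact h.inner ℝ contDiff_snd

theorem fderiv_A (D : HD n) (x v q : E n) :
    fderiv ℝ (fun x => inner ℝ (D.A x q) q) x v = inner ℝ ((fderiv ℝ D.A x v) q) q := by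
  have h0 : HasFDerivAt D.A (fderiv ℝ D.A x) x :=
    ((D.As.differentiable (by simp)) x).hasFDerivAt
  have h1 : HasFDerivAt (fun x => D.A x q) ((fderiv ℝ D.A x).flip q) x := by
    have := h0.clm_apply (hasFDerivAt_const q x)
    simpa using this
  have h2 := h1.inner ℝ (hasFDerivAt_const q x)
  rw [h2.fderiv]
  simp

theorem fderiv_k (D : HD n) (x q v w : E n) :
    fderiv ℝ D.k (x, q) (v, w) =
      inner ℝ (D.A x q) w + inner ℝ (D.A x w + (fderiv ℝ D.A x v) q) q := by
  have h0 : HasFDerivAt D.A (fderiv ℝ D.A x) x :=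
    ((D.As.differentiable (by simp)) x).hasFDerivAt
  have hf : HasFDerivAt (fun z : P n => D.A z.1) ((fderiv ℝ D.A x).comp
      (ContinuousLinearMap.fst ℝ (E n) (E n))) (x, q) :=
    HasFDerivAt.comp (x, q) (f := fun z : P n => z.1) h0 hasFDerivAt_fst
  have hs : HasFDerivAt (fun z : P n => z.2) (ContinuousLinearMap.snd ℝ (E n) (E n)) (x, q) :=
    hasFDerivAt_snd
  have h1 := hf.clm_apply hs
  have h2 : HasFDerivAt D.k _ (x, q) := h1.inner ℝ hs
  rw [h2.fderiv]
  simp

theorem gradient_inner (f : E n → ℝ) (x v : E n) :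
    inner ℝ v (gradient f x) = fderiv ℝ f x v := by
  rw [real_inner_comm, gradient, InnerProductSpace.toDual_symm_apply]

theorem Y_eq (D : HD n) (x q : E n) : D.Y 0 (x, q) =
    (D.A x q, -((1 / 2 : ℝ) • gradient (fun x => inner ℝ (D.A x q) q) x)) := by
  simp [HD.Y]

theorem der_k (D : HD n) (z : P n) : fderiv ℝ D.k z (D.Y 0 z) = 0 := by
  obtain ⟨x, q⟩ := z
  rw [Y_eq, fderiv_k, inner_add_left]
  have h1 : inner ℝ (D.A x (-((1 / 2 : ℝ) • gradient (fun x => inner ℝ (D.A x q) q) x))) q =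
      inner ℝ (D.A x q) (-((1 / 2 : ℝ) • gradient (fun x => inner ℝ (D.A x q) q) x)) := by
    rw [D.sym, real_inner_comm]
  rw [h1, inner_neg_right, inner_smul_right, gradient_inner, fderiv_A]
  ring

/-! ### the derivative in coordinates -/

theorem der_eq (D : HD n) (Φ : P n → ℂ) (x q : E n) :
    D.der Φ (x, q) = ∑ i, ((∑ l, (((D.A x (e l)) i : ℝ) : ℂ) * ((q l : ℂ) *
        fderiv ℝ Φ (x, q) (e i, 0))) - (1 / 2 : ℂ) *
        (ev (qp (fderiv ℝ D.A x (e i))) q * fderiv ℝ Φ (x, q) (0, e i))) := by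
  have hg : ∀ i, (gradient (fun x => inner ℝ (D.A x q) q) x) i =
      inner ℝ ((fderiv ℝ D.A x (e i)) q) q := by
    intro i
    rw [← fderiv_A, ← gradient_inner, e, EuclideanSpace.inner_single_left]
    simp
  have hY : D.Y 0 (x, q) = ∑ i, (((D.A x q) i) • ((e i, 0) : P n) +
      (-(1 / 2 : ℝ) * inner ℝ ((fderiv ℝ D.A x (e i)) q) q) • ((0, e i) : P n)) := by
    rw [Y_eq, Finset.sum_add_distrib]
    refine Prod.ext ?_ ?_
    · simp only [Prod.fst_add, Prod.fst_sum, Prod.smul_fst, smul_zero,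
        Finset.sum_const_zero, add_zero]
      exact sum_e _
    · simp only [Prod.snd_add, Prod.snd_sum, Prod.smul_snd, smul_zero,
        Finset.sum_const_zero, zero_add]
      conv_lhs => rw [sum_e (gradient (fun x => inner ℝ (D.A x q) q) x)]
      rw [Finset.smul_sum, ← Finset.sum_neg_distrib]
      refine Finset.sum_congr rfl fun i _ => ?_
      rw [smul_smul, hg, ← neg_smul]
      congr 1
      ring
  unfold HD.der
  rw [hY, map_sum]
  refine Finset.sum_congr rfl fun i _ => ?_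
  rw [map_add, map_smul, map_smul, Complex.real_smul, Complex.real_smul, ev_qp,
    lin_apply (D.A x) q i]
  push_cast
  rw [Finset.sum_mul]
  have h1 : ∀ l, (((D.A x (e l)) i : ℝ) : ℂ) * (q l : ℂ) * fderiv ℝ Φ (x, q) (e i, 0) =
      (((D.A x (e l)) i : ℝ) : ℂ) * ((q l : ℂ) * fderiv ℝ Φ (x, q) (e i, 0)) := fun l => by ring
  rw [Finset.sum_congr rfl fun l _ => h1 l]
  ring

theorem der_pow (D : HD n) {Ψ : P n → ℂ} (hΨ : ContDiff ℝ (⊤ : ℕ∞) Ψ) (m : ℕ) (z : P n) :
    D.der (fun z => (D.k z : ℂ) ^ m * Ψ z) z = (D.k z : ℂ) ^ m * D.der Ψ z := by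
  have hk : HasFDerivAt (fun z => (D.k z : ℂ)) (Complex.ofRealCLM.comp (fderiv ℝ D.k z)) z :=
    Complex.ofRealCLM.hasFDerivAt.comp z
      (((k_smooth D).differentiable (by simp)) z).hasFDerivAt
  have hp := hk.pow m
  have hm := hp.mul (((hΨ.differentiable (by simp)) z).hasFDerivAt)
  unfold HD.der
  have h1 : fderiv ℝ (fun z => (D.k z : ℂ) ^ m * Ψ z) z = _ := hm.fderiv
  rw [h1]
  have h2 : (Complex.ofRealCLM.comp (fderiv ℝ D.k z)) (D.Y 0 z) = 0 := by
    rw [ContinuousLinearMap.comp_apply, der_k, map_zero]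
  simp only [add_apply, smul_apply, h2, smul_eq_mul,
    mul_zero, add_zero]

theorem homX {d : ℕ} {Q : MvPolynomial (Fin n) ℂ} (hQ : Q.IsHomogeneous d)
    (l : Fin n) : (MvPolynomial.X l * Q).IsHomogeneous (d + 1) := by
  have h := (MvPolynomial.isHomogeneous_X ℂ l).mul hQ
  have e : 1 + d = d + 1 := by omega
  rwa [e] at h

theorem homS {d : ℕ} {Q : MvPolynomial (Fin n) ℂ} (hQ : Q.IsHomogeneous d)
    (B : E n →L[ℝ] E n) (l : Fin n) :
    (MvPolynomial.pderiv l (qp B * Q)).IsHomogeneous (d + 1) := by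
  have h := ((qp_hom B).mul hQ).pderiv (i := l)
  have e : 2 + d - 1 = d + 1 := by omega
  rwa [e] at h

end CJSAux

open CJSAux in
theorem cjs (hD : Stmt_DTF) : Stmt_CJS := by
  clear hD
  intro n D j Ψ hΨ hC d m Q hQ hd x
  set Φ : P n → ℂ := fun z => (D.k z : ℂ) ^ m * Ψ z with hΦ
  have hks : ContDiff ℝ (⊤ : ℕ∞) (fun z => (D.k z : ℂ)) :=
    Complex.ofRealCLM.contDiff.comp (k_smooth D)
  have hΦs : ContDiff ℝ (⊤ : ℕ∞) Φ := (hks.pow m).mul hΨ.smooth
  have hΦc : HasCompactSupport Φ := hΨ.supp.mul_left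
  have hI : ∀ (R : MvPolynomial (Fin n) ℂ), R.IsHomogeneous (d + 1) → ∀ x : E n,
      ∫ q : E n, ev R q * Φ (x, q) = 0 := by
    intro R hR x
    have h := hC (d + 1) m R hR (by omega) x
    rw [← h]
    refine integral_congr_ae (Eventually.of_forall fun q => ?_)
    simp only [hΦ]
    ring
  have k1 : ∀ i l, ∫ q : E n, ev (MvPolynomial.X l * Q) q * fderiv ℝ Φ (x, q) (e i, 0) = 0 :=
    fun i l => int_fst (contDiff_ev _).continuous hΦs hΦc (hI _ (homX hQ l)) x (e i)
  have k2 : ∀ i, ∫ q : E n, ev (qp (fderiv ℝ D.A x (e i)) * Q) q *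
      fderiv ℝ Φ (x, q) (0, e i) = 0 := fun i => by
    rw [int_snd _ hΦs hΦc x i, hI _ (homS hQ _ i) x, neg_zero]
  have i1 : ∀ i l, Integrable (fun q : E n => ev (MvPolynomial.X l * Q) q *
      fderiv ℝ Φ (x, q) (e i, 0)) := fun i l =>
    integrable_slice (contDiff_ev _).continuous (cont_fd hΦs _) (supp_fd hΦc _) x
  have i2 : ∀ i, Integrable (fun q : E n => ev (qp (fderiv ℝ D.A x (e i)) * Q) q *
      fderiv ℝ Φ (x, q) (0, e i)) := fun i =>
    integrable_slice (contDiff_ev _).continuous (cont_fd hΦs _) (supp_fd hΦc _) x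
  have hpt : ∀ q : E n, ev Q q * (D.k (x, q) : ℂ) ^ m * D.der Ψ (x, q) =
      ∑ i, ((∑ l, (((D.A x (e l)) i : ℝ) : ℂ) * (ev (MvPolynomial.X l * Q) q *
        fderiv ℝ Φ (x, q) (e i, 0))) - (1 / 2 : ℂ) *
        (ev (qp (fderiv ℝ D.A x (e i)) * Q) q * fderiv ℝ Φ (x, q) (0, e i))) := by
    intro q
    rw [mul_assoc, ← der_pow D hΨ.smooth m (x, q), der_eq, Finset.mul_sum]
    refine Finset.sum_congr rfl fun i _ => ?_
    rw [mul_sub, Finset.mul_sum]
    congr 1
    · refine Finset.sum_congr rfl fun l _ => ?_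
      rw [ev_mul, ev_X]
      ring
    · rw [ev_mul]
      ring
  simp only [hpt]
  have i3 : ∀ i ∈ (Finset.univ : Finset (Fin n)), Integrable (fun q : E n =>
      (∑ l, (((D.A x (e l)) i : ℝ) : ℂ) * (ev (MvPolynomial.X l * Q) q *
        fderiv ℝ Φ (x, q) (e i, 0))) - (1 / 2 : ℂ) *
        (ev (qp (fderiv ℝ D.A x (e i)) * Q) q * fderiv ℝ Φ (x, q) (0, e i))) := fun i _ =>
    (integrable_finsetSum _ fun l _ => (i1 i l).const_mul _).sub ((i2 i).const_mul _)
  rw [integral_finsetSum _ i3]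
  refine Finset.sum_eq_zero fun i _ => ?_
  rw [integral_sub (integrable_finsetSum _ fun l _ => (i1 i l).const_mul _)
    ((i2 i).const_mul _), integral_const_mul, k2, mul_zero, sub_zero,
    integral_finsetSum _ fun l _ => (i1 i l).const_mul _]
  refine Finset.sum_eq_zero fun l _ => ?_
  rw [integral_const_mul, k1, mul_zero]

end Pool.Agent.WPG
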