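import Pool.Agent.WPG.Defs

/-!
# General warped products: the statements of the analytic part

The paper proofs are in `PAPER.md`, one section for each statement.
-/

set_option autoImplicit false

namespace Pool.Agent.WPG

open MeasureTheory Set Filter Topology

/-! ### smooth flows -/

/-- continuity of a global flow -/
def Stmt_SFA : Prop := ∀ (V : Type) [NormedAddCommGroup V] [NormedSpace ℝ V]
  [FiniteDimensional ℝ V] (Z : V → V), ContDiff ℝ 1 Z → ∀ φ : ℝ → V → V, (∀ z, φ 0 z = z) →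
  (∀ s z, HasDerivAt (fun r => φ r z) (Z (φ s z)) s) → Continuous (fun p : ℝ × V => φ p.1 p.2)

/-- derivative of a global flow with respect to the initial value -/
def Stmt_SFB : Prop := ∀ (V : Type) [NormedAddCommGroup V] [NormedSpace ℝ V]
  [FiniteDimensional ℝ V] (Z : V → V), ContDiff ℝ 2 Z → ∀ φ : ℝ → V → V, (∀ z, φ 0 z = z) →
  (∀ s z, HasDerivAt (fun r => φ r z) (Z (φ s z)) s) → ∃ D : ℝ → V → (V →L[ℝ] V),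
    (∀ s z, HasFDerivAt (φ s) (D s z) z) ∧ (∀ z v, D 0 z v = v) ∧
    ∀ s z v, HasDerivAt (fun r => D r z v) (fderiv ℝ Z (φ s z) (D s z v)) s

/-- a global flow of a smooth vector field is smooth -/
def Stmt_SFC : Prop := ∀ (V : Type) [NormedAddCommGroup V] [NormedSpace ℝ V]
  [FiniteDimensional ℝ V] (Z : V → V), ContDiff ℝ (⊤ : ℕ∞) Z → ∀ φ : ℝ → V → V,
  (∀ z, φ 0 z = z) → (∀ s z, HasDerivAt (fun r => φ r z) (Z (φ s z)) s) →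
  ContDiff ℝ (⊤ : ℕ∞) (fun p : ℝ × V => φ p.1 p.2)

/-- the Hamiltonian vector field, cut off at large energies -/
def Stmt_ZX : Prop := ∀ (n : ℕ) (D : HD n), ∃ (Z : ℝ → P n → P n) (L : NNReal) (C : ℝ),
  ContDiff ℝ (⊤ : ℕ∞) (fun q : ℝ × P n => Z q.1 q.2) ∧
  LipschitzWith L (fun q : ℝ × P n => Z q.1 q.2) ∧ (∀ κ z, ‖Z κ z‖ ≤ C) ∧
  (∀ κ z, LinearMap.trace ℝ (P n) (fderiv ℝ (Z κ) z).toLinearMap = 0) ∧
  (∀ κ z, 0 ≤ κ → κ ≤ 1 → fderiv ℝ (D.en κ) z (Z κ z) = 0) ∧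
  ∀ κ z, 0 ≤ κ → κ ≤ 1 → D.en κ z ≤ 4 → Z κ z = D.Y κ z

/-- the flows -/
def Stmt_FL : Prop := ∀ (n : ℕ) (D : HD n), ∃ φ, D.Flow φ

/-- the time of the fibre is a smooth function -/
def Stmt_SGS : Prop := ∀ (n : ℕ) (D : HD n) (ψ : ℝ → ℝ → P n → P n), D.Flow ψ →
  ContDiff ℝ (⊤ : ℕ∞) (fun q : ℝ × ℝ × P n => D.sg ψ q.1 q.2.1 q.2.2)

/-- the flow for a time depending on the energy preserves the measure -/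
def Stmt_MPG : Prop := ∀ (n : ℕ) (D : HD n) (φ : ℝ → ℝ → P n → P n), D.Flow φ → ∀ G : ℝ → ℝ,
  Continuous G → MeasurePreserving (fun z => φ 0 (G (D.k z)) z) volume volume

/-- the combined flow preserves the measure -/
def Stmt_MPP : Prop := ∀ (a n : ℕ) (D : WD a n) (ψ : ℝ → ℝ → P a → P a)
  (φ : ℝ → ℝ → P (n + 2) → P (n + 2)), D.B.Flow ψ → D.K.Flow φ → ∀ ε s : ℝ,
  MeasurePreserving (D.cm ψ φ ε s) volume volume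

/-! ### the order identities -/

def Stmt_DTF : Prop := ∀ (n : ℕ) (D : HD n) (Ψ : P n → ℂ), D.TF Ψ → D.TF (D.der Ψ)

/-- Taylor expansion along the flow of the fibre -/
def Stmt_TAY : Prop := ∀ (n : ℕ) (D : HD n) (φ : ℝ → ℝ → P n → P n), D.Flow φ →
  ∀ Ψ : P n → ℂ, D.TF Ψ → ∀ j : ℕ, ∃ C : ℝ, ∀ s z,
    ‖Ψ (φ 0 s z) - ∑ i ∈ Finset.range (j + 1), ((s : ℂ) ^ i / (i.factorial : ℂ)) *
      (D.der^[i] Ψ) z‖ ≤ C * |s| ^ (j + 1)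

/-- Taylor expansion in `κ` on the base -/
def Stmt_EXP : Prop := ∀ (n : ℕ) (D : HD n) (ψ : ℝ → ℝ → P n → P n), D.Flow ψ →
  ∀ α : P n → ℝ, ContDiff ℝ (⊤ : ℕ∞) α → HasCompactSupport α →
  (∀ i m, Continuous (fun q : ℝ × P n => D.co ψ α i m q.1 q.2)) ∧
  ∀ T : ℝ, (∃ R, ∀ s y, |s| ≤ T → R ≤ ‖y‖ → (∀ κ, α (ψ κ s y) = 0) ∧
      ∀ i m, D.co ψ α i m s y = 0) ∧
    ∀ i J : ℕ, ∃ C, ∀ s y κ, |s| ≤ T → 0 ≤ κ → κ ≤ 1 →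
      |α (ψ κ s y) * D.sg ψ κ s y ^ i -
        ∑ m ∈ Finset.range (J + 1), D.co ψ α i m s y * κ ^ m| ≤ C * κ ^ (J + 1)

/-- the data after the change of variables -/
def Stmt_CHG : Prop := ∀ (a n : ℕ) (D : WD a n) (ψ : ℝ → ℝ → P a → P a)
  (φ : ℝ → ℝ → P (n + 2) → P (n + 2)), D.B.Flow ψ → D.K.Flow φ → ∀ (U : Set (P a))
  (T₁ T₂ ε : ℝ), T₁ ≤ T₂ → 0 < ε → ε ≤ 1 → D.Zero ψ φ U T₁ T₂ ε → ∀ α : P a → ℝ, TB U α →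
  ∀ Ψ : P (n + 2) → ℂ, D.K.TF Ψ →
  ∫ s in T₁..T₂, ∫ q : P a × P (n + 2), (D.f q.1.1 q.2.1 : ℂ) *
    ((α (ψ (D.kap ε q.2) (-s) q.1) : ℂ) *
      Ψ (φ 0 (ε * D.B.sg ψ (D.kap ε q.2) (-s) q.1) q.2)) = 0

/-- the coefficient of `ε^j` -/
def Stmt_ORD : Prop := ∀ (a n : ℕ) (D : WD a n) (ψ : ℝ → ℝ → P a → P a)
  (φ : ℝ → ℝ → P (n + 2) → P (n + 2)), D.B.Flow ψ → D.K.Flow φ → ∀ (U : Set (P a))
  (T₁ T₂ ε₀ : ℝ), T₁ ≤ T₂ → 0 < ε₀ → (∀ ε, 0 < ε → ε < ε₀ → D.Zero ψ φ U T₁ T₂ ε) →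
  ∀ α : P a → ℝ, TB U α → ∀ Ψ : P (n + 2) → ℂ, D.K.TF Ψ → ∀ j : ℕ,
  ∑ m ∈ Finset.range (j / 2 + 1), (1 / ((j - 2 * m).factorial : ℂ)) *
    ∫ s in T₁..T₂, ∫ q : P a × P (n + 2), (D.f q.1.1 q.2.1 : ℂ) *
      ((D.B.co ψ α (j - 2 * m) m (-s) q.1 : ℂ) * ((D.K.k q.2 : ℂ) ^ m *
        (D.K.der^[j - 2 * m] Ψ) q.2)) = 0

/-- the class `CJ` under the geodesic vector field -/
def Stmt_CJS : Prop := ∀ (n : ℕ) (D : HD n) (j : ℕ) (Ψ : P n → ℂ), D.TF Ψ → D.CJ (j + 1) Ψ →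
  D.CJ j (D.der Ψ)

/-- the test functions -/
def Stmt_TST : Prop := ∀ (n : ℕ) (D : HD n) (b : E n → Fin n → ℂ), D.Iso b → ∀ η : E n → ℂ,
  D.Eta η → ∀ (j : ℕ) (g : E n → ℂ), Cc g → D.TF (tst b η j g) ∧ D.CJ j (tst b η j g)

/-- a cut-off function exists -/
def Stmt_ETA : Prop := ∀ (n : ℕ) (D : HD n), ∃ η : E n → ℂ, D.Eta η

/-- the key identity -/
def Stmt_KEY : Prop := ∀ (a n : ℕ) (D : WD a n) (ψ : ℝ → ℝ → P a → P a)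
  (φ : ℝ → ℝ → P (n + 2) → P (n + 2)), D.B.Flow ψ → D.K.Flow φ → ∀ (U : Set (P a))
  (T₁ T₂ ε₀ : ℝ), T₁ ≤ T₂ → 0 < ε₀ → (∀ ε, 0 < ε → ε < ε₀ → D.Zero ψ φ U T₁ T₂ ε) →
  ∀ α : P a → ℝ, TB U α → ∀ (j : ℕ) (b : E (n + 2) → Fin (n + 2) → ℂ), D.K.Iso b →
  ∀ η : E (n + 2) → ℂ, D.K.Eta η → ∀ g : E (n + 2) → ℂ, Cc g →
  ∫ Y : E (n + 2), (D.M ψ T₁ T₂ α j Y : ℂ) * D.K.op b η j g Y = 0

/-! ### uniqueness on the fibre -/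

/-- the algebra of differential operators -/
structure OpFacts (n : ℕ) : Prop where
  mul : ∀ c : E n → ℂ, ContDiff ℝ (⊤ : ℕ∞) c → Op 0 (fun g x => c x * g x)
  der : ∀ i : Fin n, Op 1 (fun (g : E n → ℂ) x => fderiv ℝ g x (EuclideanSpace.single i 1))
  mono : ∀ r s (Q : (E n → ℂ) → E n → ℂ), r ≤ s → Op r Q → Op s Q
  smooth : ∀ r (Q : (E n → ℂ) → E n → ℂ), Op r Q → ∀ g : E n → ℂ,
    ContDiff ℝ (⊤ : ℕ∞) g → ContDiff ℝ (⊤ : ℕ∞) (Q g)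
  add : ∀ r (Q Q' : (E n → ℂ) → E n → ℂ), Op r Q → Op r Q' → Op r (fun g x => Q g x + Q' g x)
  comp : ∀ r s (Q Q' : (E n → ℂ) → E n → ℂ), Op r Q → Op s Q' → Op (r + s) (fun g => Q (Q' g))
  comm : ∀ r s (Q Q' : (E n → ℂ) → E n → ℂ), Op r Q → Op s Q' →
    Op (r + s - 1) (fun g x => Q (Q' g) x - Q' (Q g) x)
  right : ∀ r (Q : (E n → ℂ) → E n → ℂ), Op r Q →
    ∃ (S : Finset (List (Fin n))) (c : List (Fin n) → E n → ℂ), (∀ w ∈ S, w.length ≤ r) ∧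
      (∀ w, ContDiff ℝ (⊤ : ℕ∞) (c w)) ∧ ∀ g : E n → ℂ, ContDiff ℝ (⊤ : ℕ∞) g →
        ∀ x, Q g x = ∑ w ∈ S, dw w (fun y => c w y * g y) x

def Stmt_OPA : Prop := ∀ n : ℕ, OpFacts n

/-- the principal part of `op` -/
def Stmt_SYM : Prop := ∀ (n : ℕ) (D : HD n) (b : E n → Fin n → ℂ), D.Iso b → ∀ η : E n → ℂ,
  D.Eta η → ∀ j : ℕ, 0 < j →
  Op (j - 1) (fun g x => D.op b η j g x - ((D.vf b)^[j] g) x)

/-- the isotropic covector fields span -/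
def Stmt_FRM : Prop := ∀ (n : ℕ) (D : HD (n + 2)), ∃ (N : ℕ)
  (b : Fin N → E (n + 2) → Fin (n + 2) → ℂ) (c : Fin (n + 2) → Fin N → E (n + 2) → ℂ),
  (∀ i, D.Iso (b i)) ∧ (∀ l i, ContDiff ℝ (⊤ : ℕ∞) (c l i)) ∧
  ∀ g : E (n + 2) → ℂ, ContDiff ℝ (⊤ : ℕ∞) g → ∀ (l : Fin (n + 2)) (x : E (n + 2)),
    fderiv ℝ g x (EuclideanSpace.single l 1) = ∑ i, c l i x * D.vf (b i) g x

/-- **closure**: modulo the operators `op` all derivatives of high order are combinations of those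
of lower order -/
def Stmt_CLO : Prop := ∀ (n : ℕ) (D : HD (n + 2)) (η : E (n + 2) → ℂ), D.Eta η → ∀ j : ℕ, 0 < j →
  ∃ N : ℕ, 0 < N ∧ ∀ w : List (Fin (n + 2)), w.length = N →
    ∃ (I : ℕ) (b : Fin I → E (n + 2) → Fin (n + 2) → ℂ)
      (Q : Fin I → (E (n + 2) → ℂ) → E (n + 2) → ℂ) (S : Finset (List (Fin (n + 2))))
      (c : List (Fin (n + 2)) → E (n + 2) → ℂ),
      (∀ i, D.Iso (b i)) ∧ (∀ i, ∃ r, Op r (Q i)) ∧ (∀ w ∈ S, w.length < N) ∧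
      (∀ w, ContDiff ℝ (⊤ : ℕ∞) (c w)) ∧ ∀ g : E (n + 2) → ℂ, ContDiff ℝ (⊤ : ℕ∞) g → ∀ x,
        dw w g x = ∑ i, D.op (b i) η j (Q i g) x + ∑ w' ∈ S, dw w' (fun y => c w' y * g y) x

/-- linear differential equations in the direction of the first coordinate, with smooth
dependence on the others -/
def Stmt_LODE : Prop := ∀ (n r : ℕ) (A : E (n + 1) → Matrix (Fin r) (Fin r) ℂ)
  (Ψ : E (n + 1) → Fin r → ℂ), (∀ i j, ContDiff ℝ (⊤ : ℕ∞) (fun x => A x i j)) →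
  (∀ i, ContDiff ℝ (⊤ : ℕ∞) (fun x => Ψ x i)) → ∃ Φ : E (n + 1) → Fin r → ℂ,
    (∀ i, ContDiff ℝ (⊤ : ℕ∞) (fun x => Φ x i)) ∧ ∀ x i,
      fderiv ℝ (fun y => Φ y i) x (EuclideanSpace.single 0 1) = ∑ l, A x i l * Φ x l + Ψ x i

/-- **uniqueness** -/
def Stmt_UNI : Prop := ∀ (n : ℕ) (D : HD (n + 2)) (η : E (n + 2) → ℂ), D.Eta η → ∀ (j : ℕ)
  (M : E (n + 2) → ℝ) (C R : ℝ), Measurable M → (∀ y, |M y| ≤ C) → (∀ y, R ≤ ‖y‖ → M y = 0) →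
  (∀ b, D.Iso b → ∀ g, Cc g → ∫ y : E (n + 2), (M y : ℂ) * D.op b η j g y = 0) →
  ∀ᵐ y : E (n + 2), M y = 0

/-! ### conclusion of the analytic part -/

/-- the moments vanish -/
def Stmt_MOM : Prop := ∀ (a n : ℕ) (D : WD a n) (ψ : ℝ → ℝ → P a → P a), D.B.Flow ψ →
  ∀ (U : Set (P a)) (T₁ T₂ : ℝ), IsOpen U → T₁ ≤ T₂ →
  (∀ α : P a → ℝ, TB U α → ∀ j : ℕ, ∀ᵐ Y : E (n + 2), D.M ψ T₁ T₂ α j Y = 0) →
  ∀ᵐ q : P a × E (n + 2), q.1 ∈ U → ∀ᵐ s ∂(volume.restrict (Ioo T₁ T₂)),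
    D.f (ψ 0 s q.1).1 q.2 = 0

/-- **the analytic core** -/
def Stmt_CORE : Prop := ∀ (a n : ℕ) (D : WD a n) (ψ : ℝ → ℝ → P a → P a)
  (φ : ℝ → ℝ → P (n + 2) → P (n + 2)), D.B.Flow ψ → D.K.Flow φ → ∀ (U : Set (P a))
  (T₁ T₂ ε₀ : ℝ), IsOpen U → T₁ < 0 → 0 < T₂ → 0 < ε₀ →
  (∀ ε, 0 < ε → ε < ε₀ → D.Zero ψ φ U T₁ T₂ ε) →
  ∀ᵐ q : P a × E (n + 2), q.1 ∈ U → D.f q.1.1 q.2 = 0

end Pool.Agent.WPG
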