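import Mathlib
import Pool.Agent.WPG.Stmts

/-!
# General warped products: closure (module CLO)

Modulo the operators `op` all derivatives of high order are combinations of those of lower order.
-/

set_option autoImplicit false

namespace Pool.Agent.WPG

open MeasureTheory Set Filter Topology

namespace CLOAux

variable {n : ℕ}

/-- operators that agree on smooth functions -/
theorem op_ext {r : ℕ} {Q Q' : (E n → ℂ) → E n → ℂ} (h : Op r Q)
    (he : ∀ g : E n → ℂ, ContDiff ℝ (⊤ : ℕ∞) g → ∀ x, Q' g x = Q g x) : Op r Q' := by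
  obtain ⟨S, c, h1, h2, h3⟩ := h
  exact ⟨S, c, h1, h2, fun g hg x => by rw [he g hg x, h3 g hg x]⟩

theorem op_zero (r : ℕ) : Op r (fun (_ : E n → ℂ) (_ : E n) => (0 : ℂ)) :=
  ⟨∅, fun _ _ => 0, by simp, fun _ => contDiff_const, fun g _ x => by simp⟩

theorem op_dw (w : List (Fin n)) : Op w.length (fun g : E n → ℂ => dw w g) :=
  ⟨{w}, fun _ _ => 1, by simp, fun _ => contDiff_const, fun g _ x => by simp⟩

theorem op_sum (hO : OpFacts n) {ι : Type} (s : Finset ι) {r : ℕ}
    (Q : ι → (E n → ℂ) → E n → ℂ) (h : ∀ i ∈ s, Op r (Q i)) :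
    Op r (fun g x => ∑ i ∈ s, Q i g x) := by
  classical
  induction s using Finset.induction_on with
  | empty => simpa using op_zero r
  | insert a s ha ih =>
    refine op_ext (hO.add r _ _ (h a (Finset.mem_insert_self a s))
      (ih (fun i hi => h i (Finset.mem_insert_of_mem hi)))) ?_
    intro g _ x
    rw [Finset.sum_insert ha]

theorem op_neg (hO : OpFacts n) {r : ℕ} {Q : (E n → ℂ) → E n → ℂ} (h : Op r Q) :
    Op r (fun g x => -(Q g x)) := by
  have h1 := hO.comp 0 r _ _ (hO.mul (fun _ => (-1 : ℂ)) contDiff_const) h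
  rw [zero_add] at h1
  exact op_ext h1 (fun g _ x => by simp)

theorem op_sub (hO : OpFacts n) {r : ℕ} {Q Q' : (E n → ℂ) → E n → ℂ} (h : Op r Q) (h' : Op r Q') :
    Op r (fun g x => Q g x - Q' g x) :=
  op_ext (hO.add r _ _ h (op_neg hO h')) (fun g _ x => by ring)

/-- right multiplication by a function -/
theorem op_mulr (hO : OpFacts n) {r : ℕ} {Q : (E n → ℂ) → E n → ℂ} (h : Op r Q) {c : E n → ℂ}
    (hc : ContDiff ℝ (⊤ : ℕ∞) c) : Op r (fun g => Q (fun y => c y * g y)) := by
  have h1 := hO.comp r 0 _ _ h (hO.mul c hc)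
  rwa [add_zero] at h1

theorem op_vf (hO : OpFacts n) (D : HD n) {b : E n → Fin n → ℂ} (hb : D.Iso b) :
    Op 1 (D.vf b) := by
  refine op_sum hO Finset.univ
    (fun i g x => (∑ l, (D.A x (EuclideanSpace.single l 1) i : ℂ) * b x l) *
      fderiv ℝ g x (EuclideanSpace.single i 1)) ?_
  intro i _
  have hc : ContDiff ℝ (⊤ : ℕ∞)
      (fun x => ∑ l, (D.A x (EuclideanSpace.single l 1) i : ℂ) * b x l) := by
    refine ContDiff.sum (fun l _ => ?_)
    refine ContDiff.mul ?_ (hb.smooth l)
    refine Complex.ofRealCLM.contDiff.comp ?_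
    have h1 : ContDiff ℝ (⊤ : ℕ∞) (fun x => D.A x (EuclideanSpace.single l (1 : ℝ))) :=
      D.As.clm_apply contDiff_const
    exact (EuclideanSpace.proj (𝕜 := ℝ) i).contDiff.comp h1
  have h1 := hO.comp 0 1 _ _ (hO.mul _ hc) (hO.der i)
  rw [zero_add] at h1
  exact h1

/-- products of the vector fields -/
noncomputable def vw (D : HD n) {m : ℕ} (b : Fin m → E n → Fin n → ℂ) :
    List (Fin m) → (E n → ℂ) → E n → ℂ
  | [], g => g
  | i :: u, g => D.vf (b i) (vw D b u g)

theorem op_vw (hO : OpFacts n) (D : HD n) {m : ℕ} (b : Fin m → E n → Fin n → ℂ)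
    (hb : ∀ i, D.Iso (b i)) (u : List (Fin m)) : Op u.length (vw D b u) := by
  induction u with
  | nil => exact op_dw []
  | cons i u ih =>
    have h := hO.comp 1 u.length _ _ (op_vf hO D (hb i)) ih
    rw [List.length_cons, add_comm]
    exact h

theorem vw_append_replicate (D : HD n) {m : ℕ} (b : Fin m → E n → Fin n → ℂ) (i : Fin m)
    (u : List (Fin m)) (g : E n → ℂ) (j : ℕ) :
    vw D b (List.replicate j i ++ u) g = (D.vf (b i))^[j] (vw D b u g) := by
  induction j with
  | zero => rfl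
  | succ j ih =>
    rw [Function.iterate_succ_apply', ← ih]
    rfl

/-- reordering -/
theorem vw_perm (hO : OpFacts n) (D : HD n) {m : ℕ} (b : Fin m → E n → Fin n → ℂ)
    (hb : ∀ i, D.Iso (b i)) {u u' : List (Fin m)} (h : u.Perm u') :
    Op (u.length - 1) (fun g x => vw D b u g x - vw D b u' g x) := by
  induction h with
  | nil => exact op_ext (op_zero 0) (fun g _ x => by simp)
  | @cons i l l' hp ih =>
    rcases Nat.eq_zero_or_pos l.length with h0 | h0
    · have h1 : l = [] := List.length_eq_zero_iff.mp h0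
      subst h1
      have h2 : l' = [] := List.nil_perm.mp hp
      subst h2
      exact op_ext (op_zero _) (fun g _ x => by simp)
    · have h1 := hO.comp 1 _ _ _ (op_vf hO D (hb i)) ih
      have h2 : 1 + (l.length - 1) = (i :: l).length - 1 := by
        simp only [List.length_cons]
        omega
      rw [h2] at h1
      refine op_ext h1 ?_
      intro g hg x
      have s1 := hO.smooth _ _ (op_vw hO D b hb l) g hg
      have s2 := hO.smooth _ _ (op_vw hO D b hb l') g hg
      show D.vf (b i) (vw D b l g) x - D.vf (b i) (vw D b l' g) x =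
        D.vf (b i) (fun y => vw D b l g y - vw D b l' g y) x
      unfold HD.vf
      rw [← Finset.sum_sub_distrib]
      refine Finset.sum_congr rfl (fun k _ => ?_)
      have hd1 : DifferentiableAt ℝ (vw D b l g) x := (s1.differentiable (by simp)) x
      have hd2 : DifferentiableAt ℝ (vw D b l' g) x := (s2.differentiable (by simp)) x
      have h3 : fderiv ℝ (fun y => vw D b l g y - vw D b l' g y) x =
          fderiv ℝ (vw D b l g) x - fderiv ℝ (vw D b l' g) x := fderiv_fun_sub hd1 hd2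
      rw [h3, sub_apply]
      ring
  | @swap i k l =>
    have h1 := hO.comm 1 1 _ _ (op_vf hO D (hb k)) (op_vf hO D (hb i))
    have h2 := hO.comp _ _ _ _ h1 (op_vw hO D b hb l)
    have h3 : 1 + 1 - 1 + l.length = (k :: i :: l).length - 1 := by
      simp only [List.length_cons]
      omega
    rw [h3] at h2
    exact h2
  | @trans l₁ l₂ l₃ h12 _ ih1 ih2 =>
    have h1 : l₂.length = l₁.length := h12.length_eq.symm
    rw [h1] at ih2
    exact op_ext (hO.add _ _ _ ih1 ih2) (fun g _ x => by ring)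

/-- sums of products of vector fields and functions (functions first) -/
inductive Sp (D : HD n) {m : ℕ} (b : Fin m → E n → Fin n → ℂ) (r : ℕ) :
    ((E n → ℂ) → E n → ℂ) → Prop
  | base (u : List (Fin m)) (c : E n → ℂ) (hu : u.length ≤ r) (hc : ContDiff ℝ (⊤ : ℕ∞) c) :
      Sp D b r (fun g => vw D b u (fun y => c y * g y))
  | zero : Sp D b r (fun _ _ => 0)
  | add (Q Q' : (E n → ℂ) → E n → ℂ) (h : Sp D b r Q) (h' : Sp D b r Q') :
      Sp D b r (fun g x => Q g x + Q' g x)
  | ext (Q Q' : (E n → ℂ) → E n → ℂ) (h : Sp D b r Q)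
      (he : ∀ g : E n → ℂ, ContDiff ℝ (⊤ : ℕ∞) g → ∀ x, Q' g x = Q g x) : Sp D b r Q'

theorem Sp.mono {D : HD n} {m : ℕ} {b : Fin m → E n → Fin n → ℂ} {r r' : ℕ} (hr : r ≤ r')
    {Q : (E n → ℂ) → E n → ℂ} (h : Sp D b r Q) : Sp D b r' Q := by
  induction h with
  | base u c hu hc => exact Sp.base u c (hu.trans hr) hc
  | zero => exact Sp.zero
  | add Q Q' _ _ ih ih' => exact Sp.add Q Q' ih ih'
  | ext Q Q' _ he ih => exact Sp.ext Q Q' ih he

theorem Sp.sum {D : HD n} {m : ℕ} {b : Fin m → E n → Fin n → ℂ} {r : ℕ} {ι : Type} (s : Finset ι)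
    (Q : ι → (E n → ℂ) → E n → ℂ) (h : ∀ i ∈ s, Sp D b r (Q i)) :
    Sp D b r (fun g x => ∑ i ∈ s, Q i g x) := by
  classical
  induction s using Finset.induction_on with
  | empty => exact Sp.ext _ _ Sp.zero (fun g _ x => by simp)
  | insert a s ha ih =>
    refine Sp.ext _ _ (Sp.add _ _ (h a (Finset.mem_insert_self a s))
      (ih (fun i hi => h i (Finset.mem_insert_of_mem hi)))) ?_
    intro g _ x
    rw [Finset.sum_insert ha]

/-- right multiplication by a function -/
theorem Sp.mulr {D : HD n} {m : ℕ} {b : Fin m → E n → Fin n → ℂ} {r : ℕ}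
    {Q : (E n → ℂ) → E n → ℂ} (h : Sp D b r Q) {c : E n → ℂ} (hc : ContDiff ℝ (⊤ : ℕ∞) c) :
    Sp D b r (fun g => Q (fun y => c y * g y)) := by
  induction h with
  | base u c' hu hc' =>
    refine Sp.ext _ _ (Sp.base u (fun y => c' y * c y) hu (hc'.mul hc)) ?_
    intro g _ x
    have : (fun y => c' y * (c y * g y)) = fun y => c' y * c y * g y := by
      funext y
      ring
    simp only [this]
  | zero => exact Sp.zero
  | add Q Q' _ _ ih ih' => exact Sp.add _ _ ih ih'
  | ext Q Q' _ he ih => exact Sp.ext _ _ ih (fun g hg x => he _ (hc.mul hg) x)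

/-- left multiplication by a vector field -/
theorem Sp.vfl (hO : OpFacts n) {D : HD n} {m : ℕ} {b : Fin m → E n → Fin n → ℂ}
    (hb : ∀ i, D.Iso (b i)) {r : ℕ}
    {Q : (E n → ℂ) → E n → ℂ} (h : Sp D b r Q) (i : Fin m) :
    Op r Q ∧ Sp D b (r + 1) (fun g => D.vf (b i) (Q g)) := by
  induction h with
  | base u c hu hc =>
    refine ⟨op_mulr hO (hO.mono _ _ _ hu (op_vw hO D b hb u)) hc, ?_⟩
    exact Sp.base (i :: u) c (by simpa using hu) hc
  | zero =>
    refine ⟨op_zero r, Sp.ext _ _ Sp.zero (fun g _ x => ?_)⟩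
    unfold HD.vf
    simp
  | add Q Q' _ _ ih ih' =>
    refine ⟨hO.add _ _ _ ih.1 ih'.1, Sp.ext _ _ (Sp.add _ _ ih.2 ih'.2) (fun g hg x => ?_)⟩
    have s1 := hO.smooth _ _ ih.1 g hg
    have s2 := hO.smooth _ _ ih'.1 g hg
    unfold HD.vf
    rw [← Finset.sum_add_distrib]
    refine Finset.sum_congr rfl (fun k _ => ?_)
    have hd1 : DifferentiableAt ℝ (Q g) x := (s1.differentiable (by simp)) x
    have hd2 : DifferentiableAt ℝ (Q' g) x := (s2.differentiable (by simp)) x
    have h3 : fderiv ℝ (fun y => Q g y + Q' g y) x = fderiv ℝ (Q g) x + fderiv ℝ (Q' g) x :=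
      fderiv_fun_add hd1 hd2
    rw [h3, add_apply]
    ring
  | ext Q Q' _ he ih =>
    refine ⟨op_ext ih.1 he, Sp.ext _ _ ih.2 (fun g hg x => ?_)⟩
    have : Q' g = Q g := funext (he g hg)
    rw [this]

/-- every differential operator is a sum of products of the vector fields and functions -/
theorem sp_of_op (hO : OpFacts n) {D : HD n} {m : ℕ} {b : Fin m → E n → Fin n → ℂ}
    (hb : ∀ i, D.Iso (b i)) (c : Fin n → Fin m → E n → ℂ)
    (hc : ∀ l i, ContDiff ℝ (⊤ : ℕ∞) (c l i))
    (hd : ∀ g : E n → ℂ, ContDiff ℝ (⊤ : ℕ∞) g → ∀ (l : Fin n) (x : E n),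
      fderiv ℝ g x (EuclideanSpace.single l 1) = ∑ i, c l i x * D.vf (b i) g x) (r : ℕ) :
    ∀ Q : (E n → ℂ) → E n → ℂ, Op r Q → Sp D b r Q := by
  induction r with
  | zero =>
    intro Q hQ
    obtain ⟨S, a, h1, h2, h3⟩ := hO.right 0 Q hQ
    refine Sp.ext _ _ (Sp.sum S (fun w g => dw w (fun y => a w y * g y)) ?_) h3
    intro w hw
    have : w = [] := List.length_eq_zero_iff.mp (Nat.le_zero.mp (h1 w hw))
    subst this
    exact Sp.base [] (a []) (by simp) (h2 [])
  | succ r ih =>
    intro Q hQ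
    obtain ⟨S, a, h1, h2, h3⟩ := hO.right (r + 1) Q hQ
    refine Sp.ext _ _ (Sp.sum S (fun w g => dw w (fun y => a w y * g y)) ?_) h3
    intro w hw
    refine Sp.mulr (Q := fun g => dw w g) ?_ (h2 w)
    rcases Nat.lt_or_ge w.length (r + 1) with hlt | hge
    · exact (ih _ (hO.mono _ _ _ (by omega) (op_dw w))).mono (Nat.le_succ r)
    · have hlen : w.length = r + 1 := le_antisymm (h1 w hw) hge
      cases w with
      | nil => simp at hlen
      | cons l w =>
        have hlen' : w.length = r := by simpa using hlen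
        have hw' : Sp D b r (fun g => dw w g) := ih _ (by
          have := op_dw w
          rwa [hlen'] at this)
        -- the derivative is a combination of the fields
        have key : Sp D b (r + 1) (fun g x => ∑ i ∈ Finset.univ,
            (c l i x * D.vf (b i) (fun y => dw w g y) x)) := by
          refine Sp.sum Finset.univ (fun i g x => c l i x * D.vf (b i) (fun y => dw w g y) x) ?_
          intro i _
          obtain ⟨_, h5⟩ := Sp.vfl hO hb hw' i
          have h6 : Op (1 + r) (fun g => D.vf (b i) (dw w g)) := by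
            have h7 := op_dw w
            rw [hlen'] at h7
            exact hO.comp 1 r _ _ (op_vf hO D (hb i)) h7
          have h8 := hO.comm 0 (1 + r) _ _ (hO.mul _ (hc l i)) h6
          have h9 : 0 + (1 + r) - 1 = r := by omega
          rw [h9] at h8
          have h10 := (ih _ h8).mono (Nat.le_succ r)
          have h11 := Sp.mulr h5 (hc l i)
          refine Sp.ext _ _ (Sp.add _ _ h10 h11) ?_
          intro g _ x
          ring
        refine Sp.ext _ _ key ?_
        intro g hg x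
        have s1 : ContDiff ℝ (⊤ : ℕ∞) (dw w g) := hO.smooth _ _ (op_dw w) g hg
        exact hd (dw w g) s1 l x

/-- the operators we can treat -/
def Gd (D : HD n) (η : E n → ℂ) (j N : ℕ) (T : (E n → ℂ) → E n → ℂ) : Prop :=
  ∃ (I : ℕ) (b : Fin I → E n → Fin n → ℂ) (Q : Fin I → (E n → ℂ) → E n → ℂ)
    (R : (E n → ℂ) → E n → ℂ), (∀ i, D.Iso (b i)) ∧ (∀ i, ∃ r, Op r (Q i)) ∧ Op (N - 1) R ∧
    ∀ g : E n → ℂ, ContDiff ℝ (⊤ : ℕ∞) g → ∀ x,
      T g x = ∑ i, D.op (b i) η j (Q i g) x + R g x

theorem gd_of_op {D : HD n} {η : E n → ℂ} {j N : ℕ} {T : (E n → ℂ) → E n → ℂ}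
    (h : Op (N - 1) T) : Gd D η j N T :=
  ⟨0, fun i => i.elim0, fun i => i.elim0, T, fun i => i.elim0, fun i => i.elim0, h,
    fun g _ x => by simp⟩

theorem gd_ext {D : HD n} {η : E n → ℂ} {j N : ℕ} {T T' : (E n → ℂ) → E n → ℂ}
    (h : Gd D η j N T)
    (he : ∀ g : E n → ℂ, ContDiff ℝ (⊤ : ℕ∞) g → ∀ x, T' g x = T g x) : Gd D η j N T' := by
  obtain ⟨I, b, Q, R, h1, h2, h3, h4⟩ := h
  exact ⟨I, b, Q, R, h1, h2, h3, fun g hg x => by rw [he g hg x, h4 g hg x]⟩

theorem gd_add (hO : OpFacts n) {D : HD n} {η : E n → ℂ} {j N : ℕ}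
    {T T' : (E n → ℂ) → E n → ℂ} (h : Gd D η j N T) (h' : Gd D η j N T') :
    Gd D η j N (fun g x => T g x + T' g x) := by
  obtain ⟨I, b, Q, R, h1, h2, h3, h4⟩ := h
  obtain ⟨I', b', Q', R', h1', h2', h3', h4'⟩ := h'
  refine ⟨I + I', Fin.append b b', Fin.append Q Q', fun g x => R g x + R' g x, ?_, ?_,
    hO.add _ _ _ h3 h3', ?_⟩
  · intro i
    refine Fin.addCases (fun k => ?_) (fun k => ?_) i
    · rw [Fin.append_left]
      exact h1 k
    · rw [Fin.append_right]
      exact h1' k
  · intro i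
    refine Fin.addCases (fun k => ?_) (fun k => ?_) i
    · rw [Fin.append_left]
      exact h2 k
    · rw [Fin.append_right]
      exact h2' k
  · intro g hg x
    have e1 := h4 g hg x
    have e2 := h4' g hg x
    rw [Fin.sum_univ_add]
    simp only [Fin.append_left, Fin.append_right]
    rw [e1, e2]
    ring

theorem sum_count {m : ℕ} (u : List (Fin m)) : ∑ i, u.count i = u.length := by
  induction u with
  | nil => simp
  | cons a u ih =>
    simp only [List.count_cons, List.length_cons, Finset.sum_add_distrib, ih]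
    simp

/-- pigeonhole -/
theorem exists_count {m j : ℕ} (u : List (Fin m)) (hu : u.length = m * (j - 1) + 1) (hj : 0 < j) :
    ∃ i, j ≤ u.count i := by
  by_contra hcon
  push Not at hcon
  have h1 : ∑ i, u.count i ≤ ∑ _i : Fin m, (j - 1) :=
    Finset.sum_le_sum fun i _ => by have := hcon i; omega
  rw [sum_count, hu] at h1
  simp at h1

theorem gd_vw (hO : OpFacts n) {D : HD n} {η : E n → ℂ} {j m : ℕ} (hj : 0 < j)
    {b : Fin m → E n → Fin n → ℂ} (hb : ∀ i, D.Iso (b i))
    (hS : ∀ i, Op (j - 1) (fun g x => D.op (b i) η j g x - ((D.vf (b i))^[j] g) x))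
    (u : List (Fin m)) (hu : u.length = m * (j - 1) + 1) {c : E n → ℂ}
    (hc : ContDiff ℝ (⊤ : ℕ∞) c) :
    Gd D η j (m * (j - 1) + 1) (fun g => vw D b u (fun y => c y * g y)) := by
  obtain ⟨i, hi⟩ := exists_count u hu hj
  obtain ⟨u', hp⟩ := (List.replicate_sublist_iff.mpr hi).exists_perm_append
  have hlen : u.length = j + u'.length := by
    rw [hp.length_eq]
    simp
  have hN : (m * (j - 1) + 1) - 1 = (j - 1) + u'.length := by omega
  have h1 : Op ((m * (j - 1) + 1) - 1)
      (fun g x => vw D b u (fun y => c y * g y) x -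
        vw D b (List.replicate j i ++ u') (fun y => c y * g y) x) := by
    have := vw_perm hO D b hb hp
    rw [hu] at this
    exact op_mulr hO this hc
  have h2 : Op ((m * (j - 1) + 1) - 1)
      (fun g x => D.op (b i) η j (vw D b u' (fun y => c y * g y)) x -
        ((D.vf (b i))^[j] (vw D b u' (fun y => c y * g y))) x) := by
    rw [hN]
    exact hO.comp _ _ _ _ (hS i) (op_mulr hO (op_vw hO D b hb u') hc)
  refine ⟨1, fun _ => b i, fun _ g => vw D b u' (fun y => c y * g y), _, fun _ => hb i,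
    fun _ => ⟨_, op_mulr hO (op_vw hO D b hb u') hc⟩, op_sub hO h1 h2, ?_⟩
  intro g _ x
  rw [vw_append_replicate]
  simp only [Finset.univ_unique, Finset.sum_const, Finset.card_singleton, one_smul]
  ring

end CLOAux

open CLOAux in
/-- **closure** -/
theorem clo (hO : Stmt_OPA) (hS : Stmt_SYM) (hF : Stmt_FRM) : Stmt_CLO := by
  intro n D η hη j hj
  obtain ⟨m, b, c, hb, hc, hd⟩ := hF n D
  have hO' := hO (n + 2)
  have hS' : ∀ i, Op (j - 1) (fun g x => D.op (b i) η j g x - ((D.vf (b i))^[j] g) x) :=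
    fun i => hS (n + 2) D (b i) (hb i) η hη j hj
  refine ⟨m * (j - 1) + 1, Nat.succ_pos _, ?_⟩
  intro w hw
  have h1 : Sp D b (m * (j - 1) + 1) (fun g => dw w g) := by
    refine sp_of_op hO' hb c hc hd _ _ ?_
    have := op_dw w
    rwa [hw] at this
  have h2 : ∀ T : (E (n + 2) → ℂ) → E (n + 2) → ℂ, Sp D b (m * (j - 1) + 1) T →
      Gd D η j (m * (j - 1) + 1) T := by
    intro T hT
    induction hT with
    | base u c hu hc =>
      rcases Nat.lt_or_ge u.length (m * (j - 1) + 1) with hlt | hge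
      · exact gd_of_op (hO'.mono _ _ _ (by omega) (op_mulr hO' (op_vw hO' D b hb u) hc))
      · exact gd_vw hO' hj hb hS' u (le_antisymm hu hge) hc
    | zero => exact gd_of_op (op_zero _)
    | add Q Q' _ _ ih ih' => exact gd_add hO' ih ih'
    | ext Q Q' _ he ih => exact gd_ext ih he
  obtain ⟨I, b', Q, R, g1, g2, g3, g4⟩ := h2 _ h1
  obtain ⟨S, a, s1, s2, s3⟩ := hO'.right _ R g3
  refine ⟨I, b', Q, S, a, g1, g2, fun w hw => ?_, s2, ?_⟩
  · have := s1 w hw
    omega
  · intro g hg x
    have e1 := g4 g hg x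
    simp only at e1
    rw [e1, s3 g hg x]

end Pool.Agent.WPG
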