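import Pool.Agent.WPG.Stmts

/-!
# General warped products: the analytic core
-/

set_option autoImplicit false

namespace Pool.Agent.WPG

open MeasureTheory Set Filter Topology

namespace COREAux

variable {a n : ℕ}

/-- the kernel of the moments -/
theorem ker (hS : Stmt_SGS) (B : HD a) {ψ : ℝ → ℝ → P a → P a} (hψ : B.Flow ψ) {α : P a → ℝ}
    (hα : ContDiff ℝ (⊤ : ℕ∞) α) (hs : HasCompactSupport α) (j : ℕ) :
    Continuous (fun p : ℝ × P a => α (ψ 0 (-p.1) p.2) * B.sg ψ 0 (-p.1) p.2 ^ j) ∧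
    ∀ T : ℝ, ∃ R C : ℝ, 0 ≤ C ∧ (∀ s y, |s| ≤ T → R ≤ ‖y‖ →
      α (ψ 0 (-s) y) * B.sg ψ 0 (-s) y ^ j = 0) ∧
      ∀ s y, |s| ≤ T → |α (ψ 0 (-s) y) * B.sg ψ 0 (-s) y ^ j| ≤ C := by
  have hψc : Continuous (fun p : ℝ × P a => ψ 0 (-p.1) p.2) :=
    hψ.smooth.continuous.comp
      (continuous_const.prodMk ((continuous_neg.comp continuous_fst).prodMk continuous_snd))
  have hsc : Continuous (fun p : ℝ × P a => B.sg ψ 0 (-p.1) p.2) :=
    (hS a B ψ hψ).continuous.comp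
      (continuous_const.prodMk ((continuous_neg.comp continuous_fst).prodMk continuous_snd))
  have hc : Continuous (fun p : ℝ × P a => α (ψ 0 (-p.1) p.2) * B.sg ψ 0 (-p.1) p.2 ^ j) :=
    (hα.continuous.comp hψc).mul (hsc.pow j)
  refine ⟨hc, fun T => ?_⟩
  obtain ⟨K, hK⟩ := hψ.move
  obtain ⟨r, hr⟩ := hs.isBounded.subset_closedBall (0 : P a)
  have hz : ∀ s y, |s| ≤ T → r + |K| * T + 1 ≤ ‖y‖ →
      α (ψ 0 (-s) y) * B.sg ψ 0 (-s) y ^ j = 0 := by
    intro s y hsT hy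
    have h1 : α (ψ 0 (-s) y) = 0 := by
      by_contra hne
      have h2 := hr (subset_tsupport _ (Function.mem_support.mpr hne))
      rw [mem_closedBall_zero_iff] at h2
      have h3 := hK 0 (-s) y
      rw [abs_neg] at h3
      have h4 : ‖y‖ ≤ ‖ψ 0 (-s) y‖ + ‖ψ 0 (-s) y - y‖ := by
        calc ‖y‖ = ‖ψ 0 (-s) y - (ψ 0 (-s) y - y)‖ := by rw [sub_sub_cancel]
          _ ≤ _ := norm_sub_le _ _
      have h5 : K * |s| ≤ |K| * T :=
        mul_le_mul (le_abs_self K) hsT (abs_nonneg _) (abs_nonneg _)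
      linarith
    rw [h1, zero_mul]
  obtain ⟨C, hC⟩ := ((isCompact_Icc (a := -T) (b := T)).prod
    (isCompact_closedBall (0 : P a) (r + |K| * T + 1))).exists_bound_of_continuousOn
    hc.continuousOn
  refine ⟨r + |K| * T + 1, |C|, abs_nonneg _, hz, ?_⟩
  intro s y hsT
  rcases le_total (r + |K| * T + 1) ‖y‖ with h | h
  · rw [hz s y hsT h, abs_zero]
    exact abs_nonneg _
  · have h1 := hC (s, y) ⟨abs_le.mp hsT, by rw [mem_closedBall_zero_iff]; exact h⟩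
    exact h1.trans (le_abs_self C)

theorem moment (hS : Stmt_SGS) (D : WD a n) {ψ : ℝ → ℝ → P a → P a} (hψ : D.B.Flow ψ)
    {α : P a → ℝ} (hα : ContDiff ℝ (⊤ : ℕ∞) α) (hs : HasCompactSupport α) {T₁ T₂ : ℝ}
    (hT : T₁ ≤ T₂) (j : ℕ) : Measurable (D.M ψ T₁ T₂ α j) ∧
      (∃ C, ∀ Y, |D.M ψ T₁ T₂ α j Y| ≤ C) ∧ ∀ Y, D.R ≤ ‖Y‖ → D.M ψ T₁ T₂ α j Y = 0 := by
  obtain ⟨hc, hT'⟩ := ker hS D.B hψ hα hs j
  obtain ⟨R, C, hC0, hR, hC⟩ := hT' (|T₁| + |T₂|)
  have hab : ∀ s ∈ uIoc T₁ T₂, |s| ≤ |T₁| + |T₂| := by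
    intro s hs
    rw [uIoc_of_le hT] at hs
    rw [abs_le]
    constructor
    · linarith [neg_abs_le T₁, abs_nonneg T₂, hs.1]
    · linarith [le_abs_self T₂, abs_nonneg T₁, hs.2]
  refine ⟨?_, ⟨D.C * C * (volume : Measure (P a)).real (Metric.closedBall 0 R) * |T₂ - T₁|, ?_⟩, ?_⟩
  · have h1 : Measurable (fun q : (E (n + 2) × ℝ) × P a => D.f q.2.1 q.1.1 *
        (α (ψ 0 (-q.1.2) q.2) * D.B.sg ψ 0 (-q.1.2) q.2 ^ j)) := by
      apply Measurable.mul
      · exact D.fm.comp ((measurable_fst.comp measurable_snd).prodMk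
          (measurable_fst.comp measurable_fst))
      · exact hc.measurable.comp ((measurable_snd.comp measurable_fst).prodMk measurable_snd)
    have h2 := h1.stronglyMeasurable.integral_prod_right' (ν := (volume : Measure (P a)))
    have h3 := h2.integral_prod_right' (ν := (volume.restrict (Ioc T₁ T₂) : Measure ℝ))
    have h4 : D.M ψ T₁ T₂ α j = fun Y => ∫ s in Ioc T₁ T₂, ∫ y : P a, D.f y.1 Y *
        (α (ψ 0 (-s) y) * D.B.sg ψ 0 (-s) y ^ j) := by
      funext Y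
      rw [WD.M, intervalIntegral.integral_of_le hT]
    rw [h4]
    exact h3.measurable
  · intro Y
    rw [← Real.norm_eq_abs, WD.M]
    apply intervalIntegral.norm_integral_le_of_norm_le_const
    intro s hs
    have hs' := hab s hs
    have h1 : ∫ y : P a, D.f y.1 Y * (α (ψ 0 (-s) y) * D.B.sg ψ 0 (-s) y ^ j) =
        ∫ y : P a in Metric.closedBall 0 R, D.f y.1 Y *
          (α (ψ 0 (-s) y) * D.B.sg ψ 0 (-s) y ^ j) := by
      symm
      apply setIntegral_eq_integral_of_forall_compl_eq_zero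
      intro y hy
      rw [mem_closedBall_zero_iff, not_le] at hy
      rw [hR s y hs' hy.le, mul_zero]
    rw [h1]
    apply norm_setIntegral_le_of_norm_le_const
    · exact (isCompact_closedBall _ _).measure_lt_top
    · intro y _
      rw [Real.norm_eq_abs, abs_mul]
      exact mul_le_mul (D.fC _ _) (hC s y hs') (abs_nonneg _)
        ((abs_nonneg _).trans (D.fC 0 0))
  · intro Y hY
    rw [WD.M]
    have h1 : ∀ s : ℝ, ∫ y : P a, D.f y.1 Y * (α (ψ 0 (-s) y) * D.B.sg ψ 0 (-s) y ^ j) = 0 := by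
      intro s
      have h2 : ∀ y : P a, D.f y.1 Y * (α (ψ 0 (-s) y) * D.B.sg ψ 0 (-s) y ^ j) = 0 := by
        intro y
        rw [D.f0 _ _ (Or.inr hY), zero_mul]
      simp only [h2, integral_zero]
    simp only [h1, intervalIntegral.integral_zero]

end COREAux

theorem core (hS : Stmt_SGS) (hE : Stmt_ETA) (hK : Stmt_KEY) (hU : Stmt_UNI) (hM : Stmt_MOM) :
    Stmt_CORE := by
  intro a n D ψ φ hψ hφ U T₁ T₂ ε₀ hUo hT₁ hT₂ hε₀ hzero
  have hT : T₁ ≤ T₂ := by linarith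
  obtain ⟨η, hη⟩ := hE (n + 2) D.K
  have hm : ∀ α : P a → ℝ, TB U α → ∀ j : ℕ, ∀ᵐ Y : E (n + 2), D.M ψ T₁ T₂ α j Y = 0 := by
    intro α hα j
    obtain ⟨h1, ⟨C, h2⟩, h3⟩ := COREAux.moment hS D hψ hα.smooth hα.supp hT j
    exact hU n D.K η hη j _ C D.R h1 h2 h3 fun b hb g hg =>
      hK a n D ψ φ hψ hφ U T₁ T₂ ε₀ hT hε₀ hzero α hα j b hb η hη g hg
  have h3 := hM a n D ψ hψ U T₁ T₂ hUo hT hm
  have hψc : Continuous (fun p : ℝ × P a => ψ 0 p.1 p.2) :=
    hψ.smooth.continuous.comp (continuous_const.prodMk (continuous_fst.prodMk continuous_snd))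
  -- exchange of the quantifiers
  have hms : MeasurableSet {x : (P a × E (n + 2)) × ℝ | x.1.1 ∈ U →
      D.f (ψ 0 x.2 x.1.1).1 x.1.2 = 0} := by
    have e1 : Measurable (fun x : (P a × E (n + 2)) × ℝ => D.f (ψ 0 x.2 x.1.1).1 x.1.2) :=
      D.fm.comp (((measurable_fst.comp (hψc.measurable.comp
        (measurable_snd.prodMk (measurable_fst.comp measurable_fst)))).prodMk
        (measurable_snd.comp measurable_fst)))
    have e2 : MeasurableSet {x : (P a × E (n + 2)) × ℝ | x.1.1 ∈ U} :=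
      hUo.measurableSet.preimage (measurable_fst.comp measurable_fst)
    exact e2.imp (e1 (measurableSet_singleton 0))
  have h4 : ∀ᵐ q : P a × E (n + 2), ∀ᵐ s ∂(volume.restrict (Ioo T₁ T₂)), q.1 ∈ U →
      D.f (ψ 0 s q.1).1 q.2 = 0 := by
    filter_upwards [h3] with q hq
    by_cases hqU : q.1 ∈ U
    · filter_upwards [hq hqU] with s hs _
      exact hs
    · exact ae_of_all _ fun s hc => absurd hc hqU
  rw [Measure.ae_ae_comm hms] at h4
  -- good times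
  have h5 : ∀ k : ℕ, ∃ s : ℝ, |s| < 1 / ((k : ℝ) + 1) ∧ ∀ᵐ q : P a × E (n + 2), q.1 ∈ U →
      D.f (ψ 0 s q.1).1 q.2 = 0 := by
    intro k
    have hk : (0 : ℝ) < 1 / ((k : ℝ) + 1) := by positivity
    have hsub : Ioo (max T₁ (-(1 / ((k : ℝ) + 1)))) (min T₂ (1 / ((k : ℝ) + 1))) ⊆ Ioo T₁ T₂ :=
      Ioo_subset_Ioo (le_max_left _ _) (min_le_left _ _)
    have h6 := ae_restrict_of_ae_restrict_of_subset hsub h4
    have hlt : max T₁ (-(1 / ((k : ℝ) + 1))) < min T₂ (1 / ((k : ℝ) + 1)) := by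
      rw [lt_min_iff, max_lt_iff, max_lt_iff]
      exact ⟨⟨by linarith, by linarith⟩, ⟨by linarith, by linarith⟩⟩
    have hpos : (volume : Measure ℝ) (Ioo (max T₁ (-(1 / ((k : ℝ) + 1))))
        (min T₂ (1 / ((k : ℝ) + 1)))) ≠ 0 := by
      rw [Real.volume_Ioo]
      simp only [ne_eq, ENNReal.ofReal_eq_zero, not_le]
      linarith
    obtain ⟨s, hs, hs'⟩ := Measure.exists_mem_of_measure_ne_zero_of_ae hpos h6
    refine ⟨s, ?_, hs'⟩
    rw [abs_lt]
    exact ⟨(le_max_right _ _).trans_lt hs.1, hs.2.trans_le (min_le_right _ _)⟩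
  choose s hs hs' using h5
  have h7 : ∀ k : ℕ, ∀ᵐ q : P a × E (n + 2), ψ 0 (-s k) q.1 ∈ U → D.f q.1.1 q.2 = 0 := by
    intro k
    have hp : MeasurePreserving (fun q : P a × E (n + 2) => (ψ 0 (-s k) q.1, q.2)) volume volume :=
      (hψ.pres 0 (-s k)).prod (MeasurePreserving.id volume)
    have h8 := hp.quasiMeasurePreserving.ae (hs' k)
    filter_upwards [h8] with q hq hqU
    have h9 := hq hqU
    rwa [← hψ.add, add_neg_cancel, hψ.zero] at h9
  rw [← ae_all_iff] at h7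
  filter_upwards [h7] with q hq hqU
  have hcont : Continuous (fun r : ℝ => ψ 0 r q.1) :=
    hψc.comp (continuous_id.prodMk continuous_const)
  have hnb : (fun r : ℝ => ψ 0 r q.1) ⁻¹' U ∈ 𝓝 (0 : ℝ) := by
    apply hcont.continuousAt.preimage_mem_nhds
    rw [hψ.zero]
    exact hUo.mem_nhds hqU
  obtain ⟨δ, hδ, hball⟩ := Metric.mem_nhds_iff.mp hnb
  obtain ⟨k, hk⟩ := exists_nat_one_div_lt hδ
  apply hq k
  apply hball
  rw [mem_ball_zero_iff, Real.norm_eq_abs, abs_neg]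
  exact (hs k).trans hk

end Pool.Agent.WPG
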