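import Pool.Agent.WPG.Geo

/-!
# DET: the theorem from the analytic core
-/

set_option autoImplicit false

namespace Pool.Agent.WPG

open MeasureTheory Set Filter Topology Pool.Agent.XRay Pool.Agent.XTower

namespace DETAux

/-- from the phase space to the base -/
lemma base_ae {a m : ℕ} (F : E a × E m → ℝ) (hF : Measurable F) (U : Set (P a)) (hU : IsOpen U)
    (x : E a) (hx : ∃ p, (x, p) ∈ U)
    (h : ∀ᵐ q : P a × E m, q.1 ∈ U → F (q.1.1, q.2) = 0) :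
    ∃ V ∈ 𝓝 x, ∀ᵐ z : E a × E m, z.1 ∈ V → F z = 0 := by
  obtain ⟨p, hp⟩ := hx
  obtain ⟨V, hV, hVx, W, hW, hWp, hVW⟩ : ∃ V : Set (E a), IsOpen V ∧ x ∈ V ∧ ∃ W : Set (E a),
      IsOpen W ∧ p ∈ W ∧ V ×ˢ W ⊆ U := by
    obtain ⟨V, W, hV, hW, h1, h2, h3⟩ := isOpen_prod_iff.mp hU x p hp
    exact ⟨V, hV, h1, W, hW, h2, h3⟩
  refine ⟨V, hV.mem_nhds hVx, ?_⟩
  have h1 : ∀ᵐ y : P a, ∀ᵐ Y : E m, y ∈ U → F (y.1, Y) = 0 := by
    rw [Measure.volume_eq_prod] at h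
    exact Measure.ae_ae_of_ae_prod h
  have h2 : ∀ᵐ x' : E a, ∀ᵐ p' : E a, ∀ᵐ Y : E m, (x', p') ∈ U → F (x', Y) = 0 := by
    rw [Measure.volume_eq_prod] at h1
    exact Measure.ae_ae_of_ae_prod h1
  have h3 : ∀ᵐ x' : E a, ∀ᵐ Y : E m, x' ∈ V → F (x', Y) = 0 := by
    filter_upwards [h2] with x' hx'
    by_cases hxV : x' ∈ V
    · have h4 : ∃ᶠ p' in ae (volume : Measure (E a)), p' ∈ W := by
        rw [frequently_ae_iff]
        exact (hW.measure_pos volume ⟨p, hWp⟩).ne'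
      obtain ⟨p', hp', hp2⟩ := (h4.and_eventually hx').exists
      filter_upwards [hp2] with Y hY _
      exact hY (hVW ⟨hxV, hp'⟩)
    · filter_upwards with Y hY
      exact absurd hY hxV
  rw [Measure.volume_eq_prod, Measure.ae_prod_iff_ae_ae]
  · exact h3
  · have h5 : {z : E a × E m | z.1 ∈ V → F z = 0} = (Prod.fst ⁻¹' V)ᶜ ∪ F ⁻¹' {0} := by
      ext z
      simp only [mem_ofPred_eq, mem_union, mem_compl_iff, mem_preimage, mem_singleton_iff]
      tauto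
    rw [h5]
    exact ((hV.measurableSet.preimage measurable_fst).compl).union
      (hF (measurableSet_singleton 0))

end DETAux

open DETAux in
theorem det (hM : Stmt_MODH) (hF : Stmt_FL) (hE : Stmt_ESC) (hZ : Stmt_ZER) (hC : Stmt_CORE) :
    Stmt_DET := by
  intro a n g ϕ k hMet S hS δ hδ F K₀ Z hFm hFb hK hKS hF0 hZm hZ0 h
  obtain ⟨C, hC0⟩ := hFb
  obtain ⟨R', hR'⟩ := hK.isBounded.exists_norm_le
  set R : ℝ := R' + 1 with hRdef
  have hR2 : ∀ z ∈ K₀, ‖z.2‖ < R := fun z hz =>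
    lt_of_le_of_lt ((norm_snd_le z).trans (hR' z hz)) (by rw [hRdef]; linarith)
  have hR1 : ∀ z ∈ K₀, ‖z.1‖ < R := fun z hz =>
    lt_of_le_of_lt ((norm_fst_le z).trans (hR' z hz)) (by rw [hRdef]; linarith)
  have hS'c : IsCompact (Prod.fst '' K₀) := hK.image continuous_fst
  have hS'S : Prod.fst '' K₀ ⊆ S := by
    rintro x ⟨z, hz, rfl⟩
    exact (hKS hz).1
  obtain ⟨KD, hKD⟩ := hM (n + 2) k (fun _ => 1) (R + 3) hMet.metk hMet.ks contDiff_const
    (fun _ => one_pos)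
  obtain ⟨φ, hφ⟩ := hF (n + 2) KD
  have hRep : ∀ y, ‖y‖ < R + 2 → Rep KD k (fun _ => 1) y := by
    intro y hy
    have h1 : ∀ᶠ y' in 𝓝 y, ‖y'‖ < R + 3 :=
      continuous_norm.continuousAt.eventually_lt continuousAt_const (by linarith)
    exact h1.mono fun y' hy' => hKD y' hy'
  have key : ∀ x ∈ Prod.fst '' K₀, ∃ V ∈ 𝓝 x, ∀ᵐ z : Sp a n, z.1 ∈ V → F z = 0 := by
    intro x hx
    have hP : Passes g (Prod.fst '' K₀) x := by
      obtain ⟨c, u, t₁, t₂, v, h1, h2, h3, h4, h5, h6, h7, h8⟩ := hS x (hS'S hx)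
      exact ⟨c, u, t₁, t₂, v, h1, h2, h3, h4, h5, h6, fun hc => h7 (hS'S hc),
        fun hc => h8 (hS'S hc)⟩
    obtain ⟨B, ψ, U, T₁, T₂, κ₀, hψ, hReg, hxU⟩ := hE a g ϕ hMet.metg hMet.gs hMet.ϕs hMet.ϕ0
      (Prod.fst '' K₀) x hS'c hx hP
    let D : WD a n :=
      { B := B
        K := KD
        f := fun x y => F (x, y)
        C := C
        R := R
        fm := hFm
        fC := fun x y => hC0 (x, y)
        f0 := by
          intro x y hxy
          apply hF0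
          intro hmem
          rcases hxy with h1 | h1
          · exact absurd (hR1 _ hmem) (not_lt.mpr h1)
          · exact absurd (hR2 _ hmem) (not_lt.mpr h1) }
    obtain ⟨ε₀, hε₀, hZer⟩ := hZ a n g ϕ k hMet δ hδ F K₀ Z R hK hR2 hF0 hZm hZ0
      (fun t₁ t₂ c hc h1 h2 h3 => h t₁ t₂ c hc h1 h2 h3) D (fun _ _ => rfl) ψ φ hψ hφ hRep U T₁ T₂
      κ₀ hReg
    have hcore := hC a n D ψ φ hψ hφ U T₁ T₂ ε₀ hReg.isOpen hReg.neg hReg.pos hε₀ hZer
    exact base_ae F hFm U hReg.isOpen x hxU hcore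
  choose! V hV hVae using key
  obtain ⟨t, ht, htS⟩ := hS'c.elim_nhds_subcover V hV
  have hall : ∀ᵐ z : Sp a n, ∀ x ∈ t, z.1 ∈ V x → F z = 0 := by
    rw [Finset.eventually_all]
    intro x hx
    exact hVae x (ht x hx)
  filter_upwards [hall] with z hz
  by_cases hzK : z ∈ K₀
  · have h1 : z.1 ∈ ⋃ x ∈ t, V x := htS ⟨z, hzK, rfl⟩
    simp only [mem_iUnion] at h1
    obtain ⟨x, hx, hxV⟩ := h1
    exact hz x hx hxV
  · exact hF0 z hzK

end Pool.Agent.WPG
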