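import Pool.Agent.WPG.Stmts

/-!
# The derivative along the geodesic field of a test function is a test function
-/

set_option autoImplicit false

namespace Pool.Agent.WPG

open MeasureTheory Set Filter Topology

namespace DTFAux

variable {n : ℕ} (D : HD n)

theorem app_smooth : ContDiff ℝ (⊤ : ℕ∞) (fun z : P n => D.A z.1 z.2) := by
  have h1 : ContDiff ℝ (⊤ : ℕ∞) (fun z : P n => D.A z.1) := D.As.comp contDiff_fst
  exact h1.clm_apply contDiff_snd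

theorem quad_smooth : ContDiff ℝ (⊤ : ℕ∞)
    (Function.uncurry (fun (z : P n) (x : E n) => (inner ℝ (D.A x z.2) z.2 : ℝ))) := by
  have h1 : ContDiff ℝ (⊤ : ℕ∞) (fun w : P n × E n => D.A w.2) := D.As.comp contDiff_snd
  have h2 : ContDiff ℝ (⊤ : ℕ∞) (fun w : P n × E n => w.1.2) := contDiff_snd.comp contDiff_fst
  have h3 : ContDiff ℝ (⊤ : ℕ∞) (fun w : P n × E n => D.A w.2 w.1.2) := h1.clm_apply h2
  exact h3.inner ℝ h2

theorem gradq_smooth : ContDiff ℝ (⊤ : ℕ∞)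
    (fun z : P n => gradient (fun x => (inner ℝ (D.A x z.2) z.2 : ℝ)) z.1) := by
  have h1 : ContDiff ℝ (⊤ : ℕ∞)
      (fun z : P n => fderiv ℝ (fun x => (inner ℝ (D.A x z.2) z.2 : ℝ)) z.1) :=
    ContDiff.fderiv (quad_smooth D) contDiff_fst (by simp)
  have h2 : ContDiff ℝ (⊤ : ℕ∞) (fun z : P n => (InnerProductSpace.toDual ℝ (E n)).symm
      (fderiv ℝ (fun x => (inner ℝ (D.A x z.2) z.2 : ℝ)) z.1)) :=
    (InnerProductSpace.toDual ℝ (E n)).symm.contDiff.comp h1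
  exact h2

theorem gradu_smooth : ContDiff ℝ (⊤ : ℕ∞) (fun z : P n => gradient D.u z.1) := by
  have h1 : ContDiff ℝ (⊤ : ℕ∞) (fun x : E n => fderiv ℝ D.u x) :=
    D.us.fderiv_right (m := (⊤ : ℕ∞)) (by simp)
  have h2 : ContDiff ℝ (⊤ : ℕ∞)
      (fun x : E n => (InnerProductSpace.toDual ℝ (E n)).symm (fderiv ℝ D.u x)) :=
    (InnerProductSpace.toDual ℝ (E n)).symm.contDiff.comp h1
  have h3 : ContDiff ℝ (⊤ : ℕ∞) (fun x : E n => gradient D.u x) := h2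
  exact h3.comp contDiff_fst

theorem Y_smooth (κ : ℝ) : ContDiff ℝ (⊤ : ℕ∞) (D.Y κ) := by
  have h1 : ContDiff ℝ (⊤ : ℕ∞) (fun z : P n =>
      -((1 / 2 : ℝ) • gradient (fun x => (inner ℝ (D.A x z.2) z.2 : ℝ)) z.1) -
        (κ / 2) • gradient D.u z.1) :=
    ((gradq_smooth D).const_smul (1 / 2 : ℝ)).neg.sub ((gradu_smooth D).const_smul (κ / 2))
  exact (app_smooth D).prodMk h1

theorem k_smooth : ContDiff ℝ (⊤ : ℕ∞) D.k := by
  have h2 : ContDiff ℝ (⊤ : ℕ∞) (fun z : P n => z.2) := contDiff_snd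
  exact (app_smooth D).inner ℝ h2

theorem k_cont : Continuous D.k := (k_smooth D).continuous

theorem k_smul (x q : E n) (c : ℝ) : D.k (x, c • q) = c ^ 2 * D.k (x, q) := by
  show (inner ℝ (D.A x (c • q)) (c • q) : ℝ) = c ^ 2 * inner ℝ (D.A x q) q
  rw [map_smul, real_inner_smul_left, real_inner_smul_right]
  ring

theorem der_smooth {Ψ : P n → ℂ} (h : ContDiff ℝ (⊤ : ℕ∞) Ψ) : ContDiff ℝ (⊤ : ℕ∞) (D.der Ψ) := by
  have h1 : ContDiff ℝ (⊤ : ℕ∞) (fun z : P n => fderiv ℝ Ψ z) :=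
    h.fderiv_right (m := (⊤ : ℕ∞)) (by simp)
  exact h1.clm_apply (Y_smooth D 0)

theorem der_supp {Ψ : P n → ℂ} (h : HasCompactSupport Ψ) : HasCompactSupport (D.der Ψ) := by
  have h1 : HasCompactSupport (fderiv ℝ Ψ) := h.fderiv ℝ
  refine h1.mono (fun z hz => ?_)
  rw [Function.mem_support] at hz ⊢
  intro h0
  apply hz
  show fderiv ℝ Ψ z (D.Y 0 z) = 0
  rw [h0]
  rfl

theorem der_gt {Ψ : P n → ℂ} (h : ∀ z, 1 ≤ D.k z → Ψ z = 0) {z : P n} (hz : 1 < D.k z) :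
    D.der Ψ z = 0 := by
  have h1 : Ψ =ᶠ[𝓝 z] (fun _ => (0 : ℂ)) := by
    have h2 : ∀ᶠ y in 𝓝 z, 1 < D.k y := (k_cont D).continuousAt.eventually (lt_mem_nhds hz)
    filter_upwards [h2] with y hy
    exact h y hy.le
  show fderiv ℝ Ψ z (D.Y 0 z) = 0
  rw [h1.fderiv_eq]
  simp

theorem der_ge {Ψ : P n → ℂ} (hs : ContDiff ℝ (⊤ : ℕ∞) Ψ) (h : ∀ z, 1 ≤ D.k z → Ψ z = 0) {z : P n}
    (hz : 1 ≤ D.k z) : D.der Ψ z = 0 := by
  have hc : Continuous (D.der Ψ) := (der_smooth D hs).continuous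
  have hcv : Continuous (fun δ : ℝ => D.der Ψ (z.1, (1 + δ) • z.2)) := by
    refine hc.comp ?_
    fun_prop
  have hk : ∀ δ : ℝ, D.k (z.1, (1 + δ) • z.2) = (1 + δ) ^ 2 * D.k z := by
    intro δ
    exact k_smul D z.1 z.2 (1 + δ)
  have h1 : Tendsto (fun δ : ℝ => D.der Ψ (z.1, (1 + δ) • z.2)) (𝓝[>] 0)
      (𝓝 (D.der Ψ (z.1, (1 + (0 : ℝ)) • z.2))) :=
    (hcv.tendsto 0).mono_left nhdsWithin_le_nhds
  have h2 : Tendsto (fun δ : ℝ => D.der Ψ (z.1, (1 + δ) • z.2)) (𝓝[>] 0) (𝓝 0) := by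
    refine tendsto_const_nhds.congr' ?_
    filter_upwards [self_mem_nhdsWithin] with δ hδ
    have hδ0 : (0 : ℝ) < δ := hδ
    refine (der_gt D h ?_).symm
    rw [hk]
    nlinarith [sq_nonneg δ]
  have h3 := tendsto_nhds_unique h1 h2
  have h4 : (z.1, (1 + (0 : ℝ)) • z.2) = z := by
    rw [add_zero, one_smul]
  rwa [h4] at h3

end DTFAux

theorem dtf : Stmt_DTF := by
  intro n D Ψ h
  exact ⟨DTFAux.der_smooth D h.smooth, DTFAux.der_supp D h.supp,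
    fun z hz => DTFAux.der_ge D h.smooth h.low hz⟩

end Pool.Agent.WPG
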