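import Pool.Agent.WPG.Geo

/-!
# General warped products, module ESC: good initial values on the base   (helper23)
-/

set_option autoImplicit false

namespace Pool.Agent.WPG

open MeasureTheory Set Filter Topology Pool.Agent.XRay Pool.Agent.XTower

namespace ESCAux

variable {n : ℕ}

/-! ### smoothness of the geodesic field -/

theorem app_smooth (D : HD n) : ContDiff ℝ (⊤ : ℕ∞) (fun z : P n => D.A z.1 z.2) := by
  have h1 : ContDiff ℝ (⊤ : ℕ∞) (fun z : P n => D.A z.1) := D.As.comp contDiff_fst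
  exact h1.clm_apply contDiff_snd

theorem quad_smooth (D : HD n) : ContDiff ℝ (⊤ : ℕ∞)
    (Function.uncurry (fun (z : P n) (x : E n) => (inner ℝ (D.A x z.2) z.2 : ℝ))) := by
  have h1 : ContDiff ℝ (⊤ : ℕ∞) (fun w : P n × E n => D.A w.2) := D.As.comp contDiff_snd
  have h2 : ContDiff ℝ (⊤ : ℕ∞) (fun w : P n × E n => w.1.2) := contDiff_snd.comp contDiff_fst
  have h3 : ContDiff ℝ (⊤ : ℕ∞) (fun w : P n × E n => D.A w.2 w.1.2) := h1.clm_apply h2
  exact h3.inner ℝ h2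

theorem gradq_smooth (D : HD n) : ContDiff ℝ (⊤ : ℕ∞)
    (fun z : P n => gradient (fun x => (inner ℝ (D.A x z.2) z.2 : ℝ)) z.1) := by
  have h1 : ContDiff ℝ (⊤ : ℕ∞)
      (fun z : P n => fderiv ℝ (fun x => (inner ℝ (D.A x z.2) z.2 : ℝ)) z.1) :=
    ContDiff.fderiv (quad_smooth D) contDiff_fst (by simp)
  have h2 : ContDiff ℝ (⊤ : ℕ∞) (fun z : P n => (InnerProductSpace.toDual ℝ (E n)).symm
      (fderiv ℝ (fun x => (inner ℝ (D.A x z.2) z.2 : ℝ)) z.1)) :=
    (InnerProductSpace.toDual ℝ (E n)).symm.contDiff.comp h1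
  exact h2

theorem gradu_smooth (D : HD n) : ContDiff ℝ (⊤ : ℕ∞) (fun z : P n => gradient D.u z.1) := by
  have h1 : ContDiff ℝ (⊤ : ℕ∞) (fun x : E n => fderiv ℝ D.u x) :=
    D.us.fderiv_right (m := (⊤ : ℕ∞)) (by simp)
  have h2 : ContDiff ℝ (⊤ : ℕ∞)
      (fun x : E n => (InnerProductSpace.toDual ℝ (E n)).symm (fderiv ℝ D.u x)) :=
    (InnerProductSpace.toDual ℝ (E n)).symm.contDiff.comp h1
  have h3 : ContDiff ℝ (⊤ : ℕ∞) (fun x : E n => gradient D.u x) := h2
  exact h3.comp contDiff_fst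

theorem Y_smooth (D : HD n) (κ : ℝ) : ContDiff ℝ (⊤ : ℕ∞) (D.Y κ) := by
  have h1 : ContDiff ℝ (⊤ : ℕ∞) (fun z : P n =>
      -((1 / 2 : ℝ) • gradient (fun x => (inner ℝ (D.A x z.2) z.2 : ℝ)) z.1) -
        (κ / 2) • gradient D.u z.1) :=
    ((gradq_smooth D).const_smul (1 / 2 : ℝ)).neg.sub ((gradu_smooth D).const_smul (κ / 2))
  exact (app_smooth D).prodMk h1

theorem en_cont (D : HD n) : Continuous (fun q : ℝ × P n => D.en q.1 q.2) := by
  have h1 : Continuous D.k := ((app_smooth D).inner ℝ (contDiff_snd (n := (⊤ : ℕ∞)))).continuous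
  have h2 : Continuous (fun q : ℝ × P n => D.u q.2.1) :=
    D.us.continuous.comp (continuous_fst.comp continuous_snd)
  exact (h1.comp continuous_snd).add (continuous_fst.mul h2)

/-! ### the momentum -/

theorem hasDerivAt_of_inner (p : ℝ → E n) (q : E n) (t : ℝ)
    (h : ∀ w : E n, HasDerivAt (fun s => (inner ℝ (p s) w : ℝ)) (inner ℝ q w) t) :
    HasDerivAt p q t := by
  rw [hasDerivAt_iff_hasFDerivAt, ← hasFDerivWithinAt_univ, hasFDerivWithinAt_euclidean]
  intro i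
  have h1 := (h (EuclideanSpace.single i 1)).hasFDerivAt.hasFDerivWithinAt (s := univ)
  have h2 : (fun s => (inner ℝ (p s) (EuclideanSpace.single i (1 : ℝ)) : ℝ)) = fun s => p s i := by
    funext s
    rw [EuclideanSpace.inner_single_right]
    simp
  have h3 : (inner ℝ q (EuclideanSpace.single i (1 : ℝ)) : ℝ) = q i := by
    rw [EuclideanSpace.inner_single_right]
    simp
  rw [h2, h3] at h1
  refine h1.congr_fderiv ?_
  ext
  simp

/-- the momentum -/
noncomputable def mom (g : E n → E n →L[ℝ] E n →L[ℝ] ℝ) (c : ℝ → E n) (s : ℝ) : E n :=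
  (InnerProductSpace.toDual ℝ (E n)).symm (g (c s) (deriv c s))

theorem inner_mom (g : E n → E n →L[ℝ] E n →L[ℝ] ℝ) (c : ℝ → E n) (s : ℝ) (w : E n) :
    (inner ℝ (mom g c s) w : ℝ) = g (c s) (deriv c s) w := by
  rw [mom, InnerProductSpace.toDual_symm_apply]

/-- the velocity -/
theorem vel {g : E n → E n →L[ℝ] E n →L[ℝ] ℝ} (hg : IsMetric g) (D : HD n) (c : ℝ → E n) (s : ℝ)
    (h : ∀ p v, g (c s) (D.A (c s) p) v = inner ℝ p v) : D.A (c s) (mom g c s) = deriv c s := by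
  by_contra hne
  have h1 : D.A (c s) (mom g c s) - deriv c s ≠ 0 := sub_ne_zero.mpr hne
  have h2 := hg.pos (c s) _ h1
  have h3 : g (c s) (D.A (c s) (mom g c s) - deriv c s) (D.A (c s) (mom g c s) - deriv c s) = 0 := by
    rw [map_sub (g (c s)), ContinuousLinearMap.sub_apply, h, inner_mom, sub_self]
  linarith

/-- the derivative of the inverse metric -/
theorem der_inv {g : E n → E n →L[ℝ] E n →L[ℝ] ℝ} (hg : IsMetric g) (D : HD n) (x₀ : E n)
    (h : ∀ᶠ x in 𝓝 x₀, ∀ p v, g x (D.A x p) v = inner ℝ p v) (p w : E n) :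
    fderiv ℝ (fun x => (inner ℝ (D.A x p) p : ℝ)) x₀ w =
      -(fderiv ℝ g x₀ w (D.A x₀ p) (D.A x₀ p)) := by
  have hAd : HasFDerivAt D.A (fderiv ℝ D.A x₀) x₀ :=
    (D.As.differentiable (by simp) x₀).hasFDerivAt
  have hgd : HasFDerivAt g (fderiv ℝ g x₀) x₀ := (hg.diff x₀).hasFDerivAt
  have hA : HasFDerivAt (fun x => D.A x p)
      ((D.A x₀).comp (0 : E n →L[ℝ] E n) + (fderiv ℝ D.A x₀).flip p) x₀ :=
    hAd.clm_apply (hasFDerivAt_const p x₀)
  have h1 := hgd.clm_apply hA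
  have h2 := h1.clm_apply (hasFDerivAt_const (D.A x₀ p) x₀)
  have h3 : HasFDerivAt (fun x => g x (D.A x p) (D.A x₀ p)) (0 : E n →L[ℝ] ℝ) x₀ := by
    refine (hasFDerivAt_const (inner ℝ p (D.A x₀ p) : ℝ) x₀).congr_of_eventuallyEq ?_
    filter_upwards [h] with x hx
    exact hx p _
  have h4 := congrArg (fun L : E n →L[ℝ] ℝ => L w) (h2.unique h3)
  simp only [ContinuousLinearMap.add_apply, ContinuousLinearMap.comp_apply,
    ContinuousLinearMap.zero_apply, map_zero, ContinuousLinearMap.flip_apply, zero_add] at h4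
  have h5 : HasFDerivAt (fun x => (inner ℝ (D.A x p) p : ℝ)) _ x₀ :=
    hA.inner ℝ (hasFDerivAt_const p x₀)
  rw [h5.fderiv]
  have h6 := h.self_of_nhds p (fderiv ℝ D.A x₀ w p)
  rw [hg.symm] at h6
  simp only [ContinuousLinearMap.comp_apply, fderivInnerCLM_apply,
    ContinuousLinearMap.prod_apply, ContinuousLinearMap.zero_apply, inner_zero_right,
    ContinuousLinearMap.add_apply, map_zero, ContinuousLinearMap.flip_apply, zero_add]
  rw [real_inner_comm, ← h6]
  linarith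

/-- the equation of the momentum -/
theorem mom_der {g : E n → E n →L[ℝ] E n →L[ℝ] ℝ} (hg : IsMetric g) (D : HD n) (c : ℝ → E n)
    (J : Set ℝ) (hc : UnitGeodesicOn g c J) (t : ℝ) (ht : t ∈ J)
    (h : ∀ᶠ x in 𝓝 (c t), ∀ p v, g x (D.A x p) v = inner ℝ p v) :
    HasDerivAt (fun s => (c s, mom g c s)) (D.Y 0 (c t, mom g c t)) t := by
  have hv := vel hg D c t h.self_of_nhds
  have h1 : HasDerivAt c (D.A (c t) (mom g c t)) t := by
    rw [hv]
    exact (hc.diff t ht).hasDerivAt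
  have h2 : HasDerivAt (mom g c)
      (-((1 / 2 : ℝ) • gradient (fun x => (inner ℝ (D.A x (mom g c t)) (mom g c t) : ℝ)) (c t)) -
        ((0 : ℝ) / 2) • gradient D.u (c t)) t := by
    apply hasDerivAt_of_inner
    intro w
    have h3 := hc.euler t ht w
    have h4 : (fun s => (inner ℝ (mom g c s) w : ℝ)) = fun s => g (c s) (deriv c s) w := by
      funext s
      exact inner_mom g c s w
    rw [h4]
    convert h3 using 1
    rw [zero_div, zero_smul, sub_zero, inner_neg_left, real_inner_smul_left, gradient,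
      InnerProductSpace.toDual_symm_apply, der_inv hg D (c t) h, hv]
    ring
  exact h1.prodMk h2

end ESCAux

theorem esc (hM : Stmt_MODH) (hF : Stmt_FL) : Stmt_ESC := by
  intro a g ϕ hg gs ϕs ϕ0 S x hS hxS hpass
  obtain ⟨c, u, t₁, t₂, v, hu, ht₁, ht₂, hv, hgeo, hc0, hS1, hS2⟩ := hpass
  have ht₁' : t₁ < 0 := by
    rcases ht₁.lt_or_eq with h | h
    · exact h
    · rw [h, hc0] at hS1
      exact absurd hxS hS1
  have ht₂' : 0 < t₂ := by
    rcases ht₂.lt_or_eq with h | h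
    · exact h
    · rw [← h, hc0] at hS2
      exact absurd hxS hS2
  -- the interval
  set u' := (u + t₁) / 2 with hu'
  set v' := (t₂ + v) / 2 with hv'
  have hJsub : Icc u' v' ⊆ Ioo u v := fun s hs => ⟨by linarith [hs.1], by linarith [hs.2]⟩
  have hcc : ContinuousOn c (Icc u' v') := fun s hs =>
    (hgeo.diff s (hJsub hs)).continuousAt.continuousWithinAt
  obtain ⟨R₀, hR₀⟩ := isCompact_Icc.exists_bound_of_continuousOn hcc
  obtain ⟨B, hB⟩ := hM a g ϕ (R₀ + 1) hg gs ϕs ϕ0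
  obtain ⟨ψ, hψ⟩ := hF a B
  have hrep : ∀ y : E a, ‖y‖ < R₀ + 1 → Rep B g ϕ y := by
    intro y hy
    have : {y : E a | ‖y‖ < R₀ + 1} ∈ 𝓝 y :=
      (isOpen_lt continuous_norm continuous_const).mem_nhds hy
    filter_upwards [this] with z hz
    exact hB z hz
  have hcR : ∀ s ∈ Icc u' v', ‖c s‖ < R₀ + 1 := fun s hs => by linarith [hR₀ s hs]
  have hrepg : ∀ s ∈ Icc u' v', ∀ᶠ x in 𝓝 (c s), ∀ p v, g x (B.A x p) v = inner ℝ p v := by
    intro s hs
    filter_upwards [hrep (c s) (hcR s hs)] with z hz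
    exact hz.1
  have hder : ∀ s ∈ Icc u' v', HasDerivAt (fun s => (c s, ESCAux.mom g c s))
      (B.Y 0 (c s, ESCAux.mom g c s)) s := fun s hs =>
    ESCAux.mom_der hg B c _ hgeo s (hJsub hs) (hrepg s hs)
  set z₀ : P a := (c 0, ESCAux.mom g c 0) with hz₀
  have h0J : (0 : ℝ) ∈ Icc u' v' := ⟨by linarith, by linarith⟩
  have hen : B.en 0 z₀ = 1 := by
    have h1 := ESCAux.vel hg B c 0 (hrepg 0 h0J).self_of_nhds
    show (inner ℝ (B.A (c 0) (ESCAux.mom g c 0)) (ESCAux.mom g c 0) : ℝ) + 0 * B.u (c 0) = 1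
    rw [zero_mul, add_zero, real_inner_comm, ESCAux.inner_mom, h1]
    exact hgeo.unit 0 (hJsub h0J)
  have hfl : ∀ s, HasDerivAt (fun r => ψ 0 r z₀) (B.Y 0 (ψ 0 s z₀)) s := fun s =>
    hψ.deriv 0 s z₀ le_rfl zero_le_one (by rw [hen]; norm_num)
  -- uniqueness
  have heq : ∀ s ∈ Ioo u' v', ψ 0 s z₀ = (c s, ESCAux.mom g c s) := by
    have hc1 : ContinuousOn (fun s => (c s, ESCAux.mom g c s)) (Icc u' v') := fun s hs =>
      (hder s hs).continuousAt.continuousWithinAt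
    have hc2 : ContinuousOn (fun s => ψ 0 s z₀) (Icc u' v') := fun s _ =>
      (hfl s).continuousAt.continuousWithinAt
    obtain ⟨M₁, hM₁⟩ := isCompact_Icc.exists_bound_of_continuousOn hc1
    obtain ⟨M₂, hM₂⟩ := isCompact_Icc.exists_bound_of_continuousOn hc2
    obtain ⟨K, hK⟩ := (ESCAux.Y_smooth B 0).contDiffOn (s := Metric.closedBall (0 : P a) (max M₁ M₂))
      |>.exists_lipschitzOnWith (by simp) (convex_closedBall _ _) (isCompact_closedBall _ _)
    have h := ODE_solution_unique_of_mem_Ioo (v := fun _ => B.Y 0)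
      (s := fun _ => Metric.closedBall (0 : P a) (max M₁ M₂)) (K := K) (a := u') (b := v') (t₀ := 0)
      (f := fun s => ψ 0 s z₀) (g := fun s => (c s, ESCAux.mom g c s))
      (fun _ _ => hK) ⟨by linarith, by linarith⟩
      (fun t ht => ⟨hfl t, by
        rw [mem_closedBall_zero_iff]
        exact (hM₂ t ⟨ht.1.le, ht.2.le⟩).trans (le_max_right _ _)⟩)
      (fun t ht => ⟨hder t ⟨ht.1.le, ht.2.le⟩, by
        rw [mem_closedBall_zero_iff]
        exact (hM₁ t ⟨ht.1.le, ht.2.le⟩).trans (le_max_left _ _)⟩)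
      (by
        show ψ 0 0 z₀ = (c 0, ESCAux.mom g c 0)
        rw [hψ.zero])
    intro s hs
    exact h hs
  -- the open conditions
  have hψc : Continuous (fun q : ℝ × ℝ × P a => ψ q.1 q.2.1 q.2.2) := hψ.smooth.continuous
  set u'' := (u' + t₁) / 2 with hu''
  set v'' := (t₂ + v') / 2 with hv''
  have h1 : ∀ᶠ q : ℝ × P a in 𝓝 (0, z₀), 1 / 2 < B.en q.1 q.2 ∧ B.en q.1 q.2 < 2 := by
    have hc := (ESCAux.en_cont B).continuousAt (x := ((0 : ℝ), z₀))
    have hval : (fun q : ℝ × P a => B.en q.1 q.2) ((0 : ℝ), z₀) = 1 := hen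
    refine (hc.eventually_const_lt (by rw [hval]; norm_num)).and
      (hc.eventually_lt_const (by rw [hval]; norm_num))
  have h2 : ∀ᶠ q : ℝ × P a in 𝓝 (0, z₀), ∀ s ∈ Icc u'' v'', ‖(ψ q.1 s q.2).1‖ < R₀ + 1 := by
    refine isCompact_Icc.eventually_forall_of_forall_eventually (K := Icc u'' v'')
      (P := fun (q : ℝ × P a) s => ‖(ψ q.1 s q.2).1‖ < R₀ + 1) ?_
    intro s hs
    have hc : Continuous (fun w : (ℝ × P a) × ℝ => ‖(ψ w.1.1 w.2 w.1.2).1‖) := by
      have : Continuous (fun w : (ℝ × P a) × ℝ => ψ w.1.1 w.2 w.1.2) :=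
        hψc.comp ((continuous_fst.comp continuous_fst).prodMk
          (continuous_snd.prodMk (continuous_snd.comp continuous_fst)))
      exact this.fst.norm
    refine hc.continuousAt.eventually_lt_const ?_
    show ‖(ψ 0 s z₀).1‖ < R₀ + 1
    have hs' : s ∈ Ioo u' v' := ⟨by linarith [hs.1], by linarith [hs.2]⟩
    rw [heq s hs']
    exact hcR s ⟨hs'.1.le, hs'.2.le⟩
  have h3 : ∀ t ∈ Ioo u' v', c t ∉ S → ∀ᶠ q : ℝ × P a in 𝓝 (0, z₀), (ψ q.1 t q.2).1 ∉ S := by
    intro t ht htS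
    have hc : Continuous (fun q : ℝ × P a => (ψ q.1 t q.2).1) := by
      have : Continuous (fun q : ℝ × P a => ψ q.1 t q.2) :=
        hψc.comp (continuous_fst.prodMk (continuous_const.prodMk continuous_snd))
      exact this.fst
    have ho : IsOpen Sᶜ := hS.isClosed.isOpen_compl
    refine hc.continuousAt.eventually_mem (ho.mem_nhds ?_)
    show (ψ 0 t z₀).1 ∈ Sᶜ
    rw [heq t ht]
    exact htS
  have h4 := h3 t₁ ⟨by linarith, by linarith⟩ hS1
  have h5 := h3 t₂ ⟨by linarith, by linarith⟩ hS2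
  obtain ⟨ε, hε, hall⟩ := Metric.eventually_nhds_iff.mp (h1.and (h2.and (h4.and h5)))
  have hkey : ∀ y ∈ Metric.ball z₀ ε, ∀ κ : ℝ, 0 ≤ κ → κ ≤ min (ε / 2) 1 →
      dist (κ, y) ((0 : ℝ), z₀) < ε := by
    intro y hy κ hκ0 hκ
    rw [Prod.dist_eq]
    refine max_lt ?_ hy
    rw [Real.dist_eq, sub_zero, abs_of_nonneg hκ0]
    have := hκ.trans (min_le_left _ _)
    linarith
  refine ⟨B, ψ, Metric.ball z₀ ε, t₁, t₂, min (ε / 2) 1, hψ, ?_, ESCAux.mom g c 0, ?_⟩
  · refine ⟨Metric.isOpen_ball, ht₁', ht₂', lt_min (by linarith) one_pos, min_le_right _ _,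
      ?_, ?_, ?_⟩
    · intro y hy κ hκ0 hκ
      exact (hall (hkey y hy κ hκ0 hκ)).1
    · intro y hy κ hκ0 hκ
      refine ⟨u'', v'', by linarith, by linarith, fun s hs => ?_⟩
      exact hrep _ ((hall (hkey y hy κ hκ0 hκ)).2.1 s ⟨hs.1.le, hs.2.le⟩)
    · intro y hy κ hκ0 hκ
      exact (hall (hkey y hy κ hκ0 hκ)).2.2
  · rw [← hc0]
    exact Metric.mem_ball_self hε

end Pool.Agent.WPG
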