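import Pool.Agent.WPG.Stmts

/-!
# General warped products: a cut-off function on the fibres of the phase space
-/

set_option autoImplicit false

namespace Pool.Agent.WPG

open MeasureTheory Set Filter Topology

namespace ETAAux

/-- the coefficients are bounded -/
lemma bound {n : ℕ} (D : HD n) : ∃ C : ℝ, 0 ≤ C ∧ ∀ x, ‖D.A x‖ ≤ C := by
  obtain ⟨R, u₀, A₀, h⟩ := D.con
  have h1 : Continuous (fun x => ‖D.A x‖) := D.As.continuous.norm
  obtain ⟨C, hC⟩ := (isCompact_closedBall (0 : E n) R).exists_bound_of_continuousOn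
    (f := D.A) D.As.continuous.continuousOn
  refine ⟨max C ‖A₀‖, (norm_nonneg A₀).trans (le_max_right _ _), fun x => ?_⟩
  by_cases hx : R ≤ ‖x‖
  · rw [(h x hx).1]
    exact le_max_right _ _
  · refine (hC x ?_).trans (le_max_left _ _)
    rw [mem_closedBall_zero_iff]
    exact (not_le.1 hx).le

lemma k_le {n : ℕ} (D : HD n) (C : ℝ) (hC : ∀ x, ‖D.A x‖ ≤ C) (x q : E n) :
    D.k (x, q) ≤ C * ‖q‖ ^ 2 := by
  have h1 : inner ℝ (D.A x q) q ≤ ‖D.A x q‖ * ‖q‖ := real_inner_le_norm _ _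
  have h2 : ‖D.A x q‖ ≤ C * ‖q‖ :=
    ((D.A x).le_opNorm q).trans (mul_le_mul_of_nonneg_right (hC x) (norm_nonneg q))
  have h3 : ‖D.A x q‖ * ‖q‖ ≤ C * ‖q‖ * ‖q‖ := mul_le_mul_of_nonneg_right h2 (norm_nonneg q)
  have h4 : D.k (x, q) = inner ℝ (D.A x q) q := rfl
  rw [h4]
  nlinarith

end ETAAux

/-- **a cut-off function exists** -/
theorem eta : Stmt_ETA := by
  intro n D
  obtain ⟨C, hC0, hC⟩ := ETAAux.bound D
  have hr : 0 < 1 / (C + 1) := by positivity
  let f : ContDiffBump (0 : E n) := ⟨1 / (C + 1) / 2, 1 / (C + 1), by positivity, by linarith⟩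
  have hf : f.rOut = 1 / (C + 1) := rfl
  refine ⟨fun q => ((f.normed volume q : ℝ) : ℂ), ⟨?_, ?_, ?_, ?_⟩⟩
  · exact Complex.ofRealCLM.contDiff.comp f.contDiff_normed
  · exact f.hasCompactSupport_normed.comp_left (g := fun t : ℝ => (t : ℂ)) (by simp)
  · have h0 : ∫ q : E n, ((f.normed volume q : ℝ) : ℂ) =
        ((∫ q : E n, f.normed volume q : ℝ) : ℂ) := integral_complex_ofReal
    rw [h0, f.integral_normed]
    norm_num
  · intro x q hq
    have h1 := ETAAux.k_le D C hC x q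
    have h2 : q ∉ Function.support (f.normed volume) := by
      rw [f.support_normed_eq, hf, mem_ball_zero_iff, not_lt]
      by_contra h3
      rw [not_le] at h3
      have h4 : ‖q‖ ^ 2 ≤ (1 / (C + 1)) ^ 2 := pow_le_pow_left₀ (norm_nonneg q) h3.le 2
      have h5 : C * ‖q‖ ^ 2 ≤ C * (1 / (C + 1)) ^ 2 := mul_le_mul_of_nonneg_left h4 hC0
      have h6 : C * (1 / (C + 1)) ^ 2 < 1 := by
        rw [one_div, inv_pow, ← div_eq_mul_inv, div_lt_one (by positivity)]
        nlinarith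
      linarith
    rw [Function.notMem_support.1 h2]
    simp

end Pool.Agent.WPG
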