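import Pool.Agent.WPG.Stmts

/-!
# General warped products: Taylor expansion in `κ` on the base
-/

set_option autoImplicit false

namespace Pool.Agent.WPG

open MeasureTheory Set Filter Topology

namespace EXPAux

/-- partial derivatives in the first variable of a smooth function are smooth -/
theorem partial_smooth {W : Type*} [NormedAddCommGroup W] [NormedSpace ℝ W] (H : ℝ × W → ℝ)
    (hH : ContDiff ℝ (⊤ : ℕ∞) H) (m : ℕ) :
    ContDiff ℝ (⊤ : ℕ∞) (fun q : ℝ × W => iteratedDeriv m (fun κ => H (κ, q.2)) q.1) := by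
  induction m with
  | zero => simpa using hH
  | succ m ih =>
    have e : (fun q : ℝ × W => iteratedDeriv (m + 1) (fun κ => H (κ, q.2)) q.1) =
        fun q : ℝ × W => fderiv ℝ (fun q : ℝ × W =>
          iteratedDeriv m (fun κ => H (κ, q.2)) q.1) q ((1 : ℝ), (0 : W)) := by
      funext q
      rw [iteratedDeriv_succ]
      have h1 : HasFDerivAt (fun q : ℝ × W => iteratedDeriv m (fun κ => H (κ, q.2)) q.1)
          (fderiv ℝ (fun q : ℝ × W => iteratedDeriv m (fun κ => H (κ, q.2)) q.1) q) (q.1, q.2) :=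
        (ih.differentiable (by simp) q).hasFDerivAt
      have h2 : HasDerivAt (fun κ : ℝ => ((κ, q.2) : ℝ × W)) ((1 : ℝ), (0 : W)) q.1 :=
        (hasDerivAt_id q.1).prodMk (hasDerivAt_const q.1 q.2)
      exact (h1.comp_hasDerivAt q.1 h2).deriv
    rw [e]
    exact (ih.fderiv_right (m := (⊤ : ℕ∞)) (by simp)).clm_apply contDiff_const

theorem slice_smooth {W : Type*} [NormedAddCommGroup W] [NormedSpace ℝ W] (H : ℝ × W → ℝ)
    (hH : ContDiff ℝ (⊤ : ℕ∞) H) (w : W) : ContDiff ℝ (⊤ : ℕ∞) (fun κ : ℝ => H (κ, w)) :=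
  hH.comp (contDiff_id.prodMk contDiff_const)

/-- Taylor's formula on `[0, 1]` -/
theorem taylor (f : ℝ → ℝ) (hf : ContDiff ℝ (⊤ : ℕ∞) f) (J : ℕ) (C : ℝ)
    (hC : ∀ x, 0 ≤ x → x ≤ 1 → |iteratedDeriv (J + 1) f x| ≤ C) (κ : ℝ) (h0 : 0 ≤ κ)
    (h1 : κ ≤ 1) :
    |f κ - ∑ m ∈ Finset.range (J + 1), iteratedDeriv m f 0 / (m.factorial : ℝ) * κ ^ m| ≤
      C * κ ^ (J + 1) := by
  have hu : UniqueDiffOn ℝ (Icc (0 : ℝ) 1) := uniqueDiffOn_Icc one_pos
  have hw : ∀ (m : ℕ) (x : ℝ), x ∈ Icc (0 : ℝ) 1 →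
      iteratedDerivWithin m f (Icc 0 1) x = iteratedDeriv m f x := by
    intro m x hx
    exact iteratedDerivWithin_eq_iteratedDeriv hu
      ((hf.of_le (by exact_mod_cast le_top)).contDiffAt) hx
  have h := taylor_mean_remainder_bound (f := f) (a := 0) (b := 1) (C := C) (x := κ) (n := J)
    zero_le_one ((hf.of_le (by exact_mod_cast le_top)).contDiffOn) ⟨h0, h1⟩ (by
      intro y hy
      rw [hw _ y hy, Real.norm_eq_abs]
      exact hC y hy.1 hy.2)
  have e : taylorWithinEval f J (Icc 0 1) 0 κ =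
      ∑ m ∈ Finset.range (J + 1), iteratedDeriv m f 0 / (m.factorial : ℝ) * κ ^ m := by
    rw [taylor_within_apply]
    refine Finset.sum_congr rfl ?_
    intro m _
    rw [hw m 0 ⟨le_refl _, zero_le_one⟩, sub_zero, smul_eq_mul]
    ring
  rw [e, Real.norm_eq_abs, sub_zero] at h
  refine h.trans ?_
  have hC0 : 0 ≤ C := (abs_nonneg _).trans (hC 0 le_rfl zero_le_one)
  have hf1 : (1 : ℝ) ≤ (J.factorial : ℝ) := by exact_mod_cast Nat.factorial_pos J
  exact div_le_self (by positivity) hf1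

end EXPAux

open EXPAux in
theorem exp_ (hS : Stmt_SGS) : Stmt_EXP := by
  intro n D ψ hψ α hα hαs
  have hH : ∀ i : ℕ, ContDiff ℝ (⊤ : ℕ∞)
      (fun q : ℝ × ℝ × P n => α (ψ q.1 q.2.1 q.2.2) * D.sg ψ q.1 q.2.1 q.2.2 ^ i) := by
    intro i
    exact (hα.comp hψ.smooth).mul ((hS n D ψ hψ).pow i)
  have hP : ∀ i m : ℕ, Continuous (fun q : ℝ × ℝ × P n =>
      iteratedDeriv m (fun κ => α (ψ κ q.2.1 q.2.2) * D.sg ψ κ q.2.1 q.2.2 ^ i) q.1) :=
    fun i m => (partial_smooth _ (hH i) m).continuous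
  refine ⟨?_, ?_⟩
  · intro i m
    have h1 : Continuous (fun q : ℝ × P n => (((0 : ℝ), q) : ℝ × ℝ × P n)) := by fun_prop
    exact ((hP i m).comp h1).div_const _
  intro T
  obtain ⟨C, hC⟩ := hψ.move
  obtain ⟨R₀, hR₀⟩ : ∃ R₀ : ℝ, ∀ z : P n, R₀ ≤ ‖z‖ → α z = 0 := by
    obtain ⟨r, hr⟩ := hαs.isBounded.subset_closedBall 0
    refine ⟨r + 1, ?_⟩
    intro z hz
    by_contra hne
    have hm : z ∈ tsupport α := subset_tsupport α hne
    have := hr hm
    rw [mem_closedBall_zero_iff] at this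
    linarith
  have hz : ∀ s y, |s| ≤ T → R₀ + |C| * T ≤ ‖y‖ → ∀ κ, α (ψ κ s y) = 0 := by
    intro s y hs hy κ
    apply hR₀
    have h1 := hC κ s y
    have h2 : C * |s| ≤ |C| * T :=
      mul_le_mul (le_abs_self C) hs (abs_nonneg _) (abs_nonneg _)
    have h3 : ‖y‖ ≤ ‖ψ κ s y‖ + ‖ψ κ s y - y‖ := by
      have := norm_sub_le (ψ κ s y) (ψ κ s y - y)
      simpa using this
    linarith
  have hc : ∀ s y, |s| ≤ T → R₀ + |C| * T ≤ ‖y‖ → ∀ i m, D.co ψ α i m s y = 0 := by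
    intro s y hs hy i m
    unfold HD.co
    have e : (fun κ => α (ψ κ s y) * D.sg ψ κ s y ^ i) = fun _ => (0 : ℝ) := by
      funext κ
      rw [hz s y hs hy κ, zero_mul]
    rw [e]
    have h0 : iteratedDeriv m (fun _ : ℝ => (0 : ℝ)) 0 = 0 := by
      rw [iteratedDeriv_const]
      split <;> rfl
    rw [h0, zero_div]
  refine ⟨⟨R₀ + |C| * T, fun s y hs hy => ⟨hz s y hs hy, hc s y hs hy⟩⟩, ?_⟩
  intro i J
  have hK : IsCompact ((Icc (0 : ℝ) 1) ×ˢ ((Icc (-T) T) ×ˢ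
      (Metric.closedBall (0 : P n) (R₀ + |C| * T)))) :=
    isCompact_Icc.prod (isCompact_Icc.prod (isCompact_closedBall _ _))
  obtain ⟨B, hB⟩ := hK.exists_bound_of_continuousOn (hP i (J + 1)).continuousOn
  refine ⟨max B 0, ?_⟩
  intro s y κ hs h0 h1
  by_cases hy : R₀ + |C| * T ≤ ‖y‖
  · rw [hz s y hs hy κ, zero_mul]
    have e : ∑ m ∈ Finset.range (J + 1), D.co ψ α i m s y * κ ^ m = 0 := by
      refine Finset.sum_eq_zero ?_
      intro m _
      rw [hc s y hs hy i m, zero_mul]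
    rw [e, sub_zero, abs_zero]
    exact mul_nonneg (le_max_right _ _) (pow_nonneg h0 _)
  · have hsm : ContDiff ℝ (⊤ : ℕ∞) (fun κ => α (ψ κ s y) * D.sg ψ κ s y ^ i) :=
      slice_smooth _ (hH i) (s, y)
    refine taylor (fun κ => α (ψ κ s y) * D.sg ψ κ s y ^ i) hsm J (max B 0) ?_ κ h0 h1
    intro x hx0 hx1
    refine le_trans ?_ (le_max_left _ _)
    have := hB (x, s, y) ⟨⟨hx0, hx1⟩, ⟨abs_le.1 hs, by
      rw [mem_closedBall_zero_iff]
      exact (not_le.1 hy).le⟩⟩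
    simpa [Real.norm_eq_abs] using this

end Pool.Agent.WPG
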