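import Pool.Agent.WPG.Stmts

/-!
# General warped products, module FL: the flows   (helper30)
-/

set_option autoImplicit false

namespace Pool.Agent.WPG

open MeasureTheory Set Filter Topology

namespace FLAux

variable {n : ℕ} (D : HD n)

/-- the energy is differentiable -/
theorem differentiable_en (κ : ℝ) : Differentiable ℝ (D.en κ) := by
  have hA : Differentiable ℝ (fun z : P n => D.A z.1) :=
    (D.As.comp contDiff_fst).differentiable (by simp)
  have h1 : Differentiable ℝ (fun z : P n => D.A z.1 z.2) := hA.clm_apply differentiable_snd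
  have h2 : Differentiable ℝ D.k := by
    unfold HD.k
    exact h1.inner ℝ differentiable_snd
  have h3 : Differentiable ℝ (fun z : P n => D.u z.1) :=
    (D.us.comp contDiff_fst).differentiable (by simp)
  unfold HD.en
  exact h2.add (h3.const_mul κ)

end FLAux

theorem fl (hG : Pool.Agent.WPD.Stmt_GF) (hL : Pool.Agent.WPD.Stmt_LV) (hC : Stmt_SFC)
    (hZ : Stmt_ZX) : Stmt_FL := by
  intro n D
  obtain ⟨Z, L, C, c1, lip, bd, tr, en, hY⟩ := hZ n D
  have hW : LipschitzWith (max 0 L) (fun q : ℝ × P n => ((0 : ℝ), Z q.1 q.2)) :=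
    (LipschitzWith.const (0 : ℝ)).prodMk lip
  obtain ⟨Φ, h0, hadd, hc, hd⟩ := hG (ℝ × P n) (fun q => ((0 : ℝ), Z q.1 q.2)) _ hW
  -- the first component is constant
  have hfst : ∀ s q, (Φ s q).1 = q.1 := by
    intro s q
    have hder : ∀ r : ℝ, HasDerivAt (fun r => (Φ r q).1) 0 r := by
      intro r
      have h1 := (hasFDerivAt_fst (𝕜 := ℝ) (p := Φ r q)).comp_hasDerivAt r (hd r q)
      exact h1
    have h3 := is_const_of_deriv_eq_zero (f := fun r => (Φ r q).1)
      (fun r => (hder r).differentiableAt) (fun r => (hder r).deriv) s 0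
    simp only [h0] at h3
    exact h3
  have hsmooth : ContDiff ℝ (⊤ : ℕ∞) (fun p : ℝ × (ℝ × P n) => Φ p.1 p.2) :=
    hC (ℝ × P n) (fun q => ((0 : ℝ), Z q.1 q.2)) (contDiff_const.prodMk c1) Φ h0 hd
  set φ : ℝ → ℝ → P n → P n := fun κ s z => (Φ s (κ, z)).2 with hφ
  have hpair : ∀ κ s z, Φ s (κ, z) = (κ, φ κ s z) := fun κ s z =>
    Prod.ext (hfst s (κ, z)) rfl
  have hzero : ∀ κ z, φ κ 0 z = z := fun κ z => by rw [hφ]; simp only [h0]
  have hadd' : ∀ κ s t z, φ κ (s + t) z = φ κ s (φ κ t z) := by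
    intro κ s t z
    have h1 : φ κ (s + t) z = (Φ (s + t) (κ, z)).2 := rfl
    rw [h1, hadd, hpair κ t z]
  have hder : ∀ κ s z, HasDerivAt (fun r => φ κ r z) (Z κ (φ κ s z)) s := by
    intro κ s z
    have h1 := (hasFDerivAt_snd (𝕜 := ℝ) (p := Φ s (κ, z))).comp_hasDerivAt s (hd s (κ, z))
    have h2 : Z (Φ s (κ, z)).1 (Φ s (κ, z)).2 = Z κ (φ κ s z) := by rw [hpair]
    have h3 : HasDerivAt (fun r => φ κ r z) (Z (Φ s (κ, z)).1 (Φ s (κ, z)).2) s := h1
    rwa [h2] at h3
  have hen : ∀ κ s z, 0 ≤ κ → κ ≤ 1 → D.en κ (φ κ s z) = D.en κ z := by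
    intro κ s z hκ0 hκ1
    have hder2 : ∀ r : ℝ, HasDerivAt (fun r => D.en κ (φ κ r z)) 0 r := by
      intro r
      have h1 := (FLAux.differentiable_en D κ (φ κ r z)).hasFDerivAt
      have h2 := h1.comp_hasDerivAt r (hder κ r z)
      rw [en κ _ hκ0 hκ1] at h2
      exact h2
    have h3 := is_const_of_deriv_eq_zero (f := fun r => D.en κ (φ κ r z))
      (fun r => (hder2 r).differentiableAt) (fun r => (hder2 r).deriv) s 0
    simp only [hzero] at h3
    exact h3
  refine ⟨φ, ?_⟩
  refine { smooth := ?_, zero := hzero, add := hadd', energy := hen, deriv := ?_, move := ?_,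
           pres := ?_ }
  · have h1 : ContDiff ℝ (⊤ : ℕ∞) (fun q : ℝ × ℝ × P n => ((q.2.1, (q.1, q.2.2)) : ℝ × (ℝ × P n))) :=
      (contDiff_fst.comp contDiff_snd).prodMk
        (contDiff_fst.prodMk (contDiff_snd.comp contDiff_snd))
    exact contDiff_snd.comp (hsmooth.comp h1)
  · intro κ s z hκ0 hκ1 hz
    have h1 := hder κ s z
    rw [hY κ (φ κ s z) hκ0 hκ1 (by rw [hen κ s z hκ0 hκ1]; exact hz)] at h1
    exact h1
  · refine ⟨C, fun κ s z => ?_⟩
    have h1 := Convex.norm_image_sub_le_of_norm_hasDerivWithin_le (f := fun r => φ κ r z)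
      (f' := fun r => Z κ (φ κ r z)) (s := univ) (x := 0) (y := s) (C := C)
      (fun r _ => (hder κ r z).hasDerivWithinAt) (fun r _ => bd _ _) convex_univ (mem_univ _)
      (mem_univ _)
    simp only [hzero, sub_zero, Real.norm_eq_abs] at h1
    exact h1
  · intro κ
    have := haarP n
    have e1 : ContDiff ℝ 1 (Z κ) := by
      have h1 : ContDiff ℝ (⊤ : ℕ∞) (fun z : P n => ((κ, z) : ℝ × P n)) :=
        contDiff_const.prodMk contDiff_id
      exact (c1.comp h1).of_le (by exact_mod_cast le_top)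
    have e2 : LipschitzWith L (Z κ) := by
      have h1 : LipschitzWith 1 (fun z : P n => ((κ, z) : ℝ × P n)) := by
        intro z z'
        rw [Prod.edist_eq, edist_self]
        simp
      have h2 := lip.comp h1
      rw [mul_one] at h2
      exact h2
    have e3 : Continuous (fun p : ℝ × P n => φ κ p.1 p.2) := by
      have h1 : Continuous (fun p : ℝ × P n => ((p.1, (κ, p.2)) : ℝ × (ℝ × P n))) := by
        fun_prop
      exact continuous_snd.comp (hc.comp h1)
    exact hL (P n) volume (Z κ) L C e1 e2 (bd κ) (tr κ) (φ κ) (hzero κ) (hadd' κ) e3 (hder κ)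

end Pool.Agent.WPG
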