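import Pool.Agent.WPG.Stmts

/-!
# General warped products: the isotropic covector fields span (helper75)
-/

set_option autoImplicit false

namespace Pool.Agent.WPG

namespace FRMAux

variable {n : ℕ}

/-- the covector with the entries `p` at `0` and `q` at `k + 1` -/
def bb (p q : ℂ) (k : Fin (n + 1)) : Fin (n + 2) → ℂ := Fin.cons p (fun j => if j = k then q else 0)

lemma sum_bb (F : Fin (n + 2) → ℂ) (p q : ℂ) (k : Fin (n + 1)) :
    ∑ l, F l * bb p q k l = F 0 * p + F k.succ * q := by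
  rw [Fin.sum_univ_succ]
  simp [bb]

/-- the entries of the matrix -/
noncomputable def en (D : HD (n + 2)) (i l : Fin (n + 2)) (x : E (n + 2)) : ℝ :=
  D.A x (EuclideanSpace.single l 1) i

lemma inner_single (v : E (n + 2)) (i : Fin (n + 2)) :
    inner ℝ v (EuclideanSpace.single i (1 : ℝ)) = v i := by
  rw [EuclideanSpace.inner_single_right]
  simp

lemma en_smooth (D : HD (n + 2)) (i l : Fin (n + 2)) : ContDiff ℝ (⊤ : ℕ∞) (en D i l) :=
  contDiff_euclidean.1 (D.As.clm_apply contDiff_const) i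

lemma en_symm (D : HD (n + 2)) (i l : Fin (n + 2)) (x : E (n + 2)) : en D i l x = en D l i x := by
  have h := D.sym x (EuclideanSpace.single l 1) (EuclideanSpace.single i 1)
  rw [inner_single, real_inner_comm, inner_single] at h
  exact h

lemma expand (D : HD (n + 2)) (x : E (n + 2)) (i l : Fin (n + 2)) (s t : ℝ) :
    inner ℝ (D.A x (s • EuclideanSpace.single i 1 + t • EuclideanSpace.single l 1))
      (s • EuclideanSpace.single i (1 : ℝ) + t • EuclideanSpace.single l 1) =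
    s ^ 2 * en D i i x + 2 * s * t * en D i l x + t ^ 2 * en D l l x := by
  rw [map_add, map_smul, map_smul]
  simp only [inner_add_left, inner_add_right, real_inner_smul_left, real_inner_smul_right,
    inner_single]
  have h := en_symm D i l x
  simp only [en] at h ⊢
  rw [h]
  ring

lemma en_pos (D : HD (n + 2)) (i : Fin (n + 2)) (x : E (n + 2)) : 0 < en D i i x := by
  have h := D.lo x (EuclideanSpace.single i 1)
  rw [inner_single, PiLp.norm_single, norm_one] at h
  have := D.a0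
  have h2 : D.a ≤ en D i i x := by
    rw [one_pow, mul_one] at h
    exact h
  linarith

lemma gram_pos (D : HD (n + 2)) (k : Fin (n + 1)) (x : E (n + 2)) :
    0 < en D 0 0 x * en D k.succ k.succ x - en D 0 k.succ x ^ 2 := by
  set v : E (n + 2) := (-en D 0 k.succ x) • EuclideanSpace.single 0 (1 : ℝ) +
    (en D 0 0 x) • EuclideanSpace.single k.succ 1 with hv
  have h := D.lo x v
  have he := expand D x 0 k.succ (-en D 0 k.succ x) (en D 0 0 x)
  rw [← hv] at he
  rw [he] at h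
  have hpos := en_pos D 0 x
  have hv0 : v ≠ 0 := by
    intro h0
    have h1 : v k.succ = 0 := by rw [h0]; rfl
    have h2 : v k.succ = en D 0 0 x := by
      rw [hv]
      simp [PiLp.add_apply, PiLp.smul_apply, Fin.succ_ne_zero]
    rw [h1] at h2
    exact hpos.ne h2
  have hn : 0 < D.a * ‖v‖ ^ 2 := mul_pos D.a0 (pow_pos (norm_pos_iff.2 hv0) 2)
  have h3 : 0 < en D 0 0 x * (en D 0 0 x * en D k.succ k.succ x - en D 0 k.succ x ^ 2) := by
    refine lt_of_lt_of_le hn (h.trans (le_of_eq ?_))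
    ring
  exact (pos_iff_pos_of_mul_pos h3).1 hpos

/-- the square root of the Gram determinant -/
noncomputable def rt (D : HD (n + 2)) (k : Fin (n + 1)) (x : E (n + 2)) : ℝ :=
  Real.sqrt (en D 0 0 x * en D k.succ k.succ x - en D 0 k.succ x ^ 2)

lemma rt_sq (D : HD (n + 2)) (k : Fin (n + 1)) (x : E (n + 2)) :
    rt D k x ^ 2 = en D 0 0 x * en D k.succ k.succ x - en D 0 k.succ x ^ 2 :=
  Real.sq_sqrt (gram_pos D k x).le

lemma rt_ne (D : HD (n + 2)) (k : Fin (n + 1)) (x : E (n + 2)) : rt D k x ≠ 0 :=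
  (Real.sqrt_pos.2 (gram_pos D k x)).ne'

lemma rt_smooth (D : HD (n + 2)) (k : Fin (n + 1)) : ContDiff ℝ (⊤ : ℕ∞) (rt D k) :=
  ((((en_smooth D 0 0).mul (en_smooth D k.succ k.succ)).sub ((en_smooth D 0 k.succ).pow 2))).sqrt
    fun x => (gram_pos D k x).ne'

lemma ofReal_smooth {f : E (n + 2) → ℝ} (hf : ContDiff ℝ (⊤ : ℕ∞) f) :
    ContDiff ℝ (⊤ : ℕ∞) (fun x => (f x : ℂ)) := Complex.ofRealCLM.contDiff.comp hf

/-- the signs -/
def sg (s : Fin 2) : ℂ := if s = 0 then 1 else -1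

lemma sg_sq (s : Fin 2) : sg s ^ 2 = 1 := by
  unfold sg
  split_ifs <;> norm_num

/-- the isotropic covector fields -/
noncomputable def bf (D : HD (n + 2)) (p : Fin (n + 1) × Fin 2) (x : E (n + 2)) :
    Fin (n + 2) → ℂ :=
  bb ((rt D p.1 x : ℂ) - sg p.2 * Complex.I * (en D 0 p.1.succ x : ℂ))
    (sg p.2 * Complex.I * (en D 0 0 x : ℂ)) p.1

lemma bf_iso (D : HD (n + 2)) (p : Fin (n + 1) × Fin 2) : D.Iso (bf D p) := by
  refine ⟨fun i => ?_, fun x => ?_⟩
  · refine Fin.cases ?_ (fun j => ?_) i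
    · exact (ofReal_smooth (rt_smooth D p.1)).sub
        (contDiff_const.mul (ofReal_smooth (en_smooth D 0 p.1.succ)))
    · by_cases h : j = p.1
      · have e1 : (fun x => bf D p x j.succ) = fun x => sg p.2 * Complex.I * (en D 0 0 x : ℂ) := by
          funext x
          simp [bf, bb, h]
        rw [e1]
        exact contDiff_const.mul (ofReal_smooth (en_smooth D 0 0))
      · have e1 : (fun x => bf D p x j.succ) = fun _ => 0 := by
          funext x
          simp [bf, bb, h]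
        rw [e1]
        exact contDiff_const
  · have h1 : ∀ i : Fin (n + 2), ∑ l, (D.A x (EuclideanSpace.single l 1) i : ℂ) *
        bf D p x i * bf D p x l =
        ((en D i 0 x : ℂ) * ((rt D p.1 x : ℂ) - sg p.2 * Complex.I * (en D 0 p.1.succ x : ℂ)) +
          (en D i p.1.succ x : ℂ) * (sg p.2 * Complex.I * (en D 0 0 x : ℂ))) * bf D p x i := by
      intro i
      rw [← sum_bb (fun l => (en D i l x : ℂ)), Finset.sum_mul]
      refine Finset.sum_congr rfl fun l _ => ?_
      simp only [bf, en]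
      ring
    rw [Finset.sum_congr rfl fun i _ => h1 i]
    rw [bf, sum_bb]
    have h2 := sg_sq p.2
    have h3 : (rt D p.1 x : ℂ) ^ 2 =
        (en D 0 0 x : ℂ) * (en D p.1.succ p.1.succ x : ℂ) - (en D 0 p.1.succ x : ℂ) ^ 2 := by
      exact_mod_cast rt_sq D p.1 x
    have h4 : (en D p.1.succ 0 x : ℂ) = (en D 0 p.1.succ x : ℂ) := by
      rw [en_symm]
    rw [h4]
    have hI := Complex.I_sq
    generalize (en D 0 0 x : ℂ) = α at *
    generalize (en D 0 p.1.succ x : ℂ) = β at *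
    generalize (en D p.1.succ p.1.succ x : ℂ) = γ at *
    generalize (rt D p.1 x : ℂ) = r at *
    generalize sg p.2 = σ at *
    generalize Complex.I = I at *
    linear_combination α * h3 + (α * β ^ 2 * I ^ 2 - 2 * α * β ^ 2 * I ^ 2 + α ^ 2 * γ * I ^ 2) * h2 +
      (α * β ^ 2 - 2 * α * β ^ 2 + α ^ 2 * γ) * hI

/-- the coefficients -/
noncomputable def cf (D : HD (n + 2)) (w : Fin (n + 2) → E (n + 2) → ℝ)
    (p : Fin (n + 1) × Fin 2) (x : E (n + 2)) : ℂ :=
  ((w p.1.succ x * en D 0 p.1.succ x / (2 * en D 0 0 x * rt D p.1 x) +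
    (if p.1 = 0 then w 0 x / (2 * rt D p.1 x) else 0) : ℝ) : ℂ) -
    sg p.2 * Complex.I * ((w p.1.succ x / (2 * en D 0 0 x) : ℝ) : ℂ)

lemma cf_smooth (D : HD (n + 2)) (w : Fin (n + 2) → E (n + 2) → ℝ)
    (hw : ∀ m, ContDiff ℝ (⊤ : ℕ∞) (w m)) (p : Fin (n + 1) × Fin 2) :
    ContDiff ℝ (⊤ : ℕ∞) (cf D w p) := by
  have h0 : ContDiff ℝ (⊤ : ℕ∞) fun x => 2 * en D 0 0 x * rt D p.1 x :=
    (contDiff_const.mul (en_smooth D 0 0)).mul (rt_smooth D p.1)
  have h1 : ContDiff ℝ (⊤ : ℕ∞) fun x => 2 * rt D p.1 x := contDiff_const.mul (rt_smooth D p.1)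
  have h2 : ContDiff ℝ (⊤ : ℕ∞) fun x => 2 * en D 0 0 x := contDiff_const.mul (en_smooth D 0 0)
  refine (ofReal_smooth (ContDiff.add ?_ ?_)).sub (contDiff_const.mul (ofReal_smooth ?_))
  · exact ((hw _).mul (en_smooth D 0 p.1.succ)).div h0 fun x =>
      mul_ne_zero (mul_ne_zero two_ne_zero (en_pos D 0 x).ne') (rt_ne D p.1 x)
  · by_cases h : p.1 = 0
    · simp only [if_pos h]
      exact (hw 0).div h1 fun x => mul_ne_zero two_ne_zero (rt_ne D p.1 x)
    · simp only [if_neg h]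
      exact contDiff_const
  · exact (hw _).div h2 fun x => mul_ne_zero two_ne_zero (en_pos D 0 x).ne'

lemma cf_zero (D : HD (n + 2)) (w : Fin (n + 2) → E (n + 2) → ℝ) (k : Fin (n + 1))
    (x : E (n + 2)) :
    ∑ s : Fin 2, cf D w (k, s) x *
      ((rt D k x : ℂ) - sg s * Complex.I * (en D 0 k.succ x : ℂ)) =
    if k = 0 then (w 0 x : ℂ) else 0 := by
  have hα : (en D 0 0 x : ℂ) ≠ 0 := by exact_mod_cast (en_pos D 0 x).ne'
  have hr : (rt D k x : ℂ) ≠ 0 := by exact_mod_cast rt_ne D k x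
  have hI := Complex.I_sq
  rw [Fin.sum_univ_two]
  simp only [cf, sg]
  by_cases h : k = 0
  · subst h
    simp only [if_true, one_ne_zero, if_false]
    push_cast
    field_simp
    linear_combination (2 * (w (0 : Fin (n + 1)).succ x : ℂ) *
      (en D 0 (0 : Fin (n + 1)).succ x : ℂ) * (rt D 0 x : ℂ)) * hI
  · simp only [if_neg h, one_ne_zero, if_false, if_true]
    push_cast
    field_simp
    linear_combination (2 * (w k.succ x : ℂ) * (en D 0 k.succ x : ℂ) * (rt D k x : ℂ)) * hI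

lemma cf_one (D : HD (n + 2)) (w : Fin (n + 2) → E (n + 2) → ℝ) (k : Fin (n + 1))
    (x : E (n + 2)) :
    ∑ s : Fin 2, cf D w (k, s) x * (sg s * Complex.I * (en D 0 0 x : ℂ)) = (w k.succ x : ℂ) := by
  have hα : (en D 0 0 x : ℂ) ≠ 0 := by exact_mod_cast (en_pos D 0 x).ne'
  have hr : (rt D k x : ℂ) ≠ 0 := by exact_mod_cast rt_ne D k x
  have hI := Complex.I_sq
  rw [Fin.sum_univ_two]
  simp only [cf, sg, if_true, one_ne_zero, if_false]
  generalize (if k = 0 then w 0 x / (2 * rt D k x) else 0) = u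
  push_cast
  field_simp
  linear_combination (-2 * (w k.succ x : ℂ) * (rt D k x : ℂ)) * hI

lemma A_sum (D : HD (n + 2)) (x w : E (n + 2)) (i : Fin (n + 2)) :
    ∑ m, en D i m x * w m = D.A x w i := by
  have h := (EuclideanSpace.basisFun (Fin (n + 2)) ℝ).sum_repr w
  simp only [EuclideanSpace.basisFun_apply, EuclideanSpace.basisFun_repr] at h
  have h2 : D.A x w = ∑ m, w m • D.A x (EuclideanSpace.single m 1) := by
    conv_lhs => rw [← h]
    rw [map_sum]
    exact Finset.sum_congr rfl fun m _ => map_smul _ _ _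
  rw [h2]
  simp only [en]
  rw [show (∑ m, w m • D.A x (EuclideanSpace.single m 1)) i =
    ∑ m, (w m • D.A x (EuclideanSpace.single m 1)) i by simp]
  refine Finset.sum_congr rfl fun m _ => ?_
  rw [PiLp.smul_apply, smul_eq_mul, mul_comm]

lemma A_inj (D : HD (n + 2)) (x : E (n + 2)) : Function.Injective (D.A x) := by
  rw [injective_iff_map_eq_zero]
  intro v hv
  have h := D.lo x v
  rw [hv, inner_zero_left] at h
  by_contra h0
  have := mul_pos D.a0 (pow_pos (norm_pos_iff.2 h0) 2)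
  linarith

/-- `A x` is invertible -/
noncomputable def eqv (D : HD (n + 2)) (x : E (n + 2)) : E (n + 2) ≃L[ℝ] E (n + 2) :=
  (LinearEquiv.ofInjectiveEndo (D.A x : E (n + 2) →ₗ[ℝ] E (n + 2))
    (A_inj D x)).toContinuousLinearEquiv

lemma eqv_coe (D : HD (n + 2)) (x : E (n + 2)) :
    (eqv D x : E (n + 2) →L[ℝ] E (n + 2)) = D.A x := by
  ext v
  rfl

lemma inv_smooth (D : HD (n + 2)) (v : E (n + 2)) :
    ContDiff ℝ (⊤ : ℕ∞) fun x => (D.A x).inverse v := by
  have h : ContDiff ℝ (⊤ : ℕ∞) fun x => (D.A x).inverse := by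
    rw [contDiff_iff_contDiffAt]
    intro x
    have h1 : ContDiffAt ℝ (⊤ : ℕ∞) ContinuousLinearMap.inverse (D.A x) := by
      rw [← eqv_coe]
      exact contDiffAt_map_inverse _
    exact h1.comp x D.As.contDiffAt
  exact h.clm_apply contDiff_const

lemma inv_apply (D : HD (n + 2)) (x v : E (n + 2)) : D.A x ((D.A x).inverse v) = v := by
  conv_lhs => rw [← eqv_coe, ContinuousLinearMap.inverse_equiv]
  exact (eqv D x).apply_symm_apply v

/-- the coordinates of `A⁻¹ e_l` -/
noncomputable def wi (D : HD (n + 2)) (l m : Fin (n + 2)) (x : E (n + 2)) : ℝ :=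
  (D.A x).inverse (EuclideanSpace.single l 1) m

lemma wi_smooth (D : HD (n + 2)) (l m : Fin (n + 2)) : ContDiff ℝ (⊤ : ℕ∞) (wi D l m) :=
  contDiff_euclidean.1 (inv_smooth D (EuclideanSpace.single l 1)) m

lemma wi_sum (D : HD (n + 2)) (l i : Fin (n + 2)) (x : E (n + 2)) :
    ∑ m, en D i m x * wi D l m x = if i = l then 1 else 0 := by
  unfold wi
  rw [A_sum, inv_apply]
  simp

lemma vf_bf (D : HD (n + 2)) (p : Fin (n + 1) × Fin 2) (g : E (n + 2) → ℂ) (x : E (n + 2)) :
    D.vf (bf D p) g x = ∑ i,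
      ((en D i 0 x : ℂ) * ((rt D p.1 x : ℂ) - sg p.2 * Complex.I * (en D 0 p.1.succ x : ℂ)) +
        (en D i p.1.succ x : ℂ) * (sg p.2 * Complex.I * (en D 0 0 x : ℂ))) *
      fderiv ℝ g x (EuclideanSpace.single i 1) := by
  unfold HD.vf
  refine Finset.sum_congr rfl fun i _ => ?_
  rw [← sum_bb (fun l => (en D i l x : ℂ))]
  rfl

lemma main (D : HD (n + 2)) (g : E (n + 2) → ℂ) (l : Fin (n + 2)) (x : E (n + 2)) :
    ∑ p : Fin (n + 1) × Fin 2, cf D (wi D l) p x * D.vf (bf D p) g x =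
      fderiv ℝ g x (EuclideanSpace.single l 1) := by
  simp only [vf_bf, Finset.mul_sum]
  rw [Finset.sum_comm]
  have h1 : ∀ i : Fin (n + 2), ∑ p : Fin (n + 1) × Fin 2, cf D (wi D l) p x *
      (((en D i 0 x : ℂ) * ((rt D p.1 x : ℂ) - sg p.2 * Complex.I * (en D 0 p.1.succ x : ℂ)) +
        (en D i p.1.succ x : ℂ) * (sg p.2 * Complex.I * (en D 0 0 x : ℂ))) *
      fderiv ℝ g x (EuclideanSpace.single i 1)) =
      (if i = l then 1 else 0) * fderiv ℝ g x (EuclideanSpace.single i 1) := by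
    intro i
    rw [Finset.sum_congr rfl fun p _ => (mul_assoc (cf D (wi D l) p x) _ _).symm,
      ← Finset.sum_mul]
    congr 1
    rw [Finset.sum_congr rfl fun p _ => mul_add (cf D (wi D l) p x) _ _,
      Finset.sum_add_distrib, Fintype.sum_prod_type, Fintype.sum_prod_type]
    have e1 : ∑ k : Fin (n + 1), ∑ s : Fin 2, cf D (wi D l) (k, s) x *
        ((en D i 0 x : ℂ) * ((rt D k x : ℂ) - sg s * Complex.I * (en D 0 k.succ x : ℂ))) =
        (en D i 0 x : ℂ) * (wi D l 0 x : ℂ) := by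
      have : ∀ k : Fin (n + 1), ∑ s : Fin 2, cf D (wi D l) (k, s) x *
        ((en D i 0 x : ℂ) * ((rt D k x : ℂ) - sg s * Complex.I * (en D 0 k.succ x : ℂ))) =
        (en D i 0 x : ℂ) * (if k = 0 then (wi D l 0 x : ℂ) else 0) := by
        intro k
        rw [← cf_zero D (wi D l) k x, Finset.mul_sum]
        exact Finset.sum_congr rfl fun s _ => by ring
      rw [Finset.sum_congr rfl fun k _ => this k, ← Finset.mul_sum]
      simp
    have e2 : ∑ k : Fin (n + 1), ∑ s : Fin 2, cf D (wi D l) (k, s) x *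
        ((en D i k.succ x : ℂ) * (sg s * Complex.I * (en D 0 0 x : ℂ))) =
        ∑ k : Fin (n + 1), (en D i k.succ x : ℂ) * (wi D l k.succ x : ℂ) := by
      refine Finset.sum_congr rfl fun k _ => ?_
      rw [← cf_one D (wi D l) k x, Finset.mul_sum]
      exact Finset.sum_congr rfl fun s _ => by ring
    have e3 := wi_sum D l i x
    rw [Fin.sum_univ_succ] at e3
    rw [e1, e2]
    have e4 := congrArg (fun r : ℝ => (r : ℂ)) e3
    push_cast at e4
    rw [e4]
    split_ifs <;> simp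
  rw [Finset.sum_congr rfl fun i _ => h1 i]
  simp

end FRMAux

theorem frm : Stmt_FRM := by
  intro n D
  refine ⟨(n + 1) * 2, fun i => FRMAux.bf D (finProdFinEquiv.symm i),
    fun l i => FRMAux.cf D (FRMAux.wi D l) (finProdFinEquiv.symm i), fun i => FRMAux.bf_iso D _,
    fun l i => FRMAux.cf_smooth D _ (FRMAux.wi_smooth D l) _, fun g _ l x => ?_⟩
  rw [← FRMAux.main D g l x]
  exact (Equiv.sum_comp finProdFinEquiv.symm fun p : Fin (n + 1) × Fin 2 =>
    FRMAux.cf D (FRMAux.wi D l) p x * D.vf (FRMAux.bf D p) g x).symm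

end Pool.Agent.WPG
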