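import Pool.Agent.WPG.Geo

/-!
# General warped products: the curves are geodesics
-/

set_option autoImplicit false

namespace Pool.Agent.WPG

open MeasureTheory Set Filter Topology Pool.Agent.XRay

namespace GEOAux

/-- the derivative of the metric on the velocities -/
lemma metA {n : ℕ} {g : E n → E n →L[ℝ] E n →L[ℝ] ℝ} (hg : IsMetric g)
    {A : E n → E n →L[ℝ] E n} {x : E n} (hA : DifferentiableAt ℝ A x)
    (h : ∀ᶠ y in 𝓝 x, ∀ p v, g y (A y p) v = inner ℝ p v) (p v : E n) :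
    fderiv ℝ g x v (A x p) (A x p) = -fderiv ℝ (fun y => inner ℝ (A y p) p) x v := by
  have h1 : HasFDerivAt (fun y => A y p) ((fderiv ℝ A x).flip p) x := by
    have := hA.hasFDerivAt.clm_apply (hasFDerivAt_const p x)
    refine this.congr_fderiv ?_
    ext v
    simp
  have h2 : HasFDerivAt (fun y => inner ℝ (A y p) p)
      ((innerSL ℝ p).comp ((fderiv ℝ A x).flip p)) x := by
    have h3 := (innerSL ℝ p).hasFDerivAt.comp x h1
    refine h3.congr_of_eventuallyEq (Eventually.of_forall fun y => ?_)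
    simp [real_inner_comm]
  have h4 : HasFDerivAt (fun y => g y (A y p) (A x p))
      (0 : E n →L[ℝ] ℝ) x := by
    refine (hasFDerivAt_const (inner ℝ p (A x p)) x).congr_of_eventuallyEq ?_
    filter_upwards [h] with y hy
    exact hy p (A x p)
  have h5 := ((hg.diff x).hasFDerivAt.clm_apply h1).clm_apply (hasFDerivAt_const (A x p) x)
  have h6 := congrArg (fun L : E n →L[ℝ] ℝ => L v) (h5.unique h4)
  simp only [ContinuousLinearMap.comp_zero, zero_add, ContinuousLinearMap.flip_add,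
    add_apply, ContinuousLinearMap.flip_apply,
    ContinuousLinearMap.coe_comp, Function.comp_apply, zero_apply] at h6
  have h7 := h.self_of_nhds
  have h8 : g x (fderiv ℝ A x v p) (A x p) = inner ℝ p (fderiv ℝ A x v p) := by
    rw [hg.symm, h7]
  rw [h2.fderiv]
  simp only [ContinuousLinearMap.coe_comp, Function.comp_apply, ContinuousLinearMap.flip_apply,
    innerSL_apply_apply]
  rw [← h8]
  linarith

/-- the linear map `f ↦ f(L ·, L ·)` -/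
noncomputable def bilL {m : ℕ} {V : Type} [NormedAddCommGroup V] [NormedSpace ℝ V]
    (L : V →L[ℝ] E m) : (E m →L[ℝ] E m →L[ℝ] ℝ) →ₗ[ℝ] (V →L[ℝ] V →L[ℝ] ℝ) where
  toFun := fun f => f.bilinearComp L L
  map_add' := fun f f' => by ext v w; simp
  map_smul' := fun c f => by ext v w; simp

lemma bilL_apply {m : ℕ} {V : Type} [NormedAddCommGroup V] [NormedSpace ℝ V]
    (L : V →L[ℝ] E m) (f : E m →L[ℝ] E m →L[ℝ] ℝ) (v w : V) : bilL L f v w = f (L v) (L w) := by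
  simp [bilL]

/-- the continuous linear map `f ↦ f(L ·, L ·)` -/
noncomputable def bil {m : ℕ} {V : Type} [NormedAddCommGroup V] [NormedSpace ℝ V]
    (L : V →L[ℝ] E m) : (E m →L[ℝ] E m →L[ℝ] ℝ) →L[ℝ] (V →L[ℝ] V →L[ℝ] ℝ) where
  toLinearMap := bilL L
  cont := LinearMap.continuous_of_finiteDimensional (𝕜 := ℝ) (E := E m →L[ℝ] E m →L[ℝ] ℝ)
    (F' := V →L[ℝ] V →L[ℝ] ℝ) (bilL L)

lemma bil_apply {m : ℕ} {V : Type} [NormedAddCommGroup V] [NormedSpace ℝ V]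
    (L : V →L[ℝ] E m) (f : E m →L[ℝ] E m →L[ℝ] ℝ) (v w : V) : bil L f v w = f (L v) (L w) :=
  bilL_apply L f v w

lemma comp3 {V W F F' : Type} [NormedAddCommGroup V] [NormedSpace ℝ V] [NormedAddCommGroup W]
    [NormedSpace ℝ W] [NormedAddCommGroup F] [NormedSpace ℝ F] [NormedAddCommGroup F']
    [NormedSpace ℝ F'] (Φ : F →L[ℝ] F') {g : W → F} (hg : Differentiable ℝ g) (L : V →L[ℝ] W)
    (z : V) : HasFDerivAt (fun z => Φ (g (L z))) (Φ.comp ((fderiv ℝ g (L z)).comp L)) z :=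
  Φ.hasFDerivAt.comp z ((hg (L z)).hasFDerivAt.comp z L.hasFDerivAt)

lemma gpart {m : ℕ} {V : Type} [NormedAddCommGroup V] [NormedSpace ℝ V] (L : V →L[ℝ] E m)
    {g : E m → E m →L[ℝ] E m →L[ℝ] ℝ} (hg : Differentiable ℝ g) (z : V) :
    ∃ G' : V →L[ℝ] V →L[ℝ] V →L[ℝ] ℝ, HasFDerivAt (fun z => (g (L z)).bilinearComp L L) G' z ∧
      ∀ v w w', G' v w w' = fderiv ℝ g (L z) (L v) (L w) (L w') := by
  have h := comp3 (F := E m →L[ℝ] E m →L[ℝ] ℝ) (F' := V →L[ℝ] V →L[ℝ] ℝ) (bil L) hg L z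
  refine ⟨_, h, fun v w w' => ?_⟩
  exact bil_apply L _ w w'

lemma smulpart {V F : Type} [NormedAddCommGroup V] [NormedSpace ℝ V] [NormedAddCommGroup F]
    [NormedSpace ℝ F] {ϕ : V → ℝ} {ϕ' : V →L[ℝ] ℝ} {k : V → F} {k' : V →L[ℝ] F} {g : V → F}
    {g' : V →L[ℝ] F} {z : V} (h1 : HasFDerivAt ϕ ϕ' z) (h2 : HasFDerivAt k k' z)
    (h3 : HasFDerivAt g g' z) : ∃ G' : V →L[ℝ] F, HasFDerivAt (fun z => g z + ϕ z • k z) G' z ∧
      ∀ v, G' v = g' v + (ϕ z • k' v + ϕ' v • k z) := by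
  refine ⟨_, h3.add (h1.smul h2), fun v => ?_⟩
  simp

/-- the derivative of `wf` -/
lemma fderiv_wf {a n : ℕ} {g : E a → E a →L[ℝ] E a →L[ℝ] ℝ} {ϕ : E a → ℝ}
    {k : E (n + 2) → E (n + 2) →L[ℝ] E (n + 2) →L[ℝ] ℝ} (hM : Met g ϕ k) (z v w w' : Sp a n) :
    fderiv ℝ (wf g ϕ k) z v w w' = fderiv ℝ g z.1 v.1 w.1 w'.1 +
      (fderiv ℝ ϕ z.1 v.1 * k z.2 w.2 w'.2 + ϕ z.1 * fderiv ℝ k z.2 v.2 w.2 w'.2) := by
  obtain ⟨g', h1, e1⟩ := gpart (ContinuousLinearMap.fst ℝ (E a) (E (n + 2))) hM.metg.diff z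
  obtain ⟨k', h2, e2⟩ := gpart (ContinuousLinearMap.snd ℝ (E a) (E (n + 2))) hM.metk.diff z
  have h3 : HasFDerivAt (fun z : Sp a n => ϕ z.1)
      ((fderiv ℝ ϕ z.1).comp (ContinuousLinearMap.fst ℝ (E a) (E (n + 2)))) z :=
    HasFDerivAt.comp (g := ϕ) z ((hM.ϕs.differentiable (by simp)) z.1).hasFDerivAt
      (ContinuousLinearMap.fst ℝ (E a) (E (n + 2))).hasFDerivAt
  obtain ⟨G', h4, e4⟩ := smulpart (F := Sp a n →L[ℝ] Sp a n →L[ℝ] ℝ) h3 h2 h1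
  have h6 : HasFDerivAt (wf g ϕ k) G' z := h4
  rw [h6.fderiv, e4]
  show g' v w w' + (ϕ z.1 * k' v w w' + fderiv ℝ ϕ z.1 v.1 *
    ((k z.2).bilinearComp (ContinuousLinearMap.snd ℝ (E a) (E (n + 2)))
      (ContinuousLinearMap.snd ℝ (E a) (E (n + 2))) w w')) = _
  rw [e1, e2]
  simp only [ContinuousLinearMap.bilinearComp_apply, ContinuousLinearMap.coe_fst',
    ContinuousLinearMap.coe_snd']
  ring

lemma inner_gradient {n : ℕ} (f : E n → ℝ) (x v : E n) :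
    inner ℝ (gradient f x) v = fderiv ℝ f x v := by
  unfold gradient
  rw [InnerProductSpace.toDual_symm_apply]

lemma inner_Y {n : ℕ} (D : HD n) (κ : ℝ) (w : P n) (v : E n) :
    inner ℝ (D.Y κ w).2 v = -(1 / 2 * fderiv ℝ (fun y => inner ℝ (D.A y w.2) w.2) w.1 v) -
      κ / 2 * fderiv ℝ D.u w.1 v := by
  show inner ℝ (-((1 / 2 : ℝ) • gradient (fun x => inner ℝ (D.A x w.2) w.2) w.1) -
    (κ / 2) • gradient D.u w.1) v = _
  rw [inner_sub_left, inner_neg_left, real_inner_smul_left, real_inner_smul_left,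
    inner_gradient, inner_gradient]

lemma fderiv_u {n : ℕ} {D : HD n} {g : E n → E n →L[ℝ] E n →L[ℝ] ℝ} {ϕ : E n → ℝ} {x : E n}
    (h : Rep D g ϕ x) (hd : DifferentiableAt ℝ ϕ x) (h0 : ϕ x ≠ 0) (v : E n) :
    fderiv ℝ D.u x v = -(fderiv ℝ ϕ x v / ϕ x ^ 2) := by
  have h1 : D.u =ᶠ[𝓝 x] fun y => (ϕ y)⁻¹ := by
    filter_upwards [h] with y hy
    exact hy.2
  have h2 : HasFDerivAt (fun y => (ϕ y)⁻¹) (-(ϕ x ^ 2)⁻¹ • fderiv ℝ ϕ x) x :=
    (hasDerivAt_inv h0).comp_hasFDerivAt x hd.hasFDerivAt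
  rw [h1.fderiv_eq, h2.fderiv]
  simp
  ring

end GEOAux

open GEOAux in
theorem geo : Stmt_GEO := by
  intro a n g ϕ k hM B K ψ φ hB hK ε y z r hε hε1 hz hr hr2 hen a' b' hab hrep
  have hk0 : 0 ≤ K.k z := by
    unfold HD.k
    exact le_trans (mul_nonneg K.a0.le (sq_nonneg _)) (K.lo z.1 z.2)
  have hκ0 : 0 ≤ ε ^ 2 * K.k z := mul_nonneg (sq_nonneg _) hk0
  have hκ1 : ε ^ 2 * K.k z ≤ 1 := by nlinarith
  have hK0 : ∀ w, K.en 0 w = K.k w := fun w => by simp [HD.en]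
  unfold crv at hrep ⊢
  generalize hκd : ε ^ 2 * K.k z = κ at *
  -- the flows
  have hX : ∀ s, HasDerivAt (fun s => ψ κ s y) (B.Y κ (ψ κ s y)) s := fun s =>
    hB.deriv κ s y hκ0 hκ1 (by rw [hen]; nlinarith)
  have hσ : ∀ s, HasDerivAt (fun s => B.sg ψ κ s y) (B.u (ψ κ s y).1) s := by
    intro s
    have hc : Continuous (fun r => B.u (ψ κ r y).1) := by
      refine B.us.continuous.comp (continuous_fst.comp ?_)
      exact continuous_iff_continuousAt.2 fun s => (hX s).continuousAt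
    exact intervalIntegral.integral_hasDerivAt_right (hc.intervalIntegrable _ _)
      (hc.stronglyMeasurableAtFilter _ _) hc.continuousAt
  have hQ : ∀ s, HasDerivAt (fun s => φ 0 (ε * B.sg ψ κ s y) z)
      ((ε * B.u (ψ κ s y).1) • K.Y 0 (φ 0 (ε * B.sg ψ κ s y) z)) s := by
    intro s
    exact (hK.deriv 0 (ε * B.sg ψ κ s y) z le_rfl zero_le_one (by rw [hK0]; linarith)).scomp s
      ((hσ s).const_mul ε)
  have hkQ : ∀ s, K.k (φ 0 (ε * B.sg ψ κ s y) z) = K.k z := by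
    intro s
    have h1 := hK.energy 0 (ε * B.sg ψ κ s y) z le_rfl zero_le_one
    rwa [hK0, hK0] at h1
  have hkX : ∀ s, B.k (ψ κ s y) + κ * B.u (ψ κ s y).1 = r ^ 2 := by
    intro s
    have h1 := hB.energy κ s y hκ0 hκ1
    rw [hen] at h1
    exact h1
  -- in the time `τ`
  have hdiv : ∀ τ : ℝ, HasDerivAt (fun τ => τ / r) r⁻¹ τ := by
    intro τ
    have h1 := (hasDerivAt_id τ).div_const r
    rwa [one_div] at h1
  obtain ⟨X, hXd⟩ : ∃ X : ℝ → P a, X = fun τ => ψ κ (τ / r) y := ⟨_, rfl⟩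
  obtain ⟨Q, hQd⟩ : ∃ Q : ℝ → P (n + 2), Q = fun τ => φ 0 (ε * B.sg ψ κ (τ / r) y) z := ⟨_, rfl⟩
  have hX' : ∀ τ, HasDerivAt X (r⁻¹ • B.Y κ (X τ)) τ := by
    intro τ
    rw [hXd]
    exact (hX (τ / r)).scomp τ (hdiv τ)
  have hQ' : ∀ τ, HasDerivAt Q ((r⁻¹ * (ε * B.u (X τ).1)) • K.Y 0 (Q τ)) τ := by
    intro τ
    rw [hXd, hQd]
    have h1 := (hQ (τ / r)).scomp τ (hdiv τ)
    rw [smul_smul] at h1
    exact h1
  have hkQ' : ∀ τ, K.k (Q τ) = K.k z := by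
    intro τ
    rw [hQd]
    exact hkQ _
  have hkX' : ∀ τ, B.k (X τ) + κ * B.u (X τ).1 = r ^ 2 := by
    intro τ
    rw [hXd]
    exact hkX _
  have hrep' : ∀ τ ∈ Ioo (r * a') (r * b'), Rep B g ϕ (X τ).1 ∧
      Rep K k (fun _ => 1) (Q τ).1 := by
    intro τ hτ
    rw [hXd, hQd]
    refine hrep (τ / r) ⟨?_, ?_⟩
    · rw [lt_div_iff₀ hr, mul_comm]
      exact hτ.1
    · rw [div_lt_iff₀ hr, mul_comm]
      exact hτ.2
  have hfun : (fun τ => ((ψ κ (τ / r) y).1, (φ 0 (ε * B.sg ψ κ (τ / r) y) z).1)) =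
      fun τ => (((X τ).1, (Q τ).1) : Sp a n) := by
    rw [hXd, hQd]
  show UnitGeodesicOn (wf g ϕ k) (fun τ => ((ψ κ (τ / r) y).1,
    (φ 0 (ε * B.sg ψ κ (τ / r) y) z).1)) (Ioo (r * a') (r * b')) ∧
    ∀ τ ∈ Ioo (r * a') (r * b'), ϕ (ψ κ (τ / r) y).1 ^ 2 *
      k (φ 0 (ε * B.sg ψ κ (τ / r) y) z).1
      (deriv (fun τ => ((ψ κ (τ / r) y).1, (φ 0 (ε * B.sg ψ κ (τ / r) y) z).1)) τ).2
      (deriv (fun τ => ((ψ κ (τ / r) y).1, (φ 0 (ε * B.sg ψ κ (τ / r) y) z).1)) τ).2 =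
        κ / r ^ 2
  rw [hfun]
  have hx : ∀ τ, (ψ κ (τ / r) y).1 = (X τ).1 := fun τ => by rw [hXd]
  have hy : ∀ τ, (φ 0 (ε * B.sg ψ κ (τ / r) y) z).1 = (Q τ).1 := fun τ => by rw [hQd]
  simp only [hx, hy]
  clear hx hy hfun hXd hQd hrep hkX hkQ hX hQ hσ
  have hγ : ∀ τ, HasDerivAt (fun τ => (((X τ).1, (Q τ).1) : Sp a n))
      (r⁻¹ • B.A (X τ).1 (X τ).2, (r⁻¹ * (ε * B.u (X τ).1)) • K.A (Q τ).1 (Q τ).2) τ := by
    intro τ
    exact ((ContinuousLinearMap.fst ℝ (E a) (E a)).hasFDerivAt.comp_hasDerivAt τ (hX' τ)).prodMk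
      ((ContinuousLinearMap.fst ℝ (E (n + 2)) (E (n + 2))).hasFDerivAt.comp_hasDerivAt τ (hQ' τ))
  have hp : ∀ τ, HasDerivAt (fun τ => (X τ).2) (r⁻¹ • (B.Y κ (X τ)).2) τ := fun τ =>
    (ContinuousLinearMap.snd ℝ (E a) (E a)).hasFDerivAt.comp_hasDerivAt τ (hX' τ)
  have hq : ∀ τ, HasDerivAt (fun τ => (Q τ).2)
      ((r⁻¹ * (ε * B.u (X τ).1)) • (K.Y 0 (Q τ)).2) τ := fun τ =>
    (ContinuousLinearMap.snd ℝ (E (n + 2)) (E (n + 2))).hasFDerivAt.comp_hasDerivAt τ (hQ' τ)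
  have hr0 : r ≠ 0 := hr.ne'
  refine ⟨⟨fun τ _ => (hγ τ).differentiableAt, ?_, ?_⟩, ?_⟩
  · intro τ hτ v
    have hev1 : (fun s => wf g ϕ k ((X s).1, (Q s).1)
        (deriv (fun τ => (((X τ).1, (Q τ).1) : Sp a n)) s) v) =ᶠ[𝓝 τ] fun s =>
        r⁻¹ * (inner ℝ (X s).2 v.1 + ε * inner ℝ (Q s).2 v.2) := by
      filter_upwards [Ioo_mem_nhds hτ.1 hτ.2] with s hs
      obtain ⟨e1, e2⟩ := hrep' s hs
      have e3 := e1.self_of_nhds
      have e4 := e2.self_of_nhds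
      rw [(hγ s).deriv, wf_apply]
      simp only [map_smul, ContinuousLinearMap.smul_apply, smul_eq_mul]
      rw [e3.1, e4.1, e3.2]
      have e5 := (hM.ϕ0 (X s).1).ne'
      field_simp
    refine HasDerivAt.congr_of_eventuallyEq ?_ hev1
    obtain ⟨e1, e2⟩ := hrep' τ hτ
    have e3 := e1.self_of_nhds
    have e4 := e2.self_of_nhds
    have h1 := (((hp τ).inner ℝ (hasDerivAt_const τ v.1)).add
      (((hq τ).inner ℝ (hasDerivAt_const τ v.2)).const_mul ε)).const_mul r⁻¹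
    refine h1.congr_deriv ?_
    simp only [inner_zero_right, zero_add]
    rw [real_inner_smul_left, real_inner_smul_left, inner_Y, inner_Y, (hγ τ).deriv,
      fderiv_wf hM]
    simp only [map_smul, ContinuousLinearMap.smul_apply, smul_eq_mul]
    rw [metA hM.metg (B.As.differentiable (by simp) _) (e1.mono fun y hy => hy.1),
      metA hM.metk (K.As.differentiable (by simp) _) (e2.mono fun y hy => hy.1), e4.1, e3.2,
      fderiv_u e1 ((hM.ϕs.differentiable (by simp)) _) (hM.ϕ0 _).ne']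
    have e6 : inner ℝ (Q τ).2 (K.A (Q τ).1 (Q τ).2) = K.k z := by
      rw [← hkQ' τ, real_inner_comm]
      rfl
    rw [e6, ← hκd]
    have e5 := (hM.ϕ0 (X τ).1).ne'
    field_simp
    ring
  · intro τ hτ
    obtain ⟨e1, e2⟩ := hrep' τ hτ
    have e3 := e1.self_of_nhds
    have e4 := e2.self_of_nhds
    rw [(hγ τ).deriv, wf_apply]
    simp only [map_smul, ContinuousLinearMap.smul_apply, smul_eq_mul]
    rw [e3.1, e4.1, e3.2]
    have e6 : inner ℝ (Q τ).2 (K.A (Q τ).1 (Q τ).2) = K.k z := by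
      rw [← hkQ' τ, real_inner_comm]
      rfl
    have e7 : inner ℝ (X τ).2 (B.A (X τ).1 (X τ).2) = r ^ 2 - κ * (ϕ (X τ).1)⁻¹ := by
      rw [real_inner_comm, ← e3.2]
      have := hkX' τ
      unfold HD.k at this
      linarith
    rw [e6, e7, ← hκd]
    have e5 := (hM.ϕ0 (X τ).1).ne'
    field_simp
    ring
  · intro τ hτ
    obtain ⟨e1, e2⟩ := hrep' τ hτ
    have e3 := e1.self_of_nhds
    have e4 := e2.self_of_nhds
    rw [(hγ τ).deriv]
    simp only [map_smul, ContinuousLinearMap.smul_apply, smul_eq_mul]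
    rw [e4.1, e3.2]
    have e6 : inner ℝ (Q τ).2 (K.A (Q τ).1 (Q τ).2) = K.k z := by
      rw [← hkQ' τ, real_inner_comm]
      rfl
    rw [e6, ← hκd]
    have e5 := (hM.ϕ0 (X τ).1).ne'
    field_simp

end Pool.Agent.WPG
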