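import Pool.Agent.WPG.Stmts

/-!
# General warped products, module KEY: the key identity   (helper30)
-/

set_option autoImplicit false

namespace Pool.Agent.WPG

open MeasureTheory Set Filter Topology

namespace KEYAux

/-- the iterated derivatives of the test function -/
theorem iter (hD : Stmt_DTF) (hC : Stmt_CJS) {n : ℕ} (D : HD n) (j : ℕ) (Ψ : P n → ℂ)
    (hΨ : D.TF Ψ) (hJ : D.CJ j Ψ) :
    ∀ i ≤ j, D.TF (D.der^[i] Ψ) ∧ D.CJ (j - i) (D.der^[i] Ψ) := by
  intro i
  induction i with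
  | zero => intro _; exact ⟨hΨ, hJ⟩
  | succ i ih =>
    intro hi
    obtain ⟨h1, h2⟩ := ih (by omega)
    rw [Function.iterate_succ_apply']
    refine ⟨hD n D _ h1, ?_⟩
    have h4 : j - i = (j - (i + 1)) + 1 := by omega
    rw [h4] at h2
    exact hC n D _ _ h1 h2

/-- the inner integral of the terms with a factor `k^m`, `m > 0` -/
theorem inner_zero {n : ℕ} (D : HD n) {m : ℕ} (hm : 0 < m) (h : E n → ℂ) (Φ : P n → ℂ)
    (hJ : D.CJ (2 * m) Φ) : ∫ z : P n, h z.1 * ((D.k z : ℂ) ^ m * Φ z) = 0 := by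
  by_cases hi : Integrable (fun z : P n => h z.1 * ((D.k z : ℂ) ^ m * Φ z))
      ((volume : Measure (E n)).prod (volume : Measure (E n)))
  · rw [Measure.volume_eq_prod, integral_prod _ hi]
    have h2 : ∀ x : E n, ∫ q : E n, h x * ((D.k (x, q) : ℂ) ^ m * Φ (x, q)) = 0 := by
      intro x
      rw [integral_const_mul]
      have h3 := hJ 0 m 1 (MvPolynomial.isHomogeneous_one _ _) (Or.inr ⟨by omega, hm⟩) x
      have h4 : ∀ q : E n, ev (1 : MvPolynomial (Fin n) ℂ) q * (D.k (x, q) : ℂ) ^ m * Φ (x, q) =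
          (D.k (x, q) : ℂ) ^ m * Φ (x, q) := by
        intro q
        unfold ev
        rw [map_one, one_mul]
      simp only [h4] at h3
      rw [h3, mul_zero]
    simp only [h2]
    exact integral_zero _ _
  · rw [Measure.volume_eq_prod]
    exact integral_undef hi

/-- the terms with a factor `k^m`, `m > 0` -/
theorem term_zero {a n : ℕ} (D : WD a n) {m : ℕ} (hm : 0 < m) (c : P a → ℂ) (Φ : P (n + 2) → ℂ)
    (hJ : D.K.CJ (2 * m) Φ) :
    ∫ q : P a × P (n + 2), (D.f q.1.1 q.2.1 : ℂ) * (c q.1 * ((D.K.k q.2 : ℂ) ^ m * Φ q.2)) = 0 := by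
  by_cases hi : Integrable (fun q : P a × P (n + 2) =>
      (D.f q.1.1 q.2.1 : ℂ) * (c q.1 * ((D.K.k q.2 : ℂ) ^ m * Φ q.2)))
      ((volume : Measure (P a)).prod (volume : Measure (P (n + 2))))
  · rw [Measure.volume_eq_prod (P a) (P (n + 2)), integral_prod _ hi]
    have h2 : ∀ y : P a, ∫ z : P (n + 2),
        (D.f y.1 z.1 : ℂ) * (c y * ((D.K.k z : ℂ) ^ m * Φ z)) = 0 := by
      intro y
      have h3 := inner_zero D.K hm (fun Y => (D.f y.1 Y : ℂ) * c y) Φ hJ
      rw [← h3]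
      refine integral_congr_ae (Eventually.of_forall fun z => ?_)
      simp only
      ring
    simp only [h2]
    exact integral_zero _ _
  · rw [Measure.volume_eq_prod (P a) (P (n + 2))]
    exact integral_undef hi

/-- the weight on the base, continuous and of compact support, uniformly in `s` -/
theorem weight (hS : Stmt_SGS) {a : ℕ} (D : HD a) (ψ : ℝ → ℝ → P a → P a) (hψ : D.Flow ψ)
    (α : P a → ℝ) (hα : ContDiff ℝ (⊤ : ℕ∞) α) (hαs : HasCompactSupport α) (j : ℕ) (T₁ T₂ : ℝ) :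
    Continuous (fun p : ℝ × P a => α (ψ 0 (-p.1) p.2) * D.sg ψ 0 (-p.1) p.2 ^ j) ∧
    ∃ R C : ℝ, (∀ s ∈ Ioc T₁ T₂, ∀ y, R < ‖y‖ → α (ψ 0 (-s) y) * D.sg ψ 0 (-s) y ^ j = 0) ∧
      ∀ s ∈ Ioc T₁ T₂, ∀ y, |α (ψ 0 (-s) y) * D.sg ψ 0 (-s) y ^ j| ≤ C := by
  have hmap : Continuous (fun p : ℝ × P a => ((0 : ℝ), (-p.1, p.2))) := by fun_prop
  have c1 : Continuous (fun p : ℝ × P a => ψ 0 (-p.1) p.2) := hψ.smooth.continuous.comp hmap
  have c2 : Continuous (fun p : ℝ × P a => D.sg ψ 0 (-p.1) p.2) :=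
    (hS a D ψ hψ).continuous.comp hmap
  have c3 : Continuous (fun p : ℝ × P a => α (ψ 0 (-p.1) p.2) * D.sg ψ 0 (-p.1) p.2 ^ j) :=
    (hα.continuous.comp c1).mul (c2.pow j)
  refine ⟨c3, ?_⟩
  obtain ⟨R₀, hR₀⟩ := hαs.isCompact.exists_bound_of_continuousOn (f := fun y : P a => y)
    continuousOn_id
  obtain ⟨M, hM⟩ := hψ.move
  set T : ℝ := max |T₁| |T₂| with hT
  have hTs : ∀ s ∈ Ioc T₁ T₂, |s| ≤ T := by
    intro s hs
    exact abs_le_max_abs_abs hs.1.le hs.2
  have hM0 : 0 ≤ |M| := abs_nonneg _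
  have hT0 : 0 ≤ T := (abs_nonneg T₁).trans (le_max_left _ _)
  set R : ℝ := R₀ + |M| * T with hR
  have hz : ∀ s ∈ Ioc T₁ T₂, ∀ y, R < ‖y‖ → α (ψ 0 (-s) y) * D.sg ψ 0 (-s) y ^ j = 0 := by
    intro s hs y hy
    have h0 : α (ψ 0 (-s) y) = 0 := by
      by_contra hne
      have h1 : ψ 0 (-s) y ∈ tsupport α := subset_tsupport α hne
      have h2 := hR₀ _ h1
      have h3 := hM 0 (-s) y
      rw [abs_neg] at h3
      have h4 : M * |s| ≤ |M| * T :=
        mul_le_mul (le_abs_self M) (hTs s hs) (abs_nonneg s) hM0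
      have h5 : ‖y‖ ≤ ‖ψ 0 (-s) y‖ + ‖ψ 0 (-s) y - y‖ := by
        have h6 : y = ψ 0 (-s) y - (ψ 0 (-s) y - y) := by abel
        calc ‖y‖ = ‖ψ 0 (-s) y - (ψ 0 (-s) y - y)‖ := by rw [← h6]
          _ ≤ _ := norm_sub_le _ _
      have h7 : ‖ψ 0 (-s) y‖ ≤ R₀ := h2
      linarith
    rw [h0, zero_mul]
  obtain ⟨C, hC⟩ := ((isCompact_Icc (a := T₁) (b := T₂)).prod
    (isCompact_closedBall (0 : P a) R)).exists_bound_of_continuousOn c3.continuousOn
  refine ⟨R, max C 0, hz, ?_⟩
  intro s hs y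
  by_cases hy : R < ‖y‖
  · rw [hz s hs y hy, abs_zero]
    exact le_max_right _ _
  · have h1 := hC (s, y) ⟨⟨hs.1.le, hs.2⟩, mem_closedBall_zero_iff.2 (not_lt.1 hy)⟩
    rw [Real.norm_eq_abs] at h1
    exact h1.trans (le_max_left _ _)

end KEYAux

open KEYAux in
theorem key (hD : Stmt_DTF) (hO : Stmt_ORD) (hC : Stmt_CJS) (hT : Stmt_TST) (hS : Stmt_SGS) :
    Stmt_KEY := by
  intro a n D ψ φ hψ hφ U T₁ T₂ ε₀ hT12 hε₀ hZ α hα j b hb η hη g hg
  have hP1 := haarP a
  have hP2 := haarP (n + 2)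
  obtain ⟨hΨ, hJ⟩ := hT (n + 2) D.K b hb η hη j g hg
  set Ψ : P (n + 2) → ℂ := tst b η j g with hΨdef
  have hit := iter hD hC D.K j Ψ hΨ hJ
  have h1 := hO a n D ψ φ hψ hφ U T₁ T₂ ε₀ hT12 hε₀ hZ α hα Ψ hΨ j
  -- only the term `m = 0` remains
  rw [Finset.sum_range_succ', Finset.sum_eq_zero, zero_add] at h1
  swap
  · intro m hm
    have hm' := Finset.mem_range.1 hm
    have h2m : 2 * (m + 1) ≤ j := by omega
    have hJm := (hit (j - 2 * (m + 1)) (by omega)).2
    have h3 : j - (j - 2 * (m + 1)) = 2 * (m + 1) := by omega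
    rw [h3] at hJm
    have h4 : ∀ s : ℝ, ∫ q : P a × P (n + 2), (D.f q.1.1 q.2.1 : ℂ) *
        ((D.B.co ψ α (j - 2 * (m + 1)) (m + 1) (-s) q.1 : ℂ) * ((D.K.k q.2 : ℂ) ^ (m + 1) *
          (D.K.der^[j - 2 * (m + 1)] Ψ) q.2)) = 0 := fun s =>
      term_zero D (Nat.succ_pos m)
        (fun y => (D.B.co ψ α (j - 2 * (m + 1)) (m + 1) (-s) y : ℂ)) _ hJm
    simp only [h4]
    rw [intervalIntegral.integral_zero, mul_zero]
  have hΦ := (hit j le_rfl).1
  set Φ : P (n + 2) → ℂ := D.K.der^[j] Ψ with hΦdef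
  set c : ℝ → P a → ℝ := fun s y => α (ψ 0 (-s) y) * D.B.sg ψ 0 (-s) y ^ j with hc
  have hco : ∀ s y, D.B.co ψ α j 0 (-s) y = c s y := by
    intro s y
    unfold HD.co
    rw [iteratedDeriv_zero, Nat.factorial_zero, Nat.cast_one, div_one]
  have h2 : ∫ s in T₁..T₂, ∫ q : P a × P (n + 2),
      (D.f q.1.1 q.2.1 : ℂ) * ((c s q.1 : ℂ) * Φ q.2) = 0 := by
    have h3 : ((1 : ℂ) / ((j - 2 * 0).factorial : ℂ)) ≠ 0 :=
      div_ne_zero one_ne_zero (Nat.cast_ne_zero.2 (Nat.factorial_ne_zero _))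
    rcases mul_eq_zero.1 h1 with h | h
    · exact absurd h h3
    · rw [← h]
      simp only [mul_zero, Nat.sub_zero, pow_zero, one_mul, hco]
      rfl
  obtain ⟨hcc, R, B, hcR, hcB⟩ := weight hS D.B ψ hψ α hα.smooth hα.supp j T₁ T₂
  have hccs : ∀ s, Continuous (c s) := fun s => by
    have h3 : Continuous (fun y : P a => ((s, y) : ℝ × P a)) := by fun_prop
    exact hcc.comp h3
  -- integrability of the weight
  have hcint : ∀ s ∈ Ioc T₁ T₂, Integrable (c s) := by
    intro s hs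
    refine (hccs s).integrable_of_hasCompactSupport ?_
    refine HasCompactSupport.intro (isCompact_closedBall (0 : P a) R) ?_
    intro y hy
    rw [mem_closedBall_zero_iff, not_le] at hy
    exact hcR s hs y hy
  have hcL1 : ∀ s ∈ Ioc T₁ T₂, ∀ y, |c s y| ≤ (Metric.closedBall (0 : P a) R).indicator
      (fun _ => B) y := by
    intro s hs y
    by_cases hy : y ∈ Metric.closedBall (0 : P a) R
    · rw [indicator_of_mem hy]
      exact hcB s hs y
    · rw [indicator_of_notMem hy]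
      rw [mem_closedBall_zero_iff, not_le] at hy
      rw [hc]
      dsimp only
      rw [hcR s hs y hy, abs_zero]
  have hind : Integrable ((Metric.closedBall (0 : P a) R).indicator (fun _ : P a => B)) := by
    rw [integrable_indicator_iff Metric.isClosed_closedBall.measurableSet]
    exact integrableOn_const (isCompact_closedBall (0 : P a) R).measure_lt_top.ne
  have hΦint : Integrable Φ :=
    hΦ.smooth.continuous.integrable_of_hasCompactSupport hΦ.supp
  have hfm : Measurable (fun q : P a × P (n + 2) => (D.f q.1.1 q.2.1 : ℂ)) := by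
    have h3 : Measurable (fun q : P a × P (n + 2) => ((q.1.1, q.2.1) : E a × E (n + 2))) :=
      (measurable_fst.comp measurable_fst).prodMk (measurable_fst.comp measurable_snd)
    exact Complex.measurable_ofReal.comp (D.fm.comp h3)
  have hGint : ∀ s ∈ Ioc T₁ T₂, Integrable (fun q : P a × P (n + 2) =>
      (D.f q.1.1 q.2.1 : ℂ) * ((c s q.1 : ℂ) * Φ q.2))
      ((volume : Measure (P a)).prod (volume : Measure (P (n + 2)))) := by
    intro s hs
    have h3 : Integrable (fun q : P a × P (n + 2) => (c s q.1 : ℂ) * Φ q.2)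
        ((volume : Measure (P a)).prod (volume : Measure (P (n + 2)))) :=
      Integrable.mul_prod (f := fun y => (c s y : ℂ)) (hcint s hs).ofReal hΦint
    refine (h3.norm.const_mul D.C).mono' (hfm.aestronglyMeasurable.mul h3.aestronglyMeasurable) ?_
    refine Eventually.of_forall fun q => ?_
    rw [norm_mul, Complex.norm_real, Real.norm_eq_abs]
    exact mul_le_mul_of_nonneg_right (D.fC _ _) (norm_nonneg _)
  -- the inner integrals
  set N : ℝ → E (n + 2) → ℝ := fun s Y => ∫ y : P a, D.f y.1 Y * c s y with hN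
  set op : E (n + 2) → ℂ := fun Y => ∫ p : E (n + 2), Φ (Y, p) with hop
  have hopint : Integrable op := by
    have h3 : Integrable Φ ((volume : Measure (E (n + 2))).prod (volume : Measure (E (n + 2)))) :=
      hΦint
    exact h3.integral_prod_left
  have hin : ∀ s ∈ Ioc T₁ T₂, ∫ q : P a × P (n + 2),
      (D.f q.1.1 q.2.1 : ℂ) * ((c s q.1 : ℂ) * Φ q.2) = ∫ Y : E (n + 2), (N s Y : ℂ) * op Y := by
    intro s hs
    rw [Measure.volume_eq_prod (P a) (P (n + 2)), integral_prod_symm _ (hGint s hs)]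
    have h3 : ∀ z : P (n + 2), ∫ y : P a, (D.f y.1 z.1 : ℂ) * ((c s y : ℂ) * Φ z) =
        (N s z.1 : ℂ) * Φ z := by
      intro z
      have h4 : ∀ y : P a, (D.f y.1 z.1 : ℂ) * ((c s y : ℂ) * Φ z) =
          ((D.f y.1 z.1 * c s y : ℝ) : ℂ) * Φ z := by
        intro y
        push_cast
        ring
      simp only [h4]
      rw [integral_mul_const, integral_complex_ofReal]
    simp only [h3]
    have h5 : Integrable (fun z : P (n + 2) => (N s z.1 : ℂ) * Φ z)
        ((volume : Measure (E (n + 2))).prod (volume : Measure (E (n + 2)))) := by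
      have h6 := (hGint s hs).integral_prod_right
      simp only [h3] at h6
      exact h6
    rw [Measure.volume_eq_prod (E (n + 2)) (E (n + 2)), integral_prod _ h5]
    refine integral_congr_ae (Eventually.of_forall fun Y => ?_)
    change ∫ p : E (n + 2), (N s Y : ℂ) * Φ (Y, p) = (N s Y : ℂ) * op Y
    rw [integral_const_mul]
  -- bounds
  have hNb : ∀ s ∈ Ioc T₁ T₂, ∀ Y, |N s Y| ≤
      ∫ y : P a, |D.C| * (Metric.closedBall (0 : P a) R).indicator (fun _ => B) y := by
    intro s hs Y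
    rw [← Real.norm_eq_abs]
    refine norm_integral_le_of_norm_le (hind.const_mul _) (Eventually.of_forall fun y => ?_)
    rw [Real.norm_eq_abs, abs_mul]
    exact mul_le_mul ((D.fC _ _).trans (le_abs_self _)) (hcL1 s hs y) (abs_nonneg _) (abs_nonneg _)
  set B' : ℝ := ∫ y : P a, |D.C| * (Metric.closedBall (0 : P a) R).indicator (fun _ => B) y with hB'
  have hNm : StronglyMeasurable (fun p : ℝ × E (n + 2) => N p.1 p.2) := by
    have h3 : StronglyMeasurable (fun r : (ℝ × E (n + 2)) × P a =>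
        D.f r.2.1 r.1.2 * c r.1.1 r.2) := by
      apply Measurable.stronglyMeasurable
      have h4 : Measurable (fun r : (ℝ × E (n + 2)) × P a => D.f r.2.1 r.1.2) :=
        D.fm.comp ((measurable_fst.comp measurable_snd).prodMk
          (measurable_snd.comp measurable_fst))
      have h5 : Measurable (fun r : (ℝ × E (n + 2)) × P a => c r.1.1 r.2) :=
        hcc.measurable.comp ((measurable_fst.comp measurable_fst).prodMk measurable_snd)
      exact h4.mul h5
    exact h3.integral_prod_right'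
  have hswap : Integrable (Function.uncurry fun (s : ℝ) (Y : E (n + 2)) => (N s Y : ℂ) * op Y)
      ((volume.restrict (Ioc T₁ T₂)).prod (volume : Measure (E (n + 2)))) := by
    have h3 : Integrable (fun p : ℝ × E (n + 2) => (B' : ℝ) * ‖op p.2‖)
        ((volume.restrict (Ioc T₁ T₂)).prod (volume : Measure (E (n + 2)))) := by
      have h4 : Integrable (fun _ : ℝ => B') (volume.restrict (Ioc T₁ T₂)) :=
        integrableOn_const (by rw [Real.volume_Ioc]; exact ENNReal.ofReal_ne_top)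
      exact Integrable.mul_prod h4 hopint.norm
    have h5 : AEStronglyMeasurable (Function.uncurry fun (s : ℝ) (Y : E (n + 2)) =>
        (N s Y : ℂ) * op Y) ((volume.restrict (Ioc T₁ T₂)).prod (volume : Measure (E (n + 2)))) := by
      have h6 : StronglyMeasurable (fun p : ℝ × E (n + 2) => (N p.1 p.2 : ℂ)) :=
        Complex.continuous_ofReal.comp_stronglyMeasurable hNm
      have h7 : AEStronglyMeasurable (fun p : ℝ × E (n + 2) => op p.2)
          ((volume.restrict (Ioc T₁ T₂)).prod (volume : Measure (E (n + 2)))) :=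
        hopint.aestronglyMeasurable.comp_snd
      exact h6.aestronglyMeasurable.mul h7
    refine h3.mono' h5 ?_
    have h8 : ∀ᵐ p : ℝ × E (n + 2) ∂((volume.restrict (Ioc T₁ T₂)).prod
        (volume : Measure (E (n + 2)))), p.1 ∈ Ioc T₁ T₂ := by
      have h9 : ∀ᵐ s : ℝ ∂(volume.restrict (Ioc T₁ T₂)), s ∈ Ioc T₁ T₂ :=
        ae_restrict_mem measurableSet_Ioc
      exact Measure.quasiMeasurePreserving_fst.ae h9
    filter_upwards [h8] with p hp
    simp only [Function.uncurry]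
    rw [norm_mul, Complex.norm_real, Real.norm_eq_abs]
    exact mul_le_mul_of_nonneg_right (hNb p.1 hp p.2) (norm_nonneg _)
  -- conclusion
  rw [intervalIntegral.integral_of_le hT12] at h2
  have h3 : ∫ s in Ioc T₁ T₂, ∫ q : P a × P (n + 2),
      (D.f q.1.1 q.2.1 : ℂ) * ((c s q.1 : ℂ) * Φ q.2) =
      ∫ s in Ioc T₁ T₂, ∫ Y : E (n + 2), (N s Y : ℂ) * op Y :=
    setIntegral_congr_fun measurableSet_Ioc fun s hs => hin s hs
  rw [h3, integral_integral_swap hswap] at h2
  rw [← h2]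
  refine integral_congr_ae (Eventually.of_forall fun Y => ?_)
  change (D.M ψ T₁ T₂ α j Y : ℂ) * D.K.op b η j g Y = ∫ s in Ioc T₁ T₂, (N s Y : ℂ) * op Y
  rw [integral_mul_const]
  congr 1
  rw [integral_complex_ofReal]
  congr 1
  unfold WD.M
  rw [intervalIntegral.integral_of_le hT12]

end Pool.Agent.WPG
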