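import Pool.Agent.WPG.Stmts
import Pool.Agent.WPD.Gf

/-!
# General warped products: linear differential equations with parameters

The vector field `(x, w) ↦ (e₀, A(x) w + Ψ(x))` has a global flow, which is smooth by SFC.
-/

set_option autoImplicit false

namespace Pool.Agent.WPG

open MeasureTheory Set Filter Topology Metric
open scoped NNReal

namespace LODEAux

section glob

variable {F : Type*} [NormedAddCommGroup F] [NormedSpace ℝ F]

/-- the a priori estimate -/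
theorem apriori {B C T : ℝ} (hB : 0 ≤ B) (hC : 0 ≤ C) {γ g : ℝ → F}
    (hg : ∀ t ∈ Ioo (-T) T, HasDerivAt γ (g t) t)
    (hb : ∀ t ∈ Ioo (-T) T, ‖g t‖ ≤ C + B * ‖γ t‖) {t : ℝ} (ht : t ∈ Ioo (-T) T) :
    ‖γ t‖ ≤ max ‖γ 0‖ 1 * Real.exp ((B + C) * |t|) := by
  have h1 := WPD.GFAux.bound (B := B + C) (T := T) (γ := fun s => ((γ s, 1) : F × ℝ))
    (g := fun s => ((g s, 0) : F × ℝ))
    (fun s hs => (hg s hs).prodMk (hasDerivAt_const s (1 : ℝ)))
    (fun s hs => by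
      have h2 := hb s hs
      have h3 : ‖((g s, 0) : F × ℝ)‖ = ‖g s‖ := by
        rw [Prod.norm_mk, norm_zero, max_eq_left (norm_nonneg _)]
      have h4 : ‖γ s‖ ≤ ‖((γ s, 1) : F × ℝ)‖ := norm_fst_le ((γ s, 1) : F × ℝ)
      have h5 : 1 ≤ ‖((γ s, 1) : F × ℝ)‖ := by
        have := norm_snd_le ((γ s, 1) : F × ℝ)
        simpa using this
      rw [h3]
      nlinarith) ht
  have h6 : ‖((γ 0, 1) : F × ℝ)‖ = max ‖γ 0‖ 1 := by
    rw [Prod.norm_mk, norm_one]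
  have h7 : ‖γ t‖ ≤ ‖((γ t, 1) : F × ℝ)‖ := norm_fst_le ((γ t, 1) : F × ℝ)
  simp only [h6] at h1
  exact h7.trans h1

/-- uniqueness -/
theorem uniq {v : ℝ → F → F} (hv : ∀ T : ℝ, ∃ K : ℝ≥0, ∀ t ∈ Icc (-T) T, LipschitzWith K (v t))
    {T : ℝ} (hT : 0 < T) {γ δ : ℝ → F} (hγ : ∀ t ∈ Ioo (-T) T, HasDerivAt γ (v t (γ t)) t)
    (hδ : ∀ t ∈ Ioo (-T) T, HasDerivAt δ (v t (δ t)) t) (h0 : γ 0 = δ 0) :
    EqOn γ δ (Ioo (-T) T) := by
  obtain ⟨K, hK⟩ := hv T
  exact ODE_solution_unique_of_mem_Ioo (v := v) (s := fun _ => univ) (K := K)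
    (t₀ := 0) (fun t ht => (hK t ⟨ht.1.le, ht.2.le⟩).lipschitzOnWith) ⟨by linarith, hT⟩
    (fun t ht => ⟨hγ t ht, mem_univ _⟩) (fun t ht => ⟨hδ t ht, mem_univ _⟩) h0

variable [CompleteSpace F]

/-- solutions on bounded intervals of time -/
theorem loc {v : ℝ → F → F} (hv : ∀ T : ℝ, ∃ K : ℝ≥0, ∀ t ∈ Icc (-T) T, LipschitzWith K (v t))
    (hc : ∀ x, Continuous fun t => v t x) (w : F) {T : ℝ} (hT : 0 < T) :
    ∃ α : ℝ → F, α 0 = w ∧ ∀ t ∈ Ioo (-T) T, HasDerivAt α (v t (α t)) t := by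
  obtain ⟨K, hK⟩ := hv T
  obtain ⟨C, hC⟩ : ∃ C : ℝ, ∀ t ∈ Icc (-T) T, ‖v t 0‖ ≤ C :=
    isCompact_Icc.exists_bound_of_continuousOn (hc 0).continuousOn
  have hC0 : 0 ≤ C := (norm_nonneg _).trans (hC 0 ⟨by linarith, hT.le⟩)
  have hK0 : (0 : ℝ) ≤ K := K.coe_nonneg
  set R := max ‖w‖ 1 * Real.exp ((K + C) * T) with hR
  have hm1 : 1 ≤ max ‖w‖ 1 := le_max_right _ _
  have hR1 : 1 ≤ R := by
    have h1 : 1 ≤ Real.exp ((K + C) * T) := Real.one_le_exp (by positivity)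
    nlinarith
  have hR0 : 0 ≤ R := by linarith
  have hlip : ∀ t ∈ Icc (-T) T, LipschitzWith (K * 2) (fun x => v t (WPD.GFAux.rad R x)) :=
    fun t ht => (hK t ht).comp (WPD.GFAux.rad_lip hR0)
  have hnorm : ∀ t ∈ Icc (-T) T, ∀ x, ‖v t (WPD.GFAux.rad R x)‖ ≤
      C + K * ‖WPD.GFAux.rad R x‖ := by
    intro t ht x
    have h1 := (hK t ht).norm_sub_le (WPD.GFAux.rad R x) 0
    rw [sub_zero] at h1
    have h2 := norm_add_le (v t (WPD.GFAux.rad R x) - v t 0) (v t 0)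
    rw [sub_add_cancel] at h2
    have h3 := hC t ht
    linarith
  have hBR : 0 ≤ (K + C) * R := by positivity
  set t0 : Icc (-T) T := ⟨0, by linarith, hT.le⟩ with ht0
  have e2 : (((K + C) * R * T).toNNReal : ℝ) = (K + C) * R * T :=
    Real.coe_toNNReal _ (by positivity)
  have e3 : (((K + C) * R).toNNReal : ℝ) = (K + C) * R := Real.coe_toNNReal _ hBR
  have hpl : IsPicardLindelof (fun t x => v t (WPD.GFAux.rad R x)) t0 w
      ((K + C) * R * T).toNNReal 0 ((K + C) * R).toNNReal (K * 2) := by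
    refine ⟨fun t ht => (hlip t ht).lipschitzOnWith, fun x _ => (hc _).continuousOn,
      fun t ht x _ => ?_, ?_⟩
    · refine (hnorm t ht x).trans ?_
      rw [e3]
      have h1 := WPD.GFAux.rad_le hR0 x
      have h2 : (K : ℝ) * ‖WPD.GFAux.rad R x‖ ≤ K * R := mul_le_mul_of_nonneg_left h1 hK0
      nlinarith
    · have e1 : ((t0 : Icc (-T) T) : ℝ) = 0 := rfl
      rw [e1, e2, e3, NNReal.coe_zero, sub_zero, sub_zero, zero_sub, neg_neg, max_self]
  obtain ⟨α, hα0, hα⟩ := hpl.exists_eq_forall_mem_Icc_hasDerivWithinAt₀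
  have hα0' : α 0 = w := hα0
  refine ⟨α, hα0', ?_⟩
  have h3 : ∀ t ∈ Ioo (-T) T, HasDerivAt α (v t (WPD.GFAux.rad R (α t))) t :=
    fun t ht => (hα t ⟨ht.1.le, ht.2.le⟩).hasDerivAt (Icc_mem_nhds ht.1 ht.2)
  intro t ht
  have h4 : ‖α t‖ ≤ R := by
    have h5 := apriori hK0 hC0 h3 (fun s hs => by
      have h6 := hnorm s ⟨hs.1.le, hs.2.le⟩ (α s)
      have h7 := WPD.GFAux.rad_le' hR0 (α s)
      have h8 : (K : ℝ) * ‖WPD.GFAux.rad R (α s)‖ ≤ K * ‖α s‖ :=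
        mul_le_mul_of_nonneg_left h7 hK0
      linarith) ht
    refine h5.trans ?_
    rw [hα0', hR]
    refine mul_le_mul_of_nonneg_left (Real.exp_le_exp.2 ?_) (by positivity)
    refine mul_le_mul_of_nonneg_left ?_ (by positivity)
    rw [abs_le]
    exact ⟨ht.1.le, ht.2.le⟩
  have h5 := h3 t ht
  have h6 : WPD.GFAux.rad R (α t) = α t := by
    unfold WPD.GFAux.rad
    rw [if_pos h4]
  rwa [h6] at h5

/-- global solutions -/
theorem glob {v : ℝ → F → F} (hv : ∀ T : ℝ, ∃ K : ℝ≥0, ∀ t ∈ Icc (-T) T, LipschitzWith K (v t))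
    (hc : ∀ x, Continuous fun t => v t x) (w : F) :
    ∃ γ : ℝ → F, γ 0 = w ∧ ∀ t, HasDerivAt γ (v t (γ t)) t := by
  have h1 : ∀ n : ℕ, ∃ γ : ℝ → F, γ 0 = w ∧
      ∀ t ∈ Ioo (-((n : ℝ) + 1)) (n + 1), HasDerivAt γ (v t (γ t)) t :=
    fun n => loc hv hc w (T := (n : ℝ) + 1) (by positivity)
  choose γ hγ0 hγ using h1
  have h2 : ∀ m n : ℕ, m ≤ n → EqOn (γ m) (γ n) (Ioo (-((m : ℝ) + 1)) (m + 1)) := by
    intro m n hmn
    have hmn' : (m : ℝ) ≤ n := by exact_mod_cast hmn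
    refine uniq hv (by positivity) (hγ m) (fun t ht => hγ n t ⟨by linarith [ht.1], by
      linarith [ht.2]⟩) (by rw [hγ0, hγ0])
  refine ⟨fun t => γ ⌈|t|⌉₊ t, by simp [hγ0], fun t => ?_⟩
  set N := ⌈|t|⌉₊ + 1 with hN
  have h3 : ∀ s ∈ Ioo (-(N : ℝ)) N, γ ⌈|s|⌉₊ s = γ N s := by
    intro s hs
    have h4 : |s| < N := by rw [abs_lt]; exact hs
    refine h2 _ _ ?_ ?_
    · exact Nat.ceil_le.2 h4.le
    · have h5 := Nat.le_ceil |s|
      have h6 := abs_le.1 h5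
      exact ⟨by linarith [h6.1], by linarith [h6.2]⟩
  have ht : t ∈ Ioo (-(N : ℝ)) N := by
    have h5 := Nat.le_ceil |t|
    have h6 := abs_le.1 h5
    rw [hN]
    push_cast
    exact ⟨by linarith [h6.1], by linarith [h6.2]⟩
  have h7 : (fun t => γ ⌈|t|⌉₊ t) =ᶠ[𝓝 t] γ N :=
    Filter.eventuallyEq_of_mem (Ioo_mem_nhds ht.1 ht.2) h3
  simp only
  rw [h3 t ht]
  exact (hγ N t ⟨by linarith [ht.1], by linarith [ht.2]⟩).congr_of_eventuallyEq h7

end glob

/-- the linear equation along a line -/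
def lin {n r : ℕ} (A : E (n + 1) → Matrix (Fin r) (Fin r) ℂ) (Ψ : E (n + 1) → Fin r → ℂ)
    (x : E (n + 1)) (w : Fin r → ℂ) : Fin r → ℂ := fun i => ∑ l, A x i l * w l + Ψ x i

theorem lin_lip {n r : ℕ} (A : E (n + 1) → Matrix (Fin r) (Fin r) ℂ)
    (Ψ : E (n + 1) → Fin r → ℂ) (hA : ∀ i j, Continuous (fun x => A x i j))
    (S : Set (E (n + 1))) (hS : IsCompact S) :
    ∃ K : ℝ≥0, ∀ x ∈ S, LipschitzWith K (lin A Ψ x) := by
  have hcont : Continuous (fun x => ∑ i, ∑ l, ‖A x i l‖) :=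
    continuous_finsetSum _ fun i _ => continuous_finsetSum _ fun l _ => (hA i l).norm
  obtain ⟨C, hC⟩ := hS.exists_bound_of_continuousOn hcont.continuousOn
  refine ⟨C.toNNReal, fun x hx => LipschitzWith.of_dist_le_mul fun y z => ?_⟩
  have h1 : ∑ i, ∑ l, ‖A x i l‖ ≤ C := (le_abs_self _).trans (hC x hx)
  have hC0 : 0 ≤ C := (abs_nonneg _).trans (hC x hx)
  rw [Real.coe_toNNReal _ hC0, dist_pi_le_iff (by positivity)]
  intro i
  rw [dist_eq_norm]
  have e1 : lin A Ψ x y i - lin A Ψ x z i = ∑ l, A x i l * (y l - z l) := by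
    unfold lin
    rw [add_sub_add_right_eq_sub, ← Finset.sum_sub_distrib]
    apply Finset.sum_congr rfl
    intro l _
    ring
  rw [e1]
  calc ‖∑ l, A x i l * (y l - z l)‖ ≤ ∑ l, ‖A x i l * (y l - z l)‖ := norm_sum_le _ _
    _ ≤ ∑ l, ‖A x i l‖ * dist y z := by
        apply Finset.sum_le_sum
        intro l _
        rw [norm_mul, ← dist_eq_norm]
        exact mul_le_mul_of_nonneg_left (dist_le_pi_dist y z l) (norm_nonneg _)
    _ = (∑ l, ‖A x i l‖) * dist y z := by rw [Finset.sum_mul]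
    _ ≤ C * dist y z := by
        apply mul_le_mul_of_nonneg_right _ dist_nonneg
        refine le_trans ?_ h1
        exact Finset.single_le_sum (f := fun i => ∑ l, ‖A x i l‖)
          (fun j _ => Finset.sum_nonneg fun l _ => norm_nonneg _) (Finset.mem_univ i)

/-- the first basis vector -/
noncomputable def e0 (n : ℕ) : E (n + 1) := EuclideanSpace.single 0 1

end LODEAux

open LODEAux in
theorem lode (hC : Stmt_SFC) : Stmt_LODE := by
  intro n r A Ψ hA hΨ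
  have hAc : ∀ i j, Continuous (fun x => A x i j) := fun i j => (hA i j).continuous
  have hΨc : ∀ i, Continuous (fun x => Ψ x i) := fun i => (hΨ i).continuous
  -- the curves
  have hex : ∀ z : E (n + 1) × (Fin r → ℂ), ∃ γ : ℝ → Fin r → ℂ, γ 0 = z.2 ∧
      ∀ t, HasDerivAt γ (lin A Ψ (z.1 + t • e0 n) (γ t)) t := by
    intro z
    have hline : Continuous (fun t : ℝ => z.1 + t • e0 n) := by fun_prop
    refine glob (v := fun t => lin A Ψ (z.1 + t • e0 n)) ?_ ?_ z.2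
    · intro T
      obtain ⟨K, hK⟩ := lin_lip A Ψ hAc ((fun t : ℝ => z.1 + t • e0 n) '' Icc (-T) T)
        (isCompact_Icc.image hline)
      exact ⟨K, fun t ht => hK _ ⟨t, ht, rfl⟩⟩
    · intro w
      refine continuous_pi fun i => ?_
      show Continuous (fun t : ℝ => ∑ l, A (z.1 + t • e0 n) i l * w l + Ψ (z.1 + t • e0 n) i)
      refine (continuous_finsetSum _ fun l _ => ?_).add ((hΨc i).comp hline)
      exact ((hAc i l).comp hline).mul continuous_const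
  choose γ hγ0 hγ using hex
  -- the field
  set Z : E (n + 1) × (Fin r → ℂ) → E (n + 1) × (Fin r → ℂ) :=
    fun z => (e0 n, lin A Ψ z.1 z.2) with hZ
  have hZs : ContDiff ℝ (⊤ : ℕ∞) Z := by
    refine contDiff_const.prodMk (contDiff_pi.2 fun i => ?_)
    show ContDiff ℝ (⊤ : ℕ∞) (fun z : E (n + 1) × (Fin r → ℂ) =>
      ∑ l, A z.1 i l * z.2 l + Ψ z.1 i)
    refine (ContDiff.sum fun l _ => ?_).add ((hΨ i).comp contDiff_fst)
    exact ((hA i l).comp contDiff_fst).mul ((contDiff_apply ℝ ℂ l).comp contDiff_snd)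
  have hs := hC (E (n + 1) × (Fin r → ℂ)) Z hZs (fun s z => (z.1 + s • e0 n, γ z s))
    (fun z => by
      simp only [zero_smul, add_zero, hγ0])
    (fun s z => by
      have h1 : HasDerivAt (fun r : ℝ => z.1 + r • e0 n) (e0 n) s := by
        have h2 := ((hasDerivAt_id s).smul_const (e0 n)).const_add z.1
        simpa using h2
      exact h1.prodMk (hγ z s))
  -- the solution
  have hproj : ContDiff ℝ (⊤ : ℕ∞) (fun x : E (n + 1) => x 0) := by
    have h1 : (fun x : E (n + 1) => x 0) = fun x => EuclideanSpace.proj (𝕜 := ℝ) (0 : Fin (n + 1)) x := rfl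
    rw [h1]
    exact ContinuousLinearMap.contDiff _
  have hbase : ContDiff ℝ (⊤ : ℕ∞) (fun x : E (n + 1) => x - x 0 • e0 n) :=
    contDiff_id.sub (hproj.smul contDiff_const)
  have hpair : ContDiff ℝ (⊤ : ℕ∞) (fun x : E (n + 1) =>
      ((x 0, (x - x 0 • e0 n, 0)) : ℝ × E (n + 1) × (Fin r → ℂ))) :=
    hproj.prodMk (hbase.prodMk contDiff_const)
  have hΦ : ContDiff ℝ (⊤ : ℕ∞) (fun x : E (n + 1) => γ (x - x 0 • e0 n, 0) (x 0)) :=
    contDiff_snd.comp (hs.comp hpair)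
  refine ⟨fun x => γ (x - x 0 • e0 n, 0) (x 0), fun i => contDiff_pi.1 hΦ i, fun x i => ?_⟩
  have hdiff : DifferentiableAt ℝ (fun y : E (n + 1) => γ (y - y 0 • e0 n, 0) (y 0) i) x :=
    ((contDiff_pi.1 hΦ i).differentiable (by simp)) x
  -- the derivative along the line
  have h1 : HasDerivAt (fun t : ℝ => x + t • e0 n) (e0 n) 0 := by
    have h2 := ((hasDerivAt_id (0 : ℝ)).smul_const (e0 n)).const_add x
    simpa using h2
  have h2 : HasDerivAt (fun t : ℝ => γ ((x + t • e0 n) - (x + t • e0 n) 0 • e0 n, 0)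
      ((x + t • e0 n) 0) i)
      (fderiv ℝ (fun y : E (n + 1) => γ (y - y 0 • e0 n, 0) (y 0) i) x (e0 n)) 0 := by
    have h3 : HasFDerivAt (fun y : E (n + 1) => γ (y - y 0 • e0 n, 0) (y 0) i)
        (fderiv ℝ (fun y : E (n + 1) => γ (y - y 0 • e0 n, 0) (y 0) i) x) (x + (0 : ℝ) • e0 n) := by
      rw [zero_smul, add_zero]
      exact hdiff.hasFDerivAt
    exact h3.comp_hasDerivAt (0 : ℝ) h1
  have h3 : ∀ t : ℝ, (x + t • e0 n) 0 = x 0 + t := by
    intro t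
    simp [e0]
  have h4 : (fun t : ℝ => γ ((x + t • e0 n) - (x + t • e0 n) 0 • e0 n, 0)
      ((x + t • e0 n) 0) i) = fun t : ℝ => γ (x - x 0 • e0 n, 0) (x 0 + t) i := by
    funext t
    rw [h3 t]
    have h5 : x + t • e0 n - (x 0 + t) • e0 n = x - x 0 • e0 n := by
      rw [add_smul]
      abel
    rw [h5]
  rw [h4] at h2
  have h6 : HasDerivAt (fun t : ℝ => γ (x - x 0 • e0 n, 0) (x 0 + t) i)
      (lin A Ψ x (γ (x - x 0 • e0 n, 0) (x 0)) i) 0 := by
    have h7 := hγ (x - x 0 • e0 n, 0) (x 0)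
    have h8 : (x - x 0 • e0 n) + x 0 • e0 n = x := by abel
    simp only [h8] at h7
    have h9 := (hasDerivAt_pi.1 h7) i
    have h10 : HasDerivAt (fun t => γ (x - x 0 • e0 n, 0) t i)
      (lin A Ψ x (γ (x - x 0 • e0 n, 0) (x 0)) i) (x 0 + 0) := by
      rw [add_zero]
      exact h9
    exact h10.comp_const_add (x 0) 0
  have h7 := h2.unique h6
  exact h7

end Pool.Agent.WPG
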