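import Pool.Agent.WPG.Geo

set_option autoImplicit false

/-!
# Modification of a metric and of a function far away
-/

namespace Pool.Agent.WPG

open MeasureTheory Set Filter Topology Pool.Agent.XRay Pool.Agent.XTower

namespace MODHAux

variable {n : ℕ}

/-- the vector which represents a covector -/
noncomputable def T (n : ℕ) : (E n →L[ℝ] ℝ) →L[ℝ] E n :=
  ∑ i, (ContinuousLinearMap.apply ℝ ℝ (EuclideanSpace.single i (1 : ℝ) : E n)).smulRight
    (EuclideanSpace.single i (1 : ℝ) : E n)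

lemma inner_T (l : E n →L[ℝ] ℝ) (v : E n) : inner ℝ (T n l) v = l v := by
  have h : v = ∑ i, v i • (EuclideanSpace.single i (1 : ℝ) : E n) := by
    have h1 := (EuclideanSpace.basisFun (Fin n) ℝ).sum_repr v
    simpa using h1.symm
  have h2 : l v = ∑ i, v i * l (EuclideanSpace.single i (1 : ℝ) : E n) := by
    conv_lhs => rw [h]
    rw [map_sum]
    simp
  rw [h2, T]
  simp only [sum_apply, ContinuousLinearMap.smulRight_apply,
    ContinuousLinearMap.apply_apply, sum_inner, inner_smul_left, EuclideanSpace.inner_single_left]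
  refine Finset.sum_congr rfl fun i _ => ?_
  simp [mul_comm]

/-- the operator of a bilinear form -/
noncomputable def OpG (G : E n →L[ℝ] E n →L[ℝ] ℝ) : E n →L[ℝ] E n := (T n).comp G

lemma inner_OpG (G : E n →L[ℝ] E n →L[ℝ] ℝ) (v w : E n) : inner ℝ (OpG G v) w = G v w := by
  rw [OpG, ContinuousLinearMap.comp_apply, inner_T]

lemma exists_equiv {G : E n →L[ℝ] E n →L[ℝ] ℝ} (hG : ∀ v, v ≠ 0 → 0 < G v v) :
    ∃ e : E n ≃L[ℝ] E n, (e : E n →L[ℝ] E n) = OpG G := by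
  have hinj : Function.Injective (OpG G : E n →ₗ[ℝ] E n) := by
    rw [← LinearMap.ker_eq_bot, LinearMap.ker_eq_bot']
    intro v hv
    by_contra h
    have h1 := hG v h
    rw [← inner_OpG] at h1
    have hv' : OpG G v = 0 := hv
    rw [hv', inner_zero_left] at h1
    exact lt_irrefl _ h1
  refine ⟨(LinearEquiv.ofInjectiveEndo (OpG G : E n →ₗ[ℝ] E n) hinj).toContinuousLinearEquiv, ?_⟩
  ext1 v
  rfl

lemma OpG_inv {G : E n →L[ℝ] E n →L[ℝ] ℝ} (hG : ∀ v, v ≠ 0 → 0 < G v v) (p : E n) :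
    OpG G ((OpG G).inverse p) = p := by
  obtain ⟨e, he⟩ := exists_equiv hG
  rw [← he, ContinuousLinearMap.inverse_equiv]
  simp

lemma inner_inv {G : E n →L[ℝ] E n →L[ℝ] ℝ} (hG : ∀ v, v ≠ 0 → 0 < G v v) (p v : E n) :
    G ((OpG G).inverse p) v = inner ℝ p v := by
  rw [← inner_OpG, OpG_inv hG]

lemma smooth_inv {G : E n → E n →L[ℝ] E n →L[ℝ] ℝ} (hG : ∀ x v, v ≠ 0 → 0 < G x v v)
    (hs : ContDiff ℝ (⊤ : ℕ∞) G) : ContDiff ℝ (⊤ : ℕ∞) (fun x => (OpG (G x)).inverse) := by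
  rw [contDiff_iff_contDiffAt]
  intro x
  obtain ⟨e, he⟩ := exists_equiv (hG x)
  have h1 : ContDiff ℝ (⊤ : ℕ∞) (fun x => OpG (G x)) := by
    unfold OpG
    exact contDiff_const.clm_comp hs
  have h2 := contDiffAt_map_inverse (n := ((⊤ : ℕ∞) : WithTop ℕ∞)) (𝕜 := ℝ) e
  rw [he] at h2
  exact ContDiffAt.comp x h2 h1.contDiffAt

/-- the lower bound of the inverse -/
lemma low {G : E n →L[ℝ] E n →L[ℝ] ℝ} (hG : ∀ v, v ≠ 0 → 0 < G v v)
    (hsym : ∀ v w, G v w = G w v) {L : ℝ} (hL : 0 < L) (hb : ‖G‖ ≤ L) (v : E n) :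
    L⁻¹ * ‖v‖ ^ 2 ≤ inner ℝ ((OpG G).inverse v) v := by
  obtain ⟨m, hm⟩ : ∃ m, m = (OpG G).inverse v := ⟨_, rfl⟩
  have h1 : ∀ w, G m w = inner ℝ v w := fun w => by rw [hm, inner_inv hG]
  have h2 : G m v = ‖v‖ ^ 2 := by rw [h1, real_inner_self_eq_norm_sq]
  have h3 : G v v ≤ L * ‖v‖ ^ 2 := by
    have h4 : G v v ≤ ‖G‖ * ‖v‖ * ‖v‖ := (le_abs_self _).trans (G.le_opNorm₂ v v)
    have h5 : ‖G‖ * ‖v‖ * ‖v‖ ≤ L * ‖v‖ * ‖v‖ := by gcongr
    nlinarith
  have h6 : 0 ≤ G (m - L⁻¹ • v) (m - L⁻¹ • v) := by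
    by_cases h : m - L⁻¹ • v = 0
    · rw [h]; simp
    · exact (hG _ h).le
  have h7 : G (m - L⁻¹ • v) (m - L⁻¹ • v) = G m m - 2 * L⁻¹ * G m v + L⁻¹ ^ 2 * G v v := by
    simp only [map_sub, map_smul, sub_apply, smul_apply,
      smul_eq_mul]
    rw [hsym v m]
    ring
  have h8 : G m m = inner ℝ m v := by rw [h1, real_inner_comm]
  rw [h7, h2, h8] at h6
  rw [← hm]
  have h9 : L⁻¹ ^ 2 * G v v ≤ L⁻¹ ^ 2 * (L * ‖v‖ ^ 2) := by gcongr
  have h10 : L⁻¹ ^ 2 * (L * ‖v‖ ^ 2) = L⁻¹ * ‖v‖ ^ 2 := by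
    field_simp
  rw [h10] at h9
  linarith

lemma sym_inv {G : E n →L[ℝ] E n →L[ℝ] ℝ} (hG : ∀ v, v ≠ 0 → 0 < G v v)
    (hsym : ∀ v w, G v w = G w v) (v w : E n) :
    inner ℝ ((OpG G).inverse v) w = inner ℝ v ((OpG G).inverse w) := by
  rw [← inner_inv hG v, hsym, inner_inv hG, real_inner_comm]

/-- the inner product -/
noncomputable def I0 (n : ℕ) : E n →L[ℝ] E n →L[ℝ] ℝ := innerSL ℝ

lemma I0_apply (v w : E n) : I0 n v w = inner ℝ v w := rfl

lemma OpG_I0 : OpG (I0 n) = ContinuousLinearMap.id ℝ (E n) := by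
  ext1 v
  refine ext_inner_right ℝ fun w => ?_
  rw [inner_OpG, I0_apply]
  rfl

lemma contDiff_mix {F : Type*} [NormedAddCommGroup F] [NormedSpace ℝ F] {χ : E n → ℝ}
    {g : E n → F} (hχ : ContDiff ℝ (⊤ : ℕ∞) χ) (hg : ContDiff ℝ (⊤ : ℕ∞) g) (c : F) :
    ContDiff ℝ (⊤ : ℕ∞) (fun x => χ x • g x + (1 - χ x) • c) :=
  (hχ.smul hg).add ((contDiff_const.sub hχ).smul contDiff_const)

lemma bound_ball {F : Type*} [NormedAddCommGroup F] [NormedSpace ℝ F] {g : E n → F}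
    (hg : ContDiff ℝ (⊤ : ℕ∞) g) (r : ℝ) : ∃ C : ℝ, ∀ x, ‖x‖ ≤ r → ‖g x‖ ≤ C := by
  have hc : IsCompact (Metric.closedBall (0 : E n) r) := isCompact_closedBall _ _
  obtain ⟨C, hC⟩ := hc.exists_bound_of_continuousOn hg.continuous.continuousOn
  exact ⟨C, fun x hx => hC x (by rwa [mem_closedBall_zero_iff])⟩

end MODHAux

open MODHAux in
theorem modh : Stmt_MODH := by
  intro n g ϕ R hg hgs hϕs hϕ0
  -- the cut-off function
  obtain ⟨χ, hχs, hχ1, hχ0, hχn, hχl⟩ : ∃ χ : E n → ℝ, ContDiff ℝ (⊤ : ℕ∞) χ ∧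
      (∀ x, ‖x‖ < R → χ x = 1) ∧ (∀ x, max R 1 + 1 ≤ ‖x‖ → χ x = 0) ∧ (∀ x, 0 ≤ χ x) ∧
      ∀ x, χ x ≤ 1 := by
    let f : ContDiffBump (0 : E n) :=
      ⟨max R 1, max R 1 + 1, lt_of_lt_of_le one_pos (le_max_right _ _), by linarith⟩
    refine ⟨f, f.contDiff, ?_, ?_, fun x => f.nonneg, fun x => f.le_one⟩
    · intro x hx
      apply f.one_of_mem_closedBall
      rw [mem_closedBall_zero_iff]
      exact hx.le.trans (le_max_left _ _)
    · intro x hx
      apply f.zero_of_le_dist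
      rw [dist_zero_right]
      exact hx
  -- the new metric
  let G : E n → E n →L[ℝ] E n →L[ℝ] ℝ := fun x => χ x • g x + (1 - χ x) • I0 n
  have hGs : ContDiff ℝ (⊤ : ℕ∞) G := contDiff_mix hχs hgs (I0 n)
  have hGa : ∀ x v w, G x v w = χ x * g x v w + (1 - χ x) * inner ℝ v w := by
    intro x v w
    simp [G, I0_apply]
  have hGp : ∀ x v, v ≠ 0 → 0 < G x v v := by
    intro x v hv
    rw [hGa]
    have h1 := hg.pos x v hv
    have h2 : (0 : ℝ) < inner ℝ v v := by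
      rw [real_inner_self_eq_norm_sq]
      positivity
    rcases (hχn x).lt_or_eq with h | h
    · have h3 : 0 < χ x * g x v v := mul_pos h h1
      have h4 : 0 ≤ (1 - χ x) * inner ℝ v v := mul_nonneg (by linarith [hχl x]) h2.le
      linarith
    · rw [← h]
      simpa using h2
  have hGsym : ∀ x v w, G x v w = G x w v := by
    intro x v w
    rw [hGa, hGa, hg.symm x v w, real_inner_comm]
  -- the new function
  let F : E n → ℝ := fun x => χ x * ϕ x + (1 - χ x)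
  have hFs : ContDiff ℝ (⊤ : ℕ∞) F := (hχs.mul hϕs).add (contDiff_const.sub hχs)
  have hFp : ∀ x, 0 < F x := by
    intro x
    show 0 < χ x * ϕ x + (1 - χ x)
    rcases (hχn x).lt_or_eq with h | h
    · have h3 : 0 < χ x * ϕ x := mul_pos h (hϕ0 x)
      linarith [hχl x]
    · rw [← h]
      simp
  -- bounds
  have hout : ∀ x, max R 1 + 1 ≤ ‖x‖ → G x = I0 n ∧ F x = 1 := by
    intro x hx
    constructor
    · ext v w
      rw [hGa, hχ0 x hx, I0_apply]
      ring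
    · simp [F, hχ0 x hx]
  obtain ⟨L, hL0, hL⟩ : ∃ L : ℝ, 0 < L ∧ ∀ x, ‖G x‖ ≤ L ∧ F x ≤ L := by
    obtain ⟨C1, hC1⟩ := bound_ball hGs (max R 1 + 1)
    obtain ⟨C2, hC2⟩ := bound_ball hFs (max R 1 + 1)
    refine ⟨max (max C1 C2) (max ‖I0 n‖ 1), ?_, ?_⟩
    · exact lt_of_lt_of_le one_pos ((le_max_right _ _).trans (le_max_right _ _))
    · intro x
      rcases le_or_gt ‖x‖ (max R 1 + 1) with h | h
      · refine ⟨(hC1 x h).trans ((le_max_left _ _).trans (le_max_left _ _)), ?_⟩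
        exact (le_abs_self _).trans ((hC2 x h).trans ((le_max_right _ _).trans (le_max_left _ _)))
      · obtain ⟨h1, h2⟩ := hout x h.le
        rw [h1, h2]
        exact ⟨(le_max_left _ _).trans (le_max_right _ _),
          (le_max_right _ _).trans (le_max_right _ _)⟩
  refine ⟨{
    A := fun x => (OpG (G x)).inverse
    u := fun x => (F x)⁻¹
    a := L⁻¹
    a0 := inv_pos.2 hL0
    As := smooth_inv hGp hGs
    us := hFs.inv fun x => (hFp x).ne'
    sym := fun x v w => sym_inv (hGp x) (hGsym x) v w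
    lo := fun x v => low (hGp x) (hGsym x) hL0 (hL x).1 v
    ulo := fun x => inv_anti₀ (hFp x) (hL x).2
    con := ⟨max R 1 + 1, 1, ContinuousLinearMap.id ℝ (E n), fun x hx => ?_⟩ }, ?_⟩
  · obtain ⟨h1, h2⟩ := hout x hx
    rw [h1, h2, OpG_I0]
    refine ⟨?_, by simp⟩
    exact ContinuousLinearMap.inverse_id
  · intro x hx
    have h1 : G x = g x := by
      ext v w
      rw [hGa, hχ1 x hx]
      ring
    have h2 : F x = ϕ x := by simp [F, hχ1 x hx]
    refine ⟨fun p v => ?_, ?_⟩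
    · have h3 := inner_inv (hGp x) p v
      rw [← h1]
      exact h3
    · show (F x)⁻¹ = _
      rw [h2]

end Pool.Agent.WPG
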