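import Pool.Agent.WPG.Stmts
import Pool.Agent.WPD.Mom

/-!
# General warped products: the moments determine the function (MOM)
-/

set_option autoImplicit false

namespace Pool.Agent.WPG

open MeasureTheory Set Filter Topology

namespace MOMAux

/-- a function whose integrals over all rectangles vanish -/
theorem rect {X Y : Type*} [MeasurableSpace X] [MeasurableSpace Y] (μ : Measure X) (ν : Measure Y)
    [IsFiniteMeasure μ] [IsFiniteMeasure ν] (H : X × Y → ℝ) (hi : Integrable H (μ.prod ν))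
    (h : ∀ (A : Set X) (B : Set Y), MeasurableSet A → MeasurableSet B →
      ∫ q in A ×ˢ B, H q ∂(μ.prod ν) = 0) : ∀ᵐ q ∂(μ.prod ν), H q = 0 := by
  have huniv : ∫ q, H q ∂(μ.prod ν) = 0 := by
    have := h univ univ MeasurableSet.univ MeasurableSet.univ
    rwa [univ_prod_univ, setIntegral_univ] at this
  have key : ∀ S : Set (X × Y), MeasurableSet S → ∫ q in S, H q ∂(μ.prod ν) = 0 := by
    intro S hS
    refine MeasurableSpace.induction_on_inter (C := fun S _ => ∫ q in S, H q ∂(μ.prod ν) = 0)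
      generateFrom_prod.symm isPiSystem_prod ?_ ?_ ?_ ?_ S hS
    · simp
    · rintro S ⟨A, hA, B, hB, rfl⟩
      exact h A B hA hB
    · intro S hS hz
      have := integral_add_compl hS hi
      rw [hz, huniv, zero_add] at this
      exact this
    · intro S hd hS hz
      rw [integral_iUnion hS hd hi.integrableOn]
      simp [hz]
  exact hi.ae_eq_zero_of_forall_setIntegral_eq_zero fun S hS _ => key S hS

variable {a n : ℕ} (D : WD a n) {ψ : ℝ → ℝ → P a → P a}

theorem ψc (hψ : D.B.Flow ψ) : Continuous (fun q : ℝ × P a => ψ 0 q.1 q.2) :=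
  hψ.smooth.continuous.comp (continuous_const.prodMk (continuous_fst.prodMk continuous_snd))

theorem sgc (hS : Stmt_SGS) (hψ : D.B.Flow ψ) :
    Continuous (fun q : ℝ × P a => D.B.sg ψ 0 q.1 q.2) :=
  (hS a D.B ψ hψ).continuous.comp
    (continuous_const.prodMk (continuous_fst.prodMk continuous_snd))

theorem sg_neg (hψ : D.B.Flow ψ) (s : ℝ) (y : P a) :
    D.B.sg ψ 0 (-s) (ψ 0 s y) = - D.B.sg ψ 0 s y := by
  unfold HD.sg
  have h1 : ∀ r, D.B.u (ψ 0 r (ψ 0 s y)).1 = (fun r => D.B.u (ψ 0 r y).1) (r + s) := by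
    intro r
    show _ = D.B.u (ψ 0 (r + s) y).1
    rw [hψ.add]
  simp only [h1]
  rw [intervalIntegral.integral_comp_add_right (fun r => D.B.u (ψ 0 r y).1) s, zero_add,
    neg_add_cancel, intervalIntegral.integral_symm]

/-- the time measure -/
noncomputable def ms (T₁ T₂ : ℝ) : Measure ℝ := volume.restrict (Ioc T₁ T₂)

instance (T₁ T₂ : ℝ) : IsFiniteMeasure (ms T₁ T₂) := by
  unfold ms
  infer_instance

/-- the integrand -/
noncomputable def ph (ψ : ℝ → ℝ → P a → P a) (j : ℕ) (Y : E (n + 2)) (s : ℝ) (y : P a) : ℝ :=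
  D.f (ψ 0 s y).1 Y * D.B.sg ψ 0 s y ^ j

/-- the integral over the time -/
noncomputable def G (ψ : ℝ → ℝ → P a → P a) (T₁ T₂ : ℝ) (j : ℕ) (y : P a) (Y : E (n + 2)) : ℝ :=
  ∫ s, ph D ψ j Y s y ∂(ms T₁ T₂)

theorem ph_meas (hS : Stmt_SGS) (hψ : D.B.Flow ψ) (j : ℕ) :
    Measurable (fun q : (P a × E (n + 2)) × ℝ => ph D ψ j q.1.2 q.2 q.1.1) := by
  have h1 : Measurable (fun q : (P a × E (n + 2)) × ℝ => ψ 0 q.2 q.1.1) :=
    ((ψc D hψ).comp (continuous_snd.prodMk (continuous_fst.comp continuous_fst))).measurable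
  have h2 : Measurable (fun q : (P a × E (n + 2)) × ℝ => D.B.sg ψ 0 q.2 q.1.1) :=
    ((sgc D hS hψ).comp (continuous_snd.prodMk (continuous_fst.comp continuous_fst))).measurable
  have h3 : Measurable (fun q : (P a × E (n + 2)) × ℝ => D.f (ψ 0 q.2 q.1.1).1 q.1.2) :=
    D.fm.comp (h1.fst.prodMk measurable_fst.snd)
  exact h3.mul (h2.pow_const j)

theorem G_meas (hS : Stmt_SGS) (hψ : D.B.Flow ψ) (T₁ T₂ : ℝ) (j : ℕ) :
    StronglyMeasurable (fun q : P a × E (n + 2) => G D ψ T₁ T₂ j q.1 q.2) :=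
  (ph_meas D hS hψ j).stronglyMeasurable.integral_prod_right'

theorem ms_mem (T₁ T₂ : ℝ) : ∀ᵐ s ∂(ms T₁ T₂), s ∈ Ioc T₁ T₂ :=
  ae_restrict_mem measurableSet_Ioc

theorem C0 : 0 ≤ D.C := (abs_nonneg _).trans (D.fC 0 0)

theorem ph_bd (hS : Stmt_SGS) (hψ : D.B.Flow ψ) (T₁ T₂ : ℝ) (j : ℕ) (N : ℝ) :
    ∃ B, 0 ≤ B ∧ ∀ s ∈ Ioc T₁ T₂, ∀ y : P a, ‖y‖ ≤ N → ∀ Y, |ph D ψ j Y s y| ≤ B := by
  have hK : IsCompact (Icc T₁ T₂ ×ˢ Metric.closedBall (0 : P a) N) :=
    isCompact_Icc.prod (isCompact_closedBall _ _)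
  obtain ⟨b, hb⟩ := hK.exists_bound_of_continuousOn
    (f := fun q : ℝ × P a => D.B.sg ψ 0 q.1 q.2 ^ j) ((sgc D hS hψ).pow j).continuousOn
  refine ⟨D.C * |b|, mul_nonneg (C0 D) (abs_nonneg _), fun s hs y hy Y => ?_⟩
  have h1 := hb (s, y) ⟨⟨hs.1.le, hs.2⟩, by simpa using hy⟩
  unfold ph
  rw [abs_mul]
  refine mul_le_mul (D.fC _ _) ?_ (abs_nonneg _) (C0 D)
  rw [← Real.norm_eq_abs]
  exact h1.trans (le_abs_self b)

theorem G_bd (hS : Stmt_SGS) (hψ : D.B.Flow ψ) (T₁ T₂ : ℝ) (j : ℕ) (N : ℝ) :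
    ∃ B, 0 ≤ B ∧ ∀ y : P a, ‖y‖ ≤ N → ∀ Y, |G D ψ T₁ T₂ j y Y| ≤ B := by
  obtain ⟨B, hB0, hB⟩ := ph_bd D hS hψ T₁ T₂ j N
  refine ⟨B * (ms T₁ T₂).real univ, by positivity, fun y hy Y => ?_⟩
  rw [← Real.norm_eq_abs]
  refine norm_integral_le_of_norm_le_const ?_
  filter_upwards [ms_mem T₁ T₂] with s hs
  exact hB s hs y hy Y

/-- the measure on the fibre -/
noncomputable def mf : Measure (E (n + 2)) := volume.restrict (Metric.closedBall 0 D.R)

instance : IsFiniteMeasure (mf D) := by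
  unfold mf
  exact ⟨by
    rw [Measure.restrict_apply_univ]
    exact measure_closedBall_lt_top⟩

theorem α_bd {U : Set (P a)} {α : P a → ℝ} (hα : TB U α) :
    ∃ N : ℝ, ∀ y, α y ≠ 0 → ‖y‖ ≤ N := by
  obtain ⟨N, hN⟩ := hα.supp.isCompact.isBounded.exists_norm_le
  exact ⟨N, fun y hy => hN y (subset_tsupport _ hy)⟩

theorem α_int {U : Set (P a)} {α : P a → ℝ} (hα : TB U α) :
    Integrable α (volume : Measure (P a)) := by
  have := haarP a
  exact hα.smooth.continuous.integrable_of_hasCompactSupport hα.supp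

/-- the moments as integrals against `α` -/
theorem M_eq (hS : Stmt_SGS) (hψ : D.B.Flow ψ) {U : Set (P a)} {T₁ T₂ : ℝ} (hT : T₁ ≤ T₂)
    {α : P a → ℝ} (hα : TB U α) (j : ℕ) (Y : E (n + 2)) :
    D.M ψ T₁ T₂ α j Y = (-1) ^ j * ∫ y : P a, α y * G D ψ T₁ T₂ j y Y := by
  have := haarP a
  have h1 : ∀ s : ℝ, ∫ y : P a, D.f y.1 Y * (α (ψ 0 (-s) y) * D.B.sg ψ 0 (-s) y ^ j) =
      (-1) ^ j * ∫ y : P a, α y * ph D ψ j Y s y := by
    intro s
    have hψs : Continuous (fun y : P a => ψ 0 (-s) y) :=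
      (ψc D hψ).comp (continuous_const.prodMk continuous_id)
    have hsg : Continuous (fun y : P a => D.B.sg ψ 0 (-s) y) :=
      (sgc D hS hψ).comp (continuous_const.prodMk continuous_id)
    have hm : Measurable (fun y : P a =>
        D.f y.1 Y * (α (ψ 0 (-s) y) * D.B.sg ψ 0 (-s) y ^ j)) := by
      have h2 : Measurable (fun y : P a => D.f y.1 Y) :=
        D.fm.comp (measurable_fst.prodMk measurable_const)
      exact h2.mul (((hα.smooth.continuous.comp hψs).mul (hsg.pow j)).measurable)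
    have hp := hψ.pres 0 s
    have h3 : ∫ y : P a, D.f y.1 Y * (α (ψ 0 (-s) y) * D.B.sg ψ 0 (-s) y ^ j) =
        ∫ y : P a, D.f (ψ 0 s y).1 Y * (α (ψ 0 (-s) (ψ 0 s y)) *
          D.B.sg ψ 0 (-s) (ψ 0 s y) ^ j) := by
      conv_lhs => rw [← hp.map_eq]
      exact integral_map hp.measurable.aemeasurable hm.aestronglyMeasurable
    rw [h3, ← integral_const_mul]
    refine integral_congr_ae (Eventually.of_forall fun y => ?_)
    show D.f (ψ 0 s y).1 Y * (α (ψ 0 (-s) (ψ 0 s y)) * D.B.sg ψ 0 (-s) (ψ 0 s y) ^ j) =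
      (-1) ^ j * (α y * (D.f (ψ 0 s y).1 Y * D.B.sg ψ 0 s y ^ j))
    rw [sg_neg D hψ, ← hψ.add, neg_add_cancel, hψ.zero, neg_pow]
    ring
  obtain ⟨N, hN⟩ := α_bd hα
  obtain ⟨B, hB0, hB⟩ := ph_bd D hS hψ T₁ T₂ j N
  have hint : Integrable (fun q : ℝ × P a => α q.2 * ph D ψ j Y q.1 q.2)
      ((ms T₁ T₂).prod volume) := by
    have hd : Integrable (fun q : ℝ × P a => B * |α q.2|) ((ms T₁ T₂).prod volume) := by
      have h4 : Integrable (fun q : ℝ × P a => (fun _ : ℝ => B) q.1 * (fun y => |α y|) q.2)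
          ((ms T₁ T₂).prod volume) :=
        (integrable_const B).mul_prod (α_int hα).abs
      exact h4
    refine hd.mono' ?_ ?_
    · have h5 : Measurable (fun q : ℝ × P a => ph D ψ j Y q.1 q.2) :=
        (ph_meas D hS hψ j).comp
          (g := fun q : (P a × E (n + 2)) × ℝ => ph D ψ j q.1.2 q.2 q.1.1)
          ((measurable_snd.prodMk measurable_const).prodMk measurable_fst)
      exact (((hα.smooth.continuous.comp continuous_snd).measurable).mul h5).aestronglyMeasurable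
    · have h6 : ∀ᵐ q : ℝ × P a ∂((ms T₁ T₂).prod volume), q.1 ∈ Ioc T₁ T₂ :=
        Measure.quasiMeasurePreserving_fst.ae (ms_mem T₁ T₂)
      filter_upwards [h6] with q hq
      rw [norm_mul, mul_comm]
      by_cases h7 : α q.2 = 0
      · rw [h7]; simp
      · exact mul_le_mul_of_nonneg_right (hB q.1 hq q.2 (hN _ h7) Y) (norm_nonneg _)
  unfold WD.M
  rw [intervalIntegral.integral_of_le hT]
  simp only [h1]
  rw [integral_const_mul]
  congr 1
  have h8 : ∫ s, ∫ y : P a, α y * ph D ψ j Y s y ∂volume ∂(ms T₁ T₂) =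
      ∫ y : P a, ∫ s, α y * ph D ψ j Y s y ∂(ms T₁ T₂) ∂volume :=
    integral_integral_swap hint
  have h9 : ∫ s in Ioc T₁ T₂, ∫ y : P a, α y * ph D ψ j Y s y =
      ∫ s, ∫ y : P a, α y * ph D ψ j Y s y ∂volume ∂(ms T₁ T₂) := rfl
  rw [h9, h8]
  refine integral_congr_ae (Eventually.of_forall fun y => ?_)
  show ∫ s, α y * ph D ψ j Y s y ∂(ms T₁ T₂) = α y * G D ψ T₁ T₂ j y Y
  rw [integral_const_mul]
  rfl

theorem gB_zero (hS : Stmt_SGS) (hψ : D.B.Flow ψ) {U : Set (P a)} (hU : IsOpen U) {T₁ T₂ : ℝ}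
    (hT : T₁ ≤ T₂)
    (h : ∀ α : P a → ℝ, TB U α → ∀ j : ℕ, ∀ᵐ Y : E (n + 2), D.M ψ T₁ T₂ α j Y = 0) (j : ℕ)
    (B : Set (E (n + 2))) :
    ∀ᵐ y : P a, y ∈ U → ∫ Y in B, G D ψ T₁ T₂ j y Y ∂(mf D) = 0 := by
  have := haarP a
  have hm : StronglyMeasurable (fun y : P a => ∫ Y in B, G D ψ T₁ T₂ j y Y ∂(mf D)) :=
    (G_meas D hS hψ T₁ T₂ j).integral_prod_right'
  have hbd : ∀ N : ℝ, ∃ c, ∀ y : P a, ‖y‖ ≤ N →
      ‖∫ Y in B, G D ψ T₁ T₂ j y Y ∂(mf D)‖ ≤ c := by
    intro N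
    obtain ⟨c, hc0, hc⟩ := G_bd D hS hψ T₁ T₂ j N
    refine ⟨c * ((mf D).restrict B).real univ, fun y hy => ?_⟩
    exact norm_integral_le_of_norm_le_const (Eventually.of_forall fun Y => hc y hy Y)
  have hloc : LocallyIntegrable (fun y : P a => ∫ Y in B, G D ψ T₁ T₂ j y Y ∂(mf D))
      volume := by
    intro y
    obtain ⟨c, hc⟩ := hbd (‖y‖ + 1)
    refine ⟨Metric.closedBall y 1, Metric.closedBall_mem_nhds y one_pos, ?_⟩
    refine Measure.integrableOn_of_bounded (M := c) measure_closedBall_lt_top.ne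
      hm.aestronglyMeasurable ?_
    filter_upwards [ae_restrict_mem Metric.isClosed_closedBall.measurableSet] with x hx
    apply hc
    have h1 : ‖x - y‖ ≤ 1 := by simpa [dist_eq_norm] using hx
    calc ‖x‖ = ‖y + (x - y)‖ := by rw [add_sub_cancel]
      _ ≤ ‖y‖ + ‖x - y‖ := norm_add_le _ _
      _ ≤ ‖y‖ + 1 := by linarith
  refine hU.ae_eq_zero_of_integral_contDiff_smul_eq_zero (hloc.locallyIntegrableOn U) ?_
  intro α hs hsupp hsub
  have hα : TB U α := ⟨hs, hsupp, hsub⟩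
  obtain ⟨N, hN⟩ := α_bd hα
  obtain ⟨c, hc0, hc⟩ := G_bd D hS hψ T₁ T₂ j N
  have hint : Integrable (fun q : P a × E (n + 2) => α q.1 * G D ψ T₁ T₂ j q.1 q.2)
      (volume.prod ((mf D).restrict B)) := by
    have hd : Integrable (fun q : P a × E (n + 2) => |α q.1| * c)
        (volume.prod ((mf D).restrict B)) := by
      have h4 : Integrable (fun q : P a × E (n + 2) => (fun y => |α y|) q.1 *
          (fun _ : E (n + 2) => c) q.2) (volume.prod ((mf D).restrict B)) :=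
        (α_int hα).abs.mul_prod (integrable_const c)
      exact h4
    refine hd.mono' ?_ (Eventually.of_forall fun q => ?_)
    · exact (((hα.smooth.continuous.comp continuous_fst).measurable).mul
        (G_meas D hS hψ T₁ T₂ j).measurable).aestronglyMeasurable
    · rw [norm_mul]
      by_cases h7 : α q.1 = 0
      · rw [h7]; simp
      · exact mul_le_mul_of_nonneg_left (hc q.1 (hN _ h7) q.2) (norm_nonneg _)
  have h1 : ∫ y : P a, α y • ∫ Y in B, G D ψ T₁ T₂ j y Y ∂(mf D) =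
      ∫ y : P a, ∫ Y in B, α y * G D ψ T₁ T₂ j y Y ∂(mf D) := by
    refine integral_congr_ae (Eventually.of_forall fun y => ?_)
    show α y • ∫ Y in B, G D ψ T₁ T₂ j y Y ∂(mf D) =
      ∫ Y in B, α y * G D ψ T₁ T₂ j y Y ∂(mf D)
    rw [integral_const_mul, smul_eq_mul]
  rw [h1, integral_integral_swap hint]
  have h2 : ∀ᵐ Y ∂((mf D).restrict B), ∫ y : P a, α y * G D ψ T₁ T₂ j y Y = 0 := by
    have h3 := h α hα j
    have h4 : ∀ᵐ Y ∂((mf D).restrict B), D.M ψ T₁ T₂ α j Y = 0 := by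
      apply ae_restrict_of_ae
      unfold mf
      exact ae_restrict_of_ae h3
    filter_upwards [h4] with Y hY
    rw [M_eq D hS hψ hT hα] at hY
    exact (mul_eq_zero.1 hY).resolve_left (pow_ne_zero _ (by norm_num))
  rw [integral_congr_ae h2]
  simp

theorem G_zero (hS : Stmt_SGS) (hψ : D.B.Flow ψ) {U : Set (P a)} (hU : IsOpen U) {T₁ T₂ : ℝ}
    (hT : T₁ ≤ T₂)
    (h : ∀ α : P a → ℝ, TB U α → ∀ j : ℕ, ∀ᵐ Y : E (n + 2), D.M ψ T₁ T₂ α j Y = 0) (j : ℕ)
    (N : ℕ) :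
    ∀ᵐ q : P a × E (n + 2), q ∈ (U ∩ Metric.closedBall 0 (N : ℝ)) ×ˢ
      Metric.closedBall 0 D.R → G D ψ T₁ T₂ j q.1 q.2 = 0 := by
  have := haarP a
  have hUm : MeasurableSet (U ∩ Metric.closedBall (0 : P a) (N : ℝ)) :=
    hU.measurableSet.inter Metric.isClosed_closedBall.measurableSet
  have hfin : (volume : Measure (P a)) (U ∩ Metric.closedBall 0 (N : ℝ)) < ⊤ :=
    (measure_mono inter_subset_right).trans_lt measure_closedBall_lt_top
  set μ : Measure (P a) := volume.restrict (U ∩ Metric.closedBall 0 (N : ℝ)) with hμ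
  have hμf : IsFiniteMeasure μ := ⟨by rw [hμ, Measure.restrict_apply_univ]; exact hfin⟩
  obtain ⟨c, hc0, hc⟩ := G_bd D hS hψ T₁ T₂ j N
  have hmem : ∀ᵐ q : P a × E (n + 2) ∂(μ.prod (mf D)), q.1 ∈ U ∩ Metric.closedBall 0 (N : ℝ) :=
    Measure.quasiMeasurePreserving_fst.ae (ae_restrict_mem hUm)
  have hint : Integrable (fun q : P a × E (n + 2) => G D ψ T₁ T₂ j q.1 q.2)
      (μ.prod (mf D)) := by
    refine Integrable.of_bound (G_meas D hS hψ T₁ T₂ j).aestronglyMeasurable c ?_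
    filter_upwards [hmem] with q hq
    refine hc q.1 ?_ q.2
    simpa using hq.2
  have hmain := rect μ (mf D) _ hint ?_
  · have h1 : μ.prod (mf D) = ((volume : Measure (P a)).prod (volume : Measure (E (n + 2)))).restrict
        ((U ∩ Metric.closedBall 0 (N : ℝ)) ×ˢ Metric.closedBall 0 D.R) := by
      rw [hμ]
      unfold mf
      exact Measure.prod_restrict _ _
    rw [h1, ae_restrict_iff' (hUm.prod Metric.isClosed_closedBall.measurableSet)] at hmain
    exact hmain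
  · intro A B hA hB
    rw [setIntegral_prod _ hint.integrableOn]
    have h2 : ∀ᵐ y ∂(μ.restrict A), ∫ Y in B, G D ψ T₁ T₂ j y Y ∂(mf D) = 0 := by
      apply ae_restrict_of_ae
      rw [hμ, ae_restrict_iff' hUm]
      filter_upwards [gB_zero D hS hψ hU hT h j B] with y hy hyU
      exact hy hyU.1
    rw [integral_congr_ae h2]
    simp

/-! ### one curve -/

theorem ig_cont (hψ : D.B.Flow ψ) (y : P a) : Continuous (fun r => D.B.u (ψ 0 r y).1) :=
  D.B.us.continuous.comp (continuous_fst.comp ((ψc D hψ).comp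
    (continuous_id.prodMk continuous_const)))

theorem th_cont (hψ : D.B.Flow ψ) (y : P a) : Continuous (fun s => D.B.sg ψ 0 s y) :=
  intervalIntegral.continuous_primitive
    (fun a b => (ig_cont D hψ y).intervalIntegrable a b) 0

theorem th_mono (hψ : D.B.Flow ψ) (y : P a) : StrictMono (fun s => D.B.sg ψ 0 s y) := by
  intro s t hst
  have h1 : D.B.sg ψ 0 t y - D.B.sg ψ 0 s y = ∫ r in s..t, D.B.u (ψ 0 r y).1 :=
    intervalIntegral.integral_interval_sub_left ((ig_cont D hψ y).intervalIntegrable 0 t)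
      ((ig_cont D hψ y).intervalIntegrable 0 s)
  have h2 : 0 < ∫ r in s..t, D.B.u (ψ 0 r y).1 :=
    intervalIntegral.intervalIntegral_pos_of_pos ((ig_cont D hψ y).intervalIntegrable s t)
      (fun r => lt_of_lt_of_le D.B.a0 (D.B.ulo _)) hst
  show D.B.sg ψ 0 s y < D.B.sg ψ 0 t y
  linarith

theorem th_surj (hψ : D.B.Flow ψ) (y : P a) : Function.Surjective (fun s => D.B.sg ψ 0 s y) := by
  have hc := D.B.a0
  apply (th_cont D hψ y).surjective
  · have h1 : Tendsto (fun t : ℝ => D.B.a * t) atTop atTop :=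
      tendsto_id.const_mul_atTop hc
    refine tendsto_atTop_mono' _ ?_ h1
    filter_upwards [eventually_ge_atTop (0 : ℝ)] with t ht
    have h2 : ∫ _ in (0 : ℝ)..t, D.B.a ≤ ∫ r in (0 : ℝ)..t, D.B.u (ψ 0 r y).1 :=
      intervalIntegral.integral_mono ht intervalIntegrable_const
        ((ig_cont D hψ y).intervalIntegrable 0 t) fun r => D.B.ulo _
    rw [intervalIntegral.integral_const, smul_eq_mul, sub_zero, mul_comm] at h2
    exact h2
  · have h1 : Tendsto (fun t : ℝ => D.B.a * t) atBot atBot :=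
      tendsto_id.const_mul_atBot hc
    refine tendsto_atBot_mono' _ ?_ h1
    filter_upwards [eventually_le_atBot (0 : ℝ)] with t ht
    have h2 : ∫ _ in t..(0 : ℝ), D.B.a ≤ ∫ r in t..(0 : ℝ), D.B.u (ψ 0 r y).1 :=
      intervalIntegral.integral_mono ht intervalIntegrable_const
        ((ig_cont D hψ y).intervalIntegrable t 0) fun r => D.B.ulo _
    rw [intervalIntegral.integral_const, smul_eq_mul] at h2
    have h3 : D.B.sg ψ 0 t y = - ∫ r in t..(0 : ℝ), D.B.u (ψ 0 r y).1 :=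
      intervalIntegral.integral_symm t 0
    show D.B.sg ψ 0 t y ≤ D.B.a * t
    rw [h3]
    nlinarith

theorem curve (hψ : D.B.Flow ψ) (T₁ T₂ : ℝ) (y : P a) (Y : E (n + 2))
    (h : ∀ j, G D ψ T₁ T₂ j y Y = 0) :
    ∀ᵐ s ∂(volume.restrict (Ioo T₁ T₂)), D.f (ψ 0 s y).1 Y = 0 := by
  set g : ℝ → ℝ := (Ioc T₁ T₂).indicator (fun s => D.f (ψ 0 s y).1 Y) with hg
  have hm0 : Measurable (fun s => D.f (ψ 0 s y).1 Y) :=
    D.fm.comp (((continuous_fst.comp ((ψc D hψ).comp
      (continuous_id.prodMk continuous_const))).measurable).prodMk measurable_const)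
  have hi : Integrable g := by
    rw [hg, integrable_indicator_iff measurableSet_Ioc]
    exact Measure.integrableOn_of_bounded (M := D.C) (by simp) hm0.aestronglyMeasurable
      (Eventually.of_forall fun s => D.fC _ _)
  have h1 := WPD.MOMAux.one_dim (fun s => D.B.sg ψ 0 s y) (th_cont D hψ y) (th_mono D hψ y)
    (th_surj D hψ y) g hi (max |T₁| |T₂|) (by
      intro t ht
      rw [hg]
      apply indicator_of_notMem
      intro h2
      apply ht
      have h3 := neg_abs_le T₁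
      have h4 := le_abs_self T₂
      have h5 := le_max_left |T₁| |T₂|
      have h6 := le_max_right |T₁| |T₂|
      exact ⟨by linarith [h2.1], by linarith [h2.2]⟩) (by
      intro j
      refine Eq.trans ?_ (h j)
      unfold G ms
      rw [← integral_indicator measurableSet_Ioc]
      refine integral_congr_ae (Eventually.of_forall fun s => ?_)
      show g s * D.B.sg ψ 0 s y ^ j = (Ioc T₁ T₂).indicator (fun s => ph D ψ j Y s y) s
      by_cases hs : s ∈ Ioc T₁ T₂
      · rw [hg, indicator_of_mem hs, indicator_of_mem hs]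
        rfl
      · rw [hg, indicator_of_notMem hs, indicator_of_notMem hs, zero_mul])
  rw [ae_restrict_iff' measurableSet_Ioo]
  filter_upwards [h1] with s hs hs2
  rw [hg, indicator_of_mem (Ioo_subset_Ioc_self hs2)] at hs
  exact hs

end MOMAux

theorem mom (hS : Stmt_SGS) : Stmt_MOM := by
  intro a n D ψ hψ U T₁ T₂ hU hT h
  have h1 : ∀ᵐ q : P a × E (n + 2), ∀ j N : ℕ, q ∈ (U ∩ Metric.closedBall 0 (N : ℝ)) ×ˢ
      Metric.closedBall 0 D.R → MOMAux.G D ψ T₁ T₂ j q.1 q.2 = 0 :=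
    ae_all_iff.2 fun j => ae_all_iff.2 fun N => MOMAux.G_zero D hS hψ hU hT h j N
  filter_upwards [h1] with q hq hqU
  by_cases hR : ‖q.2‖ ≤ D.R
  · apply MOMAux.curve D hψ
    intro j
    obtain ⟨N, hN⟩ := exists_nat_ge ‖q.1‖
    exact hq j N ⟨⟨hqU, by simpa using hN⟩, by simpa using hR⟩
  · refine Eventually.of_forall fun s => ?_
    exact D.f0 _ _ (Or.inr (not_le.1 hR).le)

end Pool.Agent.WPG
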