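import Pool.Agent.WPG.Stmts

/-!
# General warped products: the flow for a time depending on the energy preserves the measure
-/

set_option autoImplicit false

namespace Pool.Agent.WPG

open MeasureTheory Set Filter Topology

namespace MPGAux

variable {n : ℕ} {D : HD n} {φ : ℝ → ℝ → P n → P n}

theorem cont_k (D : HD n) : Continuous D.k := by
  unfold HD.k
  have h1 : Continuous fun z : P n => D.A z.1 z.2 :=
    (D.As.continuous.comp continuous_fst).clm_apply continuous_snd
  exact h1.inner continuous_snd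

theorem en_k (hφ : D.Flow φ) (s : ℝ) (z : P n) : D.k (φ 0 s z) = D.k z := by
  have h := hφ.energy 0 s z le_rfl zero_le_one
  unfold HD.en at h
  rwa [zero_mul, zero_mul, add_zero, add_zero] at h

theorem cont_f (hφ : D.Flow φ) : Continuous fun p : ℝ × P n => φ 0 p.1 p.2 :=
  hφ.smooth.continuous.comp (continuous_const.prodMk continuous_id)

/-- the map with a time depending on the energy -/
noncomputable def Ph (D : HD n) (φ : ℝ → ℝ → P n → P n) (G : ℝ → ℝ) (z : P n) : P n :=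
  φ 0 (G (D.k z)) z

theorem cont_Ph (hφ : D.Flow φ) {G : ℝ → ℝ} (hG : Continuous G) : Continuous (Ph D φ G) :=
  (cont_f hφ).comp ((hG.comp (cont_k D)).prodMk continuous_id)

theorem Ph_inv (hφ : D.Flow φ) (G : ℝ → ℝ) (z : P n) :
    Ph D φ (fun r => -G r) (Ph D φ G z) = z := by
  unfold Ph
  rw [en_k hφ, ← hφ.add, neg_add_cancel, hφ.zero]

theorem Ph_inv' (hφ : D.Flow φ) (G : ℝ → ℝ) (z : P n) :
    Ph D φ G (Ph D φ (fun r => -G r) z) = z := by
  unfold Ph
  rw [en_k hφ, ← hφ.add, add_neg_cancel, hφ.zero]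

/-- the homeomorphism -/
noncomputable def hom (hφ : D.Flow φ) {G : ℝ → ℝ} (hG : Continuous G) : P n ≃ₜ P n where
  toFun := Ph D φ G
  invFun := Ph D φ fun r => -G r
  left_inv := Ph_inv hφ G
  right_inv := Ph_inv' hφ G
  continuous_toFun := cont_Ph hφ hG
  continuous_invFun := cont_Ph hφ hG.neg

/-- times with countably many values -/
theorem step_measure (hφ : D.Flow φ) (c : ℤ → ℝ) (N : ℝ) {A : Set (P n)} (hA : MeasurableSet A) :
    volume ((fun z => φ 0 (c ⌊N * D.k z⌋) z) ⁻¹' A) = volume A := by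
  have hKm : ∀ i : ℤ, MeasurableSet {z : P n | ⌊N * D.k z⌋ = i} := by
    intro i
    have h1 : Measurable fun z : P n => ⌊N * D.k z⌋ :=
      Int.measurable_floor.comp ((continuous_const.mul (cont_k D)).measurable)
    exact h1 (measurableSet_singleton i)
  have hdecA : A = ⋃ i : ℤ, ({z : P n | ⌊N * D.k z⌋ = i} ∩ A) := by
    rw [← Set.iUnion_inter]
    ext z
    simp
  have hdec : (fun z => φ 0 (c ⌊N * D.k z⌋) z) ⁻¹' A =
      ⋃ i : ℤ, (φ 0 (c i)) ⁻¹' ({z : P n | ⌊N * D.k z⌋ = i} ∩ A) := by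
    ext z
    simp only [mem_preimage, mem_iUnion, mem_inter_iff, Set.mem_ofPred_eq, en_k hφ]
    constructor
    · intro h
      exact ⟨⌊N * D.k z⌋, rfl, h⟩
    · rintro ⟨i, rfl, h⟩
      exact h
  have hd1 : Pairwise (Function.onFun Disjoint fun i : ℤ =>
      ({z : P n | ⌊N * D.k z⌋ = i} ∩ A)) := by
    intro i j hij
    refine Set.disjoint_left.2 ?_
    rintro z ⟨h1, _⟩ ⟨h2, _⟩
    exact hij (h1.symm.trans h2)
  have hd2 : Pairwise (Function.onFun Disjoint fun i : ℤ =>
      (φ 0 (c i)) ⁻¹' ({z : P n | ⌊N * D.k z⌋ = i} ∩ A)) := by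
    intro i j hij
    refine Set.disjoint_left.2 ?_
    rintro z ⟨h1, _⟩ ⟨h2, _⟩
    have e1 : ⌊N * D.k (φ 0 (c i) z)⌋ = i := h1
    have e2 : ⌊N * D.k (φ 0 (c j) z)⌋ = j := h2
    rw [en_k hφ] at e1 e2
    exact hij (e1.symm.trans e2)
  have hm : ∀ i : ℤ, MeasurableSet ({z : P n | ⌊N * D.k z⌋ = i} ∩ A) := fun i =>
    (hKm i).inter hA
  rw [hdec, measure_iUnion hd2 fun i => (hφ.pres 0 (c i)).measurable (hm i)]
  conv_rhs => rw [hdecA, measure_iUnion hd1 hm]
  refine tsum_congr fun i => ?_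
  exact (hφ.pres 0 (c i)).measure_preimage (hm i).nullMeasurableSet

theorem le_open (hφ : D.Flow φ) {G : ℝ → ℝ} (hG : Continuous G) {U : Set (P n)} (hU : IsOpen U) :
    volume ((Ph D φ G) ⁻¹' U) ≤ volume U := by
  set S : ℕ → Set (P n) := fun N =>
    (fun z => φ 0 (G ((⌊((N : ℝ) + 1) * D.k z⌋ : ℤ) / ((N : ℝ) + 1))) z) ⁻¹' U with hS
  have hSm : ∀ N, volume (S N) = volume U := fun N =>
    step_measure hφ (fun i : ℤ => G ((i : ℝ) / ((N : ℝ) + 1))) ((N : ℝ) + 1) hU.measurableSet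
  have hlim : ∀ z : P n, Tendsto (fun N : ℕ =>
      φ 0 (G ((⌊((N : ℝ) + 1) * D.k z⌋ : ℤ) / ((N : ℝ) + 1))) z) atTop (𝓝 (Ph D φ G z)) := by
    intro z
    have h1 : Tendsto (fun N : ℕ => ((⌊((N : ℝ) + 1) * D.k z⌋ : ℤ) : ℝ) / ((N : ℝ) + 1)) atTop
        (𝓝 (D.k z)) := by
      have h0 : Tendsto (fun N : ℕ => D.k z - 1 / ((N : ℝ) + 1)) atTop (𝓝 (D.k z - 0)) :=
        tendsto_const_nhds.sub tendsto_one_div_add_atTop_nhds_zero_nat
      rw [sub_zero] at h0
      refine tendsto_of_tendsto_of_tendsto_of_le_of_le h0 tendsto_const_nhds ?_ ?_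
      · intro N
        have hN : (0 : ℝ) < (N : ℝ) + 1 := by positivity
        have h3 := Int.sub_one_lt_floor (((N : ℝ) + 1) * D.k z)
        show D.k z - 1 / ((N : ℝ) + 1) ≤ _ / ((N : ℝ) + 1)
        rw [le_div_iff₀ hN, sub_mul, one_div, inv_mul_cancel₀ hN.ne', mul_comm]
        exact h3.le
      · intro N
        have hN : (0 : ℝ) < (N : ℝ) + 1 := by positivity
        have h3 := Int.floor_le (((N : ℝ) + 1) * D.k z)
        show _ / ((N : ℝ) + 1) ≤ D.k z
        rw [div_le_iff₀ hN, mul_comm (D.k z)]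
        exact h3
    have h2 : Continuous fun s : ℝ => φ 0 s z :=
      (cont_f hφ).comp (continuous_id.prodMk continuous_const)
    exact ((h2.comp hG).tendsto (D.k z)).comp h1
  have hsub : (Ph D φ G) ⁻¹' U ⊆ ⋃ N : ℕ, ⋂ m : ℕ, S (N + m) := by
    intro z hz
    have h1 : ∀ᶠ N : ℕ in atTop, z ∈ S N := (hlim z).eventually (hU.mem_nhds hz)
    obtain ⟨N, hN⟩ := eventually_atTop.1 h1
    rw [mem_iUnion]
    refine ⟨N, ?_⟩
    rw [mem_iInter]
    exact fun m => hN _ (Nat.le_add_right _ _)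
  have hmono : Monotone fun N : ℕ => ⋂ m : ℕ, S (N + m) := by
    intro a b hab z hz
    rw [mem_iInter] at hz ⊢
    intro m
    have := hz (b - a + m)
    rwa [← add_assoc, Nat.add_sub_cancel' hab] at this
  calc volume ((Ph D φ G) ⁻¹' U) ≤ volume (⋃ N : ℕ, ⋂ m : ℕ, S (N + m)) := measure_mono hsub
    _ = ⨆ N : ℕ, volume (⋂ m : ℕ, S (N + m)) := hmono.measure_iUnion
    _ ≤ volume U := by
      refine iSup_le fun N => ?_
      refine (measure_mono (iInter_subset _ 0)).trans ?_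
      exact (hSm (N + 0)).le

end MPGAux

open MPGAux in
theorem mpg : Stmt_MPG := by
  intro n D φ hφ G hG
  have hH : (volume : Measure (P n)).IsAddHaarMeasure := haarP n
  have hcont : Continuous (Ph D φ G) := cont_Ph hφ hG
  have hopen : ∀ U : Set (P n), IsOpen U → volume ((Ph D φ G) ⁻¹' U) = volume U := by
    intro U hU
    refine le_antisymm (le_open hφ hG hU) ?_
    have h1 := le_open (D := D) (G := fun r => -G r) hφ hG.neg (hU.preimage hcont)
    have h2 : (Ph D φ fun r => -G r) ⁻¹' (Ph D φ G ⁻¹' U) = U := by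
      ext z
      rw [mem_preimage, mem_preimage, Ph_inv' hφ G z]
    rwa [h2] at h1
  have hreg : (volume : Measure (P n)).OuterRegular := inferInstance
  have hreg' : (Measure.map (Ph D φ G) (volume : Measure (P n))).OuterRegular :=
    Measure.OuterRegular.map (hom hφ hG) volume
  have hmp : MeasurePreserving (Ph D φ G) volume volume := by
    refine ⟨hcont.measurable, ?_⟩
    refine Measure.OuterRegular.ext_isOpen fun U hU => ?_
    rw [Measure.map_apply hcont.measurable hU.measurableSet]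
    exact hopen U hU
  exact hmp

end Pool.Agent.WPG
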