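import Pool.Agent.WPG.Stmts

/-!
# General warped products: the combined flow preserves the measure
-/

set_option autoImplicit false

namespace Pool.Agent.WPG

open MeasureTheory Set Filter Topology

namespace MPPAux

variable {a n : ℕ}

theorem cont_k (D : HD n) : Continuous D.k := by
  have h1 : Continuous D.A := D.As.continuous
  have h2 : Continuous (fun z : P n => (D.A z.1) z.2) :=
    (h1.comp continuous_fst).clm_apply continuous_snd
  exact h2.inner continuous_snd

theorem cont_kap (D : WD a n) (ε : ℝ) : Continuous (D.kap ε) := by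
  unfold WD.kap
  exact continuous_const.mul (cont_k D.K)

theorem cont_sg (hS : Stmt_SGS) (D : HD a) {ψ : ℝ → ℝ → P a → P a} (hψ : D.Flow ψ) :
    Continuous (fun q : ℝ × ℝ × P a => D.sg ψ q.1 q.2.1 q.2.2) :=
  (hS a D ψ hψ).continuous

/-- the energy is preserved on the fibre -/
theorem k_flow (D : HD n) {φ : ℝ → ℝ → P n → P n} (hφ : D.Flow φ) (s : ℝ) (z : P n) :
    D.k (φ 0 s z) = D.k z := by
  have h := hφ.energy 0 s z le_rfl zero_le_one
  simpa [HD.en] using h

/-- the fibre map -/
theorem mp_first (hS : Stmt_SGS) (hM : Stmt_MPG) (D : WD a n) {ψ : ℝ → ℝ → P a → P a}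
    {φ : ℝ → ℝ → P (n + 2) → P (n + 2)} (hψ : D.B.Flow ψ) (hφ : D.K.Flow φ) (ε s : ℝ) :
    MeasurePreserving (fun q : P a × P (n + 2) =>
      (q.1, φ 0 (ε * D.B.sg ψ (D.kap ε q.2) s q.1) q.2)) volume volume := by
  have hc : Continuous (fun q : P a × P (n + 2) =>
      φ 0 (ε * D.B.sg ψ (D.kap ε q.2) s q.1) q.2) := by
    have h1 : Continuous (fun q : P a × P (n + 2) => D.B.sg ψ (D.kap ε q.2) s q.1) :=
      (cont_sg hS D.B hψ).comp (((cont_kap D ε).comp continuous_snd).prodMk
        (continuous_const.prodMk continuous_fst))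
    exact hφ.smooth.continuous.comp (continuous_const.prodMk
      ((continuous_const.mul h1).prodMk continuous_snd))
  have hmp := MeasurePreserving.skew_product (μa := (volume : Measure (P a)))
    (μb := (volume : Measure (P a))) (μc := (volume : Measure (P (n + 2))))
    (μd := (volume : Measure (P (n + 2)))) (MeasurePreserving.id volume)
    (g := fun (y : P a) (z : P (n + 2)) => φ 0 (ε * D.B.sg ψ (D.kap ε z) s y) z)
    hc.measurable (Eventually.of_forall fun y => by
      have hG : Continuous (fun r : ℝ => ε * D.B.sg ψ (ε ^ 2 * r) s y) := by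
        have h1 : Continuous (fun r : ℝ => D.B.sg ψ (ε ^ 2 * r) s y) :=
          (cont_sg hS D.B hψ).comp ((continuous_const.mul continuous_id).prodMk
            (continuous_const.prodMk continuous_const))
        exact continuous_const.mul h1
      exact (hM (n + 2) D.K φ hφ _ hG).map_eq)
  exact hmp

/-- the base map -/
theorem mp_second (D : WD a n) {ψ : ℝ → ℝ → P a → P a} (hψ : D.B.Flow ψ) (ε s : ℝ) :
    MeasurePreserving (fun q : P a × P (n + 2) =>
      (ψ (D.kap ε q.2) s q.1, q.2)) volume volume := by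
  have hc : Continuous (fun q : P (n + 2) × P a => ψ (D.kap ε q.1) s q.2) :=
    hψ.smooth.continuous.comp (((cont_kap D ε).comp continuous_fst).prodMk
      (continuous_const.prodMk continuous_snd))
  have hmp := MeasurePreserving.skew_product (μa := (volume : Measure (P (n + 2))))
    (μb := (volume : Measure (P (n + 2)))) (μc := (volume : Measure (P a)))
    (μd := (volume : Measure (P a))) (MeasurePreserving.id volume)
    (g := fun (z : P (n + 2)) (y : P a) => ψ (D.kap ε z) s y)
    hc.measurable (Eventually.of_forall fun z => (hψ.pres (D.kap ε z) s).map_eq)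
  have h1 : MeasurePreserving (Prod.swap : P a × P (n + 2) → P (n + 2) × P a)
      (Measure.prod volume volume) (Measure.prod volume volume) := Measure.measurePreserving_swap
  have h2 : MeasurePreserving (Prod.swap : P (n + 2) × P a → P a × P (n + 2))
      (Measure.prod volume volume) (Measure.prod volume volume) := Measure.measurePreserving_swap
  exact h2.comp (hmp.comp h1)

end MPPAux

theorem mpp (hS : Stmt_SGS) (hM : Stmt_MPG) : Stmt_MPP := by
  intro a n D ψ φ hψ hφ ε s
  have h := (MPPAux.mp_second D hψ ε s).comp (MPPAux.mp_first hS hM D hψ hφ ε s)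
  have he : D.cm ψ φ ε s = (fun q : P a × P (n + 2) => (ψ (D.kap ε q.2) s q.1, q.2)) ∘
      (fun q : P a × P (n + 2) => (q.1, φ 0 (ε * D.B.sg ψ (D.kap ε q.2) s q.1) q.2)) := by
    funext q
    have hk : D.kap ε (φ 0 (ε * D.B.sg ψ (D.kap ε q.2) s q.1) q.2) = D.kap ε q.2 := by
      show ε ^ 2 * D.K.k _ = ε ^ 2 * D.K.k _
      rw [MPPAux.k_flow D.K hφ]
    show (ψ (D.kap ε q.2) s q.1, φ 0 (ε * D.B.sg ψ (D.kap ε q.2) s q.1) q.2) =
      (ψ (D.kap ε (φ 0 (ε * D.B.sg ψ (D.kap ε q.2) s q.1) q.2)) s q.1,
        φ 0 (ε * D.B.sg ψ (D.kap ε q.2) s q.1) q.2)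
    rw [hk]
  rw [he]
  exact h

end Pool.Agent.WPG
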