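import Pool.Agent.WPG.Geo

/-!
# Null sets along the curves
-/

set_option autoImplicit false

namespace Pool.Agent.WPG

open MeasureTheory Set Filter Topology Pool.Agent.XRay Pool.Agent.XTower

namespace NULAux

variable {a n : ℕ}

/-- the data with `f = 0` -/
noncomputable def zd (B : HD a) (K : HD (n + 2)) : WD a n where
  B := B
  K := K
  f := fun _ _ => 0
  C := 0
  R := 0
  fm := measurable_const
  fC := fun _ _ => by simp
  f0 := fun _ _ _ => rfl

theorem k_cont {m : ℕ} (D : HD m) : Continuous D.k := by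
  have h1 : Continuous (fun z : P m => D.A z.1) := D.As.continuous.comp continuous_fst
  have h2 : Continuous (fun z : P m => D.A z.1 z.2) := h1.clm_apply continuous_snd
  exact h2.inner continuous_snd

theorem flow_cont {m : ℕ} {D : HD m} {φ : ℝ → ℝ → P m → P m} (h : D.Flow φ) :
    Continuous (fun q : ℝ × ℝ × P m => φ q.1 q.2.1 q.2.2) := h.smooth.continuous

theorem sg_cont {m : ℕ} {D : HD m} {φ : ℝ → ℝ → P m → P m} (h : D.Flow φ) :
    Continuous (fun q : ℝ × ℝ × P m => D.sg φ q.1 q.2.1 q.2.2) := by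
  have h1 : Continuous (Function.uncurry
      (fun (q : ℝ × ℝ × P m) (r : ℝ) => D.u (φ q.1 r q.2.2).1)) := by
    have h2 : Continuous (fun w : (ℝ × ℝ × P m) × ℝ => φ w.1.1 w.2 w.1.2.2) := by
      have h3 : Continuous (fun w : (ℝ × ℝ × P m) × ℝ =>
        ((w.1.1, w.2, w.1.2.2) : ℝ × ℝ × P m)) := by fun_prop
      exact (flow_cont h).comp h3
    exact D.us.continuous.comp (continuous_fst.comp h2)
  have h4 : Continuous (fun q : ℝ × ℝ × P m => q.2.1) := by fun_prop
  exact intervalIntegral.continuous_parametric_intervalIntegral_of_continuous h1 h4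

theorem crv_cont {B : HD a} {K : HD (n + 2)} {ψ : ℝ → ℝ → P a → P a}
    {φ : ℝ → ℝ → P (n + 2) → P (n + 2)} (hψ : B.Flow ψ) (hφ : K.Flow φ) (ε : ℝ) :
    Continuous (fun w : (P a × P (n + 2)) × ℝ => crv B K ψ φ ε w.1.1 w.1.2 w.2) := by
  have hk : Continuous (fun w : (P a × P (n + 2)) × ℝ => ε ^ 2 * K.k w.1.2) :=
    continuous_const.mul ((k_cont K).comp (continuous_snd.comp continuous_fst))
  have h0 : Continuous (fun w : (P a × P (n + 2)) × ℝ =>
      ((ε ^ 2 * K.k w.1.2, w.2, w.1.1) : ℝ × ℝ × P a)) := by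
    exact hk.prodMk (continuous_snd.prodMk (continuous_fst.comp continuous_fst))
  have h1 : Continuous (fun w : (P a × P (n + 2)) × ℝ => ψ (ε ^ 2 * K.k w.1.2) w.2 w.1.1) :=
    (flow_cont hψ).comp h0
  have h2 : Continuous (fun w : (P a × P (n + 2)) × ℝ =>
      ε * B.sg ψ (ε ^ 2 * K.k w.1.2) w.2 w.1.1) :=
    continuous_const.mul ((sg_cont hψ).comp h0)
  have h3 : Continuous (fun w : (P a × P (n + 2)) × ℝ =>
      (((0 : ℝ), ε * B.sg ψ (ε ^ 2 * K.k w.1.2) w.2 w.1.1, w.1.2) : ℝ × ℝ × P (n + 2))) :=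
    continuous_const.prodMk (h2.prodMk (continuous_snd.comp continuous_fst))
  have h4 : Continuous (fun w : (P a × P (n + 2)) × ℝ =>
      φ 0 (ε * B.sg ψ (ε ^ 2 * K.k w.1.2) w.2 w.1.1) w.1.2) := (flow_cont hφ).comp h3
  exact (continuous_fst.comp h1).prodMk (continuous_fst.comp h4)

theorem pos_qmp : Measure.QuasiMeasurePreserving
    (fun q : P a × P (n + 2) => ((q.1.1, q.2.1) : Sp a n)) volume volume := by
  have h1 : Measure.QuasiMeasurePreserving (Prod.fst : P a → E a) volume volume :=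
    Measure.quasiMeasurePreserving_fst
  have h2 : Measure.QuasiMeasurePreserving (Prod.fst : P (n + 2) → E (n + 2)) volume volume :=
    Measure.quasiMeasurePreserving_fst
  exact MeasureTheory.QuasiMeasurePreserving.prodMap h1 h2

end NULAux

theorem nul (hM : Stmt_MPP) : Stmt_NUL := by
  intro a n B K ψ φ hψ hφ ε N hN hN0
  have hms : MeasurableSet {w : (P a × P (n + 2)) × ℝ | crv B K ψ φ ε w.1.1 w.1.2 w.2 ∉ N} :=
    ((NULAux.crv_cont hψ hφ ε).measurable hN).compl
  have hcomm := Measure.ae_ae_comm (μ := (volume : Measure (P a × P (n + 2))))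
    (ν := (volume : Measure ℝ)) (p := fun q s => crv B K ψ φ ε q.1 q.2 s ∉ N) hms
  rw [hcomm]
  refine Filter.Eventually.of_forall (fun s => ?_)
  have h1 : MeasurePreserving ((NULAux.zd B K).cm ψ φ ε s) volume volume :=
    hM a n (NULAux.zd B K) ψ φ hψ hφ ε s
  have h2 : ∀ᵐ z : Sp a n, z ∉ N := by
    rw [ae_iff]
    simpa using hN0
  have h3 : ∀ᵐ q : P a × P (n + 2), ((q.1.1, q.2.1) : Sp a n) ∉ N :=
    NULAux.pos_qmp.ae h2
  exact h1.quasiMeasurePreserving.ae h3

end Pool.Agent.WPG
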