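import Pool.Agent.WPG.Stmts

/-!
# The algebra of differential operators
-/

set_option autoImplicit false

namespace Pool.Agent.WPG

open MeasureTheory Set Filter Topology

namespace OPAAux

variable {n : ℕ}

/-- smooth functions -/
abbrev Sm (g : E n → ℂ) : Prop := ContDiff ℝ (⊤ : ℕ∞) g

/-- partial derivatives -/
noncomputable def pd (i : Fin n) (g : E n → ℂ) : E n → ℂ :=
  fun x => fderiv ℝ g x (EuclideanSpace.single i 1)

theorem dw_nil (g : E n → ℂ) : dw [] g = g := rfl

theorem dw_cons (i : Fin n) (w : List (Fin n)) (g : E n → ℂ) : dw (i :: w) g = pd i (dw w g) := rfl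

theorem sm_diff {g : E n → ℂ} (hg : Sm g) : Differentiable ℝ g := hg.differentiable (by simp)

theorem sm_mul {g h : E n → ℂ} (hg : Sm g) (hh : Sm h) : Sm (fun x => g x * h x) := hg.mul hh

theorem sm_add {g h : E n → ℂ} (hg : Sm g) (hh : Sm h) : Sm (fun x => g x + h x) := hg.add hh

theorem sm_sub {g h : E n → ℂ} (hg : Sm g) (hh : Sm h) : Sm (fun x => g x - h x) := hg.sub hh

theorem sm_sum {ι : Type*} (S : Finset ι) {h : ι → E n → ℂ} (hs : ∀ a ∈ S, Sm (h a)) :
    Sm (fun x => ∑ a ∈ S, h a x) := ContDiff.sum hs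

theorem sm_pd {g : E n → ℂ} (hg : Sm g) (i : Fin n) : Sm (pd i g) :=
  (hg.fderiv_right (m := ((⊤ : ℕ∞) : WithTop ℕ∞)) (by simp)).clm_apply contDiff_const

theorem sm_dw {g : E n → ℂ} (hg : Sm g) : ∀ w : List (Fin n), Sm (dw w g)
  | [] => hg
  | i :: w => sm_pd (sm_dw hg w) i

theorem pd_add {g h : E n → ℂ} (hg : Sm g) (hh : Sm h) (i : Fin n) :
    pd i (fun x => g x + h x) = fun x => pd i g x + pd i h x := by
  funext x
  have h1 : fderiv ℝ (fun x => g x + h x) x = fderiv ℝ g x + fderiv ℝ h x :=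
    fderiv_fun_add (sm_diff hg x) (sm_diff hh x)
  unfold pd
  rw [h1]
  rfl

theorem pd_sub {g h : E n → ℂ} (hg : Sm g) (hh : Sm h) (i : Fin n) :
    pd i (fun x => g x - h x) = fun x => pd i g x - pd i h x := by
  funext x
  have h1 : fderiv ℝ (fun x => g x - h x) x = fderiv ℝ g x - fderiv ℝ h x :=
    fderiv_fun_sub (sm_diff hg x) (sm_diff hh x)
  unfold pd
  rw [h1]
  rfl

theorem pd_mul {g h : E n → ℂ} (hg : Sm g) (hh : Sm h) (i : Fin n) :
    pd i (fun x => g x * h x) = fun x => pd i g x * h x + g x * pd i h x := by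
  funext x
  have h1 : fderiv ℝ (fun x => g x * h x) x = g x • fderiv ℝ h x + h x • fderiv ℝ g x :=
    fderiv_fun_mul (sm_diff hg x) (sm_diff hh x)
  unfold pd
  rw [h1]
  simp only [add_apply, smul_apply, smul_eq_mul]
  ring

theorem pd_sum {ι : Type*} (S : Finset ι) {h : ι → E n → ℂ} (hs : ∀ a ∈ S, Sm (h a)) (i : Fin n) :
    pd i (fun x => ∑ a ∈ S, h a x) = fun x => ∑ a ∈ S, pd i (h a) x := by
  funext x
  have h1 : fderiv ℝ (fun x => ∑ a ∈ S, h a x) x = ∑ a ∈ S, fderiv ℝ (h a) x :=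
    fderiv_fun_sum fun a ha => sm_diff (hs a ha) x
  unfold pd
  rw [h1, sum_apply]

theorem pd_comm {g : E n → ℂ} (hg : Sm g) (i j : Fin n) : pd i (pd j g) = pd j (pd i g) := by
  funext x
  have hd : Differentiable ℝ (fderiv ℝ g) :=
    (hg.fderiv_right (m := ((⊤ : ℕ∞) : WithTop ℕ∞)) (by simp)).differentiable (by simp)
  have key : ∀ v w : E n, fderiv ℝ (fun y => fderiv ℝ g y v) x w =
      fderiv ℝ (fderiv ℝ g) x w v := by
    intro v w
    have h1 : HasFDerivAt (fun y => fderiv ℝ g y v)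
        ((ContinuousLinearMap.apply ℝ ℂ v).comp (fderiv ℝ (fderiv ℝ g) x)) x :=
      (ContinuousLinearMap.apply ℝ ℂ v).hasFDerivAt.comp x (hd x).hasFDerivAt
    rw [h1.fderiv]
    rfl
  have hs : IsSymmSndFDerivAt ℝ g x := by
    apply ContDiffAt.isSymmSndFDerivAt (n := ((⊤ : ℕ∞) : WithTop ℕ∞)) hg.contDiffAt
    simp only [minSmoothness_of_isRCLikeNormedField]
    show ((2 : ℕ∞) : WithTop ℕ∞) ≤ ((⊤ : ℕ∞) : WithTop ℕ∞)
    exact WithTop.coe_le_coe.2 le_top
  show fderiv ℝ (fun y => fderiv ℝ g y (EuclideanSpace.single j 1)) x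
      (EuclideanSpace.single i 1) =
    fderiv ℝ (fun y => fderiv ℝ g y (EuclideanSpace.single i 1)) x (EuclideanSpace.single j 1)
  rw [key, key]
  exact hs.eq _ _

theorem dw_pd {g : E n → ℂ} (hg : Sm g) (i : Fin n) : ∀ w : List (Fin n),
    dw w (pd i g) = pd i (dw w g)
  | [] => rfl
  | j :: w => by
    rw [dw_cons, dw_cons, dw_pd hg i w, pd_comm (sm_dw hg w)]

theorem dw_sum {ι : Type*} (S : Finset ι) {h : ι → E n → ℂ} (hs : ∀ a ∈ S, Sm (h a)) :
    ∀ w : List (Fin n), dw w (fun x => ∑ a ∈ S, h a x) = fun x => ∑ a ∈ S, dw w (h a) x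
  | [] => rfl
  | j :: w => by
    rw [dw_cons, dw_sum S hs w, pd_sum S (fun a ha => sm_dw (hs a ha) w)]
    rfl

theorem dw_add {g h : E n → ℂ} (hg : Sm g) (hh : Sm h) : ∀ w : List (Fin n),
    dw w (fun x => g x + h x) = fun x => dw w g x + dw w h x
  | [] => rfl
  | j :: w => by
    rw [dw_cons, dw_add hg hh w, pd_add (sm_dw hg w) (sm_dw hh w)]
    rfl

theorem dw_zero : ∀ w : List (Fin n), dw w (fun _ : E n => (0 : ℂ)) = fun _ => 0
  | [] => rfl
  | j :: w => by
    rw [dw_cons, dw_zero w]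
    funext x
    unfold pd
    rw [fderiv_fun_const]
    rfl

/-! ### left forms -/

theorem op_congr {r : ℕ} {Q Q' : (E n → ℂ) → E n → ℂ} (h : Op r Q)
    (hQ : ∀ g, Sm g → ∀ x, Q' g x = Q g x) : Op r Q' := by
  obtain ⟨S, c, h1, h2, h3⟩ := h
  exact ⟨S, c, h1, h2, fun g hg x => (hQ g hg x).trans (h3 g hg x)⟩

theorem op_mono {r s : ℕ} {Q : (E n → ℂ) → E n → ℂ} (hrs : r ≤ s) (h : Op r Q) : Op s Q := by
  obtain ⟨S, c, h1, h2, h3⟩ := h
  exact ⟨S, c, fun w hw => (h1 w hw).trans hrs, h2, h3⟩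

theorem op_zero (r : ℕ) : Op r (fun (_ : E n → ℂ) _ => (0 : ℂ)) :=
  ⟨∅, fun _ _ => 0, by simp, fun _ => contDiff_const, fun g _ x => by simp⟩

theorem op_basic {c : E n → ℂ} (hc : Sm c) (w : List (Fin n)) :
    Op w.length (fun g x => c x * dw w g x) :=
  ⟨{w}, fun _ => c, by simp, fun _ => hc, fun g _ x => by simp⟩

theorem op_add {r : ℕ} {Q Q' : (E n → ℂ) → E n → ℂ} (h : Op r Q) (h' : Op r Q') :
    Op r (fun g x => Q g x + Q' g x) := by
  classical
  obtain ⟨S, c, h1, h2, h3⟩ := h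
  obtain ⟨S', c', h1', h2', h3'⟩ := h'
  refine ⟨S ∪ S', fun w x => (if w ∈ S then c w x else 0) + (if w ∈ S' then c' w x else 0),
    ?_, ?_, ?_⟩
  · intro w hw
    rcases Finset.mem_union.1 hw with hw | hw
    · exact h1 w hw
    · exact h1' w hw
  · intro w
    apply sm_add
    · by_cases hw : w ∈ S
      · simp only [if_pos hw]; exact h2 w
      · simp only [if_neg hw]; exact contDiff_const
    · by_cases hw : w ∈ S'
      · simp only [if_pos hw]; exact h2' w
      · simp only [if_neg hw]; exact contDiff_const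
  · intro g hg x
    show Q g x + Q' g x = _
    rw [h3 g hg x, h3' g hg x]
    have e1 : ∑ w ∈ S, c w x * dw w g x =
        ∑ w ∈ S ∪ S', (if w ∈ S then c w x else 0) * dw w g x := by
      rw [← Finset.sum_subset (Finset.subset_union_left (s₁ := S) (s₂ := S'))]
      · exact Finset.sum_congr rfl fun w hw => by rw [if_pos hw]
      · intro w _ hw
        rw [if_neg hw, zero_mul]
    have e2 : ∑ w ∈ S', c' w x * dw w g x =
        ∑ w ∈ S ∪ S', (if w ∈ S' then c' w x else 0) * dw w g x := by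
      rw [← Finset.sum_subset (Finset.subset_union_right (s₁ := S) (s₂ := S'))]
      · exact Finset.sum_congr rfl fun w hw => by rw [if_pos hw]
      · intro w _ hw
        rw [if_neg hw, zero_mul]
    rw [e1, e2, ← Finset.sum_add_distrib]
    exact Finset.sum_congr rfl fun w _ => by ring

theorem op_sum {ι : Type*} {r : ℕ} (I : Finset ι) (Q : ι → (E n → ℂ) → E n → ℂ)
    (h : ∀ a ∈ I, Op r (Q a)) : Op r (fun g x => ∑ a ∈ I, Q a g x) := by
  classical
  induction I using Finset.induction_on with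
  | empty => exact op_congr (op_zero r) fun g _ x => by simp
  | insert a I ha ih =>
    have h1 := op_add (h a (Finset.mem_insert_self a I))
      (ih fun b hb => h b (Finset.mem_insert_of_mem hb))
    exact op_congr h1 fun g _ x => by simp [Finset.sum_insert ha]

theorem op_smul {r : ℕ} {Q : (E n → ℂ) → E n → ℂ} (h : Op r Q) {c : E n → ℂ} (hc : Sm c) :
    Op r (fun g x => c x * Q g x) := by
  obtain ⟨S, d, h1, h2, h3⟩ := h
  refine ⟨S, fun w x => c x * d w x, h1, fun w => sm_mul hc (h2 w), fun g hg x => ?_⟩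
  show c x * Q g x = _
  rw [h3 g hg x, Finset.mul_sum]
  exact Finset.sum_congr rfl fun w _ => by ring

theorem op_smooth {r : ℕ} {Q : (E n → ℂ) → E n → ℂ} (h : Op r Q) {g : E n → ℂ} (hg : Sm g) :
    Sm (Q g) := by
  obtain ⟨S, d, h1, h2, h3⟩ := h
  have e : Q g = fun x => ∑ w ∈ S, d w x * dw w g x := funext (h3 g hg)
  rw [e]
  exact sm_sum S fun w _ => sm_mul (h2 w) (sm_dw hg w)

theorem op_pd {r : ℕ} {Q : (E n → ℂ) → E n → ℂ} (h : Op r Q) (i : Fin n) :
    Op (r + 1) (fun g => pd i (Q g)) := by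
  obtain ⟨S, d, h1, h2, h3⟩ := h
  have h4 : Op (r + 1) (fun g x => ∑ w ∈ S, (pd i (d w) x * dw w g x +
      d w x * dw (i :: w) g x)) := by
    apply op_sum
    intro w hw
    apply op_add
    · exact op_mono ((h1 w hw).trans (Nat.le_succ r)) (op_basic (sm_pd (h2 w) i) w)
    · refine op_mono ?_ (op_basic (h2 w) (i :: w))
      rw [List.length_cons]
      exact Nat.succ_le_succ (h1 w hw)
  refine op_congr h4 fun g hg x => ?_
  have e : Q g = fun x => ∑ w ∈ S, d w x * dw w g x := funext (h3 g hg)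
  show pd i (Q g) x = _
  rw [e, pd_sum S fun w _ => sm_mul (h2 w) (sm_dw hg w)]
  refine Finset.sum_congr rfl fun w _ => ?_
  rw [pd_mul (h2 w) (sm_dw hg w)]
  rfl

theorem op_dw {s : ℕ} {Q : (E n → ℂ) → E n → ℂ} (h : Op s Q) : ∀ w : List (Fin n),
    Op (w.length + s) (fun g => dw w (Q g))
  | [] => by
    rw [List.length_nil, zero_add]
    exact h
  | i :: w => by
    have h1 := op_pd (op_dw h w) i
    rw [List.length_cons]
    exact op_mono (by omega) h1

theorem op_comp {r s : ℕ} {Q Q' : (E n → ℂ) → E n → ℂ} (h : Op r Q) (h' : Op s Q') :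
    Op (r + s) (fun g => Q (Q' g)) := by
  obtain ⟨S, c, h1, h2, h3⟩ := h
  have h4 : Op (r + s) (fun g x => ∑ w ∈ S, c w x * dw w (Q' g) x) := by
    apply op_sum
    intro w hw
    apply op_smul _ (h2 w)
    exact op_mono (Nat.add_le_add_right (h1 w hw) s) (op_dw h' w)
  exact op_congr h4 fun g hg x => h3 _ (op_smooth h' hg) x

theorem op_lin {r : ℕ} {Q : (E n → ℂ) → E n → ℂ} (h : Op r Q) {ι : Type*} (I : Finset ι)
    {f : ι → E n → ℂ} (hf : ∀ a ∈ I, Sm (f a)) (x : E n) :
    Q (fun y => ∑ a ∈ I, f a y) x = ∑ a ∈ I, Q (f a) x := by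
  obtain ⟨S, c, h1, h2, h3⟩ := h
  rw [h3 _ (sm_sum I hf) x]
  have e : ∑ a ∈ I, Q (f a) x = ∑ a ∈ I, ∑ w ∈ S, c w x * dw w (f a) x :=
    Finset.sum_congr rfl fun a ha => h3 _ (hf a ha) x
  rw [e, Finset.sum_comm]
  refine Finset.sum_congr rfl fun w _ => ?_
  rw [dw_sum I hf w, Finset.mul_sum]

/-! ### commutators -/

theorem op_sub {r : ℕ} {Q Q' : (E n → ℂ) → E n → ℂ} (h : Op r Q) (h' : Op r Q') :
    Op r (fun g x => Q g x - Q' g x) := by
  have h1 := op_add h (op_smul h' (c := fun _ => (-1 : ℂ)) contDiff_const)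
  exact op_congr h1 fun g _ x => by ring

theorem comm_mul_dw {c : E n → ℂ} (hc : Sm c) : ∀ w : List (Fin n),
    Op (w.length - 1) (fun g x => dw w (fun y => c y * g y) x - c x * dw w g x)
  | [] => op_congr (op_zero _) fun g _ x => by simp [dw_nil]
  | i :: w => by
    rw [List.length_cons, Nat.add_sub_cancel]
    have h0 := comm_mul_dw hc w
    have h1 : Op w.length (fun g => pd i (fun x => dw w (fun y => c y * g y) x -
        c x * dw w g x)) := by
      rcases w with _ | ⟨j, w⟩
      · refine op_congr (op_zero _) fun g _ x => ?_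
        have e : (fun x : E n => dw [] (fun y => c y * g y) x - c x * dw [] g x) =
            fun _ => (0 : ℂ) := by
          funext y
          simp [dw_nil]
        rw [e]
        exact congrFun (dw_zero [i]) x
      · have h2 := op_pd h0 i
        exact op_mono (by simp) h2
    have h2 : Op w.length (fun g x => pd i c x * dw w g x) := op_basic (sm_pd hc i) w
    refine op_congr (op_add h1 h2) fun g hg x => ?_
    show pd i (dw w (fun y => c y * g y)) x - c x * pd i (dw w g) x = _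
    have hcg := sm_mul hc hg
    rw [pd_sub (sm_dw hcg w) (sm_mul hc (sm_dw hg w)), pd_mul hc (sm_dw hg w)]
    ring

theorem comm_mul {s : ℕ} {Q : (E n → ℂ) → E n → ℂ} (h : Op s Q) {c : E n → ℂ} (hc : Sm c) :
    Op (s - 1) (fun g x => Q (fun y => c y * g y) x - c x * Q g x) := by
  obtain ⟨S, d, h1, h2, h3⟩ := h
  have h4 : Op (s - 1) (fun g x => ∑ w ∈ S, d w x * (dw w (fun y => c y * g y) x -
      c x * dw w g x)) := by
    apply op_sum
    intro w hw
    apply op_smul _ (h2 w)
    exact op_mono (Nat.sub_le_sub_right (h1 w hw) 1) (comm_mul_dw hc w)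
  refine op_congr h4 fun g hg x => ?_
  show Q (fun y => c y * g y) x - c x * Q g x = _
  rw [h3 _ (sm_mul hc hg) x, h3 g hg x, Finset.mul_sum, ← Finset.sum_sub_distrib]
  exact Finset.sum_congr rfl fun w _ => by ring

theorem comm_pd {s : ℕ} {Q : (E n → ℂ) → E n → ℂ} (h : Op s Q) (i : Fin n) :
    Op s (fun g x => pd i (Q g) x - Q (pd i g) x) := by
  obtain ⟨S, d, h1, h2, h3⟩ := h
  have h4 : Op s (fun g x => ∑ w ∈ S, pd i (d w) x * dw w g x) := by
    apply op_sum
    intro w hw
    exact op_mono (h1 w hw) (op_basic (sm_pd (h2 w) i) w)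
  refine op_congr h4 fun g hg x => ?_
  show pd i (Q g) x - Q (pd i g) x = _
  have e : Q g = fun x => ∑ w ∈ S, d w x * dw w g x := funext (h3 g hg)
  rw [e, pd_sum S fun w _ => sm_mul (h2 w) (sm_dw hg w), h3 _ (sm_pd hg i) x,
    ← Finset.sum_sub_distrib]
  refine Finset.sum_congr rfl fun w _ => ?_
  rw [pd_mul (h2 w) (sm_dw hg w), dw_pd hg]
  ring

theorem comm_dw {s : ℕ} {Q : (E n → ℂ) → E n → ℂ} (h : Op s Q) : ∀ w : List (Fin n),
    Op (w.length + s - 1) (fun g x => dw w (Q g) x - Q (dw w g) x)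
  | [] => op_congr (op_zero _) fun g _ x => by simp [dw_nil]
  | i :: w => by
    have h0 := comm_dw h w
    have e1 : (i :: w).length + s - 1 = w.length + s := by
      rw [List.length_cons]
      omega
    rw [e1]
    have h1 : Op (w.length + s) (fun g => pd i (fun x => dw w (Q g) x - Q (dw w g) x)) := by
      rcases w with _ | ⟨j, w⟩
      · refine op_congr (op_zero _) fun g _ x => ?_
        have e : (fun x : E n => dw [] (Q g) x - Q (dw [] g) x) = fun _ => (0 : ℂ) := by
          funext y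
          simp [dw_nil]
        rw [e]
        exact congrFun (dw_zero [i]) x
      · have h2 := op_pd h0 i
        refine op_mono ?_ h2
        rw [List.length_cons]
        omega
    have h2 : Op (w.length + s) (fun g x => pd i (Q (dw w g)) x - Q (pd i (dw w g)) x) := by
      have h3 := op_comp (comm_pd h i) (op_mono (r := w.length) le_rfl
        (op_congr (op_basic (c := fun _ => (1 : ℂ)) contDiff_const w)
          (Q' := fun g => dw w g) fun g _ x => by simp))
      exact op_mono (by omega) h3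
    refine op_congr (op_add h1 h2) fun g hg x => ?_
    show pd i (dw w (Q g)) x - Q (pd i (dw w g)) x = _
    rw [pd_sub (sm_dw (op_smooth h hg) w) (op_smooth h (sm_dw hg w))]
    ring

theorem op_comm {r s : ℕ} {Q Q' : (E n → ℂ) → E n → ℂ} (h : Op r Q) (h' : Op s Q') :
    Op (r + s - 1) (fun g x => Q (Q' g) x - Q' (Q g) x) := by
  obtain ⟨S, c, h1, h2, h3⟩ := h
  have h4 : Op (r + s - 1) (fun g x => ∑ w ∈ S, (c w x * (dw w (Q' g) x - Q' (dw w g) x) -
      (Q' (fun y => c w y * dw w g y) x - c w x * Q' (dw w g) x))) := by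
    apply op_sum
    intro w hw
    have hl := h1 w hw
    apply op_sub
    · apply op_smul _ (h2 w)
      exact op_mono (by omega) (comm_dw h' w)
    · have h5 : Op w.length (fun g : E n → ℂ => dw w g) :=
        op_congr (op_basic (c := fun _ => (1 : ℂ)) contDiff_const w) fun g _ x => by simp
      rcases Nat.eq_zero_or_pos s with hs | hs
      · subst hs
        refine op_congr (op_zero _) fun g hg x => ?_
        obtain ⟨S', c', h1', h2', h3'⟩ := h'
        have hd := sm_dw hg w
        rw [h3' _ (sm_mul (h2 w) hd) x, h3' _ hd x, Finset.mul_sum, ← Finset.sum_sub_distrib]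
        refine Finset.sum_eq_zero fun w' hw' => ?_
        have : w' = [] := List.length_eq_zero_iff.1 (Nat.le_zero.1 (h1' w' hw'))
        subst this
        rw [dw_nil, dw_nil]
        ring
      · exact op_mono (by omega) (op_comp (comm_mul h' (h2 w)) h5)
  refine op_congr h4 fun g hg x => ?_
  have e : Q g = fun x => ∑ w ∈ S, c w x * dw w g x := funext (h3 g hg)
  show Q (Q' g) x - Q' (Q g) x = _
  rw [h3 _ (op_smooth h' hg) x, e, op_lin h' S fun w _ => sm_mul (h2 w) (sm_dw hg w),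
    ← Finset.sum_sub_distrib]
  exact Finset.sum_congr rfl fun w _ => by ring

/-! ### right forms -/

/-- operators with the coefficients on the right -/
def Rt (r : ℕ) (Q : (E n → ℂ) → E n → ℂ) : Prop :=
  ∃ (S : Finset (List (Fin n))) (c : List (Fin n) → E n → ℂ), (∀ w ∈ S, w.length ≤ r) ∧
    (∀ w, ContDiff ℝ (⊤ : ℕ∞) (c w)) ∧ ∀ g : E n → ℂ, ContDiff ℝ (⊤ : ℕ∞) g →
      ∀ x, Q g x = ∑ w ∈ S, dw w (fun y => c w y * g y) x

theorem rt_congr {r : ℕ} {Q Q' : (E n → ℂ) → E n → ℂ} (h : Rt r Q)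
    (hQ : ∀ g, Sm g → ∀ x, Q' g x = Q g x) : Rt r Q' := by
  obtain ⟨S, c, h1, h2, h3⟩ := h
  exact ⟨S, c, h1, h2, fun g hg x => (hQ g hg x).trans (h3 g hg x)⟩

theorem rt_mono {r s : ℕ} {Q : (E n → ℂ) → E n → ℂ} (hrs : r ≤ s) (h : Rt r Q) : Rt s Q := by
  obtain ⟨S, c, h1, h2, h3⟩ := h
  exact ⟨S, c, fun w hw => (h1 w hw).trans hrs, h2, h3⟩

theorem rt_zero (r : ℕ) : Rt r (fun (_ : E n → ℂ) _ => (0 : ℂ)) :=
  ⟨∅, fun _ _ => 0, by simp, fun _ => contDiff_const, fun g _ x => by simp⟩

theorem rt_basic {c : E n → ℂ} (hc : Sm c) (w : List (Fin n)) :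
    Rt w.length (fun g x => dw w (fun y => c y * g y) x) :=
  ⟨{w}, fun _ => c, by simp, fun _ => hc, fun g _ x => by simp⟩

theorem rt_add {r : ℕ} {Q Q' : (E n → ℂ) → E n → ℂ} (h : Rt r Q) (h' : Rt r Q') :
    Rt r (fun g x => Q g x + Q' g x) := by
  classical
  obtain ⟨S, c, h1, h2, h3⟩ := h
  obtain ⟨S', c', h1', h2', h3'⟩ := h'
  have hs1 : ∀ w, Sm (fun x => if w ∈ S then c w x else 0) := by
    intro w
    by_cases hw : w ∈ S
    · simp only [if_pos hw]; exact h2 w
    · simp only [if_neg hw]; exact contDiff_const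
  have hs2 : ∀ w, Sm (fun x => if w ∈ S' then c' w x else 0) := by
    intro w
    by_cases hw : w ∈ S'
    · simp only [if_pos hw]; exact h2' w
    · simp only [if_neg hw]; exact contDiff_const
  refine ⟨S ∪ S', fun w x => (if w ∈ S then c w x else 0) + (if w ∈ S' then c' w x else 0),
    ?_, fun w => sm_add (hs1 w) (hs2 w), ?_⟩
  · intro w hw
    rcases Finset.mem_union.1 hw with hw | hw
    · exact h1 w hw
    · exact h1' w hw
  · intro g hg x
    show Q g x + Q' g x = _
    rw [h3 g hg x, h3' g hg x]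
    have e0 : ∀ w, dw w (fun y => ((if w ∈ S then c w y else 0) +
        (if w ∈ S' then c' w y else 0)) * g y) x =
        dw w (fun y => (if w ∈ S then c w y else 0) * g y) x +
        dw w (fun y => (if w ∈ S' then c' w y else 0) * g y) x := by
      intro w
      have e : (fun y => ((if w ∈ S then c w y else 0) +
        (if w ∈ S' then c' w y else 0)) * g y) = fun y =>
          (if w ∈ S then c w y else 0) * g y + (if w ∈ S' then c' w y else 0) * g y := by
        funext y
        ring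
      rw [e, dw_add (sm_mul (hs1 w) hg) (sm_mul (hs2 w) hg)]
    rw [Finset.sum_congr rfl fun w _ => e0 w, Finset.sum_add_distrib]
    congr 1
    · rw [← Finset.sum_subset (Finset.subset_union_left (s₁ := S) (s₂ := S'))]
      · exact Finset.sum_congr rfl fun w hw => by simp only [if_pos hw]
      · intro w _ hw
        simp only [if_neg hw, zero_mul]
        exact congrFun (dw_zero w) x
    · rw [← Finset.sum_subset (Finset.subset_union_right (s₁ := S) (s₂ := S'))]
      · exact Finset.sum_congr rfl fun w hw => by simp only [if_pos hw]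
      · intro w _ hw
        simp only [if_neg hw, zero_mul]
        exact congrFun (dw_zero w) x

theorem rt_sum {ι : Type*} {r : ℕ} (I : Finset ι) (Q : ι → (E n → ℂ) → E n → ℂ)
    (h : ∀ a ∈ I, Rt r (Q a)) : Rt r (fun g x => ∑ a ∈ I, Q a g x) := by
  classical
  induction I using Finset.induction_on with
  | empty => exact rt_congr (rt_zero r) fun g _ x => by simp
  | insert a I ha ih =>
    have h1 := rt_add (h a (Finset.mem_insert_self a I))
      (ih fun b hb => h b (Finset.mem_insert_of_mem hb))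
    exact rt_congr h1 fun g _ x => by simp [Finset.sum_insert ha]

theorem rt_pd {r : ℕ} {Q : (E n → ℂ) → E n → ℂ} (h : Rt r Q) (i : Fin n) :
    Rt (r + 1) (fun g => pd i (Q g)) := by
  obtain ⟨S, d, h1, h2, h3⟩ := h
  have h4 : Rt (r + 1) (fun g x => ∑ w ∈ S, dw (i :: w) (fun y => d w y * g y) x) := by
    apply rt_sum
    intro w hw
    refine rt_mono ?_ (rt_basic (h2 w) (i :: w))
    rw [List.length_cons]
    exact Nat.succ_le_succ (h1 w hw)
  refine rt_congr h4 fun g hg x => ?_
  have e : Q g = fun x => ∑ w ∈ S, dw w (fun y => d w y * g y) x := funext (h3 g hg)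
  show pd i (Q g) x = _
  rw [e, pd_sum S fun w _ => sm_dw (sm_mul (h2 w) hg) w]
  rfl

theorem rt_neg {r : ℕ} {Q : (E n → ℂ) → E n → ℂ} (h : Rt r Q) : Rt r (fun g x => -Q g x) := by
  obtain ⟨S, d, h1, h2, h3⟩ := h
  refine ⟨S, fun w x => -d w x, h1, fun w => (h2 w).neg, fun g hg x => ?_⟩
  show -Q g x = _
  rw [h3 g hg x, ← Finset.sum_neg_distrib]
  refine Finset.sum_congr rfl fun w _ => ?_
  have h4 := dw_add (sm_mul (h2 w) hg) (sm_mul (h2 w).neg hg) w
  have e : (fun x => d w x * g x + (-d w x) * g x) = fun _ => (0 : ℂ) := by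
    funext y
    ring
  rw [e, dw_zero] at h4
  have h5 := congrFun h4 x
  exact neg_eq_of_add_eq_zero_right h5.symm

theorem rt_left : ∀ (w : List (Fin n)) (c : E n → ℂ), Sm c →
    Rt w.length (fun g x => c x * dw w g x)
  | [], c, hc => rt_congr (rt_basic hc []) fun g _ x => by simp [dw_nil]
  | i :: w, c, hc => by
    have h1 := rt_pd (rt_left w c hc) i
    have h2 := rt_mono (Nat.le_succ _) (rt_neg (rt_left w (pd i c) (sm_pd hc i)))
    rw [List.length_cons]
    refine rt_congr (rt_add h1 h2) fun g hg x => ?_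
    show c x * pd i (dw w g) x = _
    rw [pd_mul hc (sm_dw hg w)]
    ring

theorem op_right {r : ℕ} {Q : (E n → ℂ) → E n → ℂ} (h : Op r Q) : Rt r Q := by
  obtain ⟨S, c, h1, h2, h3⟩ := h
  refine rt_congr (rt_sum S (fun w g x => c w x * dw w g x) ?_) h3
  intro w hw
  exact rt_mono (h1 w hw) (rt_left w (c w) (h2 w))

end OPAAux

open OPAAux in
theorem opa : Stmt_OPA := by
  intro n
  refine ⟨?_, ?_, ?_, ?_, ?_, ?_, ?_, ?_⟩
  · intro c hc
    exact op_congr (op_basic hc []) fun g _ x => rfl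
  · intro i
    exact op_congr (op_basic (c := fun _ => (1 : ℂ)) contDiff_const [i]) fun g _ x => by
      rw [one_mul]
      rfl
  · intro r s Q hrs h
    exact op_mono hrs h
  · intro r Q h g hg
    exact op_smooth h hg
  · intro r Q Q' h h'
    exact op_add h h'
  · intro r s Q Q' h h'
    exact op_comp h h'
  · intro r s Q Q' h h'
    exact op_comm h h'
  · intro r Q h
    exact op_right h

end Pool.Agent.WPG
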