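import Pool.Agent.WPG.Stmts

/-!
# The coefficient of `ε^j` in the data
-/

set_option autoImplicit false

namespace Pool.Agent.WPG

open MeasureTheory Set Filter Topology

namespace ORDAux

/-- a polynomial which is `O(ε^j)` has zero coefficients below `j` -/
theorem poly_coeff (C ε₁ : ℝ) (h1 : 0 < ε₁) : ∀ (j : ℕ) (P : Polynomial ℂ),
    (∀ ε : ℝ, 0 < ε → ε < ε₁ → ‖P.eval (ε : ℂ)‖ ≤ C * ε ^ j) → ∀ l < j, P.coeff l = 0 := by
  intro j
  induction j with
  | zero =>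
    intro P _ l hl
    omega
  | succ j ih =>
    intro P hP l hl
    have h0 : P.coeff 0 = 0 := by
      have hc : Tendsto (fun ε : ℝ => ‖P.eval (ε : ℂ)‖) (𝓝[>] 0)
          (𝓝 ‖P.eval ((0 : ℝ) : ℂ)‖) := by
        have h2 : Continuous (fun ε : ℝ => ‖P.eval (ε : ℂ)‖) :=
          (P.continuous.comp Complex.continuous_ofReal).norm
        exact (h2.tendsto 0).mono_left nhdsWithin_le_nhds
      have hd : Tendsto (fun ε : ℝ => C * ε ^ (j + 1)) (𝓝[>] 0) (𝓝 0) := by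
        have h2 : Continuous (fun ε : ℝ => C * ε ^ (j + 1)) := by fun_prop
        have h3 := h2.tendsto 0
        simp only [ne_eq, Nat.succ_ne_zero, not_false_eq_true, zero_pow, mul_zero] at h3
        exact h3.mono_left nhdsWithin_le_nhds
      have hev : ∀ᶠ ε : ℝ in 𝓝[>] (0 : ℝ), ‖P.eval (ε : ℂ)‖ ≤ C * ε ^ (j + 1) := by
        filter_upwards [Ioo_mem_nhdsGT h1] with ε hε
        exact hP ε hε.1 hε.2
      have h3 : ‖P.eval ((0 : ℝ) : ℂ)‖ ≤ 0 := le_of_tendsto_of_tendsto hc hd hev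
      have h4 : P.eval ((0 : ℝ) : ℂ) = 0 := norm_le_zero_iff.1 h3
      rw [Complex.ofReal_zero] at h4
      rw [Polynomial.coeff_zero_eq_eval_zero]
      exact h4
    rcases l with _ | l
    · exact h0
    · have h5 : ∀ ε : ℝ, 0 < ε → ε < ε₁ → ‖P.divX.eval (ε : ℂ)‖ ≤ C * ε ^ j := by
        intro ε he he1
        have h6 := hP ε he he1
        have h7 : P.eval (ε : ℂ) = P.divX.eval (ε : ℂ) * ε := by
          conv_lhs => rw [← Polynomial.divX_mul_X_add P]
          rw [h0]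
          simp
        rw [h7, norm_mul, Complex.norm_real, Real.norm_eq_abs, abs_of_pos he, pow_succ,
          ← mul_assoc] at h6
        exact le_of_mul_le_mul_right h6 he
      have h8 := ih P.divX h5 l (by omega)
      rw [Polynomial.coeff_divX] at h8
      exact h8

/-- the sum over `i + 2 m = j` -/
theorem sum_diag (j : ℕ) (a : ℕ → ℕ → ℂ) :
    ∑ i ∈ Finset.range (j + 1), ∑ m ∈ Finset.range (j + 1), (if i + 2 * m = j then a i m else 0) =
      ∑ m ∈ Finset.range (j / 2 + 1), a (j - 2 * m) m := by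
  rw [Finset.sum_comm]
  have h1 : ∀ m ∈ Finset.range (j + 1),
      ∑ i ∈ Finset.range (j + 1), (if i + 2 * m = j then a i m else 0) =
        if 2 * m ≤ j then a (j - 2 * m) m else 0 := by
    intro m _
    by_cases hm : 2 * m ≤ j
    · rw [if_pos hm, Finset.sum_eq_single (j - 2 * m)]
      · rw [if_pos (by omega)]
      · intro i _ hi
        rw [if_neg (by omega)]
      · intro h
        exact absurd (Finset.mem_range.2 (by omega)) h
    · rw [if_neg hm]
      refine Finset.sum_eq_zero fun i _ => ?_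
      rw [if_neg (by omega)]
  rw [Finset.sum_congr rfl h1]
  symm
  rw [← Finset.sum_filter]
  refine Finset.sum_congr ?_ fun _ _ => rfl
  ext m
  simp only [Finset.mem_range, Finset.mem_filter]
  omega

theorem k_cont {n : ℕ} (D : HD n) : Continuous D.k := by
  unfold HD.k
  have h1 : Continuous D.A := D.As.continuous
  exact ((h1.comp continuous_fst).clm_apply continuous_snd).inner continuous_snd

theorem k_nonneg {n : ℕ} (D : HD n) (z : P n) : 0 ≤ D.k z := by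
  refine le_trans ?_ (D.lo z.1 z.2)
  have := D.a0
  positivity

theorem k_energy {n : ℕ} {D : HD n} {φ : ℝ → ℝ → P n → P n} (hφ : D.Flow φ) (s : ℝ) (z : P n) :
    D.k (φ 0 s z) = D.k z := by
  have h := hφ.energy 0 s z le_rfl zero_le_one
  unfold HD.en at h
  simpa using h

/-- bounds for test functions -/
theorem tf_bound {n : ℕ} {D : HD n} {Ψ : P n → ℂ} (h : D.TF Ψ) : ∃ C r : ℝ, (∀ z, ‖Ψ z‖ ≤ C) ∧
    ∀ z, r < ‖z‖ → Ψ z = 0 := by
  obtain ⟨C, hC⟩ := h.smooth.continuous.bounded_above_of_compact_support h.supp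
  obtain ⟨r, hr⟩ := h.supp.isCompact.isBounded.subset_closedBall 0
  refine ⟨C, r, hC, fun z hz => ?_⟩
  by_contra h1
  have h2 : z ∈ tsupport Ψ := subset_tsupport _ h1
  have h3 := hr h2
  rw [Metric.mem_closedBall, dist_zero_right] at h3
  linarith

variable {a n : ℕ} (D : WD a n)

/-- the phase space of the product -/
abbrev V (a n : ℕ) : Type := P a × P (n + 2)

/-- the measure on the product -/
noncomputable abbrev μ (a n : ℕ) : Measure (ℝ × V a n) := (volume : Measure ℝ).prod volume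

theorem haarV (a n : ℕ) : (volume : Measure (V a n)).IsAddHaarMeasure := by
  have h1 := haarP a
  have h2 := haarP (n + 2)
  show (Measure.prod (volume : Measure (P a)) (volume : Measure (P (n + 2)))).IsAddHaarMeasure
  exact Measure.prod.instIsAddHaarMeasure _ _

theorem sf (a n : ℕ) : SFinite (volume : Measure (V a n)) := by
  have := haarV a n
  infer_instance

/-- the domain of integration -/
def tS (a n : ℕ) (T₁ T₂ : ℝ) : Set (ℝ × V a n) := Ioc T₁ T₂ ×ˢ univ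

/-- the part of it over a ball -/
def bx (a n : ℕ) (T₁ T₂ r : ℝ) : Set (ℝ × V a n) := Ioc T₁ T₂ ×ˢ Metric.closedBall (0 : V a n) r

theorem tS_meas (T₁ T₂ : ℝ) : MeasurableSet (tS a n T₁ T₂) := measurableSet_Ioc.prod .univ

theorem bx_meas (T₁ T₂ r : ℝ) : MeasurableSet (bx a n T₁ T₂ r) :=
  measurableSet_Ioc.prod (isCompact_closedBall _ _).measurableSet

theorem bx_sub (T₁ T₂ r : ℝ) : bx a n T₁ T₂ r ⊆ tS a n T₁ T₂ :=
  prod_mono_right (subset_univ _)

theorem bx_lt (T₁ T₂ r : ℝ) : μ a n (bx a n T₁ T₂ r) < ⊤ := by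
  have := haarV a n
  unfold μ bx
  rw [Measure.prod_prod]
  refine ENNReal.mul_lt_top ?_ (isCompact_closedBall _ _).measure_lt_top
  rw [Real.volume_Ioc]
  exact ENNReal.ofReal_lt_top

theorem f_meas : Measurable (fun p : ℝ × V a n => (D.f p.2.1.1 p.2.2.1 : ℂ)) :=
  Complex.measurable_ofReal.comp
    (D.fm.comp (by fun_prop : Measurable (fun p : ℝ × V a n => (p.2.1.1, p.2.2.1))))

theorem f_le (x : E a) (y : E (n + 2)) : ‖(D.f x y : ℂ)‖ ≤ D.C := by
  rw [Complex.norm_real, Real.norm_eq_abs]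
  exact D.fC x y

theorem integrable_fg {g : ℝ × V a n → ℂ} {T₁ T₂ r : ℝ} (hg : Continuous g)
    (h0 : ∀ p ∈ tS a n T₁ T₂, p ∉ bx a n T₁ T₂ r → g p = 0) :
    IntegrableOn (fun p : ℝ × V a n => (D.f p.2.1.1 p.2.2.1 : ℂ) * g p) (tS a n T₁ T₂)
      (μ a n) := by
  obtain ⟨C, hC⟩ := (isCompact_Icc.prod (isCompact_closedBall (0 : V a n) r) :
    IsCompact (Icc T₁ T₂ ×ˢ Metric.closedBall (0 : V a n) r)).exists_bound_of_continuousOn
      hg.continuousOn
  have h1 : IntegrableOn (fun p : ℝ × V a n => (D.f p.2.1.1 p.2.2.1 : ℂ) * g p)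
      (bx a n T₁ T₂ r) (μ a n) := by
    refine Measure.integrableOn_of_bounded (M := D.C * C) (bx_lt _ _ _).ne ?_ ?_
    · exact ((f_meas D).mul hg.measurable).aestronglyMeasurable
    · rw [ae_restrict_iff' (bx_meas _ _ _)]
      refine Eventually.of_forall fun p hp => ?_
      rw [norm_mul]
      exact mul_le_mul (f_le D _ _) (hC p ⟨Ioc_subset_Icc_self hp.1, hp.2⟩) (norm_nonneg _)
        ((norm_nonneg _).trans (f_le D p.2.1.1 p.2.2.1))
  refine h1.of_forall_sdiff_eq_zero (tS_meas _ _) fun p hp => ?_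
  rw [h0 p hp.1 hp.2, mul_zero]

theorem norm_integral_bx {h : ℝ × V a n → ℂ} {T₁ T₂ r B : ℝ}
    (hE : ∀ p ∈ bx a n T₁ T₂ r, ‖h p‖ ≤ B)
    (h0 : ∀ p ∈ tS a n T₁ T₂, p ∉ bx a n T₁ T₂ r → h p = 0) :
    ‖∫ p in tS a n T₁ T₂, h p ∂(μ a n)‖ ≤ B * (μ a n).real (bx a n T₁ T₂ r) := by
  rw [setIntegral_eq_of_subset_of_forall_sdiff_eq_zero (tS_meas _ _) (bx_sub _ _ _)
    fun p hp => h0 p hp.1 hp.2]
  exact norm_setIntegral_le_of_norm_le_const (bx_lt _ _ _) hE

theorem integral_tS {h : ℝ × V a n → ℂ} {T₁ T₂ : ℝ} (hT : T₁ ≤ T₂)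
    (hi : IntegrableOn h (tS a n T₁ T₂) (μ a n)) :
    ∫ p in tS a n T₁ T₂, h p ∂(μ a n) = ∫ s in T₁..T₂, ∫ q : V a n, h (s, q) := by
  have := sf a n
  unfold tS at hi ⊢
  rw [intervalIntegral.integral_of_le hT, setIntegral_prod _ hi]
  simp only [Measure.restrict_univ]

/-- the integrand -/
noncomputable def gE (ψ : ℝ → ℝ → P a → P a) (φ : ℝ → ℝ → P (n + 2) → P (n + 2)) (α : P a → ℝ)
    (Ψ : P (n + 2) → ℂ) (ε : ℝ) (p : ℝ × V a n) : ℂ :=
  (α (ψ (D.kap ε p.2.2) (-p.1) p.2.1) : ℂ) *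
    Ψ (φ 0 (ε * D.B.sg ψ (D.kap ε p.2.2) (-p.1) p.2.1) p.2.2)

theorem kap_cont (ε : ℝ) : Continuous (D.kap ε) := by
  unfold WD.kap
  exact continuous_const.mul (k_cont D.K)

theorem gE_cont {ψ : ℝ → ℝ → P a → P a} {φ : ℝ → ℝ → P (n + 2) → P (n + 2)}
    (hS : Stmt_SGS) (hψ : D.B.Flow ψ) (hφ : D.K.Flow φ) {α : P a → ℝ} (hα : Continuous α)
    {Ψ : P (n + 2) → ℂ} (hΨ : D.K.TF Ψ) (ε : ℝ) : Continuous (gE D ψ φ α Ψ ε) := by
  have hk := kap_cont D ε
  have h1 : Continuous (fun p : ℝ × V a n => ((D.kap ε p.2.2, -p.1, p.2.1) : ℝ × ℝ × P a)) := by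
    fun_prop
  have h2 : Continuous (fun p : ℝ × V a n => D.B.sg ψ (D.kap ε p.2.2) (-p.1) p.2.1) :=
    (hS a D.B ψ hψ).continuous.comp h1
  have h3 : Continuous (fun p : ℝ × V a n => ψ (D.kap ε p.2.2) (-p.1) p.2.1) :=
    hψ.smooth.continuous.comp h1
  have h4 : Continuous (fun p : ℝ × V a n =>
      (((0 : ℝ), ε * D.B.sg ψ (D.kap ε p.2.2) (-p.1) p.2.1, p.2.2) : ℝ × ℝ × P (n + 2))) := by
    fun_prop
  have h5 : Continuous (fun p : ℝ × V a n =>
      φ 0 (ε * D.B.sg ψ (D.kap ε p.2.2) (-p.1) p.2.1) p.2.2) :=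
    hφ.smooth.continuous.comp h4
  exact (Complex.continuous_ofReal.comp (hα.comp h3)).mul (hΨ.smooth.continuous.comp h5)

theorem gE_low {ψ : ℝ → ℝ → P a → P a} {φ : ℝ → ℝ → P (n + 2) → P (n + 2)}
    (hφ : D.K.Flow φ) (α : P a → ℝ) {Ψ : P (n + 2) → ℂ} (hΨ : D.K.TF Ψ) (ε : ℝ) {p : ℝ × V a n}
    (h : 1 ≤ D.K.k p.2.2) : gE D ψ φ α Ψ ε p = 0 := by
  unfold gE
  rw [hΨ.low _ (by rw [k_energy hφ]; exact h), mul_zero]

/-- the terms of the expansion -/
noncomputable def gA (ψ : ℝ → ℝ → P a → P a) (α : P a → ℝ) (Ψ : P (n + 2) → ℂ) (i m : ℕ)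
    (p : ℝ × V a n) : ℂ :=
  (D.B.co ψ α i m (-p.1) p.2.1 : ℂ) * ((D.K.k p.2.2 : ℂ) ^ m * (D.K.der^[i] Ψ) p.2.2)

theorem gA_cont {ψ : ℝ → ℝ → P a → P a} {α : P a → ℝ} {i m : ℕ}
    (hco : Continuous (fun q : ℝ × P a => D.B.co ψ α i m q.1 q.2)) {Ψ : P (n + 2) → ℂ}
    (hΨ : D.K.TF (D.K.der^[i] Ψ)) : Continuous (gA D ψ α Ψ i m) := by
  have h0 : Continuous (fun p : ℝ × V a n => ((-p.1, p.2.1) : ℝ × P a)) := by fun_prop
  have h1 : Continuous (fun p : ℝ × V a n => (D.B.co ψ α i m (-p.1) p.2.1 : ℂ)) :=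
    Complex.continuous_ofReal.comp (hco.comp h0)
  have h3 : Continuous (fun p : ℝ × V a n => p.2.2) := by fun_prop
  have h2 : Continuous (fun p : ℝ × V a n => (D.K.k p.2.2 : ℂ) ^ m) :=
    (Complex.continuous_ofReal.comp ((k_cont D.K).comp h3)).pow m
  exact h1.mul (h2.mul (hΨ.smooth.continuous.comp h3))

/-- the algebra of the expansion -/
theorem algebra (j : ℕ) (ε sg w κ k : ℝ) (hκ : κ = ε ^ 2 * k) (Φ : ℂ) (ψ : ℕ → ℂ)
    (co : ℕ → ℕ → ℝ) :
    (w : ℂ) * Φ - ∑ i ∈ Finset.range (j + 1), ∑ m ∈ Finset.range (j + 1),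
        (1 / (i.factorial : ℂ)) * (ε : ℂ) ^ (i + 2 * m) *
          ((co i m : ℂ) * ((k : ℂ) ^ m * ψ i)) =
      (w : ℂ) * (Φ - ∑ i ∈ Finset.range (j + 1),
        ((((ε * sg : ℝ) : ℂ)) ^ i / (i.factorial : ℂ)) * ψ i) +
      ∑ i ∈ Finset.range (j + 1), (1 / (i.factorial : ℂ)) * (ε : ℂ) ^ i * ψ i *
        ((w * sg ^ i - ∑ m ∈ Finset.range (j + 1), co i m * κ ^ m : ℝ) : ℂ) := by
  have h1 : (w : ℂ) * (∑ i ∈ Finset.range (j + 1),
        ((((ε * sg : ℝ) : ℂ)) ^ i / (i.factorial : ℂ)) * ψ i) =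
        ∑ i ∈ Finset.range (j + 1), (1 / (i.factorial : ℂ)) *
          (ε : ℂ) ^ i * ψ i * ((w * sg ^ i : ℝ) : ℂ) := by
    rw [Finset.mul_sum]
    refine Finset.sum_congr rfl fun i _ => ?_
    push_cast
    rw [mul_pow]
    ring
  have h3 : ∑ i ∈ Finset.range (j + 1), ∑ m ∈ Finset.range (j + 1),
        (1 / (i.factorial : ℂ)) * (ε : ℂ) ^ (i + 2 * m) *
          ((co i m : ℂ) * ((k : ℂ) ^ m * ψ i)) =
      ∑ i ∈ Finset.range (j + 1), (1 / (i.factorial : ℂ)) * (ε : ℂ) ^ i * ψ i *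
        ((∑ m ∈ Finset.range (j + 1), co i m * κ ^ m : ℝ) : ℂ) := by
    refine Finset.sum_congr rfl fun i _ => ?_
    rw [Complex.ofReal_sum, Finset.mul_sum]
    refine Finset.sum_congr rfl fun m _ => ?_
    rw [hκ]
    push_cast
    rw [pow_add, pow_mul, mul_pow]
    ring
  rw [mul_sub, h1, h3]
  simp only [Complex.ofReal_sub, mul_sub, Finset.sum_sub_distrib]
  ring

end ORDAux

open ORDAux in
theorem ord_ (hS : Stmt_SGS) (hD : Stmt_DTF) (hT : Stmt_TAY) (hE : Stmt_EXP) (hC : Stmt_CHG) :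
    Stmt_ORD := by
  intro a n D ψ φ hψ hφ U T₁ T₂ ε₀ hT12 hε₀ hZ α hα Ψ hΨ j
  obtain ⟨C2, hT1⟩ := hT (n + 2) D.K φ hφ Ψ hΨ j
  obtain ⟨hco, hE0⟩ := hE a D.B ψ hψ α hα.smooth hα.supp
  set T : ℝ := max |T₁| |T₂| with hTdef
  have hTs : ∀ s ∈ Ioc T₁ T₂, |-s| ≤ T := by
    intro s hs
    rw [abs_neg, abs_le]
    have h1 : |T₁| ≤ T := le_max_left _ _
    have h2 : |T₂| ≤ T := le_max_right _ _
    have h3 := neg_abs_le T₁
    have h4 := le_abs_self T₂
    exact ⟨by linarith [hs.1], by linarith [hs.2]⟩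
  obtain ⟨⟨Rα, hRα⟩, hE1⟩ := hE0 T
  choose C3 hE2 using fun i => hE1 i j
  obtain ⟨C5, h5⟩ := hφ.move
  have hTF : ∀ i, D.K.TF (D.K.der^[i] Ψ) := by
    intro i
    induction i with
    | zero => exact hΨ
    | succ i ih =>
      rw [Function.iterate_succ_apply']
      exact hD (n + 2) D.K _ ih
  choose C4 r4 h4 h4' using fun i => tf_bound (hTF i)
  obtain ⟨C6, hC6⟩ := hα.smooth.continuous.bounded_above_of_compact_support hα.supp
  -- the bound of the time
  obtain ⟨C1', hC1'⟩ := ((isCompact_Icc (a := (0 : ℝ)) (b := 1)).prod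
    ((isCompact_Icc (a := -T) (b := T)).prod
      (isCompact_closedBall (0 : P a) |Rα|))).exists_bound_of_continuousOn
        (f := fun q : ℝ × ℝ × P a => D.B.sg ψ q.1 q.2.1 q.2.2)
        (hS a D.B ψ hψ).continuous.continuousOn
  set C1 : ℝ := |C1'| with hC1def
  have hC1 : 0 ≤ C1 := abs_nonneg _
  have hsg : ∀ (κ s : ℝ) (y : P a), 0 ≤ κ → κ ≤ 1 → |s| ≤ T → ‖y‖ ≤ |Rα| →
      |D.B.sg ψ κ s y| ≤ C1 := by
    intro κ s y h1 h2 h3 h6
    have h7 := hC1' (κ, s, y) ⟨⟨h1, h2⟩, ⟨abs_le.1 h3, by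
      rw [Metric.mem_closedBall, dist_zero_right]; exact h6⟩⟩
    rw [Real.norm_eq_abs] at h7
    exact h7.trans (le_abs_self _)
  have hB0 : 0 ≤ D.C := (norm_nonneg _).trans (f_le D 0 0)
  set r : ℝ := |Rα| + ∑ i ∈ Finset.range (j + 1), |r4 i| + |C5| * C1 with hr
  have hsum0 : 0 ≤ ∑ i ∈ Finset.range (j + 1), |r4 i| :=
    Finset.sum_nonneg fun i _ => abs_nonneg _
  have hC5 : 0 ≤ |C5| * C1 := by positivity
  have hr4 : ∀ i ∈ Finset.range (j + 1), r4 i + |C5| * C1 ≤ r := by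
    intro i hi
    have h1 : |r4 i| ≤ ∑ i ∈ Finset.range (j + 1), |r4 i| :=
      Finset.single_le_sum (f := fun i => |r4 i|) (fun i _ => abs_nonneg _) hi
    have h2 := le_abs_self (r4 i)
    have h3 := abs_nonneg Rα
    rw [hr]
    linarith
  have hrα : |Rα| ≤ r := by
    rw [hr]
    linarith
  -- points outside the box
  have hout : ∀ p ∈ tS a n T₁ T₂, p ∉ bx a n T₁ T₂ r → |Rα| < ‖p.2.1‖ ∨ r < ‖p.2.2‖ := by
    intro p hp hp'
    have h1 : r < ‖p.2‖ := by
      by_contra h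
      apply hp'
      refine ⟨hp.1, ?_⟩
      rw [Metric.mem_closedBall, dist_zero_right]
      exact not_lt.1 h
    rw [Prod.norm_def, lt_max_iff] at h1
    rcases h1 with h1 | h1
    · exact Or.inl (hrα.trans_lt h1)
    · exact Or.inr h1
  have hA0 : ∀ i ∈ Finset.range (j + 1), ∀ m : ℕ, ∀ p ∈ tS a n T₁ T₂, p ∉ bx a n T₁ T₂ r →
      gA D ψ α Ψ i m p = 0 := by
    intro i hi m p hp hp'
    unfold gA
    rcases hout p hp hp' with h | h
    · rw [(hRα (-p.1) p.2.1 (hTs _ hp.1) ((le_abs_self _).trans h.le)).2 i m,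
        Complex.ofReal_zero, zero_mul]
    · rw [h4' i p.2.2 (by have := hr4 i hi; linarith), mul_zero, mul_zero]
  have hAi : ∀ i ∈ Finset.range (j + 1), ∀ m : ℕ,
      IntegrableOn (fun p : ℝ × V a n => (D.f p.2.1.1 p.2.2.1 : ℂ) * gA D ψ α Ψ i m p)
        (tS a n T₁ T₂) (μ a n) :=
    fun i hi m => integrable_fg D (gA_cont D (hco i m) (hTF i)) (hA0 i hi m)
  set c : ℕ → ℕ → ℂ := fun i m => ∫ p in tS a n T₁ T₂,
    (D.f p.2.1.1 p.2.2.1 : ℂ) * gA D ψ α Ψ i m p ∂(μ a n) with hc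
  have hAval : ∀ i ∈ Finset.range (j + 1), ∀ m : ℕ, c i m =
      ∫ s in T₁..T₂, ∫ q : P a × P (n + 2), (D.f q.1.1 q.2.1 : ℂ) *
        ((D.B.co ψ α i m (-s) q.1 : ℂ) * ((D.K.k q.2 : ℂ) ^ m * (D.K.der^[i] Ψ) q.2)) := by
    intro i hi m
    exact integral_tS hT12 (hAi i hi m)
  -- the polynomial
  set Q : Polynomial ℂ := ∑ i ∈ Finset.range (j + 1), ∑ m ∈ Finset.range (j + 1),
    Polynomial.monomial (i + 2 * m) ((1 / (i.factorial : ℂ)) * c i m) with hQ
  set ε₁ : ℝ := min ε₀ 1 with hε₁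
  have hε₁0 : 0 < ε₁ := lt_min hε₀ one_pos
  set E0 : ℝ := D.C * (|C6| * (|C2| * C1 ^ (j + 1)) +
    ∑ i ∈ Finset.range (j + 1), |C4 i| * |C3 i|) with hE0'
  have hE00 : 0 ≤ E0 := by positivity
  have key : ∀ ε : ℝ, 0 < ε → ε < ε₁ →
      ‖Q.eval (ε : ℂ)‖ ≤ (E0 * (μ a n).real (bx a n T₁ T₂ r)) * ε ^ (j + 1) := by
    intro ε he he1
    have he0 : ε < ε₀ := he1.trans_le (min_le_left _ _)
    have he2 : ε ≤ 1 := (he1.trans_le (min_le_right _ _)).le
    have he5 : ε ^ 2 ≤ ε := by nlinarith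
    have hg0 : ∀ p ∈ tS a n T₁ T₂, p ∉ bx a n T₁ T₂ r → gE D ψ φ α Ψ ε p = 0 := by
      intro p hp hp'
      by_cases hRp : |Rα| < ‖p.2.1‖
      · unfold gE
        rw [(hRα (-p.1) p.2.1 (hTs _ hp.1) ((le_abs_self _).trans hRp.le)).1, Complex.ofReal_zero,
          zero_mul]
      · have hz : r < ‖p.2.2‖ := (hout p hp hp').resolve_left hRp
        rcases lt_or_ge (D.K.k p.2.2) 1 with hk | hk
        · unfold gE
          have hk0 := k_nonneg D.K p.2.2
          have hκ0 : 0 ≤ D.kap ε p.2.2 := by unfold WD.kap; positivity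
          have hκ1 : D.kap ε p.2.2 ≤ 1 := by
            unfold WD.kap
            nlinarith
          have hs := hsg _ (-p.1) p.2.1 hκ0 hκ1 (hTs _ hp.1) (not_lt.1 hRp)
          set s := ε * D.B.sg ψ (D.kap ε p.2.2) (-p.1) p.2.1 with hsdef
          have hs2 : |s| ≤ C1 := by
            rw [hsdef, abs_mul, abs_of_pos he]
            calc ε * |D.B.sg ψ (D.kap ε p.2.2) (-p.1) p.2.1| ≤ 1 * C1 :=
                  mul_le_mul he2 hs (abs_nonneg _) zero_le_one
              _ = C1 := one_mul _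
          have h1 : ‖φ 0 s p.2.2 - p.2.2‖ ≤ |C5| * C1 := by
            refine (h5 0 s p.2.2).trans ?_
            exact mul_le_mul (le_abs_self C5) hs2 (abs_nonneg s) (abs_nonneg _)
          have h2 : ‖p.2.2‖ ≤ ‖φ 0 s p.2.2‖ + ‖φ 0 s p.2.2 - p.2.2‖ := by
            have := norm_sub_le (φ 0 s p.2.2) (φ 0 s p.2.2 - p.2.2)
            rwa [sub_sub_cancel] at this
          have h3 := hr4 0 (Finset.mem_range.2 (by omega))
          have h6 : Ψ (φ 0 s p.2.2) = 0 := h4' 0 _ (by linarith)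
          rw [h6, mul_zero]
        · exact gE_low D hφ α hΨ ε hk
    have hgi : IntegrableOn (fun p : ℝ × V a n => (D.f p.2.1.1 p.2.2.1 : ℂ) *
        gE D ψ φ α Ψ ε p) (tS a n T₁ T₂) (μ a n) :=
      integrable_fg D (gE_cont D hS hψ hφ hα.smooth.continuous hΨ ε) (r := r) hg0
    have hgz : ∫ p in tS a n T₁ T₂, (D.f p.2.1.1 p.2.2.1 : ℂ) * gE D ψ φ α Ψ ε p ∂(μ a n) = 0 := by
      rw [integral_tS hT12 hgi]
      exact hC a n D ψ φ hψ hφ U T₁ T₂ ε hT12 he he2 (hZ ε he he0) α hα Ψ hΨ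
    -- the difference
    have hint : ∫ p in tS a n T₁ T₂, ((D.f p.2.1.1 p.2.2.1 : ℂ) * gE D ψ φ α Ψ ε p -
        ∑ i ∈ Finset.range (j + 1), ∑ m ∈ Finset.range (j + 1),
          (1 / (i.factorial : ℂ)) * (ε : ℂ) ^ (i + 2 * m) *
          ((D.f p.2.1.1 p.2.2.1 : ℂ) * gA D ψ α Ψ i m p)) ∂(μ a n) = - Q.eval (ε : ℂ) := by
      rw [integral_sub hgi, hgz, zero_sub, integral_finsetSum]
      · rw [hQ, Polynomial.eval_finsetSum]
        congr 1
        refine Finset.sum_congr rfl fun i hi => ?_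
        rw [integral_finsetSum]
        · rw [Polynomial.eval_finsetSum]
          refine Finset.sum_congr rfl fun m _ => ?_
          rw [integral_const_mul, Polynomial.eval_monomial]
          ring
        · intro m _
          exact (hAi i hi m).const_mul _
      · intro i hi
        exact integrable_finsetSum _ fun m _ => (hAi i hi m).const_mul _
      · exact integrable_finsetSum _ fun i hi =>
          integrable_finsetSum _ fun m _ => (hAi i hi m).const_mul _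
    rw [← norm_neg, ← hint]
    have hbd := norm_integral_bx (a := a) (n := n) (T₁ := T₁) (T₂ := T₂) (r := r)
      (B := E0 * ε ^ (j + 1))
      (h := fun p => (D.f p.2.1.1 p.2.2.1 : ℂ) * gE D ψ φ α Ψ ε p -
        ∑ i ∈ Finset.range (j + 1), ∑ m ∈ Finset.range (j + 1),
          (1 / (i.factorial : ℂ)) * (ε : ℂ) ^ (i + 2 * m) *
          ((D.f p.2.1.1 p.2.2.1 : ℂ) * gA D ψ α Ψ i m p)) ?_ ?_
    · refine hbd.trans (le_of_eq ?_)
      ring
    · intro p hp
      have hps : |-p.1| ≤ T := hTs _ hp.1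
      rcases lt_or_ge (D.K.k p.2.2) 1 with hk | hk
      · have hk0 := k_nonneg D.K p.2.2
        set κ := D.kap ε p.2.2 with hκdef
        have hκ : κ = ε ^ 2 * D.K.k p.2.2 := rfl
        have hκ0 : 0 ≤ κ := by rw [hκ]; positivity
        have hκε : κ ≤ ε := by rw [hκ]; nlinarith
        have hκ1 : κ ≤ 1 := hκε.trans he2
        have hfac : (D.f p.2.1.1 p.2.2.1 : ℂ) * gE D ψ φ α Ψ ε p -
            ∑ i ∈ Finset.range (j + 1), ∑ m ∈ Finset.range (j + 1),
              (1 / (i.factorial : ℂ)) * (ε : ℂ) ^ (i + 2 * m) *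
              ((D.f p.2.1.1 p.2.2.1 : ℂ) * gA D ψ α Ψ i m p) =
            (D.f p.2.1.1 p.2.2.1 : ℂ) * ((α (ψ κ (-p.1) p.2.1) : ℂ) *
              Ψ (φ 0 (ε * D.B.sg ψ κ (-p.1) p.2.1) p.2.2) -
              ∑ i ∈ Finset.range (j + 1), ∑ m ∈ Finset.range (j + 1),
              (1 / (i.factorial : ℂ)) * (ε : ℂ) ^ (i + 2 * m) *
              ((D.B.co ψ α i m (-p.1) p.2.1 : ℂ) * ((D.K.k p.2.2 : ℂ) ^ m *
                (D.K.der^[i] Ψ) p.2.2))) := by
          rw [mul_sub, Finset.mul_sum]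
          congr 1
          refine Finset.sum_congr rfl fun i _ => ?_
          rw [Finset.mul_sum]
          refine Finset.sum_congr rfl fun m _ => ?_
          unfold gA
          ring
        rw [hfac, algebra j ε (D.B.sg ψ κ (-p.1) p.2.1) (α (ψ κ (-p.1) p.2.1)) κ (D.K.k p.2.2) hκ
          (Ψ (φ 0 (ε * D.B.sg ψ κ (-p.1) p.2.1) p.2.2)) (fun i => (D.K.der^[i] Ψ) p.2.2)
          (fun i m => D.B.co ψ α i m (-p.1) p.2.1), norm_mul]
        have b1 : ‖(α (ψ κ (-p.1) p.2.1) : ℂ) * (Ψ (φ 0 (ε * D.B.sg ψ κ (-p.1) p.2.1) p.2.2) -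
            ∑ i ∈ Finset.range (j + 1),
            ((((ε * D.B.sg ψ κ (-p.1) p.2.1 : ℝ) : ℂ)) ^ i / (i.factorial : ℂ)) *
              (D.K.der^[i] Ψ) p.2.2)‖ ≤ |C6| * (|C2| * C1 ^ (j + 1)) * ε ^ (j + 1) := by
          by_cases hRp : |Rα| < ‖p.2.1‖
          · rw [(hRα (-p.1) p.2.1 hps ((le_abs_self _).trans hRp.le)).1, Complex.ofReal_zero,
              zero_mul, norm_zero]
            positivity
          · have hs := hsg κ (-p.1) p.2.1 hκ0 hκ1 hps (not_lt.1 hRp)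
            rw [norm_mul, Complex.norm_real]
            have b2 := hT1 (ε * D.B.sg ψ κ (-p.1) p.2.1) p.2.2
            have hsp : |ε * D.B.sg ψ κ (-p.1) p.2.1| ≤ ε * C1 := by
              rw [abs_mul, abs_of_pos he]
              exact mul_le_mul_of_nonneg_left hs he.le
            have b3 : C2 * |ε * D.B.sg ψ κ (-p.1) p.2.1| ^ (j + 1) ≤
                |C2| * (ε * C1) ^ (j + 1) :=
              mul_le_mul (le_abs_self _) (pow_le_pow_left₀ (abs_nonneg _) hsp _)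
                (pow_nonneg (abs_nonneg _) _) (abs_nonneg _)
            calc _ ≤ |C6| * (|C2| * (ε * C1) ^ (j + 1)) :=
                  mul_le_mul ((hC6 _).trans (le_abs_self _)) (b2.trans b3) (norm_nonneg _)
                    (abs_nonneg _)
              _ = _ := by rw [mul_pow]; ring
        have b4 : ‖∑ i ∈ Finset.range (j + 1), (1 / (i.factorial : ℂ)) *
            (ε : ℂ) ^ i * (D.K.der^[i] Ψ) p.2.2 * ((α (ψ κ (-p.1) p.2.1) *
              D.B.sg ψ κ (-p.1) p.2.1 ^ i -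
              ∑ m ∈ Finset.range (j + 1), D.B.co ψ α i m (-p.1) p.2.1 * κ ^ m : ℝ) : ℂ)‖ ≤
            (∑ i ∈ Finset.range (j + 1), |C4 i| * |C3 i|) * ε ^ (j + 1) := by
          rw [Finset.sum_mul]
          refine (norm_sum_le _ _).trans (Finset.sum_le_sum fun i _ => ?_)
          rw [norm_mul, norm_mul, norm_mul, Complex.norm_real, Real.norm_eq_abs, norm_div,
            norm_one, norm_pow, Complex.norm_real,
            Real.norm_eq_abs, abs_of_pos he, Complex.norm_natCast]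
          have b5 := hE2 i (-p.1) p.2.1 κ hps hκ0 hκ1
          have b6 : C3 i * κ ^ (j + 1) ≤ |C3 i| * ε ^ (j + 1) :=
            mul_le_mul (le_abs_self _) (pow_le_pow_left₀ hκ0 hκε _) (by positivity)
              (abs_nonneg _)
          have b7 : 1 / (i.factorial : ℝ) ≤ 1 := by
            rw [div_le_one (by exact_mod_cast i.factorial_pos)]
            exact_mod_cast i.factorial_pos
          have b8 : ε ^ i ≤ 1 := pow_le_one₀ he.le he2
          have b9 : 1 / (i.factorial : ℝ) * ε ^ i ≤ 1 :=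
            mul_le_one₀ b7 (by positivity) b8
          have b10 : ‖(D.K.der^[i] Ψ) p.2.2‖ ≤ |C4 i| := (h4 i p.2.2).trans (le_abs_self _)
          have b11 : 1 / (i.factorial : ℝ) * ε ^ i * ‖(D.K.der^[i] Ψ) p.2.2‖ ≤ |C4 i| := by
            have := mul_le_mul b9 b10 (norm_nonneg _) zero_le_one
            rwa [one_mul] at this
          have b12 := mul_le_mul b11 (b5.trans b6) (abs_nonneg _) (abs_nonneg _)
          rw [← mul_assoc] at b12
          exact b12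
        calc _ ≤ D.C * (|C6| * (|C2| * C1 ^ (j + 1)) * ε ^ (j + 1) +
              (∑ i ∈ Finset.range (j + 1), |C4 i| * |C3 i|) * ε ^ (j + 1)) :=
              mul_le_mul (f_le D _ _) ((norm_add_le _ _).trans (add_le_add b1 b4))
                (norm_nonneg _) hB0
          _ = _ := by rw [hE0']; ring
      · have h1 : (D.f p.2.1.1 p.2.2.1 : ℂ) * gE D ψ φ α Ψ ε p -
            ∑ i ∈ Finset.range (j + 1), ∑ m ∈ Finset.range (j + 1),
              (1 / (i.factorial : ℂ)) * (ε : ℂ) ^ (i + 2 * m) *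
              ((D.f p.2.1.1 p.2.2.1 : ℂ) * gA D ψ α Ψ i m p) = 0 := by
          rw [gE_low D hφ α hΨ ε hk, mul_zero, zero_sub, neg_eq_zero]
          refine Finset.sum_eq_zero fun i _ => Finset.sum_eq_zero fun m _ => ?_
          unfold gA
          rw [(hTF i).low p.2.2 hk, mul_zero, mul_zero, mul_zero, mul_zero]
        rw [h1, norm_zero]
        positivity
    · intro p hp hp'
      rw [hg0 p hp hp', mul_zero, zero_sub, neg_eq_zero]
      refine Finset.sum_eq_zero fun i hi => Finset.sum_eq_zero fun m _ => ?_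
      rw [hA0 i hi m p hp hp', mul_zero, mul_zero]
  have h6 := poly_coeff _ _ hε₁0 (j + 1) Q key j (by omega)
  have h7 : Q.coeff j = ∑ m ∈ Finset.range (j / 2 + 1),
      ((1 / ((j - 2 * m).factorial : ℂ)) * c (j - 2 * m) m) := by
    rw [← sum_diag j (fun i m => (1 / (i.factorial : ℂ)) * c i m), hQ,
      Polynomial.finsetSum_coeff]
    refine Finset.sum_congr rfl fun i _ => ?_
    rw [Polynomial.finsetSum_coeff]
    refine Finset.sum_congr rfl fun m _ => ?_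
    rw [Polynomial.coeff_monomial]
  rw [h6] at h7
  rw [h7]
  refine Finset.sum_congr rfl fun m hm => ?_
  rw [hAval _ (Finset.mem_range.2 (by omega)) m]

end Pool.Agent.WPG
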