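import Pool.Agent.WPG.Stmts

/-!
# General warped products: continuity of a global flow

Two trajectories are compared by the inequality of Gronwall up to the first time at which their
distance is `1`.
-/

set_option autoImplicit false

namespace Pool.Agent.WPG

open MeasureTheory Set Filter Topology

namespace SFAAux

variable {V : Type} [NormedAddCommGroup V] [NormedSpace ℝ V]

/-- a `C¹` vector field is Lipschitz on balls -/
theorem lip_ball [FiniteDimensional ℝ V] (Z : V → V) (hZ : ContDiff ℝ 1 Z) (R : ℝ) :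
    ∃ L : NNReal, LipschitzOnWith L Z (Metric.closedBall 0 R) := by
  have hcont : Continuous (fun z => ‖fderiv ℝ Z z‖₊) :=
    (hZ.continuous_fderiv one_ne_zero).nnnorm
  have hcomp : IsCompact (Metric.closedBall (0 : V) R) := isCompact_closedBall 0 R
  obtain ⟨L, hL⟩ := (hcomp.image hcont).bddAbove
  refine ⟨L, ?_⟩
  apply Convex.lipschitzOnWith_of_nnnorm_fderiv_le (𝕜 := ℝ)
  · intro x _
    exact (hZ.differentiable one_ne_zero) x
  · intro x hx
    exact hL ⟨x, hx, rfl⟩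
  · exact convex_closedBall 0 R

/-- comparison of two trajectories, forward in time -/
theorem forward [FiniteDimensional ℝ V] (Z : V → V) (hZ : ContDiff ℝ 1 Z) (φ : ℝ → V → V)
    (h0 : ∀ z, φ 0 z = z) (hd : ∀ s z, HasDerivAt (fun r => φ r z) (Z (φ s z)) s) (z₀ : V)
    (T : ℝ) :
    ∃ C δ : ℝ, 0 < δ ∧ 0 ≤ C ∧ ∀ z, dist z z₀ < δ → ∀ s ∈ Icc 0 T,
      dist (φ s z) (φ s z₀) ≤ C * dist z z₀ := by
  have hc : ∀ z, Continuous (fun s => φ s z) := fun z =>
    continuous_iff_continuousAt.2 (fun s => (hd s z).continuousAt)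
  obtain ⟨R, hR⟩ : ∃ R, ∀ s ∈ Icc 0 T, ‖φ s z₀‖ ≤ R :=
    isCompact_Icc.exists_bound_of_continuousOn (hc z₀).continuousOn
  obtain ⟨L, hL⟩ := lip_ball Z hZ (R + 1)
  refine ⟨Real.exp (L * T), Real.exp (-(L * T)), Real.exp_pos _, (Real.exp_pos _).le, ?_⟩
  intro z hz
  have key : ∀ b ∈ Icc 0 T, (∀ t ∈ Ico 0 b, dist (φ t z) (φ t z₀) < 1) →
      ∀ t ∈ Icc 0 b, dist (φ t z) (φ t z₀) ≤ dist z z₀ * Real.exp (L * (t - 0)) := by
    intro b hb hlt
    apply dist_le_of_trajectories_ODE_of_mem (v := fun _ => Z)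
      (s := fun _ => Metric.closedBall 0 (R + 1))
    · intro t _
      exact hL
    · exact (hc z).continuousOn
    · intro t _
      exact (hd t z).hasDerivWithinAt
    · intro t ht
      rw [mem_closedBall_zero_iff]
      have h1 := hlt t ht
      have h2 := hR t ⟨ht.1, ht.2.le.trans hb.2⟩
      rw [dist_eq_norm] at h1
      have h3 : ‖φ t z‖ ≤ ‖φ t z - φ t z₀‖ + ‖φ t z₀‖ := by
        have := norm_add_le (φ t z - φ t z₀) (φ t z₀)
        rwa [sub_add_cancel] at this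
      linarith
    · exact (hc z₀).continuousOn
    · intro t _
      exact (hd t z₀).hasDerivWithinAt
    · intro t ht
      rw [mem_closedBall_zero_iff]
      have h2 := hR t ⟨ht.1, ht.2.le.trans hb.2⟩
      linarith
    · rw [h0, h0]
  have hexp : ∀ t ∈ Icc 0 T, dist z z₀ * Real.exp (L * (t - 0)) ≤
      Real.exp (L * T) * dist z z₀ := by
    intro t ht
    rw [mul_comm]
    apply mul_le_mul_of_nonneg_right _ dist_nonneg
    apply Real.exp_le_exp.2
    apply mul_le_mul_of_nonneg_left _ L.coe_nonneg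
    linarith [ht.2]
  have hone : Real.exp (L * T) * dist z z₀ < 1 := by
    have h1 : Real.exp (L * T) * dist z z₀ < Real.exp (L * T) * Real.exp (-(L * T)) :=
      mul_lt_mul_of_pos_left hz (Real.exp_pos _)
    rw [← Real.exp_add, add_neg_cancel, Real.exp_zero] at h1
    exact h1
  have hall : ∀ t ∈ Icc 0 T, dist (φ t z) (φ t z₀) < 1 := by
    by_contra hcon
    push Not at hcon
    obtain ⟨t₁, ht₁, h1⟩ := hcon
    have hSc : IsClosed {t | t ∈ Icc 0 T ∧ 1 ≤ dist (φ t z) (φ t z₀)} :=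
      isClosed_Icc.inter (isClosed_le continuous_const ((hc z).dist (hc z₀)))
    have hne : {t | t ∈ Icc 0 T ∧ 1 ≤ dist (φ t z) (φ t z₀)}.Nonempty := ⟨t₁, ht₁, h1⟩
    have hbd : BddBelow {t | t ∈ Icc 0 T ∧ 1 ≤ dist (φ t z) (φ t z₀)} :=
      ⟨0, fun t ht => ht.1.1⟩
    have hmem := hSc.csInf_mem hne hbd
    set b := sInf {t | t ∈ Icc 0 T ∧ 1 ≤ dist (φ t z) (φ t z₀)} with hb
    have hlt : ∀ t ∈ Ico 0 b, dist (φ t z) (φ t z₀) < 1 := by
      intro t ht
      by_contra hge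
      push Not at hge
      have h2 : b ≤ t := csInf_le hbd ⟨⟨ht.1, ht.2.le.trans hmem.1.2⟩, hge⟩
      linarith [ht.2]
    have h2 := key b hmem.1 hlt b ⟨hmem.1.1, le_rfl⟩
    have h3 := hexp b hmem.1
    linarith [hmem.2]
  intro s hs
  have hT : 0 ≤ T := hs.1.trans hs.2
  exact (key T ⟨hT, le_rfl⟩ (fun t ht => hall t ⟨ht.1, ht.2.le⟩) s hs).trans (hexp s hs)

end SFAAux

open SFAAux in
theorem sfa : Stmt_SFA := by
  intro V _ _ _ Z hZ φ h0 hd
  have hc : ∀ z, Continuous (fun s => φ s z) := fun z =>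
    continuous_iff_continuousAt.2 (fun s => (hd s z).continuousAt)
  rw [continuous_iff_continuousAt]
  rintro ⟨s₀, z₀⟩
  obtain ⟨C₁, δ₁, hδ₁, hC₁, h₁⟩ := forward Z hZ φ h0 hd z₀ (|s₀| + 1)
  obtain ⟨C₂, δ₂, hδ₂, hC₂, h₂⟩ := forward (fun z => -Z z) hZ.neg (fun s z => φ (-s) z)
    (fun z => by simp only [neg_zero]; exact h0 z)
    (fun s z => by
      have h3 := (hd (-s) z).scomp s (hasDerivAt_neg s)
      have h4 : (fun r : ℝ => φ (-r) z) = (fun r => φ r z) ∘ Neg.neg := rfl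
      rw [h4]
      simpa using h3) z₀ (|s₀| + 1)
  have hcomp : ∀ z, dist z z₀ < min δ₁ δ₂ → ∀ s, |s - s₀| < 1 →
      dist (φ s z) (φ s z₀) ≤ (C₁ + C₂) * dist z z₀ := by
    intro z hz s hs
    have hs2 : |s| ≤ |s₀| + 1 := by
      have h3 := abs_add_le (s - s₀) s₀
      rw [sub_add_cancel] at h3
      linarith
    have hdz : 0 ≤ dist z z₀ := dist_nonneg
    rcases le_total 0 s with h | h
    · have h4 := h₁ z (hz.trans_le (min_le_left _ _)) s ⟨h, (le_abs_self s).trans hs2⟩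
      nlinarith
    · have h4 := h₂ z (hz.trans_le (min_le_right _ _)) (-s)
        ⟨by linarith, (neg_le_abs s).trans hs2⟩
      simp only [neg_neg] at h4
      nlinarith
  rw [ContinuousAt, tendsto_iff_dist_tendsto_zero]
  have hlim : Tendsto (fun p : ℝ × V => (C₁ + C₂) * dist p.2 z₀ +
      dist (φ p.1 z₀) (φ s₀ z₀)) (𝓝 (s₀, z₀)) (𝓝 0) := by
    have hcont : Continuous (fun p : ℝ × V => (C₁ + C₂) * dist p.2 z₀ +
        dist (φ p.1 z₀) (φ s₀ z₀)) := by
      apply Continuous.add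
      · exact continuous_const.mul (continuous_snd.dist continuous_const)
      · exact ((hc z₀).comp continuous_fst).dist continuous_const
    have h5 := hcont.tendsto (s₀, z₀)
    simpa using h5
  refine squeeze_zero' (Eventually.of_forall (fun _ => dist_nonneg)) ?_ hlim
  have e1 : ∀ᶠ p : ℝ × V in 𝓝 (s₀, z₀), |p.1 - s₀| < 1 := by
    have h6 : ContinuousAt (fun p : ℝ × V => |p.1 - s₀|) (s₀, z₀) := by fun_prop
    exact h6.eventually (Iio_mem_nhds (by simp))
  have e2 : ∀ᶠ p : ℝ × V in 𝓝 (s₀, z₀), dist p.2 z₀ < min δ₁ δ₂ := by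
    have h6 : ContinuousAt (fun p : ℝ × V => dist p.2 z₀) (s₀, z₀) := by fun_prop
    exact h6.eventually (Iio_mem_nhds (by simp [hδ₁, hδ₂]))
  filter_upwards [e1, e2] with p h3 h4
  calc dist (φ p.1 p.2) (φ s₀ z₀) ≤ dist (φ p.1 p.2) (φ p.1 z₀) + dist (φ p.1 z₀) (φ s₀ z₀) :=
        dist_triangle _ _ _
    _ ≤ (C₁ + C₂) * dist p.2 z₀ + dist (φ p.1 z₀) (φ s₀ z₀) := by
        have h5 := hcomp p.2 h4 p.1 h3
        linarith

end Pool.Agent.WPG
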