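import Pool.Agent.WPG.Stmts
import Pool.Agent.WPD.Gf

/-!
# The derivative of a global flow with respect to the initial value   (helper12)
-/

set_option autoImplicit false

namespace Pool.Agent.WPG

open MeasureTheory Set Filter Topology
open scoped NNReal

namespace SFBAux

section lin

variable {X : Type*} [NormedAddCommGroup X] [NormedSpace ℝ X] [CompleteSpace X]

/-- Picard iterates of a linear equation -/
noncomputable def it (A : ℝ → X →L[ℝ] X) (x : X) : ℕ → ℝ → X
  | 0 => fun _ => x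
  | n + 1 => fun s => ∫ r in (0 : ℝ)..s, A r (it A x n r)

omit [CompleteSpace X] in
theorem it_cont {A : ℝ → X →L[ℝ] X} (hA : Continuous A) (x : X) (n : ℕ) :
    Continuous (it A x n) := by
  induction n with
  | zero => exact continuous_const
  | succ n ih =>
    have h1 : Continuous fun r => A r (it A x n r) := hA.clm_apply ih
    exact intervalIntegral.continuous_primitive (fun a b => h1.intervalIntegrable a b) 0

theorem it_deriv {A : ℝ → X →L[ℝ] X} (hA : Continuous A) (x : X) (n : ℕ) (s : ℝ) :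
    HasDerivAt (it A x (n + 1)) (A s (it A x n s)) s := by
  have h1 : Continuous fun r => A r (it A x n r) := hA.clm_apply (it_cont hA x n)
  exact intervalIntegral.integral_hasDerivAt_right (h1.intervalIntegrable _ _)
    (h1.stronglyMeasurableAtFilter _ _) h1.continuousAt

theorem int_abs_pos (n : ℕ) {s : ℝ} (h : 0 ≤ s) :
    ∫ r in (0 : ℝ)..s, |r| ^ n = s ^ (n + 1) / (n + 1) := by
  have : ∫ r in (0 : ℝ)..s, |r| ^ n = ∫ r in (0 : ℝ)..s, r ^ n := by
    refine intervalIntegral.integral_congr fun r hr => ?_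
    rw [Set.uIcc_of_le h] at hr
    have h1 : |r| = r := abs_of_nonneg hr.1
    simp only [h1]
  rw [this, integral_pow, zero_pow (by omega), sub_zero]

theorem int_abs (n : ℕ) (s : ℝ) : |∫ r in (0 : ℝ)..s, |r| ^ n| = |s| ^ (n + 1) / (n + 1) := by
  rcases le_total 0 s with h | h
  · rw [int_abs_pos n h, abs_of_nonneg h]
    exact abs_of_nonneg (by positivity)
  · have h1 : ∫ r in (0 : ℝ)..s, |r| ^ n = - ∫ r in (0 : ℝ)..(-s), |r| ^ n := by
      have h2 := intervalIntegral.integral_comp_neg (a := 0) (b := s) (fun r : ℝ => |r| ^ n)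
      simp only [abs_neg, neg_zero] at h2
      rw [h2, intervalIntegral.integral_symm]
    have h3 : 0 ≤ -s := by linarith
    rw [h1, int_abs_pos n h3, abs_neg, abs_of_nonpos h]
    exact abs_of_nonneg (by positivity)

omit [CompleteSpace X] in
theorem it_bound {A : ℝ → X →L[ℝ] X} (x : X) {K T : ℝ} (hK0 : 0 ≤ K)
    (hK : ∀ r, |r| ≤ T → ‖A r‖ ≤ K) (n : ℕ) : ∀ s : ℝ, |s| ≤ T →
    ‖it A x n s‖ ≤ ‖x‖ * (K ^ n * |s| ^ n / n.factorial) := by
  induction n with
  | zero => intro s _; simp [it]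
  | succ n ih =>
    intro s hs
    have h0 : ∀ r ∈ Set.uIoc 0 s, |r| ≤ |s| := by
      intro r hr
      rcases le_total 0 s with h | h
      · rw [Set.uIoc_of_le h] at hr
        rw [abs_of_pos hr.1, abs_of_nonneg h]
        exact hr.2
      · rw [Set.uIoc_of_ge h] at hr
        rw [abs_of_nonpos hr.2, abs_of_nonpos h]
        linarith [hr.1]
    have h1 : ‖it A x (n + 1) s‖ ≤
        |∫ r in (0 : ℝ)..s, ‖x‖ * (K ^ (n + 1) * |r| ^ n / n.factorial)| := by
      refine intervalIntegral.norm_integral_le_abs_of_norm_le ?_ ?_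
      · refine ae_restrict_of_forall_mem measurableSet_uIoc fun r hr => ?_
        have h2 := h0 r hr
        have h3 := hK r (h2.trans hs)
        have h4 := ih r (h2.trans hs)
        calc ‖A r (it A x n r)‖ ≤ ‖A r‖ * ‖it A x n r‖ := (A r).le_opNorm _
          _ ≤ K * (‖x‖ * (K ^ n * |r| ^ n / n.factorial)) := by gcongr
          _ = _ := by ring
      · exact Continuous.intervalIntegrable (by fun_prop) _ _
    have h5 : ∫ r in (0 : ℝ)..s, ‖x‖ * (K ^ (n + 1) * |r| ^ n / n.factorial) =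
        (‖x‖ * (K ^ (n + 1) / n.factorial)) * ∫ r in (0 : ℝ)..s, |r| ^ n := by
      rw [← intervalIntegral.integral_const_mul]
      congr 1
      funext r
      ring
    rw [h5, abs_mul, int_abs, abs_of_nonneg (by positivity)] at h1
    refine h1.trans (le_of_eq ?_)
    rw [Nat.factorial_succ]
    push_cast
    field_simp

/-- **linear equations** -/
theorem linear {A : ℝ → X →L[ℝ] X} (hA : Continuous A) (x : X) :
    ∃ W : ℝ → X, W 0 = x ∧ ∀ s, HasDerivAt W (A s (W s)) s := by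
  have hb : ∀ T : ℝ, ∃ K : ℝ, 0 ≤ K ∧ ∀ r, |r| ≤ T → ‖A r‖ ≤ K := by
    intro T
    obtain ⟨K, hK⟩ := (isCompact_Icc (a := -T) (b := T)).exists_bound_of_continuousOn
      hA.continuousOn
    refine ⟨max K 0, le_max_right _ _, fun r hr => (hK r (abs_le.1 hr)).trans (le_max_left _ _)⟩
  have hsum : ∀ s, Summable (fun n => it A x n s) := by
    intro s
    obtain ⟨K, hK0, hK⟩ := hb |s|
    refine Summable.of_norm_bounded (g := fun n : ℕ => ‖x‖ * (K ^ n * |s| ^ n / n.factorial)) ?_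
      (fun n => it_bound x hK0 hK n s le_rfl)
    refine Summable.mul_left _ ?_
    simp_rw [← mul_pow]
    exact Real.summable_pow_div_factorial (K * |s|)
  refine ⟨fun s => ∑' n, it A x n s, ?_, fun s => ?_⟩
  · simp only
    rw [tsum_eq_single 0]
    · rfl
    · intro n hn
      obtain ⟨m, rfl⟩ := Nat.exists_eq_succ_of_ne_zero hn
      simp [it]
  · set T := |s| + 1 with hT
    obtain ⟨K, hK0, hK⟩ := hb T
    have hT0 : 0 < T := by positivity
    have hab := abs_le.1 (le_refl |s|)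
    let u : ℕ → ℝ := fun n => K * (‖x‖ * (K ^ (n - 1) * T ^ (n - 1) / (n - 1).factorial))
    have hu : Summable u := by
      rw [← summable_nat_add_iff 1]
      simp only [u, Nat.add_sub_cancel]
      refine Summable.mul_left _ (Summable.mul_left _ ?_)
      simp_rw [← mul_pow]
      exact Real.summable_pow_div_factorial (K * T)
    let g' : ℕ → ℝ → X := fun n r => match n with
      | 0 => 0
      | n + 1 => A r (it A x n r)
    have hd : HasDerivAt (fun z => ∑' n, it A x n z) (∑' n, g' n s) s := by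
      refine hasDerivAt_tsum_of_isPreconnected (u := u) (g' := g') (y₀ := s) (t := Ioo (-T) T) hu
        isOpen_Ioo isPreconnected_Ioo (fun n y _ => ?_) (fun n y hy => ?_)
        ⟨by linarith [hab.1], by linarith [hab.2]⟩ (hsum s)
        ⟨by linarith [hab.1], by linarith [hab.2]⟩
      · cases n with
        | zero => exact hasDerivAt_const y x
        | succ n => exact it_deriv hA x n y
      · have hy' : |y| ≤ T := abs_le.2 ⟨hy.1.le, hy.2.le⟩
        cases n with
        | zero =>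
          simp only [g', u, norm_zero]
          positivity
        | succ n =>
          simp only [g', u, Nat.add_sub_cancel]
          calc ‖A y (it A x n y)‖ ≤ ‖A y‖ * ‖it A x n y‖ := (A y).le_opNorm _
            _ ≤ K * (‖x‖ * (K ^ n * |y| ^ n / n.factorial)) := by
                gcongr
                · exact hK y hy'
                · exact it_bound x hK0 hK n y hy'
            _ ≤ _ := by gcongr
    have he : ∑' n, g' n s = A s (∑' n, it A x n s) := by
      rw [(A s).map_tsum (hsum s)]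
      have h1 : Summable (fun n => g' (n + 1) s) := by
        simp only [g']
        exact (A s).summable (hsum s)
      have h2 : Summable (fun n => g' n s) := (summable_nat_add_iff 1).1 h1
      rw [h2.tsum_eq_zero_add]
      simp only [g', zero_add]
    rw [he] at hd
    exact hd

end lin

section flow

variable {V : Type} [NormedAddCommGroup V] [NormedSpace ℝ V] [FiniteDimensional ℝ V]

/-- estimates on a ball -/
theorem ball_bounds {Z : V → V} (hZ : ContDiff ℝ 2 Z) (R : ℝ) : ∃ K : ℝ, 0 ≤ K ∧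
    (∀ x, ‖x‖ ≤ R → ‖fderiv ℝ Z x‖ ≤ K) ∧
    (∀ x y, ‖x‖ ≤ R → ‖y‖ ≤ R → ‖Z y - Z x‖ ≤ K * ‖y - x‖) ∧
    ∀ x y, ‖x‖ ≤ R → ‖y‖ ≤ R → ‖Z y - Z x - fderiv ℝ Z x (y - x)‖ ≤ K * ‖y - x‖ ^ 2 := by
  have hc : IsCompact (Metric.closedBall (0 : V) R) := isCompact_closedBall 0 R
  have hconv : Convex ℝ (Metric.closedBall (0 : V) R) := convex_closedBall 0 R
  have hmem : ∀ x : V, ‖x‖ ≤ R ↔ x ∈ Metric.closedBall (0 : V) R := fun x => by
    rw [mem_closedBall_zero_iff]
  have h1 : ContDiff ℝ 1 (fderiv ℝ Z) := hZ.fderiv_right (by norm_num)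
  have h0 : Differentiable ℝ Z := hZ.differentiable (by norm_num)
  obtain ⟨K₁, hK₁⟩ := hc.exists_bound_of_continuousOn h1.continuous.continuousOn
  have h2 : Continuous (fderiv ℝ (fderiv ℝ Z)) := h1.continuous_fderiv (by norm_num)
  obtain ⟨K₂, hK₂⟩ := hc.exists_bound_of_continuousOn h2.continuousOn
  have hd1 : Differentiable ℝ (fderiv ℝ Z) := h1.differentiable (by norm_num)
  set K := max (max K₁ K₂) 0 with hK
  have e1 : K₁ ≤ K := (le_max_left _ _).trans (le_max_left _ _)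
  have e2 : K₂ ≤ K := (le_max_right _ _).trans (le_max_left _ _)
  have hK0 : 0 ≤ K := le_max_right _ _
  refine ⟨K, hK0, fun x hx => (hK₁ x ((hmem x).1 hx)).trans e1, fun x y hx hy => ?_,
    fun x y hx hy => ?_⟩
  · exact hconv.norm_image_sub_le_of_norm_fderiv_le (fun z _ => h0 z)
      (fun z hz => (hK₁ z hz).trans e1) ((hmem x).1 hx) ((hmem y).1 hy)
  · have hs : segment ℝ x y ⊆ Metric.closedBall (0 : V) R :=
      hconv.segment_subset ((hmem x).1 hx) ((hmem y).1 hy)
    have h3 : ∀ z ∈ segment ℝ x y, ‖fderiv ℝ Z z - fderiv ℝ Z x‖ ≤ K * ‖y - x‖ := by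
      intro z hz
      have h4 := hconv.norm_image_sub_le_of_norm_fderiv_le (f := fderiv ℝ Z) (𝕜 := ℝ)
        (fun z _ => hd1 z) (fun z hz => (hK₂ z hz).trans e2) ((hmem x).1 hx) (hs hz)
      refine h4.trans ?_
      have h5 : ‖z - x‖ ≤ ‖y - x‖ := by
        have := norm_sub_le_of_mem_segment hz
        exact this
      gcongr
    have h6 := (convex_segment x y).norm_image_sub_le_of_norm_fderiv_le' (f := Z)
      (φ := fderiv ℝ Z x) (fun z _ => h0 z) h3 (left_mem_segment ℝ x y) (right_mem_segment ℝ x y)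
    refine h6.trans (le_of_eq ?_)
    ring

/-- the flow is Lipschitz near `z` and the remainder is quadratic -/
theorem remainder {Z : V → V} (hZ : ContDiff ℝ 2 Z) {φ : ℝ → V → V} (h0 : ∀ z, φ 0 z = z)
    (hd : ∀ s z, HasDerivAt (fun r => φ r z) (Z (φ s z)) s)
    (hc : Continuous (fun p : ℝ × V => φ p.1 p.2)) (z : V) (D : ℝ → V →L[ℝ] V)
    (hD0 : ∀ v, D 0 v = v)
    (hD : ∀ s v, HasDerivAt (fun r => D r v) (fderiv ℝ Z (φ s z) (D s v)) s) (s : ℝ) :
    ∃ C : ℝ, 0 ≤ C ∧ ∀ v, ‖v‖ ≤ 1 → ‖φ s (z + v) - φ s z - D s v‖ ≤ C * ‖v‖ ^ 2 := by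
  set T := |s| + 1 with hT
  have hT0 : 0 < T := by positivity
  have hsT : s ∈ Ioo (-T) T := by
    have hab := abs_le.1 (le_refl |s|)
    exact ⟨by linarith [hab.1], by linarith [hab.2]⟩
  have hcomp : IsCompact (Icc (-T) T ×ˢ Metric.closedBall z 1) :=
    isCompact_Icc.prod (isCompact_closedBall z 1)
  obtain ⟨R, hR⟩ := hcomp.exists_bound_of_continuousOn hc.continuousOn
  have hb : ∀ r ∈ Ioo (-T) T, ∀ v : V, ‖v‖ ≤ 1 → ‖φ r (z + v)‖ ≤ R := by
    intro r hr v hv
    refine hR (r, z + v) ⟨⟨hr.1.le, hr.2.le⟩, ?_⟩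
    rw [Metric.mem_closedBall, dist_eq_norm, add_sub_cancel_left]
    exact hv
  have hb0 : ∀ r ∈ Ioo (-T) T, ‖φ r z‖ ≤ R := by
    intro r hr
    have := hb r hr 0 (by simp)
    rwa [add_zero] at this
  obtain ⟨K, hK0, hK1, hK2, hK3⟩ := ball_bounds hZ R
  -- the Lipschitz estimate
  have hL : ∀ v : V, ‖v‖ ≤ 1 → ∀ r ∈ Ioo (-T) T, ‖φ r (z + v) - φ r z‖ ≤ Real.exp (K * T) * ‖v‖ := by
    intro v hv r hr
    have h1 := WPD.GFAux.bound (B := K) (T := T) (γ := fun r => φ r (z + v) - φ r z)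
      (g := fun r => Z (φ r (z + v)) - Z (φ r z)) (fun t _ => (hd t _).sub (hd t _))
      (fun t ht => hK2 _ _ (hb0 t ht) (hb t ht v hv)) hr
    simp only [h0, add_sub_cancel_left] at h1
    refine h1.trans ?_
    rw [mul_comm]
    have h2 : |r| ≤ T := abs_le.2 ⟨hr.1.le, hr.2.le⟩
    gcongr
  set L := K * Real.exp (K * T) ^ 2 with hLdef
  have hL0 : 0 ≤ L := by positivity
  refine ⟨Real.exp ((K + L) * T), (Real.exp_pos _).le, fun v hv => ?_⟩
  -- Gronwall for the pair `(r, ‖v‖²)`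
  have h1 := WPD.GFAux.bound (E := V × ℝ) (B := K + L) (T := T)
    (γ := fun r => (φ r (z + v) - φ r z - D r v, ‖v‖ ^ 2))
    (g := fun r => (Z (φ r (z + v)) - Z (φ r z) - fderiv ℝ Z (φ r z) (D r v), 0))
    (fun t _ => (((hd t _).sub (hd t _)).sub (hD t v)).prodMk (hasDerivAt_const t _))
    (fun t ht => ?_) hsT
  · have h2 : ‖φ s (z + v) - φ s z - D s v‖ ≤
        ‖((φ s (z + v) - φ s z - D s v, ‖v‖ ^ 2) : V × ℝ)‖ := by
      rw [Prod.norm_def]
      exact le_max_left _ _
    refine h2.trans (h1.trans ?_)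
    have h3 : ‖((φ 0 (z + v) - φ 0 z - D 0 v, ‖v‖ ^ 2) : V × ℝ)‖ = ‖v‖ ^ 2 := by
      rw [h0, h0, hD0, add_sub_cancel_left, sub_self, Prod.norm_def]
      simp
    simp only [h3]
    rw [mul_comm]
    have h4 : |s| ≤ T := by rw [hT]; linarith
    gcongr
  · have e1 : Z (φ t (z + v)) - Z (φ t z) - fderiv ℝ Z (φ t z) (D t v) =
        (Z (φ t (z + v)) - Z (φ t z) - fderiv ℝ Z (φ t z) (φ t (z + v) - φ t z)) +
          fderiv ℝ Z (φ t z) (φ t (z + v) - φ t z - D t v) := by
      rw [map_sub (fderiv ℝ Z (φ t z)) (φ t (z + v) - φ t z)]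
      abel
    have e2 := hK3 _ _ (hb0 t ht) (hb t ht v hv)
    have e3 := hL v hv t ht
    have e4 : ‖fderiv ℝ Z (φ t z) (φ t (z + v) - φ t z - D t v)‖ ≤
        K * ‖φ t (z + v) - φ t z - D t v‖ :=
      ((fderiv ℝ Z (φ t z)).le_opNorm _).trans
        (mul_le_mul_of_nonneg_right (hK1 _ (hb0 t ht)) (norm_nonneg _))
    have e5 : K * ‖φ t (z + v) - φ t z‖ ^ 2 ≤ L * ‖v‖ ^ 2 := by
      rw [hLdef, mul_assoc, ← mul_pow]
      gcongr
    have e6 : ‖φ t (z + v) - φ t z - D t v‖ ≤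
        ‖((φ t (z + v) - φ t z - D t v, ‖v‖ ^ 2) : V × ℝ)‖ := by
      rw [Prod.norm_def]; exact le_max_left _ _
    have e7 : ‖v‖ ^ 2 ≤ ‖((φ t (z + v) - φ t z - D t v, ‖v‖ ^ 2) : V × ℝ)‖ := by
      rw [Prod.norm_def]
      refine le_trans ?_ (le_max_right _ _)
      simp
    have e8 : ‖((Z (φ t (z + v)) - Z (φ t z) - fderiv ℝ Z (φ t z) (D t v), 0) : V × ℝ)‖ =
        ‖Z (φ t (z + v)) - Z (φ t z) - fderiv ℝ Z (φ t z) (D t v)‖ := by
      rw [Prod.norm_def]
      simp
    rw [e8, e1]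
    calc _ ≤ ‖Z (φ t (z + v)) - Z (φ t z) - fderiv ℝ Z (φ t z) (φ t (z + v) - φ t z)‖ +
          ‖fderiv ℝ Z (φ t z) (φ t (z + v) - φ t z - D t v)‖ := norm_add_le _ _
      _ ≤ L * ‖v‖ ^ 2 + K * ‖φ t (z + v) - φ t z - D t v‖ := add_le_add (e2.trans e5) e4
      _ ≤ L * ‖((φ t (z + v) - φ t z - D t v, ‖v‖ ^ 2) : V × ℝ)‖ +
          K * ‖((φ t (z + v) - φ t z - D t v, ‖v‖ ^ 2) : V × ℝ)‖ := by gcongr
      _ = _ := by ring

end flow

end SFBAux

/-- **the derivative with respect to the initial value** -/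
theorem sfb (hA : Stmt_SFA) : Stmt_SFB := by
  intro V _ _ _ Z hZ φ h0 hd
  have hc := hA V Z (hZ.of_le (by norm_num)) φ h0 hd
  have h1 : ∀ z : V, ∃ D : ℝ → V →L[ℝ] V, D 0 = ContinuousLinearMap.id ℝ V ∧
      ∀ s, HasDerivAt D ((fderiv ℝ Z (φ s z)).comp (D s)) s := by
    intro z
    have h2 : Continuous (fun s => fderiv ℝ Z (φ s z)) := by
      have h3 : Continuous (fderiv ℝ Z) := hZ.continuous_fderiv (by norm_num)
      exact h3.comp (hc.comp (by fun_prop : Continuous fun s : ℝ => (s, z)))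
    obtain ⟨W, hW0, hW⟩ := SFBAux.linear
      (A := fun s => ContinuousLinearMap.compL ℝ V V V (fderiv ℝ Z (φ s z)))
      ((ContinuousLinearMap.compL ℝ V V V).continuous.comp h2) (ContinuousLinearMap.id ℝ V)
    exact ⟨W, hW0, hW⟩
  choose D hD0 hD using h1
  have hD' : ∀ s z v, HasDerivAt (fun r => D z r v) (fderiv ℝ Z (φ s z) (D z s v)) s := by
    intro s z v
    have h2 := (ContinuousLinearMap.apply ℝ V v).hasFDerivAt.comp_hasDerivAt s (hD z s)
    exact h2
  refine ⟨fun s z => D z s, fun s z => ?_, fun z v => ?_, hD'⟩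
  · obtain ⟨C, hC0, hC⟩ := SFBAux.remainder hZ h0 hd hc z (D z) (fun v => by rw [hD0 z]; rfl)
      (fun s v => hD' s z v) s
    rw [hasFDerivAt_iff_isLittleO_nhds_zero]
    have h3 : (fun v : V => φ s (z + v) - φ s z - D z s v) =O[𝓝 0] (fun v => ‖v‖ ^ 2) := by
      refine Asymptotics.IsBigO.of_bound C ?_
      have h4 : ∀ᶠ v : V in 𝓝 0, ‖v‖ ≤ 1 := by
        have := Metric.closedBall_mem_nhds (0 : V) one_pos
        filter_upwards [this] with v hv
        rwa [mem_closedBall_zero_iff] at hv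
      filter_upwards [h4] with v hv
      refine (hC v hv).trans (le_of_eq ?_)
      rw [norm_pow, norm_norm]
    exact h3.trans_isLittleO (Asymptotics.isLittleO_norm_pow_id one_lt_two)
  · show (D z 0) v = v
    rw [hD0 z]
    rfl

end Pool.Agent.WPG
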