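import Pool.Agent.WPG.Stmts

/-!
# Smoothness of global flows

By induction on `k` the flow of a smooth vector field is `C^k` in time and initial value: the
derivative with respect to the initial value belongs to the flow of the linearised field.
-/

set_option autoImplicit false

namespace Pool.Agent.WPG

open MeasureTheory Set Filter Topology

namespace SFCAux

theorem nat_smooth (hA : Stmt_SFA) (hB : Stmt_SFB) (k : ℕ) :
    ∀ (V : Type) [NormedAddCommGroup V] [NormedSpace ℝ V] [FiniteDimensional ℝ V] (Z : V → V),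
      ContDiff ℝ (⊤ : ℕ∞) Z → ∀ φ : ℝ → V → V, (∀ z, φ 0 z = z) →
      (∀ s z, HasDerivAt (fun r => φ r z) (Z (φ s z)) s) →
      ContDiff ℝ (k : ℕ) (fun p : ℝ × V => φ p.1 p.2) := by
  induction k with
  | zero =>
    intro V _ _ _ Z hZ φ h0 hd
    have h1 : ContDiff ℝ 1 Z := hZ.of_le (by exact_mod_cast le_top)
    have h2 := hA V Z h1 φ h0 hd
    exact_mod_cast contDiff_zero.mpr h2
  | succ k ih =>
    intro V _ _ _ Z hZ φ h0 hd
    have h2 : ContDiff ℝ 2 Z := hZ.of_le (WithTop.coe_le_coe.2 (le_top : (2 : ℕ∞) ≤ ⊤))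
    obtain ⟨D, hD, hD0, hDd⟩ := hB V Z h2 φ h0 hd
    have hZ' : ContDiff ℝ (⊤ : ℕ∞) (fderiv ℝ Z) := hZ.fderiv_right (by exact_mod_cast le_top)
    have hZ1 : ContDiff ℝ (⊤ : ℕ∞) (fun q : V × V => (Z q.1, fderiv ℝ Z q.1 q.2)) :=
      (hZ.comp contDiff_fst).prodMk ((hZ'.comp contDiff_fst).clm_apply contDiff_snd)
    have key := ih (V × V) (fun q => (Z q.1, fderiv ℝ Z q.1 q.2)) hZ1
      (fun s q => (φ s q.1, D s q.1 q.2)) (by rintro ⟨z, v⟩; simp [h0, hD0])
      (by
        rintro s ⟨z, v⟩
        exact (hd s z).prodMk (hDd s z v))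
    have cφ : ContDiff ℝ (k : ℕ) (fun p : ℝ × V => φ p.1 p.2) := ih V Z hZ φ h0 hd
    have cD : ContDiff ℝ (k : ℕ) (fun p : ℝ × V => D p.1 p.2) := by
      rw [contDiff_clm_apply_iff]
      intro v
      have h3 : ContDiff ℝ (k : ℕ) (fun p : ℝ × V => (p.1, (p.2, v))) :=
        contDiff_fst.prodMk (contDiff_snd.prodMk contDiff_const)
      exact (key.comp h3).snd
    have cZ : ContDiff ℝ (k : ℕ) (fun p : ℝ × V => Z (φ p.1 p.2)) :=
      (hZ.of_le (by exact_mod_cast le_top)).comp cφ
    have hs : ContDiff ℝ ((k : ℕ) + 1) (fun p : ℝ × V => φ p.1 p.2) := by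
      rw [contDiff_succ_iff_hasFDerivAt]
      refine ⟨fun p => (ContinuousLinearMap.toSpanSingleton ℝ (Z (φ p.1 p.2))).coprod (D p.1 p.2),
        ?_, ?_⟩
      · rw [contDiff_clm_apply_iff]
        rintro ⟨r, v⟩
        have e1 : (fun p : ℝ × V => ((ContinuousLinearMap.toSpanSingleton ℝ
            (Z (φ p.1 p.2))).coprod (D p.1 p.2)) (r, v)) =
            fun p : ℝ × V => r • Z (φ p.1 p.2) + D p.1 p.2 v := by
          funext p
          simp [ContinuousLinearMap.toSpanSingleton_apply]
        rw [e1]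
        exact (contDiff_const.smul cZ).add (cD.clm_apply contDiff_const)
      · intro p
        have h4 := hasStrictFDerivAt_uncurry_coprod (𝕜 := ℝ) (u := p) (f := φ)
          (f₁ := fun s z => ContinuousLinearMap.toSpanSingleton ℝ (Z (φ s z)))
          (f₂ := fun s z => D s z)
          (Filter.Eventually.of_forall (fun q => (hd q.1 q.2).hasFDerivAt))
          (Filter.Eventually.of_forall (fun q => hD q.1 q.2))
          (by
            have h5 : Continuous (fun q : ℝ × V =>
                ContinuousLinearMap.toSpanSingleton ℝ (Z (φ q.1 q.2))) :=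
              continuous_clm_apply.mpr (fun r => by
                have h6 : Continuous (fun q : ℝ × V => r • Z (φ q.1 q.2)) :=
                  Continuous.smul continuous_const cZ.continuous
                exact h6.congr (fun q => by
                  rw [ContinuousLinearMap.toSpanSingleton_apply]))
            exact h5.continuousAt)
          (by exact cD.continuous.continuousAt)
        exact h4.hasFDerivAt
    exact_mod_cast hs

end SFCAux

theorem sfc (hA : Stmt_SFA) (hB : Stmt_SFB) : Stmt_SFC := by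
  intro V _ _ _ Z hZ φ h0 hd
  rw [contDiff_infty]
  intro k
  exact SFCAux.nat_smooth hA hB k V Z hZ φ h0 hd

end Pool.Agent.WPG
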