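import Pool.Agent.WPG.Stmts

/-!
# The time of the fibre is a smooth function
-/

set_option autoImplicit false

namespace Pool.Agent.WPG

namespace SGSAux

open MeasureTheory Filter Topology Set
open scoped ContDiff

section Param

variable {E : Type} [NormedAddCommGroup E] [NormedSpace ℝ E] [ProperSpace E]

/-- derivative of a parametric integral over an interval -/
theorem hasFDerivAt_param {F : Type} [NormedAddCommGroup F] [NormedSpace ℝ F]
    {f : ℝ × E → F} (hf : ContDiff ℝ 1 f) (a b : ℝ) (q₀ : E) :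
    HasFDerivAt (fun q => ∫ t in a..b, f (t, q))
      (∫ t in a..b, (fderiv ℝ f (t, q₀)).comp (ContinuousLinearMap.inr ℝ ℝ E)) q₀ := by
  have hc : Continuous f := hf.continuous
  have hd : Continuous (fderiv ℝ f) := hf.continuous_fderiv one_ne_zero
  have hd2 : Continuous fun p : ℝ × E =>
      (fderiv ℝ f p).comp (ContinuousLinearMap.inr ℝ ℝ E) := hd.clm_comp_const _
  obtain ⟨C, hC⟩ := (isCompact_uIcc (a := a) (b := b) |>.prod
    (isCompact_closedBall q₀ 1)).exists_bound_of_continuousOn hd2.continuousOn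
  refine intervalIntegral.hasFDerivAt_integral_of_dominated_of_fderiv_le (s := Metric.ball q₀ 1)
    (bound := fun _ => C)
    (F' := fun q t => (fderiv ℝ f (t, q)).comp (ContinuousLinearMap.inr ℝ ℝ E))
    (Metric.ball_mem_nhds q₀ one_pos) (Eventually.of_forall fun q => ?_) ?_ ?_ ?_ ?_ ?_
  · exact (hc.comp (continuous_id.prodMk continuous_const)).aestronglyMeasurable
  · exact (hc.comp (continuous_id.prodMk continuous_const)).intervalIntegrable _ _
  · exact (hd2.comp (continuous_id.prodMk continuous_const)).aestronglyMeasurable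
  · refine ae_of_all _ fun t ht q hq => ?_
    exact hC (t, q) ⟨uIoc_subset_uIcc ht, Metric.ball_subset_closedBall hq⟩
  · exact intervalIntegrable_const
  · refine ae_of_all _ fun t _ q _ => ?_
    have h1 : HasFDerivAt f (fderiv ℝ f (t, q)) (t, q) :=
      (hf.differentiable one_ne_zero (t, q)).hasFDerivAt
    exact h1.comp q (hasFDerivAt_prodMk_right t q)

theorem contDiff_param_nat (n : ℕ) : ∀ {F : Type} [NormedAddCommGroup F] [NormedSpace ℝ F]
    {f : ℝ × E → F}, ContDiff ℝ n f → ∀ a b : ℝ, ContDiff ℝ n (fun q => ∫ t in a..b, f (t, q)) := by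
  induction n with
  | zero =>
    intro F _ _ f hf a b
    have hc : Continuous f := hf.continuous
    refine contDiff_zero.2 ?_
    refine intervalIntegral.continuous_parametric_intervalIntegral_of_continuous' ?_ a b
    exact hc.comp (continuous_snd.prodMk continuous_fst)
  | succ n ih =>
    intro F _ _ f hf a b
    have hf1 : ContDiff ℝ 1 f := hf.of_le (by exact_mod_cast Nat.le_add_left 1 n)
    have hcast : ((n + 1 : ℕ) : WithTop ℕ∞) = (n : WithTop ℕ∞) + 1 := by push_cast; rfl
    rw [hcast] at hf ⊢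
    rw [contDiff_succ_iff_fderiv]
    refine ⟨fun q => (hasFDerivAt_param hf1 a b q).differentiableAt, ?_, ?_⟩
    · intro h
      exact absurd h (by simp)
    · have e : fderiv ℝ (fun q => ∫ t in a..b, f (t, q)) = fun q =>
          ∫ t in a..b, (fderiv ℝ f (t, q)).comp (ContinuousLinearMap.inr ℝ ℝ E) := by
        funext q
        exact (hasFDerivAt_param hf1 a b q).fderiv
      rw [e]
      have h2 : ContDiff ℝ n (fderiv ℝ f) := (contDiff_succ_iff_fderiv.1 hf).2.2
      exact ih (f := fun p => (fderiv ℝ f p).comp (ContinuousLinearMap.inr ℝ ℝ E))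
        (h2.clm_comp contDiff_const) a b

theorem contDiff_param {F : Type} [NormedAddCommGroup F] [NormedSpace ℝ F]
    {f : ℝ × E → F} (hf : ContDiff ℝ ∞ f) (a b : ℝ) :
    ContDiff ℝ ∞ (fun q => ∫ t in a..b, f (t, q)) :=
  contDiff_infty.2 fun n => contDiff_param_nat n (contDiff_infty.1 hf n) a b

end Param

end SGSAux

theorem sgs : Stmt_SGS := by
  intro n D ψ hψ
  have h1 : ContDiff ℝ (⊤ : ℕ∞) (fun p : ℝ × (ℝ × ℝ × P n) =>
      D.u (ψ p.2.1 (p.1 * p.2.2.1) p.2.2.2).1) := by
    refine D.us.comp (contDiff_fst.comp ?_)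
    exact hψ.smooth.comp ((contDiff_fst.comp contDiff_snd).prodMk
      ((contDiff_fst.mul (contDiff_fst.comp (contDiff_snd.comp contDiff_snd))).prodMk
        (contDiff_snd.comp (contDiff_snd.comp contDiff_snd))))
  have h2 := SGSAux.contDiff_param h1 0 1
  have h3 : (fun q : ℝ × ℝ × P n => D.sg ψ q.1 q.2.1 q.2.2) = fun q : ℝ × ℝ × P n =>
      q.2.1 * ∫ t in (0 : ℝ)..1, D.u (ψ q.1 (t * q.2.1) q.2.2).1 := by
    funext q
    have := intervalIntegral.smul_integral_comp_mul_right (a := 0) (b := 1)
      (fun r => D.u (ψ q.1 r q.2.2).1) q.2.1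
    rw [smul_eq_mul, zero_mul, one_mul] at this
    rw [this]
    rfl
  rw [h3]
  exact (contDiff_fst.comp contDiff_snd).mul h2

end Pool.Agent.WPG
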