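import Pool.Agent.WPG.Stmts

/-!
# SYM: the principal part of the operators `op`
-/

set_option autoImplicit false

namespace Pool.Agent.WPG

open MeasureTheory Set Filter Topology

namespace SYMAux

variable {n : ℕ}

/-- the coordinate vectors -/
noncomputable def e (l : Fin n) : E n := EuclideanSpace.single l 1

theorem e_apply (l i : Fin n) : (e l : E n) i = if i = l then 1 else 0 := by
  simp [e]

/-! ### polynomials -/

theorem ev_add (Q R : MvPolynomial (Fin n) ℂ) (q : E n) :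
    ev (Q + R) q = ev Q q + ev R q := by
  simp [ev]

theorem ev_mul (Q R : MvPolynomial (Fin n) ℂ) (q : E n) :
    ev (Q * R) q = ev Q q * ev R q := by
  simp [ev]

theorem ev_X (l : Fin n) (q : E n) :
    ev (MvPolynomial.X l) q = (q l : ℂ) := by
  simp [ev]

theorem ev_C (c : ℂ) (q : E n) : ev (MvPolynomial.C c : MvPolynomial (Fin n) ℂ) q = c := by
  simp [ev]

theorem ev_sum {ι : Type} (s : Finset ι) (Q : ι → MvPolynomial (Fin n) ℂ) (q : E n) :
    ev (∑ i ∈ s, Q i) q = ∑ i ∈ s, ev (Q i) q := by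
  simp [ev]

theorem hasFDerivAt_coord (i : Fin n) (q : E n) :
    HasFDerivAt (fun q : E n => (q i : ℂ))
      (Complex.ofRealCLM.comp (EuclideanSpace.proj (𝕜 := ℝ) i)) q :=
  (Complex.ofRealCLM.comp (EuclideanSpace.proj (𝕜 := ℝ) i)).hasFDerivAt

theorem contDiff_coord (i : Fin n) : ContDiff ℝ (⊤ : ℕ∞) (fun q : E n => (q i : ℂ)) :=
  (Complex.ofRealCLM.comp (EuclideanSpace.proj (𝕜 := ℝ) i)).contDiff

theorem contDiff_ev (Q : MvPolynomial (Fin n) ℂ) : ContDiff ℝ (⊤ : ℕ∞) (ev Q) := by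
  induction Q using MvPolynomial.induction_on with
  | C c =>
    have h : (ev (MvPolynomial.C c) : E n → ℂ) = fun _ => c := by
      funext q; exact ev_C c q
    rw [h]; exact contDiff_const
  | add p q hp hq =>
    have h : (ev (p + q) : E n → ℂ) = fun x => ev p x + ev q x := by
      funext x; exact ev_add p q x
    rw [h]; exact hp.add hq
  | mul_X p i hp =>
    have h : (ev (p * MvPolynomial.X i) : E n → ℂ) = fun x => ev p x * (x i : ℂ) := by
      funext x; rw [ev_mul, ev_X]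
    rw [h]
    exact hp.mul (contDiff_coord i)

theorem differentiable_ev (Q : MvPolynomial (Fin n) ℂ) : Differentiable ℝ (ev Q) :=
  (contDiff_ev Q).differentiable (by simp)

theorem fderiv_ev (Q : MvPolynomial (Fin n) ℂ) (l : Fin n) (q : E n) :
    fderiv ℝ (ev Q) q (e l) = ev (MvPolynomial.pderiv l Q) q := by
  induction Q using MvPolynomial.induction_on with
  | C c =>
    have h : (ev (MvPolynomial.C c) : E n → ℂ) = fun _ => c := by
      funext q; exact ev_C c q
    rw [h]; simp [ev]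
  | add p q' hp hq =>
    have h : (ev (p + q') : E n → ℂ) = fun x => ev p x + ev q' x := by
      funext x; exact ev_add p q' x
    rw [h, map_add, ev_add, ← hp, ← hq,
      fderiv_fun_add (differentiable_ev p q) (differentiable_ev q' q)]
    rfl
  | mul_X p i hp =>
    have h : (ev (p * MvPolynomial.X i) : E n → ℂ) = fun x => ev p x * (x i : ℂ) := by
      funext x; rw [ev_mul, ev_X]
    have h2 := (((differentiable_ev p q).hasFDerivAt).mul (hasFDerivAt_coord i q)).fderiv
    rw [h]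
    have h3 : fderiv ℝ (fun x : E n => ev p x * (x i : ℂ)) q = ev p q •
        (Complex.ofRealCLM.comp (EuclideanSpace.proj (𝕜 := ℝ) i)) + (q i : ℂ) •
        fderiv ℝ (ev p) q := h2
    rw [h3]
    have h4 : (Complex.ofRealCLM.comp (EuclideanSpace.proj (𝕜 := ℝ) i)) (e l : E n) =
        (((e l : E n) i : ℝ) : ℂ) := rfl
    have h5 : (ev p q • (Complex.ofRealCLM.comp (EuclideanSpace.proj (𝕜 := ℝ) i)) + (q i : ℂ) •
        fderiv ℝ (ev p) q) (e l) = ev p q * (Complex.ofRealCLM.comp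
          (EuclideanSpace.proj (𝕜 := ℝ) i)) (e l : E n) + (q i : ℂ) * fderiv ℝ (ev p) q (e l) := rfl
    rw [h5, h4, hp, e_apply, Derivation.leibniz, smul_eq_mul, smul_eq_mul, ev_add, ev_mul, ev_mul,
      ev_X, MvPolynomial.pderiv_X, Pi.single_apply]
    by_cases h1 : i = l
    · simp [ev, h1]
    · simp [ev, h1]

/-! ### smooth functions with support in `E n × K` -/

/-- smooth, and zero for `q` outside of `K` -/
structure SP (K : Set (E n)) (Φ : P n → ℂ) : Prop where
  smooth : ContDiff ℝ (⊤ : ℕ∞) Φ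
  zero : ∀ z, z.2 ∉ K → Φ z = 0

theorem SP.fd {K : Set (E n)} (hK : IsClosed K) {Φ : P n → ℂ} (h : SP K Φ) (v : P n) :
    SP K (fun z => fderiv ℝ Φ z v) where
  smooth := (h.smooth.fderiv_right (by simp)).clm_apply contDiff_const
  zero := by
    intro z hz
    have h1 : Φ =ᶠ[𝓝 z] fun _ => 0 := by
      have h2 : {z : P n | z.2 ∉ K} ∈ 𝓝 z :=
        (hK.isOpen_compl.preimage continuous_snd).mem_nhds hz
      filter_upwards [h2] with y hy using h.zero y hy
    rw [h1.fderiv_eq]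
    simp

theorem SP.mul {K : Set (E n)} {Φ : P n → ℂ} (h : SP K Φ) {c : P n → ℂ}
    (hc : ContDiff ℝ (⊤ : ℕ∞) c) : SP K (fun z => c z * Φ z) where
  smooth := hc.mul h.smooth
  zero := fun z hz => by rw [h.zero z hz, mul_zero]

theorem SP.sum {K : Set (E n)} {ι : Type} (s : Finset ι) {Φ : ι → P n → ℂ}
    (h : ∀ i ∈ s, SP K (Φ i)) : SP K (fun z => ∑ i ∈ s, Φ i z) where
  smooth := ContDiff.sum fun i hi => (h i hi).smooth
  zero := fun z hz => Finset.sum_eq_zero fun i hi => (h i hi).zero z hz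

theorem SP.add {K : Set (E n)} {Φ Φ' : P n → ℂ} (h : SP K Φ) (h' : SP K Φ') :
    SP K (fun z => Φ z + Φ' z) where
  smooth := h.smooth.add h'.smooth
  zero := fun z hz => by rw [h.zero z hz, h'.zero z hz, add_zero]

theorem integrable_slice {K : Set (E n)} (hK : IsCompact K) {h : E n → ℂ} (hh : Continuous h)
    {Φ : P n → ℂ} (hΦ : SP K Φ) (x : E n) : Integrable (fun q : E n => h q * Φ (x, q)) := by
  refine Continuous.integrable_of_hasCompactSupport
    (hh.mul (hΦ.smooth.continuous.comp (by fun_prop))) ?_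
  refine HasCompactSupport.intro hK ?_
  intro q hq
  rw [hΦ.zero (x, q) hq, mul_zero]

/-- differentiation under the integral -/
theorem deriv_int {K : Set (E n)} (hK : IsCompact K) {h : E n → ℂ} (hh : Continuous h)
    {Φ : P n → ℂ} (hΦ : SP K Φ) (x v : E n) :
    HasDerivAt (fun t : ℝ => ∫ q : E n, h q * Φ (x + t • v, q))
      (∫ q : E n, h q * fderiv ℝ Φ (x, q) (v, 0)) 0 := by
  have hfd := hΦ.fd hK.isClosed (v, 0)
  have hc : Continuous (fun p : ℝ × E n => h p.2 * fderiv ℝ Φ (x + p.1 • v, p.2) (v, 0)) := by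
    have h1 := hfd.smooth.continuous
    exact (hh.comp continuous_snd).mul (h1.comp (by fun_prop))
  obtain ⟨C, hC⟩ := ((isCompact_closedBall (0 : ℝ) 1).prod hK).exists_bound_of_continuousOn
    hc.continuousOn
  have hd := hasDerivAt_integral_of_dominated_loc_of_deriv_le (μ := (volume : Measure (E n)))
    (F := fun (t : ℝ) (q : E n) => h q * Φ (x + t • v, q))
    (F' := fun (t : ℝ) (q : E n) => h q * fderiv ℝ Φ (x + t • v, q) (v, 0))
    (x₀ := (0 : ℝ)) (s := Metric.closedBall 0 1) (bound := K.indicator fun _ => C)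
    (Metric.closedBall_mem_nhds 0 one_pos) ?_ ?_ ?_ ?_ ?_ ?_
  · have h2 := hd.2
    simpa using h2
  · refine Eventually.of_forall fun t => ?_
    exact (integrable_slice hK hh hΦ (x + t • v)).aestronglyMeasurable
  · exact integrable_slice hK hh hΦ _
  · exact (integrable_slice hK hh hfd _).aestronglyMeasurable
  · refine Eventually.of_forall fun q t ht => ?_
    by_cases hq : q ∈ K
    · rw [indicator_of_mem hq]
      exact hC (t, q) ⟨ht, hq⟩
    · rw [indicator_of_notMem hq]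
      have h0 : fderiv ℝ Φ (x + t • v, q) (v, 0) = 0 := hfd.zero (x + t • v, q) hq
      simp only [h0, mul_zero, norm_zero, le_refl]
  · exact (integrable_indicator_iff hK.measurableSet).2
      (integrableOn_const hK.measure_lt_top.ne)
  · refine Eventually.of_forall fun q t _ => ?_
    have h1 : HasDerivAt (fun t : ℝ => ((x + t • v, q) : P n)) (v, 0) t := by
      have ha : HasDerivAt (fun t : ℝ => x + t • v) v t := by
        simpa using ((hasDerivAt_id t).smul_const v).const_add x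
      exact ha.prodMk (hasDerivAt_const t q)
    have h2 : HasFDerivAt Φ (fderiv ℝ Φ (x + t • v, q)) (x + t • v, q) :=
      ((hΦ.smooth.differentiable (by simp)) _).hasFDerivAt
    exact (h2.comp_hasDerivAt t h1).const_mul (h q)

/-- the first integral -/
theorem int_fst {K : Set (E n)} (hK : IsCompact K) {h : E n → ℂ} (hh : Continuous h)
    {Φ : P n → ℂ} (hΦ : SP K Φ) {g : E n → ℂ} (hg : Differentiable ℝ g)
    (hi : ∀ x, ∫ q : E n, h q * Φ (x, q) = g x) (x v : E n) :
    ∫ q : E n, h q * fderiv ℝ Φ (x, q) (v, 0) = fderiv ℝ g x v := by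
  have h1 := deriv_int hK hh hΦ x v
  have h2 : (fun t : ℝ => ∫ q : E n, h q * Φ (x + t • v, q)) = fun t : ℝ => g (x + t • v) := by
    funext t; exact hi _
  rw [h2] at h1
  have ha : HasDerivAt (fun t : ℝ => x + t • v) v 0 := by
    simpa using ((hasDerivAt_id (0 : ℝ)).smul_const v).const_add x
  have hgx : HasFDerivAt g (fderiv ℝ g x) (x + (0 : ℝ) • v) := by
    rw [zero_smul, add_zero]; exact (hg x).hasFDerivAt
  have h3 : HasDerivAt (fun t : ℝ => g (x + t • v)) (fderiv ℝ g x v) 0 :=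
    hgx.comp_hasDerivAt (0 : ℝ) ha
  exact h1.unique h3

/-- the second integral: integration by parts -/
theorem int_snd {K : Set (E n)} (hK : IsCompact K) (Q : MvPolynomial (Fin n) ℂ)
    {Φ : P n → ℂ} (hΦ : SP K Φ) (x : E n) (l : Fin n) :
    ∫ q : E n, ev Q q * fderiv ℝ Φ (x, q) (0, e l) =
      - ∫ q : E n, ev (MvPolynomial.pderiv l Q) q * Φ (x, q) := by
  have hd : ∀ q : E n, HasFDerivAt (fun q : E n => Φ (x, q))
      ((fderiv ℝ Φ (x, q)).comp (ContinuousLinearMap.inr ℝ (E n) (E n))) q := fun q =>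
    (((hΦ.smooth.differentiable (by simp)) (x, q)).hasFDerivAt).comp q
      (hasFDerivAt_prodMk_right x q)
  have he : ∀ q : E n, fderiv ℝ (fun q : E n => Φ (x, q)) q (e l) =
      fderiv ℝ Φ (x, q) (0, e l) := by
    intro q
    rw [(hd q).fderiv]
    rfl
  have h1 : ∀ q : E n, ev (MvPolynomial.pderiv l Q) q * Φ (x, q) =
      fderiv ℝ (ev Q) q (e l) * Φ (x, q) := fun q => by rw [fderiv_ev]
  have h2 : ∀ q : E n, ev Q q * fderiv ℝ Φ (x, q) (0, e l) =
      ev Q q * fderiv ℝ (fun q : E n => Φ (x, q)) q (e l) := fun q => by rw [he]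
  have i1 := integrable_slice hK (contDiff_ev (MvPolynomial.pderiv l Q)).continuous hΦ x
  have i2 := integrable_slice hK (contDiff_ev Q).continuous (hΦ.fd hK.isClosed (0, e l)) x
  have i3 := integrable_slice hK (contDiff_ev Q).continuous hΦ x
  simp only [h1] at i1 ⊢
  simp only [h2] at i2 ⊢
  exact integral_mul_fderiv_eq_neg_fderiv_mul_of_integrable i1 i2 i3
    (fun q _ => differentiable_ev Q q) (fun q _ => (hd q).differentiableAt)

/-! ### the geodesic vector field in coordinates -/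

theorem sum_e (v : E n) : v = ∑ l, v l • e l := by
  ext i
  have h : (∑ l, v l • (e l : E n)) i = ∑ l, v l * (e l : E n) i := by
    rw [WithLp.ofLp_sum, Finset.sum_apply]
    rfl
  rw [h]
  simp [e_apply]

/-- the coefficients -/
noncomputable def a (D : HD n) (i l : Fin n) (x : E n) : ℝ := D.A x (e l) i

theorem a_smooth (D : HD n) (i l : Fin n) : ContDiff ℝ (⊤ : ℕ∞) (a D i l) := by
  have h1 : ContDiff ℝ (⊤ : ℕ∞) (fun x => D.A x (e l)) := D.As.clm_apply contDiff_const
  exact (EuclideanSpace.proj (𝕜 := ℝ) i).contDiff.comp h1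

theorem ac_smooth (D : HD n) (i l : Fin n) :
    ContDiff ℝ (⊤ : ℕ∞) (fun x => (a D i l x : ℂ)) :=
  Complex.ofRealCLM.contDiff.comp (a_smooth D i l)

theorem da_smooth (D : HD n) (i l m : Fin n) :
    ContDiff ℝ (⊤ : ℕ∞) (fun x => ((fderiv ℝ (a D m l) x (e i) : ℝ) : ℂ)) :=
  Complex.ofRealCLM.contDiff.comp
    (((a_smooth D m l).fderiv_right (by simp)).clm_apply contDiff_const)

theorem A_apply (D : HD n) (x q : E n) (i : Fin n) : D.A x q i = ∑ l, a D i l x * q l := by
  conv_lhs => rw [sum_e q, map_sum]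
  rw [WithLp.ofLp_sum, Finset.sum_apply]
  refine Finset.sum_congr rfl fun l _ => ?_
  rw [map_smul]
  show q l * D.A x (e l) i = D.A x (e l) i * q l
  ring

theorem k_eq (D : HD n) (x q : E n) :
    inner ℝ (D.A x q) q = ∑ m, ∑ l, a D m l x * (q l * q m) := by
  rw [PiLp.inner_apply]
  refine Finset.sum_congr rfl fun m _ => ?_
  rw [A_apply]
  simp only [RCLike.inner_apply, conj_trivial]
  rw [Finset.mul_sum]
  refine Finset.sum_congr rfl fun l _ => ?_
  ring

theorem grad_apply {F : E n → ℝ} (x : E n) (i : Fin n) :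
    (gradient F x) i = fderiv ℝ F x (e i) := by
  have h1 : inner ℝ (gradient F x) (e i) = fderiv ℝ F x (e i) := by
    rw [gradient, InnerProductSpace.toDual_symm_apply]
  rw [← h1, e, EuclideanSpace.inner_single_right]
  simp

theorem fderiv_k (D : HD n) (x q v : E n) :
    fderiv ℝ (fun x => inner ℝ (D.A x q) q) x v =
      ∑ m, ∑ l, fderiv ℝ (a D m l) x v * (q l * q m) := by
  have h : (fun x => inner ℝ (D.A x q) q) = fun x => ∑ m, ∑ l, a D m l x * (q l * q m) := by
    funext x; exact k_eq D x q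
  rw [h]
  have hd : HasFDerivAt (fun x => ∑ m, ∑ l, a D m l x * (q l * q m))
      (∑ m, ∑ l, (q l * q m) • fderiv ℝ (a D m l) x) x := by
    refine HasFDerivAt.fun_sum fun m _ => HasFDerivAt.fun_sum fun l _ => ?_
    exact (((a_smooth D m l).differentiable (by simp) x).hasFDerivAt).mul_const (q l * q m)
  rw [hd.fderiv]
  simp only [sum_apply, smul_apply, smul_eq_mul]
  refine Finset.sum_congr rfl fun m _ => Finset.sum_congr rfl fun l _ => ?_
  ring

/-- the derivative in coordinates -/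
theorem der_eq (D : HD n) (Φ : P n → ℂ) (x q : E n) :
    D.der Φ (x, q) = (∑ i, ∑ l, (a D i l x : ℂ) * ((q l : ℂ) * fderiv ℝ Φ (x, q) (e i, 0))) +
      ∑ i, ∑ m, ∑ l, (-(1 / 2 : ℂ) * ((fderiv ℝ (a D m l) x (e i) : ℝ) : ℂ)) *
        ((q l : ℂ) * (q m : ℂ) * fderiv ℝ Φ (x, q) (0, e i)) := by
  have hY : D.Y 0 (x, q) = (∑ i, (D.A x q i) • ((e i, 0) : P n)) +
      ∑ i, (-(1 / 2 : ℝ) * fderiv ℝ (fun x => inner ℝ (D.A x q) q) x (e i)) •
        ((0, e i) : P n) := by
    refine Prod.ext ?_ ?_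
    · simp only [HD.Y, Prod.fst_add, Prod.fst_sum, Prod.smul_fst, smul_zero,
        Finset.sum_const_zero, add_zero]
      exact sum_e _
    · simp only [HD.Y, Prod.snd_add, Prod.snd_sum, Prod.smul_snd, smul_zero,
        Finset.sum_const_zero, zero_add, zero_div, zero_smul, sub_zero]
      conv_lhs => rw [sum_e (gradient (fun x => inner ℝ (D.A x q) q) x)]
      rw [Finset.smul_sum, ← Finset.sum_neg_distrib]
      refine Finset.sum_congr rfl fun l _ => ?_
      rw [smul_smul, grad_apply, ← neg_smul]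
      congr 1
      ring
  unfold HD.der
  rw [hY, map_add, map_sum, map_sum]
  congr 1
  · refine Finset.sum_congr rfl fun i _ => ?_
    rw [map_smul, Complex.real_smul, A_apply]
    push_cast
    rw [Finset.sum_mul]
    refine Finset.sum_congr rfl fun l _ => ?_
    ring
  · refine Finset.sum_congr rfl fun i _ => ?_
    rw [map_smul, Complex.real_smul, fderiv_k]
    push_cast
    rw [Finset.mul_sum, Finset.sum_mul]
    refine Finset.sum_congr rfl fun m _ => ?_
    rw [Finset.mul_sum, Finset.sum_mul]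
    refine Finset.sum_congr rfl fun l _ => ?_
    ring

theorem SP.der {K : Set (E n)} (hK : IsClosed K) (D : HD n) {Φ : P n → ℂ} (h : SP K Φ) :
    SP K (D.der Φ) := by
  have h0 : D.der Φ = fun z : P n => (∑ i, ∑ l, ((a D i l z.1 : ℂ) * (z.2 l : ℂ)) *
      fderiv ℝ Φ z (e i, 0)) + ∑ i, ∑ m, ∑ l, ((-(1 / 2 : ℂ) *
        ((fderiv ℝ (a D m l) z.1 (e i) : ℝ) : ℂ)) * ((z.2 l : ℂ) * (z.2 m : ℂ))) *
          fderiv ℝ Φ z (0, e i) := by
    funext z
    obtain ⟨x, q⟩ := z
    rw [der_eq]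
    simp only [mul_assoc]
  rw [h0]
  have c1 : ∀ i l : Fin n, ContDiff ℝ (⊤ : ℕ∞) (fun z : P n => (a D i l z.1 : ℂ)) := fun i l =>
    (ac_smooth D i l).comp contDiff_fst
  have c2 : ∀ l : Fin n, ContDiff ℝ (⊤ : ℕ∞) (fun z : P n => (z.2 l : ℂ)) := fun l =>
    (contDiff_coord l).comp contDiff_snd
  have c3 : ∀ i m l : Fin n, ContDiff ℝ (⊤ : ℕ∞)
      (fun z : P n => ((fderiv ℝ (a D m l) z.1 (e i) : ℝ) : ℂ)) := fun i m l =>
    (da_smooth D i l m).comp contDiff_fst
  refine SP.add (SP.sum _ fun i _ => SP.sum _ fun l _ => ?_)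
    (SP.sum _ fun i _ => SP.sum _ fun m _ => SP.sum _ fun l _ => ?_)
  · exact (h.fd hK (e i, 0)).mul ((c1 i l).mul (c2 l))
  · exact (h.fd hK (0, e i)).mul ((contDiff_const.mul (c3 i m l)).mul ((c2 l).mul (c2 m)))

/-- the integral of `Q * der Φ` -/
theorem main {K : Set (E n)} (hK : IsCompact K) (D : HD n) {Φ : P n → ℂ} (hΦ : SP K Φ)
    (Q : MvPolynomial (Fin n) ℂ) (G : Fin n → E n → ℂ) (hG : ∀ l, Differentiable ℝ (G l))
    (h1 : ∀ l x, ∫ q : E n, ev (MvPolynomial.X l * Q) q * Φ (x, q) = G l x) (x : E n) :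
    ∫ q : E n, ev Q q * D.der Φ (x, q) =
      (∑ i, ∑ l, (a D i l x : ℂ) * fderiv ℝ (G l) x (e i)) +
      ∑ i, ∑ m, ∑ l, ((1 / 2 : ℂ) * ((fderiv ℝ (a D m l) x (e i) : ℝ) : ℂ)) *
        ∫ q : E n, ev (MvPolynomial.pderiv i (MvPolynomial.X l * MvPolynomial.X m * Q)) q *
          Φ (x, q) := by
  have k1 : ∀ i l, ∫ q : E n, ev (MvPolynomial.X l * Q) q * fderiv ℝ Φ (x, q) (e i, 0) =
      fderiv ℝ (G l) x (e i) := fun i l =>
    int_fst hK (contDiff_ev _).continuous hΦ (hG l) (h1 l) x (e i)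
  have k2 : ∀ i m l, ∫ q : E n, ev (MvPolynomial.X l * MvPolynomial.X m * Q) q *
      fderiv ℝ Φ (x, q) (0, e i) = - ∫ q : E n, ev (MvPolynomial.pderiv i
        (MvPolynomial.X l * MvPolynomial.X m * Q)) q * Φ (x, q) := fun i m l =>
    int_snd hK _ hΦ x i
  have i1 : ∀ i l, Integrable (fun q : E n => ev (MvPolynomial.X l * Q) q *
      fderiv ℝ Φ (x, q) (e i, 0)) := fun i l =>
    integrable_slice hK (contDiff_ev _).continuous (hΦ.fd hK.isClosed (e i, 0)) x
  have i2 : ∀ i m l, Integrable (fun q : E n => ev (MvPolynomial.X l * MvPolynomial.X m * Q) q *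
      fderiv ℝ Φ (x, q) (0, e i)) := fun i m l =>
    integrable_slice hK (contDiff_ev _).continuous (hΦ.fd hK.isClosed (0, e i)) x
  have hpt : ∀ q : E n, ev Q q * D.der Φ (x, q) = (∑ i, ∑ l, (a D i l x : ℂ) *
      (ev (MvPolynomial.X l * Q) q * fderiv ℝ Φ (x, q) (e i, 0))) +
      ∑ i, ∑ m, ∑ l, (-(1 / 2 : ℂ) * ((fderiv ℝ (a D m l) x (e i) : ℝ) : ℂ)) *
        (ev (MvPolynomial.X l * MvPolynomial.X m * Q) q * fderiv ℝ Φ (x, q) (0, e i)) := by
    intro q
    rw [der_eq, mul_add]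
    simp only [Finset.mul_sum, ev_mul, ev_X]
    congr 1
    · refine Finset.sum_congr rfl fun i _ => Finset.sum_congr rfl fun l _ => ?_
      ring
    · refine Finset.sum_congr rfl fun i _ => Finset.sum_congr rfl fun m _ =>
        Finset.sum_congr rfl fun l _ => ?_
      ring
  simp only [hpt]
  have j1 : ∀ i, Integrable (fun q : E n => ∑ l, (a D i l x : ℂ) *
      (ev (MvPolynomial.X l * Q) q * fderiv ℝ Φ (x, q) (e i, 0))) := fun i =>
    integrable_finsetSum _ fun l _ => (i1 i l).const_mul _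
  have j2 : ∀ i m, Integrable (fun q : E n => ∑ l, (-(1 / 2 : ℂ) *
      ((fderiv ℝ (a D m l) x (e i) : ℝ) : ℂ)) *
        (ev (MvPolynomial.X l * MvPolynomial.X m * Q) q * fderiv ℝ Φ (x, q) (0, e i))) :=
    fun i m => integrable_finsetSum _ fun l _ => (i2 i m l).const_mul _
  have j3 : ∀ i, Integrable (fun q : E n => ∑ m, ∑ l, (-(1 / 2 : ℂ) *
      ((fderiv ℝ (a D m l) x (e i) : ℝ) : ℂ)) *
        (ev (MvPolynomial.X l * MvPolynomial.X m * Q) q * fderiv ℝ Φ (x, q) (0, e i))) :=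
    fun i => integrable_finsetSum _ fun m _ => j2 i m
  rw [integral_add (integrable_finsetSum _ fun i _ => j1 i)
    (integrable_finsetSum _ fun i _ => j3 i), integral_finsetSum _ (fun i _ => j1 i),
    integral_finsetSum _ (fun i _ => j3 i)]
  congr 1
  · refine Finset.sum_congr rfl fun i _ => ?_
    rw [integral_finsetSum _ (fun l _ => (i1 i l).const_mul _)]
    refine Finset.sum_congr rfl fun l _ => ?_
    rw [integral_const_mul, k1]
  · refine Finset.sum_congr rfl fun i _ => ?_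
    rw [integral_finsetSum _ (fun m _ => j2 i m)]
    refine Finset.sum_congr rfl fun m _ => ?_
    rw [integral_finsetSum _ (fun l _ => (i2 i m l).const_mul _)]
    refine Finset.sum_congr rfl fun l _ => ?_
    rw [integral_const_mul, k2]
    ring

/-! ### the base case -/

/-- the derivative in the direction `b` in the fibres -/
noncomputable def DQ (b : E n → Fin n → ℂ) (H : P n → ℂ) : P n → ℂ := fun z =>
  ∑ l, b z.1 l * fderiv ℝ H z (0, e l)

theorem SP.DQ {K : Set (E n)} (hK : IsClosed K) {b : E n → Fin n → ℂ}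
    (hb : ∀ i, ContDiff ℝ (⊤ : ℕ∞) (fun x => b x i)) {H : P n → ℂ} (h : SP K H) :
    SP K (DQ b H) :=
  SP.sum _ fun l _ => (h.fd hK (0, e l)).mul ((hb l).comp contDiff_fst)

theorem SP.DQ_iter {K : Set (E n)} (hK : IsClosed K) {b : E n → Fin n → ℂ}
    (hb : ∀ i, ContDiff ℝ (⊤ : ℕ∞) (fun x => b x i)) {H : P n → ℂ} (h : SP K H) (j : ℕ) :
    SP K ((SYMAux.DQ b)^[j] H) := by
  induction j with
  | zero => exact h
  | succ j ih =>
    rw [Function.iterate_succ_apply']
    exact SP.DQ hK hb ih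

theorem dq_eq {K : Set (E n)} (hK : IsClosed K) {b : E n → Fin n → ℂ}
    (hb : ∀ i, ContDiff ℝ (⊤ : ℕ∞) (fun x => b x i)) {η : E n → ℂ}
    (h : SP K (fun z : P n => η z.2)) (j : ℕ) (x q : E n) :
    ((dq (b x))^[j] η) q = ((DQ b)^[j] (fun z : P n => η z.2)) (x, q) := by
  induction j generalizing q with
  | zero => rfl
  | succ j ih =>
    have hf : (dq (b x))^[j] η = fun q => ((DQ b)^[j] (fun z : P n => η z.2)) (x, q) := by
      funext q; exact ih q
    have hs := SP.DQ_iter hK hb h j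
    rw [Function.iterate_succ_apply', Function.iterate_succ_apply', hf]
    unfold dq DQ
    refine Finset.sum_congr rfl fun l _ => ?_
    have hd : HasFDerivAt (fun q : E n => ((DQ b)^[j] (fun z : P n => η z.2)) (x, q))
        ((fderiv ℝ ((DQ b)^[j] (fun z : P n => η z.2)) (x, q)).comp
          (ContinuousLinearMap.inr ℝ (E n) (E n))) q :=
      (((hs.smooth.differentiable (by simp)) (x, q)).hasFDerivAt).comp q
        (hasFDerivAt_prodMk_right x q)
    unfold DQ at hd
    rw [hd.fderiv]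
    rfl

/-- the same for polynomials -/
noncomputable def dp (v : Fin n → ℂ) (p : MvPolynomial (Fin n) ℂ) : MvPolynomial (Fin n) ℂ :=
  ∑ l, MvPolynomial.C (v l) * MvPolynomial.pderiv l p

theorem euler {d : ℕ} {p : MvPolynomial (Fin n) ℂ} (hp : p.IsHomogeneous d) (v : Fin n → ℂ) :
    MvPolynomial.eval v (dp v p) = d * MvPolynomial.eval v p := by
  have h := congrArg (MvPolynomial.eval v) hp.sum_X_mul_pderiv
  rw [map_sum, nsmul_eq_mul, map_mul, map_natCast] at h
  rw [← h]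
  unfold dp
  rw [map_sum]
  simp

theorem homog_dp {d : ℕ} {p : MvPolynomial (Fin n) ℂ} (hp : p.IsHomogeneous (d + 1))
    (v : Fin n → ℂ) : (dp v p).IsHomogeneous d := by
  unfold dp
  refine MvPolynomial.IsHomogeneous.sum _ _ _ fun l _ => ?_
  have h0 : (MvPolynomial.pderiv l p).IsHomogeneous d := hp.pderiv
  exact h0.C_mul _

theorem parts {K : Set (E n)} (hK : IsCompact K) (b : E n → Fin n → ℂ)
    {H : P n → ℂ} (h : SP K H) (Q : MvPolynomial (Fin n) ℂ) (x : E n) :
    ∫ q : E n, ev Q q * DQ b H (x, q) = - ∫ q : E n, ev (dp (b x) Q) q * H (x, q) := by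
  have i1 : ∀ l, Integrable (fun q : E n => ev Q q * fderiv ℝ H (x, q) (0, e l)) := fun l =>
    integrable_slice hK (contDiff_ev _).continuous (h.fd hK.isClosed (0, e l)) x
  have i2 : ∀ l, Integrable (fun q : E n => ev (MvPolynomial.pderiv l Q) q * H (x, q)) := fun l =>
    integrable_slice hK (contDiff_ev _).continuous h x
  have e1 : ∀ q : E n, ev Q q * DQ b H (x, q) =
      ∑ l, b x l * (ev Q q * fderiv ℝ H (x, q) (0, e l)) := by
    intro q
    unfold DQ
    rw [Finset.mul_sum]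
    exact Finset.sum_congr rfl fun l _ => by ring
  have e2 : ∀ q : E n, ev (dp (b x) Q) q * H (x, q) =
      ∑ l, b x l * (ev (MvPolynomial.pderiv l Q) q * H (x, q)) := by
    intro q
    unfold dp
    rw [ev_sum, Finset.sum_mul]
    refine Finset.sum_congr rfl fun l _ => ?_
    rw [ev_mul, ev_C]
    ring
  simp only [e1, e2]
  rw [integral_finsetSum _ (fun l _ => (i1 l).const_mul _),
    integral_finsetSum _ (fun l _ => (i2 l).const_mul _), ← Finset.sum_neg_distrib]
  refine Finset.sum_congr rfl fun l _ => ?_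
  rw [integral_const_mul, integral_const_mul, int_snd hK Q h x l]
  ring

theorem moments {K : Set (E n)} (hK : IsCompact K) {b : E n → Fin n → ℂ}
    (hb : ∀ i, ContDiff ℝ (⊤ : ℕ∞) (fun x => b x i)) {η : E n → ℂ}
    (h : SP K (fun z : P n => η z.2)) (h1 : ∫ q, η q = 1) (j : ℕ) (x : E n) :
    ∀ Q : MvPolynomial (Fin n) ℂ, Q.IsHomogeneous j →
      ∫ q : E n, ev Q q * ((DQ b)^[j] (fun z : P n => η z.2)) (x, q) =
        (-1) ^ j * (j.factorial : ℂ) * MvPolynomial.eval (b x) Q := by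
  induction j with
  | zero =>
    intro Q hQ
    rw [← MvPolynomial.totalDegree_zero_iff_isHomogeneous,
      MvPolynomial.totalDegree_eq_zero_iff_eq_C] at hQ
    rw [hQ]
    simp only [ev_C, Function.iterate_zero, id_eq, MvPolynomial.eval_C]
    rw [integral_const_mul, h1]
    simp
  | succ j ih =>
    intro Q hQ
    rw [Function.iterate_succ_apply', parts hK b (SP.DQ_iter hK.isClosed hb h j) Q x,
      ih _ (homog_dp hQ _), euler hQ, Nat.factorial_succ]
    push_cast
    ring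

theorem tst_eq {K : Set (E n)} (hK : IsClosed K) {b : E n → Fin n → ℂ}
    (hb : ∀ i, ContDiff ℝ (⊤ : ℕ∞) (fun x => b x i)) {η : E n → ℂ}
    (h : SP K (fun z : P n => η z.2)) (j : ℕ) (g : E n → ℂ) :
    tst b η j g = fun z : P n => (g z.1 * ((-1 : ℂ) ^ j / (j.factorial : ℂ))) *
      ((DQ b)^[j] (fun z : P n => η z.2)) z := by
  funext z
  obtain ⟨x, q⟩ := z
  unfold tst
  rw [dq_eq hK hb h j x q]

theorem tst_SP {K : Set (E n)} (hK : IsClosed K) {b : E n → Fin n → ℂ}
    (hb : ∀ i, ContDiff ℝ (⊤ : ℕ∞) (fun x => b x i)) {η : E n → ℂ}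
    (h : SP K (fun z : P n => η z.2)) (j : ℕ) {g : E n → ℂ} (hg : ContDiff ℝ (⊤ : ℕ∞) g) :
    SP K (tst b η j g) := by
  rw [tst_eq hK hb h j g]
  exact (SP.DQ_iter hK hb h j).mul ((hg.comp contDiff_fst).mul contDiff_const)

theorem base {K : Set (E n)} (hK : IsCompact K) {b : E n → Fin n → ℂ}
    (hb : ∀ i, ContDiff ℝ (⊤ : ℕ∞) (fun x => b x i)) {η : E n → ℂ}
    (h : SP K (fun z : P n => η z.2)) (h1 : ∫ q, η q = 1) (j : ℕ) (g : E n → ℂ)
    {Q : MvPolynomial (Fin n) ℂ} (hQ : Q.IsHomogeneous j) (x : E n) :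
    ∫ q : E n, ev Q q * tst b η j g (x, q) = MvPolynomial.eval (b x) Q * g x := by
  rw [tst_eq hK.isClosed hb h j g]
  have e1 : ∀ q : E n, ev Q q * ((g x * ((-1 : ℂ) ^ j / (j.factorial : ℂ))) *
      ((DQ b)^[j] (fun z : P n => η z.2)) (x, q)) =
      (g x * ((-1 : ℂ) ^ j / (j.factorial : ℂ))) *
        (ev Q q * ((DQ b)^[j] (fun z : P n => η z.2)) (x, q)) := fun q => by ring
  simp only [e1]
  rw [integral_const_mul, moments hK hb h h1 j x Q hQ]
  have hf0 : (j.factorial : ℂ) ≠ 0 := by exact_mod_cast j.factorial_ne_zero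
  have h2 : ((-1 : ℂ) ^ j) * (-1) ^ j = 1 := by
    rw [← mul_pow]
    simp
  field_simp
  linear_combination (g x * MvPolynomial.eval (b x) Q) * h2

/-! ### operators -/

theorem Op_congr {r : ℕ} {Q Q' : (E n → ℂ) → E n → ℂ} (h : Op r Q)
    (hq : ∀ g : E n → ℂ, ContDiff ℝ (⊤ : ℕ∞) g → ∀ x, Q' g x = Q g x) : Op r Q' := by
  obtain ⟨S, c, h1, h2, h3⟩ := h
  exact ⟨S, c, h1, h2, fun g hg x => by rw [hq g hg x, h3 g hg x]⟩

theorem Op_zero (r : ℕ) : Op r (fun (_ : E n → ℂ) (_ : E n) => (0 : ℂ)) :=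
  ⟨∅, fun _ _ => 0, by simp, fun _ => contDiff_const, by simp⟩

theorem Op_sum (hO : OpFacts n) {r : ℕ} {ι : Type} (s : Finset ι)
    {Q : ι → (E n → ℂ) → E n → ℂ} (h : ∀ i, Op r (Q i)) :
    Op r (fun g x => ∑ i ∈ s, Q i g x) := by
  classical
  induction s using Finset.induction_on with
  | empty => simpa using Op_zero (n := n) r
  | insert i s hi ih =>
    refine Op_congr (hO.add r _ _ (h i) ih) fun g _ x => ?_
    rw [Finset.sum_insert hi]

theorem Op_mulc (hO : OpFacts n) {r : ℕ} {Q : (E n → ℂ) → E n → ℂ} (h : Op r Q)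
    {c : E n → ℂ} (hc : ContDiff ℝ (⊤ : ℕ∞) c) : Op r (fun g x => c x * Q g x) := by
  have h1 := hO.comp 0 r _ _ (hO.mul c hc) h
  rwa [zero_add] at h1

theorem Op_der (hO : OpFacts n) {r : ℕ} {Q : (E n → ℂ) → E n → ℂ} (h : Op r Q) (i : Fin n) :
    Op (r + 1) (fun g x => fderiv ℝ (Q g) x (e i)) := by
  have h1 := hO.comp 1 r _ _ (hO.der i) h
  rwa [add_comm 1 r] at h1

theorem vf_eq (D : HD n) (b : E n → Fin n → ℂ) (g : E n → ℂ) (x : E n) :
    D.vf b g x = ∑ i, (∑ l, (a D i l x : ℂ) * b x l) * fderiv ℝ g x (e i) := rfl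

theorem Op_vf (hO : OpFacts n) (D : HD n) {b : E n → Fin n → ℂ}
    (hb : ∀ i, ContDiff ℝ (⊤ : ℕ∞) (fun x => b x i)) : Op 1 (D.vf b) := by
  have h1 : ∀ i : Fin n, Op 1 (fun (g : E n → ℂ) x =>
      (∑ l, (a D i l x : ℂ) * b x l) * fderiv ℝ g x (EuclideanSpace.single i 1)) := fun i =>
    Op_mulc hO (hO.der i) (ContDiff.sum fun l _ => (ac_smooth D i l).mul (hb l))
  exact Op_congr (Op_sum hO Finset.univ h1) fun g _ x => rfl

theorem Op_vf_iter (hO : OpFacts n) (D : HD n) {b : E n → Fin n → ℂ}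
    (hb : ∀ i, ContDiff ℝ (⊤ : ℕ∞) (fun x => b x i)) (r : ℕ) : Op r ((D.vf b)^[r]) := by
  induction r with
  | zero =>
    refine Op_congr (hO.mul (fun _ => 1) contDiff_const) fun g _ x => ?_
    simp
  | succ r ih =>
    have h1 := hO.comp 1 r _ _ (Op_vf hO D hb) ih
    rw [add_comm 1 r] at h1
    refine Op_congr h1 fun g _ x => ?_
    rw [Function.iterate_succ_apply']

theorem contDiff_eval {b : E n → Fin n → ℂ}
    (hb : ∀ i, ContDiff ℝ (⊤ : ℕ∞) (fun x => b x i)) (Q : MvPolynomial (Fin n) ℂ) :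
    ContDiff ℝ (⊤ : ℕ∞) (fun x => MvPolynomial.eval (b x) Q) := by
  induction Q using MvPolynomial.induction_on with
  | C c =>
    simp only [MvPolynomial.eval_C]
    exact contDiff_const
  | add p q hp hq =>
    simp only [map_add]
    exact hp.add hq
  | mul_X p i hp =>
    simp only [map_mul, MvPolynomial.eval_X]
    exact hp.mul (hb i)

/-- the claim for `der^r` -/
def St (D : HD n) (b : E n → Fin n → ℂ) (η : E n → ℂ) (j r : ℕ) : Prop :=
  ∀ (d : ℕ) (Q : MvPolynomial (Fin n) ℂ), Q.IsHomogeneous d → d + r = j →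
    ∃ R : (E n → ℂ) → E n → ℂ, Op r R ∧ (∀ i : Fin n, Op r (fun g x => fderiv ℝ (R g) x (e i))) ∧
      (0 < r → Op (r - 1) R) ∧ ∀ g : E n → ℂ, ContDiff ℝ (⊤ : ℕ∞) g → ∀ x : E n,
        ∫ q : E n, ev Q q * (D.der^[r] (tst b η j g)) (x, q) =
          MvPolynomial.eval (b x) Q * ((D.vf b)^[r] g) x + R g x

theorem St_zero {K : Set (E n)} (hK : IsCompact K) (D : HD n) {b : E n → Fin n → ℂ}
    (hb : ∀ i, ContDiff ℝ (⊤ : ℕ∞) (fun x => b x i)) {η : E n → ℂ}
    (h : SP K (fun z : P n => η z.2)) (h1 : ∫ q, η q = 1) (j : ℕ) : St D b η j 0 := by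
  intro d Q hQ hd
  rw [add_zero] at hd
  subst hd
  refine ⟨fun _ _ => 0, Op_zero 0, fun i => ?_, fun h => absurd h (lt_irrefl 0), fun g _ x => ?_⟩
  · refine Op_congr (Op_zero 0) fun g _ x => ?_
    have : (fun (_ : E n) => (0 : ℂ)) = fun _ => (0 : ℂ) := rfl
    simp
  · rw [Function.iterate_zero, Function.iterate_zero, id, id, add_zero]
    exact base hK hb h h1 d g hQ x

theorem SP_der_iter {K : Set (E n)} (hK : IsClosed K) (D : HD n) {Φ : P n → ℂ} (h : SP K Φ)
    (r : ℕ) : SP K (D.der^[r] Φ) := by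
  induction r with
  | zero => exact h
  | succ r ih =>
    rw [Function.iterate_succ_apply']
    exact SP.der hK D ih

theorem St_succ (hO : OpFacts n) {K : Set (E n)} (hK : IsCompact K) (D : HD n)
    {b : E n → Fin n → ℂ} (hb : ∀ i, ContDiff ℝ (⊤ : ℕ∞) (fun x => b x i)) {η : E n → ℂ}
    (h : SP K (fun z : P n => η z.2)) (j r : ℕ) (hr : St D b η j r) : St D b η j (r + 1) := by
  intro d Q hQ hd
  have hX : ∀ l : Fin n, (MvPolynomial.X l * Q).IsHomogeneous (1 + d) := fun l =>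
    (MvPolynomial.isHomogeneous_X ℂ l).mul hQ
  have hXX : ∀ i m l : Fin n, (MvPolynomial.pderiv i
      (MvPolynomial.X l * MvPolynomial.X m * Q)).IsHomogeneous (1 + 1 + d - 1) := fun i m l =>
    (((MvPolynomial.isHomogeneous_X ℂ l).mul (MvPolynomial.isHomogeneous_X ℂ m)).mul hQ).pderiv
  have H1 := fun l => hr (1 + d) (MvPolynomial.X l * Q) (hX l) (by omega)
  have H2 := fun i m l => hr (1 + 1 + d - 1) _ (hXX i m l) (by omega)
  choose R1 hR1 hR1' hR1'' hR1e using H1
  choose R2 hR2 hR2' hR2'' hR2e using H2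
  have hvf := Op_vf_iter hO D hb r
  have hc := fun l => contDiff_eval hb (MvPolynomial.X l * Q)
  let RA : (E n → ℂ) → E n → ℂ := fun g x => ∑ i, ∑ l, ((a D i l x : ℂ) *
    fderiv ℝ (fun y => MvPolynomial.eval (b y) (MvPolynomial.X l * Q)) x (e i)) *
      ((D.vf b)^[r] g) x
  let RB : (E n → ℂ) → E n → ℂ := fun g x => ∑ i, ∑ l, (a D i l x : ℂ) *
    fderiv ℝ (R1 l g) x (e i)
  let RC : (E n → ℂ) → E n → ℂ := fun g x => ∑ i, ∑ m, ∑ l,
    ((1 / 2 : ℂ) * ((fderiv ℝ (a D m l) x (e i) : ℝ) : ℂ)) *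
      (MvPolynomial.eval (b x) (MvPolynomial.pderiv i
        (MvPolynomial.X l * MvPolynomial.X m * Q)) * ((D.vf b)^[r] g) x + R2 i m l g x)
  have hRA : Op r RA := by
    refine Op_sum hO _ fun i => Op_sum hO _ fun l => Op_mulc hO hvf ?_
    exact (ac_smooth D i l).mul (((hc l).fderiv_right (by simp)).clm_apply contDiff_const)
  have hRB : Op r RB :=
    Op_sum hO _ fun i => Op_sum hO _ fun l => Op_mulc hO (hR1' l i) (ac_smooth D i l)
  have hRC : Op r RC := by
    refine Op_sum hO _ fun i => Op_sum hO _ fun m => Op_sum hO _ fun l => Op_mulc hO ?_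
      (contDiff_const.mul (da_smooth D i l m))
    exact hO.add r _ _ (Op_mulc hO hvf (contDiff_eval hb _)) (hR2 i m l)
  have hR : Op r (fun g x => RA g x + RB g x + RC g x) :=
    hO.add r _ _ (hO.add r _ _ hRA hRB) hRC
  refine ⟨fun g x => RA g x + RB g x + RC g x, hO.mono r (r + 1) _ (by omega) hR,
    fun i => Op_der hO hR i, fun _ => hR, fun g hg x => ?_⟩
  have hΦ : SP K (D.der^[r] (tst b η j g)) :=
    SP_der_iter hK.isClosed D (tst_SP hK.isClosed hb h j hg) r
  have hs1 : ContDiff ℝ (⊤ : ℕ∞) ((D.vf b)^[r] g) := hO.smooth r _ hvf g hg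
  have hs2 : ∀ l, ContDiff ℝ (⊤ : ℕ∞) (R1 l g) := fun l => hO.smooth r _ (hR1 l) g hg
  have hG : ∀ l, ContDiff ℝ (⊤ : ℕ∞) (fun y => MvPolynomial.eval (b y) (MvPolynomial.X l * Q) *
      ((D.vf b)^[r] g) y + R1 l g y) := fun l => ((hc l).mul hs1).add (hs2 l)
  rw [Function.iterate_succ_apply', main hK D hΦ Q (fun l y => MvPolynomial.eval (b y)
    (MvPolynomial.X l * Q) * ((D.vf b)^[r] g) y + R1 l g y)
    (fun l => (hG l).differentiable (by simp)) (fun l x => hR1e l g hg x) x]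
  have hC : ∑ i, ∑ m, ∑ l, ((1 / 2 : ℂ) * ((fderiv ℝ (a D m l) x (e i) : ℝ) : ℂ)) *
        ∫ q : E n, ev (MvPolynomial.pderiv i (MvPolynomial.X l * MvPolynomial.X m * Q)) q *
          (D.der^[r] (tst b η j g)) (x, q) = RC g x := by
    refine Finset.sum_congr rfl fun i _ => Finset.sum_congr rfl fun m _ =>
      Finset.sum_congr rfl fun l _ => ?_
    rw [hR2e i m l g hg x]
  have hF : ∀ i l, fderiv ℝ (fun y => MvPolynomial.eval (b y) (MvPolynomial.X l * Q) *
      ((D.vf b)^[r] g) y + R1 l g y) x (e i) =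
      (b x l * MvPolynomial.eval (b x) Q) * fderiv ℝ ((D.vf b)^[r] g) x (e i) +
      fderiv ℝ (fun y => MvPolynomial.eval (b y) (MvPolynomial.X l * Q)) x (e i) *
        ((D.vf b)^[r] g) x + fderiv ℝ (R1 l g) x (e i) := by
    intro i l
    have d1 := ((hc l).differentiable (by simp) x).hasFDerivAt
    have d2 := (hs1.differentiable (by simp) x).hasFDerivAt
    have d3 := ((hs2 l).differentiable (by simp) x).hasFDerivAt
    rw [((d1.fun_mul d2).fun_add d3).fderiv]
    simp only [add_apply, smul_apply, smul_eq_mul, map_mul, MvPolynomial.eval_X]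
    ring
  rw [hC, Function.iterate_succ_apply', vf_eq]
  have hT : ∑ i, ∑ l, (a D i l x : ℂ) * fderiv ℝ (fun y => MvPolynomial.eval (b y)
      (MvPolynomial.X l * Q) * ((D.vf b)^[r] g) y + R1 l g y) x (e i) =
      MvPolynomial.eval (b x) Q * (∑ i, (∑ l, (a D i l x : ℂ) * b x l) *
        fderiv ℝ ((D.vf b)^[r] g) x (e i)) + (RA g x + RB g x) := by
    simp only [hF, RA, RB, Finset.mul_sum, Finset.sum_mul, ← Finset.sum_add_distrib]
    refine Finset.sum_congr rfl fun i _ => Finset.sum_congr rfl fun l _ => ?_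
    ring
  rw [hT]
  ring

theorem St_all (hO : OpFacts n) {K : Set (E n)} (hK : IsCompact K) (D : HD n)
    {b : E n → Fin n → ℂ} (hb : ∀ i, ContDiff ℝ (⊤ : ℕ∞) (fun x => b x i)) {η : E n → ℂ}
    (h : SP K (fun z : P n => η z.2)) (h1 : ∫ q, η q = 1) (j r : ℕ) : St D b η j r := by
  induction r with
  | zero => exact St_zero hK D hb h h1 j
  | succ r ih => exact St_succ hO hK D hb h j r ih

end SYMAux

open SYMAux in
theorem sym_ (hO : Stmt_OPA) : Stmt_SYM := by
  intro n D b hb η hη j hj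
  have hSP : SP (tsupport η) (fun z : P n => η z.2) :=
    ⟨hη.smooth.comp contDiff_snd, fun z hz => image_eq_zero_of_notMem_tsupport hz⟩
  have hK : IsCompact (tsupport η) := hη.supp.isCompact
  obtain ⟨R, _, _, hR, he⟩ := St_all (hO n) hK D hb.smooth hSP hη.int j j 0
    (1 : MvPolynomial (Fin n) ℂ) (MvPolynomial.isHomogeneous_one _ _) (by omega)
  refine Op_congr (hR hj) fun g hg x => ?_
  have h1 := he g hg x
  have h2 : ∀ q : E n, ev (1 : MvPolynomial (Fin n) ℂ) q = 1 := fun q => by simp [ev]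
  simp only [h2, one_mul, map_one] at h1
  unfold HD.op
  rw [h1]
  ring

end Pool.Agent.WPG
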