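import Pool.Agent.WPG.Stmts

/-!
# TAY: Taylor expansion along the flow
-/

set_option autoImplicit false

namespace Pool.Agent.WPG

open MeasureTheory Set Filter Topology

namespace TAYAux

/-- the derivative of a term of the Taylor polynomial -/
lemma term_deriv (i : ℕ) (c : ℂ) (s : ℝ) :
    HasDerivAt (fun s : ℝ => ((s : ℂ) ^ (i + 1) / ((i + 1).factorial : ℂ)) * c)
      (((s : ℂ) ^ i / (i.factorial : ℂ)) * c) s := by
  have h1 : HasDerivAt (fun s : ℝ => (s : ℂ)) 1 s := Complex.ofRealCLM.hasDerivAt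
  have h2 := ((h1.pow (i + 1)).div_const (((i + 1).factorial : ℕ) : ℂ)).mul_const c
  refine h2.congr_deriv ?_
  have h3 : ((i + 1).factorial : ℂ) = ((i : ℂ) + 1) * (i.factorial : ℂ) := by
    rw [Nat.factorial_succ]; push_cast; ring
  have h4 : (i.factorial : ℂ) ≠ 0 := by exact_mod_cast i.factorial_ne_zero
  have h5 : (i : ℂ) + 1 ≠ 0 := by exact_mod_cast Nat.succ_ne_zero i
  rw [h3, Nat.add_sub_cancel]
  push_cast
  field_simp

/-- Taylor's formula for a sequence of functions of a real variable, each one the derivative of the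
one before -/
lemma taylor (m : ℕ) : ∀ (u : ℕ → ℝ → ℂ) (C : ℝ), (∀ i s, HasDerivAt (u i) (u (i + 1) s) s) →
    (∀ s, ‖u m s‖ ≤ C) → ∀ s : ℝ,
    ‖u 0 s - ∑ i ∈ Finset.range m, ((s : ℂ) ^ i / (i.factorial : ℂ)) * u i 0‖ ≤ C * |s| ^ m := by
  induction m with
  | zero =>
    intro u C _ hC s
    simpa using hC s
  | succ m ih =>
    intro u C hu hC s
    have hC0 : 0 ≤ C := (norm_nonneg _).trans (hC 0)
    have h1 := ih (fun i => u (i + 1)) C (fun i s => hu (i + 1) s) hC
    set E : ℝ → ℂ := fun s => u 0 s - ∑ i ∈ Finset.range (m + 1),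
      ((s : ℂ) ^ i / (i.factorial : ℂ)) * u i 0 with hE
    have hE' : ∀ s, HasDerivAt E (u 1 s - ∑ i ∈ Finset.range m,
        ((s : ℂ) ^ i / (i.factorial : ℂ)) * u (i + 1) 0) s := by
      intro s
      have e : E = fun s => u 0 s - ((∑ i ∈ Finset.range m,
          ((s : ℂ) ^ (i + 1) / ((i + 1).factorial : ℂ)) * u (i + 1) 0) + u 0 0) := by
        funext s
        simp only [hE]
        rw [Finset.sum_range_succ']
        simp
      rw [e]
      have h2 : HasDerivAt (fun s : ℝ => ∑ i ∈ Finset.range m,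
          ((s : ℂ) ^ (i + 1) / ((i + 1).factorial : ℂ)) * u (i + 1) 0)
          (∑ i ∈ Finset.range m, ((s : ℂ) ^ i / (i.factorial : ℂ)) * u (i + 1) 0) s :=
        HasDerivAt.fun_sum fun i _ => term_deriv i (u (i + 1) 0) s
      exact (hu 0 s).sub (h2.add_const _)
    have hE0 : E 0 = 0 := by
      simp only [hE]
      rw [Finset.sum_range_succ']
      simp
    have hb : ∀ x ∈ segment ℝ (0 : ℝ) s, ‖u 1 x - ∑ i ∈ Finset.range m,
        ((x : ℂ) ^ i / (i.factorial : ℂ)) * u (i + 1) 0‖ ≤ C * |s| ^ m := by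
      intro x hx
      refine (h1 x).trans (mul_le_mul_of_nonneg_left (pow_le_pow_left₀ (abs_nonneg _) ?_ m) hC0)
      rw [segment_eq_image'] at hx
      obtain ⟨θ, hθ, rfl⟩ := hx
      have e : (0 : ℝ) + θ • (s - 0) = θ * s := by rw [smul_eq_mul]; ring
      show |(0 : ℝ) + θ • (s - 0)| ≤ |s|
      rw [e, abs_mul, abs_of_nonneg hθ.1]
      exact mul_le_of_le_one_left (abs_nonneg _) hθ.2
    have h3 := (convex_segment (𝕜 := ℝ) (0 : ℝ) s).norm_image_sub_le_of_norm_hasDerivWithin_le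
      (fun x _ => (hE' x).hasDerivWithinAt) hb (left_mem_segment ℝ 0 s) (right_mem_segment ℝ 0 s)
    rw [hE0, sub_zero, sub_zero, Real.norm_eq_abs] at h3
    calc ‖E s‖ ≤ C * |s| ^ m * |s| := h3
      _ = C * |s| ^ (m + 1) := by rw [pow_succ]; ring

lemma tf_iter (hD : Stmt_DTF) {n : ℕ} (D : HD n) {Ψ : P n → ℂ} (h : D.TF Ψ) (i : ℕ) :
    D.TF (D.der^[i] Ψ) := by
  induction i with
  | zero => exact h
  | succ i ih =>
    rw [Function.iterate_succ_apply']
    exact hD n D _ ih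

lemma en_zero {n : ℕ} (D : HD n) (z : P n) : D.en 0 z = D.k z := by
  unfold HD.en
  rw [zero_mul, add_zero]

lemma k_flow {n : ℕ} (D : HD n) {φ : ℝ → ℝ → P n → P n} (hφ : D.Flow φ) (s : ℝ) (z : P n) :
    D.k (φ 0 s z) = D.k z := by
  have h := hφ.energy 0 s z le_rfl zero_le_one
  rw [en_zero, en_zero] at h
  exact h

end TAYAux

open TAYAux in
theorem tay (hD : Stmt_DTF) : Stmt_TAY := by
  intro n D φ hφ Ψ hΨ j
  obtain ⟨C, hC⟩ := (tf_iter hD D hΨ (j + 1)).supp.exists_bound_of_continuous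
    (tf_iter hD D hΨ (j + 1)).smooth.continuous
  refine ⟨C, fun s z => ?_⟩
  have hC0 : 0 ≤ C := (norm_nonneg _).trans (hC z)
  rcases le_or_gt 1 (D.k z) with hk | hk
  · have h1 : Ψ (φ 0 s z) = 0 := hΨ.low _ (by rw [k_flow D hφ]; exact hk)
    have h2 : ∀ i, (D.der^[i] Ψ) z = 0 := fun i => (tf_iter hD D hΨ i).low z hk
    rw [h1, Finset.sum_eq_zero fun i _ => by rw [h2 i, mul_zero], sub_zero, norm_zero]
    positivity
  · have h1 := taylor (j + 1) (fun i s => (D.der^[i] Ψ) (φ 0 s z)) C ?_ (fun s => hC _) s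
    · simp only [hφ.zero] at h1
      exact h1
    · intro i s
      have h2 : DifferentiableAt ℝ (D.der^[i] Ψ) (φ 0 s z) :=
        (tf_iter hD D hΨ i).smooth.differentiable (by simp) _
      have h3 := h2.hasFDerivAt.comp_hasDerivAt s (hφ.deriv 0 s z le_rfl zero_le_one
        (by rw [en_zero]; linarith))
      simp only [Function.iterate_succ_apply']
      exact h3

end Pool.Agent.WPG
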