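import Pool.Agent.WPG.Stmts

/-!
# TST: the test functions of an isotropic covector field
-/

set_option autoImplicit false

namespace Pool.Agent.WPG

open MeasureTheory Set Filter Topology

namespace TSTAux

open MvPolynomial

variable {n : ℕ}

/-! ### polynomials -/

/-- coordinates as linear maps to `ℂ` -/
noncomputable def cor (l : Fin n) : E n →L[ℝ] ℂ :=
  Complex.ofRealCLM.comp (EuclideanSpace.proj l : E n →L[ℝ] ℝ)

lemma cor_apply (l : Fin n) (q : E n) : cor l q = (q l : ℂ) := rfl

lemma ev_C (c : ℂ) (q : E n) : ev (C c : MvPolynomial (Fin n) ℂ) q = c := by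
  simp [ev]

lemma ev_add (p p' : MvPolynomial (Fin n) ℂ) (q : E n) :
    ev (p + p') q = ev p q + ev p' q := by
  simp [ev]

lemma ev_mul (p p' : MvPolynomial (Fin n) ℂ) (q : E n) :
    ev (p * p') q = ev p q * ev p' q := by
  simp [ev]

lemma ev_pow (p : MvPolynomial (Fin n) ℂ) (m : ℕ) (q : E n) :
    ev (p ^ m) q = ev p q ^ m := by
  simp [ev]

lemma ev_sum {ι : Type} (s : Finset ι) (p : ι → MvPolynomial (Fin n) ℂ) (q : E n) :
    ev (∑ i ∈ s, p i) q = ∑ i ∈ s, ev (p i) q := by
  simp [ev]

lemma ev_X (l : Fin n) (q : E n) :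
    ev (X l : MvPolynomial (Fin n) ℂ) q = cor l q := by
  simp [ev, cor_apply]

lemma ev_smooth (p : MvPolynomial (Fin n) ℂ) : ContDiff ℝ (⊤ : ℕ∞) (ev p) := by
  induction p using MvPolynomial.induction_on with
  | C c =>
    have : ev (C c : MvPolynomial (Fin n) ℂ) = fun _ : E n => c := by
      funext q; exact ev_C c q
    rw [this]
    exact contDiff_const
  | add p q hp hq =>
    have : ev (p + q) = fun x : E n => ev p x + ev q x := by
      funext x; exact ev_add p q x
    rw [this]
    exact hp.add hq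
  | mul_X p l hp =>
    have : ev (p * X l) = fun x : E n => ev p x * cor l x := by
      funext x; rw [ev_mul, ev_X]
    rw [this]
    exact hp.mul (cor l).contDiff

lemma ev_diff (p : MvPolynomial (Fin n) ℂ) : Differentiable ℝ (ev p) :=
  (ev_smooth p).differentiable (by simp)

lemma fderiv_ev (i : Fin n) (p : MvPolynomial (Fin n) ℂ) (q : E n) :
    fderiv ℝ (ev p) q (EuclideanSpace.single i 1) = ev (pderiv i p) q := by
  induction p using MvPolynomial.induction_on with
  | C c =>
    have : ev (C c : MvPolynomial (Fin n) ℂ) = fun _ : E n => c := by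
      funext q; exact ev_C c q
    rw [this]
    simp [ev]
  | add p p' hp hq =>
    have : ev (p + p') = fun x : E n => ev p x + ev p' x := by
      funext x; exact ev_add p p' x
    rw [this, fderiv_fun_add (ev_diff p q) (ev_diff p' q), map_add, ev_add]
    simp [hp, hq]
  | mul_X p l hp =>
    have : ev (p * X l) = fun x : E n => ev p x * cor l x := by
      funext x; rw [ev_mul, ev_X]
    rw [this, fderiv_fun_mul (ev_diff p q) (cor l).differentiableAt, ContinuousLinearMap.fderiv]
    rw [Derivation.leibniz, ev_add, smul_eq_mul, smul_eq_mul, ev_mul, ev_mul, ev_X]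
    simp only [add_apply, smul_apply, smul_eq_mul, hp]
    congr 1
    rw [cor_apply, pderiv_X]
    by_cases h : l = i
    · subst h
      simp [ev]
    · simp [ev, h]

/-- the directional derivative of a polynomial -/
noncomputable def dp (v : Fin n → ℂ) (p : MvPolynomial (Fin n) ℂ) : MvPolynomial (Fin n) ℂ :=
  ∑ l, C (v l) * pderiv l p

lemma dq_smooth (v : Fin n → ℂ) {h : E n → ℂ} (hh : ContDiff ℝ (⊤ : ℕ∞) h) :
    ContDiff ℝ (⊤ : ℕ∞) (dq v h) := by
  have h1 : ContDiff ℝ (⊤ : ℕ∞) (fderiv ℝ h) := hh.fderiv_right (by simp)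
  unfold dq
  exact ContDiff.sum fun l _ => contDiff_const.mul (h1.clm_apply contDiff_const)

lemma dq_tsupport (v : Fin n → ℂ) (h : E n → ℂ) : tsupport (dq v h) ⊆ tsupport h := by
  have : Function.support (dq v h) ⊆ Function.support (fderiv ℝ h) := by
    intro q hq h0
    apply hq
    unfold dq
    rw [h0]
    simp
  exact (closure_mono this).trans (tsupport_fderiv_subset ℝ)

/-- integration by parts -/
lemma parts (v : Fin n → ℂ) (p : MvPolynomial (Fin n) ℂ) {h : E n → ℂ}
    (hh : ContDiff ℝ (⊤ : ℕ∞) h) (hs : HasCompactSupport h) :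
    ∫ q : E n, ev p q * dq v h q = -∫ q : E n, ev (dp v p) q * h q := by
  have hd : Differentiable ℝ h := hh.differentiable (by simp)
  have h1 : Continuous (fderiv ℝ h) := hh.continuous_fderiv (by simp)
  have hc : ∀ w : E n, Continuous (fun q => fderiv ℝ h q w) := fun w => h1.clm_apply continuous_const
  have hsv : ∀ w : E n, HasCompactSupport (fun q => fderiv ℝ h q w) := fun w =>
    hs.fderiv_apply ℝ w
  have key : ∀ i : Fin n, ∫ q : E n, ev p q * fderiv ℝ h q (EuclideanSpace.single i 1) =
      -∫ q : E n, ev (pderiv i p) q * h q := by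
    intro i
    rw [integral_mul_fderiv_eq_neg_fderiv_mul_of_integrable]
    · simp only [fderiv_ev]
    · simp only [fderiv_ev]
      exact (((ev_smooth _).continuous.mul hh.continuous).integrable_of_hasCompactSupport
        hs.mul_left)
    · exact (((ev_smooth _).continuous.mul (hc _)).integrable_of_hasCompactSupport
        (hsv _).mul_left)
    · exact (((ev_smooth _).continuous.mul hh.continuous).integrable_of_hasCompactSupport
        hs.mul_left)
    · exact fun x _ => ev_diff p x
    · exact fun x _ => hd x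
  have i1 : ∀ i : Fin n, Integrable (fun q : E n =>
      ev p q * fderiv ℝ h q (EuclideanSpace.single i 1)) := fun i =>
    (((ev_smooth _).continuous.mul (hc _)).integrable_of_hasCompactSupport (hsv _).mul_left)
  have i2 : ∀ i : Fin n, Integrable (fun q : E n => ev (pderiv i p) q * h q) := fun i =>
    (((ev_smooth _).continuous.mul hh.continuous).integrable_of_hasCompactSupport hs.mul_left)
  have e1 : ∀ q : E n, ev p q * dq v h q =
      ∑ l, v l * (ev p q * fderiv ℝ h q (EuclideanSpace.single l 1)) := by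
    intro q
    unfold dq
    rw [Finset.mul_sum]
    exact Finset.sum_congr rfl fun l _ => by ring
  have e2 : ∀ q : E n, ev (dp v p) q * h q = ∑ l, v l * (ev (pderiv l p) q * h q) := by
    intro q
    unfold dp
    rw [ev_sum, Finset.sum_mul]
    exact Finset.sum_congr rfl fun l _ => by rw [ev_mul, ev_C]; ring
  simp only [e1, e2]
  rw [integral_finsetSum _ (fun l _ => (i1 l).const_mul _),
    integral_finsetSum _ (fun l _ => (i2 l).const_mul _), ← Finset.sum_neg_distrib]
  refine Finset.sum_congr rfl fun l _ => ?_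
  rw [integral_const_mul, integral_const_mul, key]
  ring

lemma euler (v : Fin n → ℂ) {d : ℕ} {p : MvPolynomial (Fin n) ℂ} (hp : p.IsHomogeneous d) :
    eval v (dp v p) = d * eval v p := by
  have h := congrArg (eval v) hp.sum_X_mul_pderiv
  rw [map_sum, nsmul_eq_mul, map_mul, map_natCast] at h
  rw [← h]
  unfold dp
  rw [map_sum]
  exact Finset.sum_congr rfl fun l _ => by simp

lemma homog_dp (v : Fin n → ℂ) {d : ℕ} {p : MvPolynomial (Fin n) ℂ}
    (hp : p.IsHomogeneous (d + 1)) : (dp v p).IsHomogeneous d := by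
  unfold dp
  refine MvPolynomial.IsHomogeneous.sum _ _ _ fun l _ => ?_
  have h0 : (pderiv l p).IsHomogeneous d := hp.pderiv
  exact h0.C_mul _

/-- the moments of the derivatives of a bump function -/
lemma moments (v : Fin n → ℂ) {η : E n → ℂ} (hη : ContDiff ℝ (⊤ : ℕ∞) η)
    (hs : HasCompactSupport η) (h1 : ∫ q, η q = 1) (j : ℕ) :
    ContDiff ℝ (⊤ : ℕ∞) ((dq v)^[j] η) ∧
      tsupport ((dq v)^[j] η) ⊆ tsupport η ∧
      ∀ d ≤ j, ∀ Q : MvPolynomial (Fin n) ℂ, Q.IsHomogeneous d →
        ∫ q : E n, ev Q q * ((dq v)^[j] η) q =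
          if d = j then (-1) ^ j * (j.factorial : ℂ) * eval v Q else 0 := by
  induction j with
  | zero =>
    refine ⟨hη, subset_rfl, ?_⟩
    intro d hd Q hQ
    have hd0 : d = 0 := by omega
    subst hd0
    rw [← totalDegree_zero_iff_isHomogeneous, totalDegree_eq_zero_iff_eq_C] at hQ
    rw [hQ]
    simp only [ev_C, Function.iterate_zero, id_eq, eval_C]
    rw [integral_const_mul, h1]
    simp
  | succ j ih =>
    obtain ⟨ih1, ih2, ih3⟩ := ih
    rw [Function.iterate_succ_apply']
    refine ⟨dq_smooth v ih1, (dq_tsupport v _).trans ih2, ?_⟩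
    intro d hd Q hQ
    have hsj : HasCompactSupport ((dq v)^[j] η) :=
      hs.isCompact.of_isClosed_subset (isClosed_tsupport _) ih2
    rw [parts v Q ih1 hsj]
    rcases d with _ | d
    · rw [← totalDegree_zero_iff_isHomogeneous, totalDegree_eq_zero_iff_eq_C] at hQ
      have : dp v Q = 0 := by
        unfold dp
        rw [hQ]
        simp
      rw [this]
      simp [ev]
    · rw [ih3 d (by omega) _ (homog_dp v hQ), euler v hQ]
      by_cases h : d = j
      · subst h
        simp only [if_true]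
        rw [Nat.factorial_succ]
        push_cast
        ring
      · rw [if_neg h, if_neg (by omega)]
        simp

/-! ### the kinetic energy as a polynomial -/

/-- the polynomial of the kinetic energy -/
noncomputable def kp (D : HD n) (x : E n) : MvPolynomial (Fin n) ℂ :=
  ∑ i, ∑ l, C ((D.A x (EuclideanSpace.single l 1) i : ℝ) : ℂ) * X i * X l

lemma k_eq (D : HD n) (x q : E n) :
    D.k (x, q) = ∑ i, ∑ l, D.A x (EuclideanSpace.single l 1) i * q i * q l := by
  have hq : q = ∑ l, q l • EuclideanSpace.single l (1 : ℝ) := by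
    ext i
    simp [Pi.single_apply]
  have hA : ∀ i, D.A x q i = ∑ l, q l * D.A x (EuclideanSpace.single l 1) i := by
    intro i
    conv_lhs => rw [hq]
    rw [map_sum]
    simp
  unfold HD.k
  simp only
  rw [PiLp.inner_apply]
  refine Finset.sum_congr rfl fun i _ => ?_
  rw [hA i]
  have e : ∀ a b : ℝ, inner ℝ a b = a * b := fun a b => by
    rw [real_inner_eq_re_inner]
    simp [mul_comm]
  rw [e, Finset.sum_mul]
  exact Finset.sum_congr rfl fun l _ => by ring

lemma ev_kp (D : HD n) (x q : E n) : ev (kp D x) q = (D.k (x, q) : ℂ) := by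
  rw [k_eq]
  unfold kp
  rw [ev_sum, Complex.ofReal_sum]
  refine Finset.sum_congr rfl fun i _ => ?_
  rw [ev_sum, Complex.ofReal_sum]
  refine Finset.sum_congr rfl fun l _ => ?_
  rw [ev_mul, ev_mul, ev_C, ev_X, ev_X, cor_apply, cor_apply]
  push_cast
  ring

lemma kp_homog (D : HD n) (x : E n) : (kp D x).IsHomogeneous 2 := by
  unfold kp
  refine MvPolynomial.IsHomogeneous.sum _ _ _ fun i _ =>
    MvPolynomial.IsHomogeneous.sum _ _ _ fun l _ => ?_
  have h1 : (X i * X l : MvPolynomial (Fin n) ℂ).IsHomogeneous (1 + 1) :=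
    (isHomogeneous_X _ _).mul (isHomogeneous_X _ _)
  rw [mul_assoc]
  exact h1.C_mul _

lemma eval_kp (D : HD n) (x : E n) (v : Fin n → ℂ)
    (hv : ∑ i, ∑ l, (D.A x (EuclideanSpace.single l 1) i : ℂ) * v i * v l = 0) :
    eval v (kp D x) = 0 := by
  rw [← hv]
  unfold kp
  simp

/-! ### smoothness, support -/

/-- the iterated derivative as a function on the phase space -/
noncomputable def gg (b : E n → Fin n → ℂ) (η : E n → ℂ) (j : ℕ) : P n → ℂ := fun z =>
  ((dq (b z.1))^[j] η) z.2

lemma gg_smooth {b : E n → Fin n → ℂ} (hb : ∀ i, ContDiff ℝ (⊤ : ℕ∞) (fun x => b x i))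
    {η : E n → ℂ} (hη : ContDiff ℝ (⊤ : ℕ∞) η) (j : ℕ) : ContDiff ℝ (⊤ : ℕ∞) (gg b η j) := by
  induction j with
  | zero => exact hη.comp contDiff_snd
  | succ j ih =>
    have hd : Differentiable ℝ (gg b η j) := ih.differentiable (by simp)
    have h1 : gg b η (j + 1) = fun z => ∑ l, b z.1 l *
        fderiv ℝ (gg b η j) z ((0 : E n), EuclideanSpace.single l (1 : ℝ)) := by
      funext z
      show ((dq (b z.1))^[j + 1] η) z.2 = _
      rw [Function.iterate_succ_apply']
      show ∑ l, b z.1 l * fderiv ℝ ((dq (b z.1))^[j] η) z.2 (EuclideanSpace.single l 1) = _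
      refine Finset.sum_congr rfl fun l _ => ?_
      have h2 : HasFDerivAt ((gg b η j) ∘ (fun q : E n => (z.1, q)))
          ((fderiv ℝ (gg b η j) z).comp (ContinuousLinearMap.inr ℝ (E n) (E n))) z.2 :=
        HasFDerivAt.comp z.2 (hd (z.1, z.2)).hasFDerivAt (hasFDerivAt_prodMk_right z.1 z.2)
      have h3 : (dq (b z.1))^[j] η = (gg b η j) ∘ (fun q : E n => (z.1, q)) := rfl
      rw [h3, h2.fderiv]
      simp
    rw [h1]
    have h4 : ContDiff ℝ (⊤ : ℕ∞) (fderiv ℝ (gg b η j)) := ih.fderiv_right (by simp)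
    exact ContDiff.sum fun l _ => ((hb l).comp contDiff_fst).mul (h4.clm_apply contDiff_const)

lemma zero_on (v : Fin n → ℂ) {U : Set (E n)} (hU : IsOpen U) {η : E n → ℂ}
    (h0 : ∀ q ∈ U, η q = 0) (j : ℕ) : ∀ q ∈ U, ((dq v)^[j] η) q = 0 := by
  induction j with
  | zero => exact h0
  | succ j ih =>
    intro q hq
    rw [Function.iterate_succ_apply']
    unfold dq
    have h1 : (dq v)^[j] η =ᶠ[𝓝 q] fun _ => (0 : ℂ) :=
      Filter.eventually_of_mem (hU.mem_nhds hq) ih
    have h2 : fderiv ℝ ((dq v)^[j] η) q = 0 := by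
      rw [h1.fderiv_eq]
      simp
    refine Finset.sum_eq_zero fun l _ => ?_
    show v l * fderiv ℝ ((dq v)^[j] η) q (EuclideanSpace.single l 1) = 0
    rw [h2]
    simp

lemma low (D : HD n) (v : Fin n → ℂ) {η : E n → ℂ} (hη : ContDiff ℝ (⊤ : ℕ∞) η) (x : E n)
    (h0 : ∀ q, 1 ≤ D.k (x, q) → η q = 0) (j : ℕ) (hc : Continuous ((dq v)^[j] η)) (q : E n)
    (hq : 1 ≤ D.k (x, q)) : ((dq v)^[j] η) q = 0 := by
  have hk : Continuous (fun q : E n => D.k (x, q)) := by
    unfold HD.k
    exact ((D.A x).continuous).inner continuous_id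
  have hU : IsOpen {q : E n | 1 < D.k (x, q)} := isOpen_lt continuous_const hk
  have h1 := zero_on v hU (fun q hq => h0 q (le_of_lt hq)) j
  have hcl : q ∈ closure {q : E n | 1 < D.k (x, q)} := by
    have ht : Tendsto (fun m : ℕ => (1 + 1 / ((m : ℝ) + 1)) • q) atTop (𝓝 ((1 + (0 : ℝ)) • q)) :=
      (tendsto_const_nhds.add tendsto_one_div_add_atTop_nhds_zero_nat).smul_const q
    rw [add_zero, one_smul] at ht
    refine mem_closure_of_tendsto ht (Filter.Eventually.of_forall fun m => ?_)
    show 1 < D.k (x, (1 + 1 / ((m : ℝ) + 1)) • q)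
    have h2 : D.k (x, (1 + 1 / ((m : ℝ) + 1)) • q) =
        (1 + 1 / ((m : ℝ) + 1)) ^ 2 * D.k (x, q) := by
      unfold HD.k
      simp only [map_smul, inner_smul_left, inner_smul_right, RCLike.conj_to_real]
      ring
    rw [h2]
    have h3 : (0 : ℝ) < 1 / ((m : ℝ) + 1) := by positivity
    nlinarith
  have h2 : EqOn ((dq v)^[j] η) (fun _ => (0 : ℂ)) (closure {q : E n | 1 < D.k (x, q)}) :=
    Set.EqOn.closure h1 hc continuous_const
  exact h2 hcl

end TSTAux

open TSTAux in
theorem tst_ : Stmt_TST := by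
  intro n D b hb η hη j g hg
  have hts : tst b η j g = fun z : P n =>
      g z.1 * ((-1 : ℂ) ^ j / (j.factorial : ℂ)) * gg b η j z := rfl
  have hc : ∀ v : Fin n → ℂ, Continuous ((dq v)^[j] η) := fun v =>
    (moments v hη.smooth hη.supp hη.int j).1.continuous
  refine ⟨⟨?_, ?_, ?_⟩, ?_⟩
  · rw [hts]
    exact ((hg.smooth.comp contDiff_fst).mul contDiff_const).mul (gg_smooth hb.smooth hη.smooth j)
  · have hK : IsCompact (tsupport g ×ˢ tsupport η) := hg.supp.isCompact.prod hη.supp.isCompact
    apply HasCompactSupport.intro hK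
    intro z hz
    show g z.1 * ((-1 : ℂ) ^ j / (j.factorial : ℂ)) * ((dq (b z.1))^[j] η) z.2 = 0
    by_cases h : z.1 ∈ tsupport g
    · have h2 : z.2 ∉ tsupport η := fun h2 => hz ⟨h, h2⟩
      rw [zero_on (b z.1) (isClosed_tsupport η).isOpen_compl
        (fun q hq => image_eq_zero_of_notMem_tsupport hq) j z.2 h2, mul_zero]
    · rw [image_eq_zero_of_notMem_tsupport h, zero_mul, zero_mul]
  · intro z hz
    show g z.1 * ((-1 : ℂ) ^ j / (j.factorial : ℂ)) * ((dq (b z.1))^[j] η) z.2 = 0
    rw [low D (b z.1) hη.smooth z.1 (hη.low z.1) j (hc _) z.2 hz, mul_zero]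
  · intro d m Q hQ hdm x
    have e1 : ∀ q : E n, ev Q q * (D.k (x, q) : ℂ) ^ m * tst b η j g (x, q) =
        (g x * ((-1 : ℂ) ^ j / (j.factorial : ℂ))) *
          (ev (Q * kp D x ^ m) q * ((dq (b x))^[j] η) q) := by
      intro q
      rw [ev_mul, ev_pow, ev_kp]
      show ev Q q * (D.k (x, q) : ℂ) ^ m *
        (g x * ((-1 : ℂ) ^ j / (j.factorial : ℂ)) * ((dq (b x))^[j] η) q) = _
      ring
    simp only [e1]
    have hH : (Q * kp D x ^ m).IsHomogeneous (d + 2 * m) := hQ.mul ((kp_homog D x).pow m)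
    have hle : d + 2 * m ≤ j := by omega
    rw [integral_const_mul, (moments (b x) hη.smooth hη.supp hη.int j).2.2 _ hle _ hH]
    by_cases h : d + 2 * m = j
    · have hm : 0 < m := by omega
      rw [if_pos h, map_mul, map_pow, eval_kp D x (b x) (hb.iso x), zero_pow hm.ne']
      simp
    · rw [if_neg h, mul_zero]

end Pool.Agent.WPG
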