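import Pool.Agent.WPG.Dtf

/-!
# Uniqueness for the system of the operators `op`
-/

set_option autoImplicit false

namespace Pool.Agent.WPG

open MeasureTheory Set Filter Topology

namespace UNIAux

variable {n : ℕ}

/-! ### smoothness of the operators -/

theorem fd_smooth {h : E n → ℂ} (hh : ContDiff ℝ (⊤ : ℕ∞) h) (v : E n) :
    ContDiff ℝ (⊤ : ℕ∞) (fun x => fderiv ℝ h x v) := by
  have h1 : ContDiff ℝ (⊤ : ℕ∞) (fderiv ℝ h) := hh.fderiv_right (by simp)
  exact h1.clm_apply contDiff_const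

theorem dqj_smooth (η : E n → ℂ) (hη : ContDiff ℝ (⊤ : ℕ∞) η) (j : ℕ) :
    ContDiff ℝ (⊤ : ℕ∞) (fun p : (Fin n → ℂ) × E n => ((dq p.1)^[j] η) p.2) := by
  induction j with
  | zero =>
    have h1 : ContDiff ℝ (⊤ : ℕ∞) (fun p : (Fin n → ℂ) × E n => η p.2) := hη.comp contDiff_snd
    exact h1
  | succ j ih =>
    have h2 : ∀ l : Fin n, ContDiff ℝ (⊤ : ℕ∞) (fun p : (Fin n → ℂ) × E n =>
        p.1 l * fderiv ℝ ((dq p.1)^[j] η) p.2 (EuclideanSpace.single l 1)) := by
      intro l
      have h3 : ContDiff ℝ (⊤ : ℕ∞) (fun p : (Fin n → ℂ) × E n => p.1 l) :=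
        (contDiff_apply ℝ ℂ l).comp contDiff_fst
      have h4 : ContDiff ℝ (⊤ : ℕ∞) (Function.uncurry
          (fun (p : (Fin n → ℂ) × E n) (q : E n) => ((dq p.1)^[j] η) q)) := by
        have h5 : ContDiff ℝ (⊤ : ℕ∞) (fun r : ((Fin n → ℂ) × E n) × E n => (r.1.1, r.2)) :=
          (contDiff_fst.comp contDiff_fst).prodMk contDiff_snd
        exact ih.comp h5
      have h6 : ContDiff ℝ (⊤ : ℕ∞) (fun p : (Fin n → ℂ) × E n =>
          fderiv ℝ ((dq p.1)^[j] η) p.2) :=
        ContDiff.fderiv h4 contDiff_snd (by simp)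
      exact h3.mul (h6.clm_apply contDiff_const)
    have h7 : (fun p : (Fin n → ℂ) × E n => ((dq p.1)^[j + 1] η) p.2) =
        fun p => ∑ l : Fin n, p.1 l * fderiv ℝ ((dq p.1)^[j] η) p.2 (EuclideanSpace.single l 1) := by
      funext p
      rw [Function.iterate_succ_apply']
      rfl
    rw [h7]
    exact ContDiff.sum fun l _ => h2 l

theorem tst_smooth (b : E n → Fin n → ℂ) (hb : ∀ i, ContDiff ℝ (⊤ : ℕ∞) (fun x => b x i))
    (η : E n → ℂ) (hη : ContDiff ℝ (⊤ : ℕ∞) η) (j : ℕ) (g : E n → ℂ)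
    (hg : ContDiff ℝ (⊤ : ℕ∞) g) : ContDiff ℝ (⊤ : ℕ∞) (tst b η j g) := by
  have h1 : ContDiff ℝ (⊤ : ℕ∞) b := contDiff_pi.mpr hb
  have h2 : ContDiff ℝ (⊤ : ℕ∞) (fun z : P n => (b z.1, z.2)) :=
    (h1.comp contDiff_fst).prodMk contDiff_snd
  have h3 : ContDiff ℝ (⊤ : ℕ∞) (fun z : P n => ((dq (b z.1))^[j] η) z.2) :=
    (dqj_smooth η hη j).comp h2
  have h4 : ContDiff ℝ (⊤ : ℕ∞) (fun z : P n => g z.1) := hg.comp contDiff_fst
  exact (h4.mul contDiff_const).mul h3

theorem der_it_smooth (D : HD n) {Ψ : P n → ℂ} (h : ContDiff ℝ (⊤ : ℕ∞) Ψ) (i : ℕ) :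
    ContDiff ℝ (⊤ : ℕ∞) (D.der^[i] Ψ) := by
  induction i with
  | zero => exact h
  | succ i ih =>
    rw [Function.iterate_succ_apply']
    exact DTFAux.der_smooth D ih

/-! ### locality -/

theorem der_it_eq (D : HD n) {Ψ Ψ' : P n → ℂ} {U : Set (P n)} (hU : IsOpen U)
    (h : ∀ z ∈ U, Ψ z = Ψ' z) (i : ℕ) : ∀ z ∈ U, (D.der^[i] Ψ) z = (D.der^[i] Ψ') z := by
  induction i with
  | zero => exact h
  | succ i ih =>
    intro z hz
    rw [Function.iterate_succ_apply', Function.iterate_succ_apply']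
    have h1 : (D.der^[i] Ψ) =ᶠ[𝓝 z] (D.der^[i] Ψ') := by
      filter_upwards [hU.mem_nhds hz] with y hy
      exact ih y hy
    show fderiv ℝ (D.der^[i] Ψ) z (D.Y 0 z) = fderiv ℝ (D.der^[i] Ψ') z (D.Y 0 z)
    rw [h1.fderiv_eq]

theorem dq_it_zero (v : Fin n → ℂ) {η : E n → ℂ} {U : Set (E n)} (hU : IsOpen U)
    (h : ∀ q ∈ U, η q = 0) (i : ℕ) : ∀ q ∈ U, ((dq v)^[i] η) q = 0 := by
  induction i with
  | zero => exact h
  | succ i ih =>
    intro q hq
    rw [Function.iterate_succ_apply']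
    have h1 : ((dq v)^[i] η) =ᶠ[𝓝 q] (fun _ => (0 : ℂ)) := by
      filter_upwards [hU.mem_nhds hq] with y hy
      exact ih y hy
    show ∑ l, v l * fderiv ℝ ((dq v)^[i] η) q (EuclideanSpace.single l 1) = 0
    rw [h1.fderiv_eq]
    simp

theorem der_it_zero (D : HD n) {Ψ : P n → ℂ} {U : Set (P n)} (hU : IsOpen U)
    (h : ∀ z ∈ U, Ψ z = 0) (i : ℕ) : ∀ z ∈ U, (D.der^[i] Ψ) z = 0 := by
  induction i with
  | zero => exact h
  | succ i ih =>
    intro z hz
    rw [Function.iterate_succ_apply']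
    have h1 : (D.der^[i] Ψ) =ᶠ[𝓝 z] (fun _ => (0 : ℂ)) := by
      filter_upwards [hU.mem_nhds hz] with y hy
      exact ih y hy
    show fderiv ℝ (D.der^[i] Ψ) z (D.Y 0 z) = 0
    rw [h1.fderiv_eq]
    simp

/-- the integrand of `op` vanishes outside the support of `η` -/
theorem integrand_zero (D : HD n) (b : E n → Fin n → ℂ) (η : E n → ℂ) (j : ℕ) (g : E n → ℂ)
    (x q : E n) (hq : q ∉ tsupport η) : (D.der^[j] (tst b η j g)) (x, q) = 0 := by
  have hV : IsOpen ((tsupport η)ᶜ) := (isClosed_tsupport η).isOpen_compl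
  have hU : IsOpen {z : P n | z.2 ∈ (tsupport η)ᶜ} := hV.preimage continuous_snd
  refine der_it_zero D hU ?_ j (x, q) hq
  intro z hz
  have h1 : ∀ q ∈ (tsupport η)ᶜ, η q = 0 := fun q hq => image_eq_zero_of_notMem_tsupport hq
  have h2 := dq_it_zero (b z.1) hV h1 j z.2 hz
  unfold tst
  rw [h2, mul_zero]

theorem op_cont (D : HD n) {η : E n → ℂ} (hη : D.Eta η) {b : E n → Fin n → ℂ} (hb : D.Iso b)
    (j : ℕ) {g : E n → ℂ} (hg : ContDiff ℝ (⊤ : ℕ∞) g) : Continuous (D.op b η j g) := by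
  have h1 : ContDiff ℝ (⊤ : ℕ∞) (D.der^[j] (tst b η j g)) :=
    der_it_smooth D (tst_smooth b hb.smooth η hη.smooth j g hg) j
  have h2 : Continuous (fun x : E n => ∫ q in tsupport η, (D.der^[j] (tst b η j g)) (x, q)) := by
    refine continuous_parametric_integral_of_continuous
      (f := fun (x q : E n) => (D.der^[j] (tst b η j g)) (x, q)) ?_ hη.supp
    exact h1.continuous
  have h3 : D.op b η j g =
      fun x : E n => ∫ q in tsupport η, (D.der^[j] (tst b η j g)) (x, q) := by
    funext x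
    unfold HD.op
    rw [setIntegral_eq_integral_of_forall_compl_eq_zero]
    intro q hq
    exact integrand_zero D b η j g x q hq
  rw [h3]
  exact h2

theorem op_local (D : HD n) (b : E n → Fin n → ℂ) (η : E n → ℂ) (j : ℕ) {g h : E n → ℂ}
    {V : Set (E n)} (hV : IsOpen V) (hgh : ∀ x ∈ V, g x = h x) :
    ∀ x ∈ V, D.op b η j g x = D.op b η j h x := by
  intro x hx
  have hU : IsOpen {z : P n | z.1 ∈ V} := hV.preimage continuous_fst
  unfold HD.op
  congr 1
  funext q
  refine der_it_eq D hU ?_ j (x, q) hx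
  intro z hz
  unfold tst
  rw [hgh z.1 hz]

/-! ### the functional -/

/-- the functional -/
noncomputable def L (M : E n → ℝ) (h : E n → ℂ) : ℂ := ∫ y, (M y : ℂ) * h y

theorem int_mul {M : E n → ℝ} {C R : ℝ} (hm : Measurable M) (hC : ∀ y, |M y| ≤ C)
    (hR : ∀ y, R ≤ ‖y‖ → M y = 0) {h : E n → ℂ} (hh : Continuous h) :
    Integrable (fun y => (M y : ℂ) * h y) := by
  have h1 : IntegrableOn (fun y => (M y : ℂ)) (Metric.closedBall (0 : E n) R) := by
    refine Measure.integrableOn_of_bounded (M := C) ?_ ?_ ?_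
    · exact (isCompact_closedBall (0 : E n) R).measure_lt_top.ne
    · exact (Complex.measurable_ofReal.comp hm).aestronglyMeasurable
    · refine Eventually.of_forall fun y => ?_
      rw [Complex.norm_real]
      exact hC y
  have h2 : IntegrableOn (fun y => (M y : ℂ) * h y) (Metric.closedBall (0 : E n) R) :=
    h1.mul_continuousOn hh.continuousOn (isCompact_closedBall _ _)
  refine (integrableOn_iff_integrable_of_support_subset ?_).mp h2
  intro y hy
  rw [Metric.mem_closedBall, dist_zero_right]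
  by_contra hc
  exact hy (by simp [hR y (not_le.mp hc).le])

theorem L_sum {M : E n → ℝ} {C R : ℝ} (hm : Measurable M) (hC : ∀ y, |M y| ≤ C)
    (hR : ∀ y, R ≤ ‖y‖ → M y = 0) {ι : Type*} (s : Finset ι) (h : ι → E n → ℂ)
    (hh : ∀ i ∈ s, Continuous (h i)) : L M (fun x => ∑ i ∈ s, h i x) = ∑ i ∈ s, L M (h i) := by
  unfold L
  rw [← integral_finsetSum s fun i hi => int_mul hm hC hR (hh i hi)]
  congr 1
  funext y
  rw [Finset.mul_sum]

theorem L_add {M : E n → ℝ} {C R : ℝ} (hm : Measurable M) (hC : ∀ y, |M y| ≤ C)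
    (hR : ∀ y, R ≤ ‖y‖ → M y = 0) {h h' : E n → ℂ} (hh : Continuous h) (hh' : Continuous h') :
    L M (fun x => h x + h' x) = L M h + L M h' := by
  unfold L
  rw [← integral_add (int_mul hm hC hR hh) (int_mul hm hC hR hh')]
  congr 1
  funext y
  rw [mul_add]

/-- the functional vanishes on the image of `op` -/
theorem L_op {D : HD n} {η : E n → ℂ} {j : ℕ} {M : E n → ℝ} {R : ℝ}
    (hR : ∀ y, R ≤ ‖y‖ → M y = 0)
    (hM : ∀ b, D.Iso b → ∀ g, Cc g → ∫ y : E n, (M y : ℂ) * D.op b η j g y = 0)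
    {b : E n → Fin n → ℂ} (hb : D.Iso b) {h : E n → ℂ} (hh : ContDiff ℝ (⊤ : ℕ∞) h) :
    L M (D.op b η j h) = 0 := by
  let f : ContDiffBump (0 : E n) :=
    { rIn := |R| + 1, rOut := |R| + 2, rIn_pos := by positivity, rIn_lt_rOut := by linarith }
  set g : E n → ℂ := fun x => (f x : ℂ) * h x with hg
  have hfs : ContDiff ℝ (⊤ : ℕ∞) (fun x : E n => (f x : ℂ)) := by
    have h1 : ContDiff ℝ (⊤ : ℕ∞) (fun x : E n => f x) := f.contDiff
    exact Complex.ofRealCLM.contDiff.comp h1
  have hgc : Cc g := by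
    refine ⟨hfs.mul hh, ?_⟩
    have h1 : HasCompactSupport (fun x : E n => (f x : ℂ)) := by
      refine f.hasCompactSupport.mono ?_
      intro x hx hx0
      exact hx (by simp [hx0])
    exact h1.mul_right
  have h2 := hM b hb g hgc
  unfold L
  rw [← h2]
  congr 1
  funext y
  by_cases hy : R ≤ ‖y‖
  · rw [hR y hy]
    simp
  · congr 1
    refine (op_local D b η j (g := g) (h := h) (V := Metric.ball (0 : E n) (|R| + 1))
      Metric.isOpen_ball ?_ y ?_).symm
    · intro x hx
      have h3 : f x = 1 := f.one_of_mem_closedBall (Metric.ball_subset_closedBall hx)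
      rw [hg]
      simp [h3]
    · rw [Metric.mem_ball, dist_zero_right]
      have h4 := not_le.mp hy
      have h5 := le_abs_self R
      linarith

/-- if the functional vanishes on the smooth functions then `M = 0` -/
theorem zero_of_L {M : E n → ℝ} {C R : ℝ} (hm : Measurable M) (hC : ∀ y, |M y| ≤ C)
    (hR : ∀ y, R ≤ ‖y‖ → M y = 0)
    (h : ∀ g : E n → ℂ, Cc g → L M g = 0) : ∀ᵐ y : E n, M y = 0 := by
  have h1 : Integrable (fun y => (M y : ℂ) * (fun _ : E n => (1 : ℂ)) y) :=
    int_mul hm hC hR continuous_const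
  have h2 : Integrable M := by
    have h3 : Integrable (fun y => (M y : ℂ)) := by
      simpa using h1
    have h4 := h3.re
    simpa using h4
  refine ae_eq_zero_of_integral_contDiff_smul_eq_zero h2.locallyIntegrable ?_
  intro g hg hgs
  have h4 : Cc (fun x => (g x : ℂ)) := by
    refine ⟨Complex.ofRealCLM.contDiff.comp hg, ?_⟩
    refine hgs.mono ?_
    intro x hx hx0
    exact hx (by simp [hx0])
  have h5 := h _ h4
  unfold L at h5
  have h6 : ∫ y : E n, (M y : ℂ) * (g y : ℂ) = ((∫ y : E n, g y • M y : ℝ) : ℂ) := by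
    rw [← integral_complex_ofReal]
    congr 1
    funext y
    rw [smul_eq_mul]
    push_cast
    ring
  rw [h6] at h5
  exact_mod_cast h5

/-! ### iterated derivatives -/

theorem dw_smooth {g : E n → ℂ} (hg : ContDiff ℝ (⊤ : ℕ∞) g) (w : List (Fin n)) :
    ContDiff ℝ (⊤ : ℕ∞) (dw w g) := by
  induction w with
  | nil => exact hg
  | cons i w ih => exact fd_smooth ih _

theorem dw_append (w : List (Fin n)) (i : Fin n) (g : E n → ℂ) :
    dw (w ++ [i]) g = dw w (fun x => fderiv ℝ g x (EuclideanSpace.single i 1)) := by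
  induction w with
  | nil => rfl
  | cons l w ih =>
    show (fun x => fderiv ℝ (dw (w ++ [i]) g) x (EuclideanSpace.single l 1)) = _
    rw [ih]
    rfl

theorem dw_sum {ι : Type*} (s : Finset ι) (g : ι → E n → ℂ)
    (hg : ∀ i ∈ s, ContDiff ℝ (⊤ : ℕ∞) (g i)) (w : List (Fin n)) :
    dw w (fun x => ∑ i ∈ s, g i x) = fun x => ∑ i ∈ s, dw w (g i) x := by
  induction w with
  | nil => rfl
  | cons l w ih =>
    show (fun x => fderiv ℝ (dw w (fun x => ∑ i ∈ s, g i x)) x (EuclideanSpace.single l 1)) = _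
    rw [ih]
    funext x
    rw [fderiv_fun_sum (fun i hi => ((dw_smooth (hg i hi) w).differentiable (by simp)) x)]
    rw [sum_apply]
    rfl

theorem dw_add {g h : E n → ℂ} (hg : ContDiff ℝ (⊤ : ℕ∞) g) (hh : ContDiff ℝ (⊤ : ℕ∞) h)
    (w : List (Fin n)) : dw w (fun x => g x + h x) = fun x => dw w g x + dw w h x := by
  induction w with
  | nil => rfl
  | cons l w ih =>
    show (fun x => fderiv ℝ (dw w (fun x => g x + h x)) x (EuclideanSpace.single l 1)) = _
    rw [ih]
    funext x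
    rw [fderiv_fun_add (((dw_smooth hg w).differentiable (by simp)) x)
      (((dw_smooth hh w).differentiable (by simp)) x)]
    rfl

theorem dw_zero (w : List (Fin n)) : dw w (fun _ : E n => (0 : ℂ)) = fun _ => 0 := by
  induction w with
  | nil => rfl
  | cons l w ih =>
    show (fun x => fderiv ℝ (dw w (fun _ : E n => (0 : ℂ))) x (EuclideanSpace.single l 1)) = _
    rw [ih]
    simp

/-! ### the linear algebra -/

/-- the transport argument -/
theorem L_all (hL : Stmt_LODE) {M : E (n + 2) → ℝ} {C R : ℝ} (hm : Measurable M)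
    (hC : ∀ y, |M y| ≤ C) (hR : ∀ y, R ≤ ‖y‖ → M y = 0) (N : ℕ) (hN : 0 < N)
    (S : List (Fin (n + 2)) → Finset (List (Fin (n + 2))))
    (c : List (Fin (n + 2)) → List (Fin (n + 2)) → E (n + 2) → ℂ)
    (hS : ∀ w, w.length < N → ∀ w' ∈ S w, w'.length < N)
    (hc : ∀ w, w.length < N → ∀ w', ContDiff ℝ (⊤ : ℕ∞) (c w w'))
    (hL' : ∀ w, w.length < N → ∀ g : E (n + 2) → ℂ, ContDiff ℝ (⊤ : ℕ∞) g →
      L M (dw (w ++ [0]) g) = ∑ w' ∈ S w, L M (dw w' (fun y => c w w' y * g y)))
    (h : E (n + 2) → ℂ) (hh : ContDiff ℝ (⊤ : ℕ∞) h) : L M h = 0 := by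
  classical
  have hfin : Finite {w : List (Fin (n + 2)) // w.length < N} :=
    (List.finite_length_lt (Fin (n + 2)) N).to_subtype
  set W := {w : List (Fin (n + 2)) // w.length < N} with hW
  set r := Nat.card W with hr
  let e : W ≃ Fin r := Finite.equivFin W
  let wd : Fin r → List (Fin (n + 2)) := fun i => (e.symm i).1
  have hwd : ∀ i, (wd i).length < N := fun i => (e.symm i).2
  have hinj : Function.Injective wd := by
    intro i l hil
    exact e.symm.injective (Subtype.ext hil)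
  let nn : W := ⟨[], hN⟩
  let i₀ : Fin r := e nn
  have hi₀ : wd i₀ = [] := by
    show (e.symm (e nn)).1 = []
    rw [Equiv.symm_apply_apply]
  let A : E (n + 2) → Matrix (Fin r) (Fin r) ℂ := fun x i l =>
    if wd i ∈ S (wd l) then c (wd l) (wd i) x else 0
  let Ψ : E (n + 2) → Fin r → ℂ := fun x i => if i = i₀ then h x else 0
  have hA : ∀ i l, ContDiff ℝ (⊤ : ℕ∞) (fun x => A x i l) := by
    intro i l
    by_cases hs : wd i ∈ S (wd l)
    · simp only [A, if_pos hs]
      exact hc (wd l) (hwd l) (wd i)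
    · simp only [A, if_neg hs]
      exact contDiff_const
  have hΨ : ∀ i, ContDiff ℝ (⊤ : ℕ∞) (fun x => Ψ x i) := by
    intro i
    by_cases hi : i = i₀
    · simp only [Ψ, if_pos hi]
      exact hh
    · simp only [Ψ, if_neg hi]
      exact contDiff_const
  obtain ⟨Φ, hΦ, hode⟩ := hL (n + 1) r A Ψ hA hΨ
  -- the left side
  have key : ∀ i : Fin r, L M (dw (wd i ++ [0]) (fun y => Φ y i)) =
      ∑ l : Fin r, L M (dw (wd i) (fun x => A x i l * Φ x l)) +
        L M (dw (wd i) (fun x => Ψ x i)) := by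
    intro i
    have h1 : (fun x => fderiv ℝ (fun y => Φ y i) x (EuclideanSpace.single 0 1)) =
        fun x => (∑ l, A x i l * Φ x l) + Ψ x i := by
      funext x
      exact hode x i
    have hs1 : ∀ l, ContDiff ℝ (⊤ : ℕ∞) (fun x => A x i l * Φ x l) := fun l => (hA i l).mul (hΦ l)
    rw [dw_append, h1, dw_add (ContDiff.sum fun l _ => hs1 l) (hΨ i),
      dw_sum _ _ (fun l _ => hs1 l)]
    rw [L_add hm hC hR (continuous_finsetSum _ fun l _ => (dw_smooth (hs1 l) _).continuous)
      (dw_smooth (hΨ i) _).continuous]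
    rw [L_sum hm hC hR _ _ (fun l _ => (dw_smooth (hs1 l) _).continuous)]
  -- sum over the words
  have hS2 : ∀ l : Fin r, L M (dw (wd l ++ [0]) (fun y => Φ y l)) =
      ∑ i : Fin r, L M (dw (wd i) (fun x => A x i l * Φ x l)) := by
    intro l
    rw [hL' (wd l) (hwd l) _ (hΦ l)]
    have h3 : S (wd l) = (Finset.univ.filter (fun i : Fin r => wd i ∈ S (wd l))).image wd := by
      ext w'
      rw [Finset.mem_image]
      constructor
      · intro hw'
        have hlen := hS (wd l) (hwd l) w' hw'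
        refine ⟨e ⟨w', hlen⟩, ?_, ?_⟩
        · rw [Finset.mem_filter]
          refine ⟨Finset.mem_univ _, ?_⟩
          show (e.symm (e ⟨w', hlen⟩)).1 ∈ _
          rw [Equiv.symm_apply_apply]
          exact hw'
        · show (e.symm (e ⟨w', hlen⟩)).1 = _
          rw [Equiv.symm_apply_apply]
      · rintro ⟨i, hi, rfl⟩
        exact (Finset.mem_filter.mp hi).2
    have h4 : ∑ i : Fin r, L M (dw (wd i) (fun x => A x i l * Φ x l)) =
        ∑ i ∈ Finset.univ.filter (fun i : Fin r => wd i ∈ S (wd l)),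
          L M (dw (wd i) (fun x => c (wd l) (wd i) x * Φ x l)) := by
      rw [Finset.sum_filter]
      refine Finset.sum_congr rfl fun i _ => ?_
      by_cases hs : wd i ∈ S (wd l)
      · rw [if_pos hs]
        simp only [A, if_pos hs]
      · rw [if_neg hs]
        simp only [A, if_neg hs, zero_mul]
        rw [dw_zero]
        simp [L]
    rw [h4]
    conv_lhs => rw [h3]
    rw [Finset.sum_image fun i _ l _ hil => hinj hil]
  have hsum : ∑ i : Fin r, L M (dw (wd i) (fun x => Ψ x i)) = 0 := by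
    have h5 : ∑ i : Fin r, L M (dw (wd i ++ [0]) (fun y => Φ y i)) =
        ∑ i : Fin r, ∑ l : Fin r, L M (dw (wd i) (fun x => A x i l * Φ x l)) +
          ∑ i : Fin r, L M (dw (wd i) (fun x => Ψ x i)) := by
      rw [← Finset.sum_add_distrib]
      exact Finset.sum_congr rfl fun i _ => key i
    have h6 : ∑ l : Fin r, L M (dw (wd l ++ [0]) (fun y => Φ y l)) =
        ∑ i : Fin r, ∑ l : Fin r, L M (dw (wd i) (fun x => A x i l * Φ x l)) := by
      rw [Finset.sum_comm]
      exact Finset.sum_congr rfl fun l _ => hS2 l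
    rw [h6] at h5
    exact left_eq_add.mp h5
  have h7 : ∑ i : Fin r, L M (dw (wd i) (fun x => Ψ x i)) = L M (dw (wd i₀) (fun x => Ψ x i₀)) := by
    refine Finset.sum_eq_single i₀ ?_ ?_
    · intro i _ hi
      simp only [Ψ, if_neg hi]
      rw [dw_zero]
      simp [L]
    · intro h8
      exact absurd (Finset.mem_univ _) h8
  rw [h7, hi₀] at hsum
  have h9 : (fun x => Ψ x i₀) = h := by
    funext x
    simp [Ψ]
  rw [h9] at hsum
  exact hsum

end UNIAux

theorem uni (hO : Stmt_OPA) (hC : Stmt_CLO) (hL : Stmt_LODE) : Stmt_UNI := by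
  intro n D η hη j M C R hm hCb hR hM
  rcases Nat.eq_zero_or_pos j with hj | hj
  · subst hj
    refine UNIAux.zero_of_L hm hCb hR ?_
    intro g hg
    have hb : D.Iso (fun _ _ => (0 : ℂ)) := ⟨fun i => contDiff_const, fun x => by simp⟩
    have h1 := hM _ hb g hg
    have h2 : D.op (fun _ _ => (0 : ℂ)) η 0 g = g := by
      funext x
      show ∫ q : E (n + 2), tst (fun _ _ => (0 : ℂ)) η 0 g (x, q) = g x
      have h3 : ∀ q : E (n + 2), tst (fun _ _ => (0 : ℂ)) η 0 g (x, q) = g x * η q := by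
        intro q
        simp [tst]
      simp only [h3]
      rw [integral_const_mul, hη.int, mul_one]
    rw [h2] at h1
    exact h1
  · obtain ⟨N, hN, hclo⟩ := hC n D η hη j hj
    have hstep : ∀ w : List (Fin (n + 2)), w.length < N → ∃ (S : Finset (List (Fin (n + 2))))
        (c : List (Fin (n + 2)) → E (n + 2) → ℂ), (∀ w' ∈ S, w'.length < N) ∧
        (∀ w', ContDiff ℝ (⊤ : ℕ∞) (c w')) ∧ ∀ g : E (n + 2) → ℂ, ContDiff ℝ (⊤ : ℕ∞) g →
        UNIAux.L M (dw (w ++ [0]) g) = ∑ w' ∈ S, UNIAux.L M (dw w' (fun y => c w' y * g y)) := by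
      intro w hw
      rcases Nat.lt_or_ge (w.length + 1) N with hlt | hge
      · refine ⟨{w ++ [0]}, fun _ _ => 1, ?_, fun _ => contDiff_const, ?_⟩
        · intro w' hw'
          rw [Finset.mem_singleton] at hw'
          rw [hw', List.length_append, List.length_singleton]
          exact hlt
        · intro g _
          rw [Finset.sum_singleton]
          simp only [one_mul]
      · have hlen : (w ++ [0]).length = N := by
          rw [List.length_append, List.length_singleton]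
          omega
        obtain ⟨I, b, Q, S, c, hb, hQ, hS, hc, heq⟩ := hclo (w ++ [0]) hlen
        refine ⟨S, c, hS, hc, ?_⟩
        intro g hg
        have hQs : ∀ i, ContDiff ℝ (⊤ : ℕ∞) (Q i g) := by
          intro i
          obtain ⟨r, hr⟩ := hQ i
          exact (hO (n + 2)).smooth r (Q i) hr g hg
        have h1 : dw (w ++ [0]) g = fun x => (∑ i, D.op (b i) η j (Q i g) x) +
            ∑ w' ∈ S, dw w' (fun y => c w' y * g y) x := by
          funext x
          exact heq g hg x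
        have h2 : ∀ i, Continuous (D.op (b i) η j (Q i g)) := fun i =>
          UNIAux.op_cont D hη (hb i) j (hQs i)
        have h3 : ∀ w' ∈ S, Continuous (dw w' (fun y => c w' y * g y)) := fun w' _ =>
          (UNIAux.dw_smooth ((hc w').mul hg) w').continuous
        rw [h1, UNIAux.L_add hm hCb hR (continuous_finsetSum _ fun i _ => h2 i)
          (continuous_finsetSum _ h3), UNIAux.L_sum hm hCb hR _ _ (fun i _ => h2 i),
          UNIAux.L_sum hm hCb hR _ _ h3]
        rw [Finset.sum_eq_zero (fun i _ => UNIAux.L_op hR hM (hb i) (hQs i)), zero_add]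
    choose! S c hS hc hLs using hstep
    refine UNIAux.zero_of_L hm hCb hR ?_
    intro g hg
    exact UNIAux.L_all hL hm hCb hR N hN S c hS hc hLs g hg.smooth

end Pool.Agent.WPG
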