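import Pool.Agent.WPG.Geo

/-!
# General warped products: the integrals along the curves vanish (module ZER)
-/

set_option autoImplicit false

namespace Pool.Agent.WPG

open MeasureTheory Set Filter Topology Pool.Agent.XRay Pool.Agent.XTower

namespace ZERAux

theorem k_nonneg {n : ℕ} (D : HD n) (z : P n) : 0 ≤ D.k z :=
  (mul_nonneg D.a0.le (sq_nonneg _)).trans (D.lo z.1 z.2)

/-- `u` is bounded -/
theorem u_bdd {n : ℕ} (D : HD n) : ∃ C : ℝ, 0 ≤ C ∧ ∀ x, ‖D.u x‖ ≤ C := by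
  obtain ⟨R, u₀, A₀, h⟩ := D.con
  obtain ⟨C, hC⟩ := (isCompact_closedBall (0 : E n) R).exists_bound_of_continuousOn
    D.us.continuous.continuousOn
  refine ⟨max C ‖u₀‖, le_max_of_le_right (norm_nonneg _), fun x => ?_⟩
  rcases le_total R ‖x‖ with hx | hx
  · rw [(h x hx).2]
    exact le_max_right _ _
  · exact (hC x (by simpa using hx)).trans (le_max_left _ _)

theorem sg_le {n : ℕ} (D : HD n) {C : ℝ} (hC : ∀ x, ‖D.u x‖ ≤ C) (ψ : ℝ → ℝ → P n → P n)
    (κ s : ℝ) (y : P n) : |D.sg ψ κ s y| ≤ C * |s| := by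
  have h := intervalIntegral.norm_integral_le_of_norm_le_const (a := (0 : ℝ)) (b := s)
    (f := fun r => D.u (ψ κ r y).1) (C := C) fun r _ => hC _
  simpa [HD.sg] using h

/-- the curves are smooth -/
theorem crv_smooth (hS : Stmt_SGS) {a n : ℕ} (B : HD a) (K : HD (n + 2))
    (ψ : ℝ → ℝ → P a → P a) (φ : ℝ → ℝ → P (n + 2) → P (n + 2)) (hψ : B.Flow ψ) (hφ : K.Flow φ)
    (ε : ℝ) (y : P a) (z : P (n + 2)) : ContDiff ℝ (⊤ : ℕ∞) (crv B K ψ φ ε y z) := by
  have h1 : ContDiff ℝ (⊤ : ℕ∞) (fun s : ℝ => ψ (ε ^ 2 * K.k z) s y) :=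
    hψ.smooth.comp (contDiff_const.prodMk (contDiff_id.prodMk contDiff_const))
  have h2 : ContDiff ℝ (⊤ : ℕ∞) (fun s : ℝ => B.sg ψ (ε ^ 2 * K.k z) s y) :=
    (hS a B ψ hψ).comp (contDiff_const.prodMk (contDiff_id.prodMk contDiff_const))
  have h3 : ContDiff ℝ (⊤ : ℕ∞) (fun s : ℝ => φ 0 (ε * B.sg ψ (ε ^ 2 * K.k z) s y) z) :=
    hφ.smooth.comp (contDiff_const.prodMk ((contDiff_const.mul h2).prodMk contDiff_const))
  exact h1.fst.prodMk h3.fst

/-- scaling of null sets of times -/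
theorem ae_div {p : ℝ → Prop} {r : ℝ} (hr : 0 < r) (h : ∀ᵐ s : ℝ, p s) : ∀ᵐ τ : ℝ, p (τ / r) := by
  rw [ae_iff] at h ⊢
  have h1 : {τ : ℝ | ¬ p (τ / r)} = (fun τ : ℝ => τ * r⁻¹) ⁻¹' {s | ¬ p s} := by
    ext τ
    simp [div_eq_mul_inv]
  rw [h1, Real.volume_preimage_mul_right (inv_ne_zero hr.ne'), h, mul_zero]

end ZERAux

open ZERAux in
theorem zer (hS : Stmt_SGS) (hG : Stmt_GEO) (hN : Stmt_NUL) : Stmt_ZER := by
  intro a n g ϕ k hMet δ hδ f S Z R _ hSR hf0 hZm hZ0 hX D hDf ψ φ hψ hφ hRep U T₁ T₂ κ₀ hReg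
  obtain ⟨Cu, hCu0, hCu⟩ := u_bdd D.B
  obtain ⟨Cm, hCm⟩ := hφ.move
  have hT1 := hReg.neg
  have hT2 := hReg.pos
  -- the time interval
  set T : ℝ := |T₁| + |T₂| + 1 with hTdef
  have hT0 : 0 < T := by positivity
  set C : ℝ := |Cm| * (Cu * T) + 1 with hCdef
  have hC0 : 0 < C := by positivity
  refine ⟨min (min 1 κ₀) (min (δ / 2) C⁻¹), ?_, ?_⟩
  · have := hReg.κpos
    exact lt_min (lt_min one_pos this) (lt_min (by linarith) (inv_pos.2 hC0))
  intro ε hε hε'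
  have hε1 : ε < 1 := hε'.trans_le ((min_le_left _ _).trans (min_le_left _ _))
  have hεκ : ε < κ₀ := hε'.trans_le ((min_le_left _ _).trans (min_le_right _ _))
  have hεδ : ε < δ / 2 := hε'.trans_le ((min_le_right _ _).trans (min_le_left _ _))
  have hεC : ε < C⁻¹ := hε'.trans_le ((min_le_right _ _).trans (min_le_right _ _))
  have hεC' : ε * C < 1 := by
    rw [← inv_mul_cancel₀ hC0.ne']
    exact mul_lt_mul_of_pos_right hεC hC0
  have hsq : ε ^ 2 ≤ ε := by nlinarith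
  unfold WD.Zero
  filter_upwards [hN a n D.B D.K ψ φ hψ hφ ε Z hZm hZ0] with q hq hqU hqk
  obtain ⟨y, z⟩ := q
  simp only at hq hqU hqk
  set κ : ℝ := ε ^ 2 * D.K.k z with hκdef
  have hk0 := k_nonneg D.K z
  have hκ0 : 0 ≤ κ := by positivity
  have hκle : κ ≤ κ₀ := by nlinarith
  set c : ℝ → Sp a n := crv D.B D.K ψ φ ε y z with hcdef
  have hint : ∀ s, D.f (D.cm ψ φ ε s (y, z)).1.1 (D.cm ψ φ ε s (y, z)).2.1 = f (c s) := by
    intro s
    rw [hDf]
    rfl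
  simp only [hint]
  -- the point of the fibre moves by less than 1
  have hmove : ∀ s, |s| ≤ T → ‖(c s).2 - z.1‖ < 1 := by
    intro s hs
    have h1 : ‖(c s).2 - z.1‖ ≤ ‖φ 0 (ε * D.B.sg ψ κ s y) z - z‖ := by
      have : (c s).2 - z.1 = (φ 0 (ε * D.B.sg ψ κ s y) z - z).1 := rfl
      rw [this]
      exact norm_fst_le _
    have h2 := hCm 0 (ε * D.B.sg ψ κ s y) z
    have h3 : |ε * D.B.sg ψ κ s y| ≤ ε * (Cu * T) := by
      rw [abs_mul, abs_of_pos hε]
      refine mul_le_mul_of_nonneg_left ?_ hε.le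
      exact (sg_le D.B hCu ψ κ s y).trans (mul_le_mul_of_nonneg_left hs hCu0)
    have h4 : Cm * |ε * D.B.sg ψ κ s y| ≤ |Cm| * (ε * (Cu * T)) :=
      mul_le_mul (le_abs_self _) h3 (abs_nonneg _) (abs_nonneg _)
    have h5 : |Cm| * (ε * (Cu * T)) + ε = ε * C := by rw [hCdef]; ring
    linarith
  have hTs : ∀ s, T₁ - 1 ≤ s → s ≤ T₂ + 1 → |s| ≤ T := by
    intro s h1 h2
    have h3 := neg_abs_le T₁
    have h4 := le_abs_self T₂
    have h5 := abs_nonneg T₁
    have h6 := abs_nonneg T₂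
    rw [abs_le]
    constructor <;> linarith
  rcases le_or_gt (R + 1) ‖z.1‖ with hz | hz
  · -- the curve does not meet `S`
    have h1 : ∀ s ∈ uIcc T₁ T₂, f (c s) = 0 := by
      intro s hs
      rw [uIcc_of_le (hT1.trans hT2).le] at hs
      apply hf0
      intro hcS
      have h2 := hSR _ hcS
      have h3 := hmove s (hTs s (by linarith [hs.1]) (by linarith [hs.2]))
      have h4 : ‖z.1‖ ≤ ‖(c s).2‖ + ‖(c s).2 - z.1‖ := by
        have := norm_sub_norm_le z.1 (c s).2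
        rw [norm_sub_rev] at this
        linarith
      linarith
    rw [intervalIntegral.integral_congr h1]
    simp
  -- the curve is a geodesic
  obtain ⟨u, v, hu, hv, hloc⟩ := hReg.loc y hqU κ hκ0 hκle
  obtain ⟨hen1, hen2⟩ := hReg.en y hqU κ hκ0 hκle
  set r : ℝ := Real.sqrt (D.B.en κ y) with hrdef
  have hr2 : r ^ 2 = D.B.en κ y := Real.sq_sqrt (by linarith)
  have hr0 : 0 < r := Real.sqrt_pos.2 (by linarith)
  have hr1 : r ≤ 2 := by nlinarith
  set a' : ℝ := max u (T₁ - 1) with ha'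
  set b' : ℝ := min v (T₂ + 1) with hb'
  have ha1 : a' < T₁ := max_lt hu (by linarith)
  have hb1 : T₂ < b' := lt_min hv (by linarith)
  obtain ⟨hgeo, hder⟩ := hG a n g ϕ k hMet D.B D.K ψ φ hψ hφ ε y z r hε hε1.le hqk hr0 hr1
    hr2.symm a' b' (by linarith) (by
      intro s hs
      refine ⟨hloc s ⟨(le_max_left _ _).trans_lt hs.1, hs.2.trans_le (min_le_left _ _)⟩,
        hRep _ ?_⟩
      have h3 := hmove s (hTs s ((le_max_right _ _).trans hs.1.le)
        (hs.2.le.trans (min_le_right _ _)))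
      have h4 : ‖(c s).2‖ ≤ ‖z.1‖ + ‖(c s).2 - z.1‖ := by
        have := norm_sub_norm_le (c s).2 z.1
        linarith
      show ‖(c s).2‖ < R + 2
      linarith)
  set γ : ℝ → Sp a n := fun τ => c (τ / r) with hγ
  have hγr : ∀ s, γ (r * s) = c s := by
    intro s
    simp only [hγ]
    rw [mul_div_cancel_left₀ _ hr0.ne']
  have hout := hReg.out y hqU κ hκ0 hκle
  have hsm : ContDiff ℝ 1 γ := by
    have h1 : ContDiff ℝ (⊤ : ℕ∞) c := crv_smooth hS D.B D.K ψ φ hψ hφ ε y z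
    have h2 : ContDiff ℝ 1 c := h1.of_le (by exact_mod_cast le_top)
    exact h2.comp (contDiff_id.div_const r)
  have hz0 := hX (r * T₁) (r * T₂) γ ⟨mul_le_mul_of_nonneg_left (hT1.trans hT2).le hr0.le, hsm,
    r * a', r * b', mul_lt_mul_of_pos_left ha1 hr0, mul_lt_mul_of_pos_left hb1 hr0, hgeo, by
      intro τ hτ
      have h1 := hder τ hτ
      show ϕ (γ τ).1 ^ 2 * k (γ τ).2 (deriv γ τ).2 (deriv γ τ).2 < δ
      refine lt_of_eq_of_lt h1 ?_
      rw [div_lt_iff₀ (by positivity), hr2]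
      have h2 : ε ^ 2 * D.K.k z ≤ ε ^ 2 := by nlinarith [sq_nonneg ε]
      have h3 : δ * (1 / 2) ≤ δ * D.B.en κ y := mul_le_mul_of_nonneg_left hen1.le hδ.le
      linarith⟩ (by
      rw [hγr]
      intro h
      exact hout.1 ⟨_, h, rfl⟩) (by
      rw [hγr]
      intro h
      exact hout.2 ⟨_, h, rfl⟩) (ae_restrict_of_ae (ae_div hr0 hq))
  have h1 := intervalIntegral.integral_comp_div (a := r * T₁) (b := r * T₂) (fun s => f (c s))
    hr0.ne'
  rw [mul_div_cancel_left₀ _ hr0.ne', mul_div_cancel_left₀ _ hr0.ne'] at h1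
  have h2 : r • ∫ s in T₁..T₂, f (c s) = 0 := h1.symm.trans hz0
  exact (smul_eq_zero.1 h2).resolve_left hr0.ne'

end Pool.Agent.WPG
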