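import Pool.Agent.WPG.Stmts

set_option autoImplicit false

namespace Pool.Agent.WPG

open MeasureTheory Set Filter Topology

namespace ZXAux

variable {n : ℕ}

/-! ### traces -/

theorem trace_blocks (T : P n →ₗ[ℝ] P n) :
    LinearMap.trace ℝ (P n) T =
      LinearMap.trace ℝ (E n) ((LinearMap.fst ℝ (E n) (E n)).comp (T.comp (LinearMap.inl ℝ _ _))) +
      LinearMap.trace ℝ (E n) ((LinearMap.snd ℝ (E n) (E n)).comp
        (T.comp (LinearMap.inr ℝ _ _))) := by
  set i1 := LinearMap.inl ℝ (E n) (E n)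
  set i2 := LinearMap.inr ℝ (E n) (E n)
  set p1 := LinearMap.fst ℝ (E n) (E n)
  set p2 := LinearMap.snd ℝ (E n) (E n)
  have h : T = (T.comp i1).comp p1 + (T.comp i2).comp p2 := by
    apply LinearMap.ext
    intro z
    simp only [LinearMap.add_apply, LinearMap.comp_apply, i1, i2, p1, p2, LinearMap.inl_apply,
      LinearMap.inr_apply, LinearMap.fst_apply, LinearMap.snd_apply]
    rw [← map_add]
    simp
  conv_lhs => rw [h]
  rw [map_add, LinearMap.trace_comp_comm', LinearMap.trace_comp_comm' _ p2]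

/-! ### the derivatives -/

variable (D : HD n)

theorem udiff : Differentiable ℝ D.u := D.us.differentiable (by simp)

theorem Adiff : Differentiable ℝ D.A := D.As.differentiable (by simp)

theorem dA_smooth : ContDiff ℝ (⊤ : ℕ∞) (fderiv ℝ D.A) := D.As.fderiv_right (by simp)

theorem gradu_smooth : ContDiff ℝ (⊤ : ℕ∞) (gradient D.u) := by
  have h1 : ContDiff ℝ (⊤ : ℕ∞) (fderiv ℝ D.u) := D.us.fderiv_right (by simp)
  exact (InnerProductSpace.toDual ℝ (E n)).symm.contDiff.comp h1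

/-- `T ↦ ⟨q, T p⟩` -/
noncomputable def la (p q : E n) : (E n →L[ℝ] E n) →L[ℝ] ℝ :=
  (innerSL ℝ q).comp (ContinuousLinearMap.apply ℝ (E n) p)

theorem la_apply (p q : E n) (T : E n →L[ℝ] E n) : la p q T = inner ℝ q (T p) := by
  simp [la]

theorem hasla (p q x : E n) : HasFDerivAt (fun y => inner ℝ q (D.A y p))
    ((la p q).comp (fderiv ℝ D.A x)) x := by
  have h := (la p q).hasFDerivAt.comp x (Adiff D x).hasFDerivAt
  have h2 : (fun y => inner ℝ q (D.A y p)) = (la p q) ∘ D.A := by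
    funext y
    rw [Function.comp_apply, la_apply]
  rw [h2]
  exact h

/-- the derivative of `A` is symmetric -/
theorem dA_sym (x v p q : E n) :
    inner ℝ (fderiv ℝ D.A x v p) q = inner ℝ p (fderiv ℝ D.A x v q) := by
  have h1 := hasla D p q x
  have h2 := hasla D q p x
  have h3 : (fun y => inner ℝ q (D.A y p)) = fun y => inner ℝ p (D.A y q) := by
    funext y
    rw [real_inner_comm, D.sym]
  rw [h3] at h1
  have h4 := h1.unique h2
  have h5 := DFunLike.congr_fun h4 v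
  simp only [ContinuousLinearMap.comp_apply, la_apply] at h5
  rw [real_inner_comm, h5]

/-- the gradient of the kinetic energy -/
noncomputable def G (z : P n) : E n := gradient (fun x => inner ℝ (D.A x z.2) z.2) z.1

theorem G_inner (z : P n) (v : E n) :
    inner ℝ (G D z) v = inner ℝ (fderiv ℝ D.A z.1 v z.2) z.2 := by
  have h1 := hasla D z.2 z.2 z.1
  have h2 : (fun x => inner ℝ (D.A x z.2) z.2) = fun y => inner ℝ z.2 (D.A y z.2) := by
    funext y
    rw [real_inner_comm]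
  unfold G gradient
  rw [h2, h1.fderiv, InnerProductSpace.toDual_symm_apply, ContinuousLinearMap.comp_apply, la_apply,
    real_inner_comm]

theorem G_eq (z : P n) : G D z = ∑ i : Fin n,
    (inner ℝ (fderiv ℝ D.A z.1 (EuclideanSpace.single i 1) z.2) z.2) •
      (EuclideanSpace.single i (1 : ℝ)) := by
  have h := (EuclideanSpace.basisFun (Fin n) ℝ).sum_repr' (G D z)
  rw [← h]
  refine Finset.sum_congr rfl fun i _ => ?_
  rw [EuclideanSpace.basisFun_apply, real_inner_comm, G_inner]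

theorem G_smooth : ContDiff ℝ (⊤ : ℕ∞) (G D) := by
  have h : G D = fun z => ∑ i : Fin n,
    (inner ℝ (fderiv ℝ D.A z.1 (EuclideanSpace.single i 1) z.2) z.2) •
      (EuclideanSpace.single i (1 : ℝ)) := funext fun z => G_eq D z
  rw [h]
  refine ContDiff.sum fun i _ => ?_
  have h1 : ContDiff ℝ (⊤ : ℕ∞) (fun z : P n =>
      inner ℝ (fderiv ℝ D.A z.1 (EuclideanSpace.single i 1) z.2) z.2) := by
    refine ContDiff.inner ℝ (ContDiff.clm_apply (ContDiff.clm_apply ?_ contDiff_const)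
      contDiff_snd) contDiff_snd
    exact (dA_smooth D).comp contDiff_fst
  exact h1.smul contDiff_const

theorem Ap_smooth : ContDiff ℝ (⊤ : ℕ∞) (fun z : P n => D.A z.1 z.2) :=
  ContDiff.clm_apply (D.As.comp contDiff_fst) contDiff_snd

theorem k_smooth : ContDiff ℝ (⊤ : ℕ∞) D.k := (Ap_smooth D).inner ℝ contDiff_snd

theorem en_smooth : ContDiff ℝ (⊤ : ℕ∞) (fun q : ℝ × P n => D.en q.1 q.2) := by
  unfold HD.en
  exact ((k_smooth D).comp contDiff_snd).add (contDiff_fst.mul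
    (D.us.comp (contDiff_fst.comp contDiff_snd)))

theorem Y_eq (κ : ℝ) (z : P n) : D.Y κ z =
    (D.A z.1 z.2, -((1 / 2 : ℝ) • G D z) - (κ / 2) • gradient D.u z.1) := rfl

theorem Y_smooth : ContDiff ℝ (⊤ : ℕ∞) (fun q : ℝ × P n => D.Y q.1 q.2) := by
  have h : (fun q : ℝ × P n => D.Y q.1 q.2) = fun q : ℝ × P n => (D.A q.2.1 q.2.2,
    -((1 / 2 : ℝ) • G D q.2) - (q.1 / 2) • gradient D.u q.2.1) := rfl
  rw [h]
  have h0 : ContDiff ℝ (⊤ : ℕ∞) (fun q : ℝ × P n => G D q.2) := (G_smooth D).comp contDiff_snd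
  have h1 : ContDiff ℝ (⊤ : ℕ∞) (fun q : ℝ × P n => (1 / 2 : ℝ) • G D q.2) :=
    h0.const_smul (1 / 2 : ℝ)
  have h2 : ContDiff ℝ (⊤ : ℕ∞) (fun q : ℝ × P n => (q.1 / 2) • gradient D.u q.2.1) :=
    (contDiff_fst.div_const 2).smul ((gradu_smooth D).comp (contDiff_fst.comp contDiff_snd))
  exact ContDiff.prodMk ((Ap_smooth D).comp contDiff_snd) (h1.neg.sub h2)

theorem Y_smooth' (κ : ℝ) : ContDiff ℝ (⊤ : ℕ∞) (D.Y κ) :=
  (Y_smooth D).comp (contDiff_const.prodMk contDiff_id)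

/-- the derivative of the energy -/
theorem den (κ : ℝ) (z y : P n) : fderiv ℝ (D.en κ) z y =
    inner ℝ (G D z) y.1 + 2 * inner ℝ (D.A z.1 z.2) y.2 + κ * inner ℝ (gradient D.u z.1) y.1 := by
  have h1 : HasFDerivAt (fun z : P n => D.A z.1)
      ((fderiv ℝ D.A z.1).comp (ContinuousLinearMap.fst ℝ (E n) (E n))) z :=
    (Adiff D z.1).hasFDerivAt.comp z hasFDerivAt_fst
  have h2 := h1.clm_apply (hasFDerivAt_snd (𝕜 := ℝ) (E := E n) (F := E n) (p := z))
  have h3 := h2.inner ℝ (hasFDerivAt_snd (𝕜 := ℝ) (E := E n) (F := E n) (p := z))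
  have h4 : HasFDerivAt (fun z : P n => D.u z.1)
      ((fderiv ℝ D.u z.1).comp (ContinuousLinearMap.fst ℝ (E n) (E n))) z :=
    (udiff D z.1).hasFDerivAt.comp z hasFDerivAt_fst
  have h5 := h3.add (h4.const_mul κ)
  have h6 : fderiv ℝ (D.en κ) z = _ := h5.fderiv
  have h7 : fderiv ℝ D.u z.1 y.1 = inner ℝ (gradient D.u z.1) y.1 := by
    rw [(udiff D z.1).hasGradientAt.hasFDerivAt.fderiv]
    simp
  have h8 : inner ℝ (D.A z.1 y.2) z.2 = inner ℝ (D.A z.1 z.2) y.2 := by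
    rw [D.sym, real_inner_comm]
  rw [h6]
  simp only [ContinuousLinearMap.add_apply, ContinuousLinearMap.smul_apply,
    ContinuousLinearMap.comp_apply, ContinuousLinearMap.coe_fst', ContinuousLinearMap.coe_snd',
    ContinuousLinearMap.prod_apply, fderivInnerCLM_apply, ContinuousLinearMap.flip_apply,
    smul_eq_mul, h7, inner_add_left, h8, G_inner]
  ring

/-- the energy is conserved -/
theorem denY (κ : ℝ) (z : P n) : fderiv ℝ (D.en κ) z (D.Y κ z) = 0 := by
  rw [den, Y_eq]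
  simp only [inner_sub_right, inner_neg_right, inner_smul_right]
  rw [real_inner_comm (D.A z.1 z.2) (G D z), real_inner_comm (D.A z.1 z.2) (gradient D.u z.1)]
  ring

theorem tr1 (κ : ℝ) (z : P n) (e : E n) :
    inner ℝ e (fderiv ℝ (D.Y κ) z (e, 0)).1 = inner ℝ (fderiv ℝ D.A z.1 e z.2) e := by
  have hd : HasFDerivAt (D.Y κ) (fderiv ℝ (D.Y κ) z) z :=
    ((Y_smooth' D κ).differentiable (by simp) z).hasFDerivAt
  have h1 := hasFDerivAt_fst (𝕜 := ℝ) (E := E n) (F := E n) (p := D.Y κ z) |>.comp z hd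
  have h2 : HasFDerivAt (fun z : P n => D.A z.1)
      ((fderiv ℝ D.A z.1).comp (ContinuousLinearMap.fst ℝ (E n) (E n))) z :=
    (Adiff D z.1).hasFDerivAt.comp z hasFDerivAt_fst
  have h3 := h2.clm_apply (hasFDerivAt_snd (𝕜 := ℝ) (E := E n) (F := E n) (p := z))
  have h4 : (ContinuousLinearMap.fst ℝ (E n) (E n)).comp (fderiv ℝ (D.Y κ) z) = _ := h1.unique h3
  have h5 := DFunLike.congr_fun h4 (e, 0)
  simp only [ContinuousLinearMap.add_apply, ContinuousLinearMap.comp_apply,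
    ContinuousLinearMap.coe_fst', ContinuousLinearMap.coe_snd', ContinuousLinearMap.flip_apply,
    map_zero, zero_add] at h5
  rw [h5, real_inner_comm]

theorem tr2 (κ : ℝ) (z : P n) (e : E n) :
    inner ℝ e (fderiv ℝ (D.Y κ) z (0, e)).2 = -inner ℝ (fderiv ℝ D.A z.1 e z.2) e := by
  have hd : HasFDerivAt (D.Y κ) (fderiv ℝ (D.Y κ) z) z :=
    ((Y_smooth' D κ).differentiable (by simp) z).hasFDerivAt
  have h0 : HasDerivAt (fun t : ℝ => ((z.1, z.2 + t • e) : P n)) ((0, e) : P n) 0 := by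
    have h := (hasDerivAt_id (0 : ℝ)).smul_const e |>.const_add z.2
    have h' := (hasDerivAt_const (0 : ℝ) z.1).prodMk h
    simpa using h'
  have hz : ((z.1, z.2 + (0 : ℝ) • e) : P n) = z := by simp
  have hd' : HasFDerivAt (D.Y κ) (fderiv ℝ (D.Y κ) z) ((z.1, z.2 + (0 : ℝ) • e) : P n) := by
    rw [hz]
    exact hd
  have h1 := hd'.comp_hasDerivAt (0 : ℝ) h0
  have h2 := (innerSL ℝ e).hasFDerivAt.comp_hasDerivAt (0 : ℝ)
    ((hasFDerivAt_snd (𝕜 := ℝ) (E := E n) (F := E n)).comp_hasDerivAt (0 : ℝ) h1)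
  have h := (hasDerivAt_id (0 : ℝ)).smul_const e |>.const_add z.2
  have h4 := (fderiv ℝ D.A z.1 e).hasFDerivAt.comp_hasDerivAt (0 : ℝ) h
  have h5 := h4.inner ℝ h
  have h6 := ((h5.const_mul (1 / 2 : ℝ)).neg).sub
    (hasDerivAt_const (0 : ℝ) ((κ / 2) * inner ℝ e (gradient D.u z.1)))
  have h7 := h6.unique (h2.congr_of_eventuallyEq (Filter.Eventually.of_forall fun t => ?_))
  · simp only [id, zero_smul, add_zero, one_smul, Function.comp_apply, innerSL_apply_apply,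
      ContinuousLinearMap.coe_snd', sub_zero, dA_sym D z.1 e e z.2] at h7
    rw [← h7, real_inner_comm (fderiv ℝ D.A z.1 e z.2) e]
    ring
  · simp only [Function.comp_apply, Y_eq, innerSL_apply_apply, inner_sub_right, inner_neg_right,
      inner_smul_right, Pi.sub_apply, Pi.neg_apply, id]
    rw [real_inner_comm (G D _) e, G_inner]

theorem trY (κ : ℝ) (z : P n) :
    LinearMap.trace ℝ (P n) (fderiv ℝ (D.Y κ) z).toLinearMap = 0 := by
  rw [trace_blocks, LinearMap.trace_eq_sum_inner _ (EuclideanSpace.basisFun (Fin n) ℝ),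
    LinearMap.trace_eq_sum_inner _ (EuclideanSpace.basisFun (Fin n) ℝ), ← Finset.sum_add_distrib]
  refine Finset.sum_eq_zero fun i _ => ?_
  have h1 := tr1 D κ z (EuclideanSpace.basisFun (Fin n) ℝ i)
  have h2 := tr2 D κ z (EuclideanSpace.basisFun (Fin n) ℝ i)
  simp only [LinearMap.comp_apply, LinearMap.inl_apply, LinearMap.inr_apply, LinearMap.fst_apply,
    LinearMap.snd_apply, ContinuousLinearMap.coe_coe]
  rw [h1, h2]
  ring

/-! ### the cut-offs -/

/-- the cut-off function -/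
noncomputable def chi (r : ℝ) : ℝ := Real.smoothTransition (5 - r)

theorem chi_smooth : ContDiff ℝ (⊤ : ℕ∞) chi :=
  Real.smoothTransition.contDiff.comp (contDiff_const.sub contDiff_id)

theorem chi_one {r : ℝ} (h : r ≤ 4) : chi r = 1 :=
  Real.smoothTransition.one_of_one_le (by linarith)

theorem chi_zero {r : ℝ} (h : 5 ≤ r) : chi r = 0 :=
  Real.smoothTransition.zero_of_nonpos (by linarith)

/-- the cut-off of `κ` -/
noncomputable def th (κ : ℝ) : ℝ :=
  κ * (Real.smoothTransition (κ + 2) * Real.smoothTransition (3 - κ))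

theorem th_smooth : ContDiff ℝ (⊤ : ℕ∞) th :=
  contDiff_id.mul ((Real.smoothTransition.contDiff.comp (contDiff_id.add contDiff_const)).mul
    (Real.smoothTransition.contDiff.comp (contDiff_const.sub contDiff_id)))

theorem th_eq {κ : ℝ} (h0 : 0 ≤ κ) (h1 : κ ≤ 1) : th κ = κ := by
  unfold th
  rw [Real.smoothTransition.one_of_one_le (by linarith),
    Real.smoothTransition.one_of_one_le (by linarith)]
  ring

theorem th_low {κ : ℝ} (h : κ ≤ -2) : th κ = 0 := by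
  unfold th
  rw [Real.smoothTransition.zero_of_nonpos (by linarith : κ + 2 ≤ 0)]
  ring

theorem th_high {κ : ℝ} (h : 3 ≤ κ) : th κ = 0 := by
  unfold th
  rw [Real.smoothTransition.zero_of_nonpos (by linarith : 3 - κ ≤ 0)]
  ring

theorem th_abs (κ : ℝ) : |th κ| ≤ 3 := by
  by_cases h1 : κ ≤ -2
  · rw [th_low h1, abs_zero]
    norm_num
  by_cases h2 : 3 ≤ κ
  · rw [th_high h2, abs_zero]
    norm_num
  unfold th
  rw [abs_mul, abs_mul, abs_of_nonneg (Real.smoothTransition.nonneg _),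
    abs_of_nonneg (Real.smoothTransition.nonneg _)]
  have h3 : |κ| ≤ 3 := abs_le.2 ⟨by linarith, by linarith⟩
  have h4 : Real.smoothTransition (κ + 2) * Real.smoothTransition (3 - κ) ≤ 1 :=
    mul_le_one₀ (Real.smoothTransition.le_one _) (Real.smoothTransition.nonneg _)
      (Real.smoothTransition.le_one _)
  have h5 : 0 ≤ Real.smoothTransition (κ + 2) * Real.smoothTransition (3 - κ) :=
    mul_nonneg (Real.smoothTransition.nonneg _) (Real.smoothTransition.nonneg _)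
  nlinarith [abs_nonneg κ]

/-- the field -/
noncomputable def Z (κ : ℝ) (z : P n) : P n := chi (D.en (th κ) z) • D.Y (th κ) z

theorem Z_smooth : ContDiff ℝ (⊤ : ℕ∞) (fun q : ℝ × P n => Z D q.1 q.2) := by
  have h1 : ContDiff ℝ (⊤ : ℕ∞) (fun q : ℝ × P n => ((th q.1, q.2) : ℝ × P n)) :=
    (th_smooth.comp contDiff_fst).prodMk contDiff_snd
  exact (chi_smooth.comp ((en_smooth D).comp h1)).smul ((Y_smooth D).comp h1)

theorem hasZ (κ : ℝ) (z : P n) : HasFDerivAt (Z D κ)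
    (chi (D.en (th κ) z) • fderiv ℝ (D.Y (th κ)) z +
      (deriv chi (D.en (th κ) z) • fderiv ℝ (D.en (th κ)) z).smulRight (D.Y (th κ) z)) z := by
  have h1 : HasDerivAt chi (deriv chi (D.en (th κ) z)) (D.en (th κ) z) :=
    (chi_smooth.differentiable (by simp) _).hasDerivAt
  have h2 : ContDiff ℝ (⊤ : ℕ∞) (D.en (th κ)) :=
    (en_smooth D).comp (contDiff_const.prodMk contDiff_id)
  exact (h1.comp_hasFDerivAt z (h2.differentiable (by simp) z).hasFDerivAt).smul
    (((Y_smooth' D (th κ)).differentiable (by simp) z).hasFDerivAt)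

theorem trZ (κ : ℝ) (z : P n) :
    LinearMap.trace ℝ (P n) (fderiv ℝ (Z D κ) z).toLinearMap = 0 := by
  rw [(hasZ D κ z).fderiv]
  have h : (chi (D.en (th κ) z) • fderiv ℝ (D.Y (th κ)) z +
      (deriv chi (D.en (th κ) z) • fderiv ℝ (D.en (th κ)) z).smulRight
        (D.Y (th κ) z)).toLinearMap =
      chi (D.en (th κ) z) • (fderiv ℝ (D.Y (th κ)) z).toLinearMap +
      (deriv chi (D.en (th κ) z) • (fderiv ℝ (D.en (th κ)) z).toLinearMap).smulRight
        (D.Y (th κ) z) := by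
    apply LinearMap.ext
    intro v
    rfl
  rw [h, map_add, map_smul, trY, LinearMap.trace_smulRight, smul_zero, zero_add,
    LinearMap.smul_apply, ContinuousLinearMap.coe_coe, denY, smul_zero]

/-! ### bounds -/

theorem u_bdd : ∃ U : ℝ, 0 ≤ U ∧ ∀ x, |D.u x| ≤ U := by
  obtain ⟨R, u₀, A₀, hc⟩ := D.con
  obtain ⟨M, hM⟩ := (isCompact_closedBall (0 : E n) |R|).exists_bound_of_continuousOn
    D.us.continuous.continuousOn
  refine ⟨max (max M |u₀|) 0, le_max_right _ _, fun x => ?_⟩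
  by_cases h : ‖x‖ ≤ |R|
  · have := hM x (mem_closedBall_zero_iff.2 h)
    rw [Real.norm_eq_abs] at this
    exact this.trans ((le_max_left _ _).trans (le_max_left _ _))
  · rw [(hc x ((le_abs_self R).trans (not_le.1 h).le)).2]
    exact (le_max_right _ _).trans (le_max_left _ _)

theorem bdd {V W : Type} [NormedAddCommGroup V] [NormedSpace ℝ V] [NormedAddCommGroup W]
    [NormedSpace ℝ W] (g : V → W) (hg : ContDiff ℝ (⊤ : ℕ∞) g) (K : Set V) (hK : IsCompact K)
    (h : ∀ q, (g =ᶠ[𝓝 q] fun _ => 0) ∨ ∃ v, q + v ∈ K ∧ g =ᶠ[𝓝 q] fun y => g (y + v)) :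
    ∃ M : ℝ, 0 ≤ M ∧ ∀ q, ‖g q‖ ≤ M ∧ ‖fderiv ℝ g q‖ ≤ M := by
  have hcont : Continuous (fun z => fderiv ℝ g z) := hg.continuous_fderiv (by simp)
  obtain ⟨M1, hM1⟩ := hK.exists_bound_of_continuousOn hg.continuous.continuousOn
  obtain ⟨M2, hM2⟩ := hK.exists_bound_of_continuousOn hcont.continuousOn
  refine ⟨max (max M1 M2) 0, le_max_right _ _, fun z => ?_⟩
  rcases h z with h1 | ⟨v, hv, h1⟩
  · rw [h1.fderiv_eq, h1.eq_of_nhds]
    simp
  · rw [h1.fderiv_eq, h1.eq_of_nhds, fderiv_comp_add_right]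
    exact ⟨(hM1 _ hv).trans ((le_max_left _ _).trans (le_max_left _ _)),
      (hM2 _ hv).trans ((le_max_right _ _).trans (le_max_left _ _))⟩

theorem th_near (κ : ℝ) : ∃ c : ℝ, κ + c ∈ Set.Icc (-3 : ℝ) 4 ∧
    ∀ᶠ t in 𝓝 κ, th t = th (t + c) := by
  by_cases h1 : κ < -2
  · refine ⟨-3 - κ, by constructor <;> linarith, ?_⟩
    have h2 : Set.Ioo (κ - 1) (-2 : ℝ) ∈ 𝓝 κ := Ioo_mem_nhds (by linarith) h1
    have h3 : Set.Ioo (κ - 1) (κ + 1) ∈ 𝓝 κ := Ioo_mem_nhds (by linarith) (by linarith)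
    filter_upwards [h2, h3] with t ht ht'
    rw [th_low ht.2.le, th_low (by linarith [ht'.2])]
  by_cases h2 : 3 < κ
  · refine ⟨4 - κ, by constructor <;> linarith, ?_⟩
    have h3 : Set.Ioi (3 : ℝ) ∈ 𝓝 κ := Ioi_mem_nhds h2
    have h4 : Set.Ioo (κ - 1) (κ + 1) ∈ 𝓝 κ := Ioo_mem_nhds (by linarith) (by linarith)
    filter_upwards [h3, h4] with t ht ht'
    rw [th_high (le_of_lt ht), th_high (by linarith [ht'.1])]
  · exact ⟨0, ⟨by linarith, by linarith⟩, Filter.Eventually.of_forall fun t => by rw [add_zero]⟩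

theorem x_near (R : ℝ) (x : E n) : ∃ c : E n, ‖x + c‖ ≤ |R| + 1 ∧
    ∀ᶠ y in 𝓝 x, (y = y + c ∨ (R < ‖y‖ ∧ R < ‖y + c‖)) := by
  by_cases h1 : ‖x‖ ≤ |R| + 1
  · exact ⟨0, by simpa using h1, Filter.Eventually.of_forall fun t => Or.inl (by rw [add_zero])⟩
  · have h2 : 0 < ‖x‖ := by
      have := abs_nonneg R
      linarith
    have h3 : ‖x + ((|R| + 1) / ‖x‖ - 1) • x‖ = |R| + 1 := by
      have h4 : x + ((|R| + 1) / ‖x‖ - 1) • x = ((|R| + 1) / ‖x‖) • x := by
        rw [sub_smul, one_smul]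
        abel
      rw [h4, norm_smul, Real.norm_eq_abs, abs_of_nonneg (by positivity)]
      field_simp
    refine ⟨((|R| + 1) / ‖x‖ - 1) • x, h3.le, ?_⟩
    have h5 : R < ‖x‖ := by linarith [le_abs_self R, not_le.1 h1]
    have h6 : R < ‖x + ((|R| + 1) / ‖x‖ - 1) • x‖ := by
      rw [h3]
      linarith [le_abs_self R]
    have h7 : ∀ᶠ y in 𝓝 x, R < ‖y‖ :=
      (isOpen_lt continuous_const continuous_norm).mem_nhds h5
    have h8 : ∀ᶠ y in 𝓝 x, R < ‖y + ((|R| + 1) / ‖x‖ - 1) • x‖ :=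
      (isOpen_lt continuous_const (continuous_norm.comp
        (continuous_id.add continuous_const))).mem_nhds h6
    filter_upwards [h7, h8] with y h9 h10
    exact Or.inr ⟨h9, h10⟩

/-- far away the coefficients are constant -/
theorem far {R u₀ : ℝ} {A₀ : E n →L[ℝ] E n} (hc : ∀ x, R ≤ ‖x‖ → D.A x = A₀ ∧ D.u x = u₀)
    {x : E n} (h : R < ‖x‖) : D.A x = A₀ ∧ D.u x = u₀ ∧ fderiv ℝ D.A x = 0 ∧
      gradient D.u x = 0 := by
  have h2 : {y : E n | R < ‖y‖} ∈ 𝓝 x :=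
    (isOpen_lt continuous_const continuous_norm).mem_nhds h
  have h3 : D.A =ᶠ[𝓝 x] fun _ => A₀ := by
    filter_upwards [h2] with y hy
    exact (hc y (le_of_lt hy)).1
  have h4 : D.u =ᶠ[𝓝 x] fun _ => u₀ := by
    filter_upwards [h2] with y hy
    exact (hc y (le_of_lt hy)).2
  refine ⟨(hc x h.le).1, (hc x h.le).2, ?_, ?_⟩
  · rw [h3.fderiv_eq]
    simp
  · unfold gradient
    rw [h4.fderiv_eq]
    simp

theorem Z_far {R u₀ : ℝ} {A₀ : E n →L[ℝ] E n} (hc : ∀ x, R ≤ ‖x‖ → D.A x = A₀ ∧ D.u x = u₀)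
    {x : E n} (h : R < ‖x‖) (κ : ℝ) (p : E n) : Z D κ (x, p) =
      chi (inner ℝ (A₀ p) p + th κ * u₀) • (A₀ p, (0 : E n)) := by
  obtain ⟨h1, h2, h3, h4⟩ := far D hc h
  have h5 : G D (x, p) = 0 := by
    rw [G_eq]
    simp [h3]
  unfold Z
  rw [Y_eq, h5]
  unfold HD.en HD.k
  simp only [h1, h2, h4, smul_zero, neg_zero, sub_zero]

theorem bounded : ∃ M : ℝ, 0 ≤ M ∧ ∀ q : ℝ × P n,
    ‖Z D q.1 q.2‖ ≤ M ∧ ‖fderiv ℝ (fun q : ℝ × P n => Z D q.1 q.2) q‖ ≤ M := by
  obtain ⟨U, hU0, hU⟩ := u_bdd D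
  obtain ⟨R, u₀, A₀, hc⟩ := D.con
  refine bdd (fun q : ℝ × P n => Z D q.1 q.2) (Z_smooth D)
    (Set.Icc (-3 : ℝ) 4 ×ˢ (Metric.closedBall (0 : E n) (|R| + 1) ×ˢ
      Metric.closedBall (0 : E n) (√((5 + 3 * U) / D.a))))
    (isCompact_Icc.prod ((isCompact_closedBall _ _).prod (isCompact_closedBall _ _))) ?_
  rintro ⟨κ, x, p⟩
  by_cases h1 : (5 + 3 * U) / D.a < ‖p‖ ^ 2
  · left
    have h2 : {q : ℝ × P n | (5 + 3 * U) / D.a < ‖q.2.2‖ ^ 2} ∈ 𝓝 ((κ, x, p) : ℝ × P n) :=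
      (isOpen_lt continuous_const (by fun_prop)).mem_nhds h1
    filter_upwards [h2] with q hq
    have h3 : 5 ≤ D.en (th q.1) q.2 := by
      have h4 := D.lo q.2.1 q.2.2
      have h5 := abs_le.1 (th_abs q.1)
      have h6 := abs_le.1 (hU q.2.1)
      have h7 : 5 + 3 * U < D.a * ‖q.2.2‖ ^ 2 := by
        have h8 : (5 + 3 * U) / D.a < ‖q.2.2‖ ^ 2 := hq
        rw [div_lt_iff₀ D.a0] at h8
        linarith
      have h9 : |th q.1 * D.u q.2.1| ≤ 3 * U := by
        rw [abs_mul]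
        exact mul_le_mul (th_abs _) (hU _) (abs_nonneg _) (by norm_num)
      have h10 := (abs_le.1 h9).1
      unfold HD.en HD.k
      linarith
    show Z D q.1 q.2 = 0
    unfold Z
    rw [chi_zero h3, zero_smul]
  · right
    obtain ⟨c, hcI, hct⟩ := th_near κ
    obtain ⟨d, hd, hdx⟩ := x_near R x
    refine ⟨(c, d, 0), ?_, ?_⟩
    · refine Set.mem_prod.2 ⟨hcI, Set.mem_prod.2 ⟨mem_closedBall_zero_iff.2 hd,
        mem_closedBall_zero_iff.2 ?_⟩⟩
      show ‖p + 0‖ ≤ _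
      rw [add_zero]
      exact Real.le_sqrt_of_sq_le (not_lt.1 h1)
    · have h2 : ∀ᶠ q in 𝓝 ((κ, x, p) : ℝ × P n), th q.1 = th (q.1 + c) :=
        (continuous_fst.tendsto ((κ, x, p) : ℝ × P n)).eventually hct
      have h3 : ∀ᶠ q in 𝓝 ((κ, x, p) : ℝ × P n),
          (q.2.1 = q.2.1 + d ∨ (R < ‖q.2.1‖ ∧ R < ‖q.2.1 + d‖)) :=
        ((continuous_fst.comp continuous_snd).tendsto ((κ, x, p) : ℝ × P n)).eventually hdx
      filter_upwards [h2, h3]
      rintro ⟨κ', x', p'⟩ h4 h5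
      show Z D κ' (x', p') = Z D (κ' + c) (x' + d, p' + 0)
      rw [add_zero]
      have h6 : Z D κ' = Z D (κ' + c) := by
        funext z
        unfold Z
        rw [← (show th κ' = th (κ' + c) from h4)]
      rw [h6]
      rcases h5 with h7 | ⟨h7, h8⟩
      · rw [← (show x' = x' + d from h7)]
      · rw [Z_far D hc h7, Z_far D hc h8]

end ZXAux

open ZXAux in
theorem zx : Stmt_ZX := by
  intro n D
  obtain ⟨M, hM0, hM⟩ := bounded D
  refine ⟨Z D, ⟨M, hM0⟩, M, Z_smooth D, ?_, fun κ z => (hM (κ, z)).1, trZ D, ?_, ?_⟩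
  · exact lipschitzWith_of_nnnorm_fderiv_le ((Z_smooth D).differentiable (by simp))
      fun z => (hM z).2
  · intro κ z h0 h1
    unfold Z
    rw [th_eq h0 h1, map_smul, denY, smul_zero]
  · intro κ z h0 h1 hz
    unfold Z
    rw [th_eq h0 h1, chi_one hz, one_smul]

end Pool.Agent.WPG
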