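import Pool.Agent.WPG.Chg
import Pool.Agent.WPG.Cjs
import Pool.Agent.WPG.Clo
import Pool.Agent.WPG.Core
import Pool.Agent.WPG.Det
import Pool.Agent.WPG.Dtf
import Pool.Agent.WPG.Esc
import Pool.Agent.WPG.Eta
import Pool.Agent.WPG.ExpM
import Pool.Agent.WPG.Fl
import Pool.Agent.WPG.Frm
import Pool.Agent.WPG.GeoM
import Pool.Agent.WPG.Key
import Pool.Agent.WPG.Lode
import Pool.Agent.WPG.Modh
import Pool.Agent.WPG.Mom
import Pool.Agent.WPG.Mpg
import Pool.Agent.WPG.Mpp
import Pool.Agent.WPG.NulSet
import Pool.Agent.WPG.One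
import Pool.Agent.WPG.Opa
import Pool.Agent.WPG.Ord
import Pool.Agent.WPG.Sfa
import Pool.Agent.WPG.Sfb
import Pool.Agent.WPG.Sfc
import Pool.Agent.WPG.Sgs
import Pool.Agent.WPG.Sym
import Pool.Agent.WPG.Tay
import Pool.Agent.WPG.Tst
import Pool.Agent.WPG.Uni
import Pool.Agent.WPG.Zer
import Pool.Agent.WPG.Zx
import Pool.Agent.WPD.Gf
import Pool.Agent.WPD.Lv

/-!
# All the pieces of the proof put together

`DET : Stmt_DET` and `ONE : Stmt_ONE` are the two theorems of the file `Stmts.lean` which say what
is proved about general warped products; no hypotheses are left.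
-/

set_option autoImplicit false

namespace Pool.Agent.WPG

theorem SFC : Stmt_SFC := sfc sfa (sfb sfa)

theorem MPP : Stmt_MPP := mpp sgs mpg

theorem ORD : Stmt_ORD := ord_ sgs dtf (tay dtf) (exp_ sgs) (chg sgs MPP)

theorem KEY : Stmt_KEY := key dtf ORD (cjs dtf) tst_ sgs

theorem CLO : Stmt_CLO := clo opa (sym_ opa) frm

theorem UNI : Stmt_UNI := uni opa CLO (lode SFC)

theorem CORE : Stmt_CORE := core sgs eta KEY UNI (mom sgs)

theorem FL : Stmt_FL := fl Pool.Agent.WPD.gf Pool.Agent.WPD.lv SFC zx

theorem ESC : Stmt_ESC := esc modh FL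

theorem ZER : Stmt_ZER := zer sgs geo (nul MPP)

/-- The X-ray data of the geodesics almost tangent to the base determine the function on the part of
the warped product over the points of the base all of whose geodesics leave it. -/
theorem DET : Stmt_DET := det modh FL ESC ZER CORE

/-- In a one-dimensional base every geodesic leaves every compact set. -/
theorem ONE : Stmt_ONE := one_

end Pool.Agent.WPG
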