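import Pool.Agent.WPG.Stmts

/-!
# General warped products: module CHG, the data after the change of variables
-/

set_option autoImplicit false

namespace Pool.Agent.WPG

open MeasureTheory Set Filter Topology

namespace CHGAux

variable {n : ℕ} {D : HD n} {ψ : ℝ → ℝ → P n → P n}

/-- the time of the fibre, backwards -/
lemma sg_back (hψ : D.Flow ψ) (κ s : ℝ) (y : P n) :
    D.sg ψ κ (-s) (ψ κ s y) = -D.sg ψ κ s y := by
  unfold HD.sg
  have h1 : ∀ r : ℝ, ψ κ r (ψ κ s y) = ψ κ (r + s) y := fun r => (hψ.add κ r s y).symm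
  simp only [h1]
  rw [intervalIntegral.integral_comp_add_right (fun r => D.u (ψ κ r y).1) s]
  rw [zero_add, neg_add_cancel, intervalIntegral.integral_symm]

lemma flow_back (hψ : D.Flow ψ) (κ s : ℝ) (y : P n) : ψ κ (-s) (ψ κ s y) = y := by
  rw [← hψ.add, neg_add_cancel, hψ.zero]

lemma en_zero (z : P n) : D.en 0 z = D.k z := by
  unfold HD.en
  rw [zero_mul, add_zero]

lemma k_flow (hψ : D.Flow ψ) (s : ℝ) (z : P n) : D.k (ψ 0 s z) = D.k z := by
  have h := hψ.energy 0 s z le_rfl zero_le_one
  rwa [en_zero, en_zero] at h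

lemma k_cont (D : HD n) : Continuous D.k := by
  unfold HD.k
  have h1 : Continuous (fun z : P n => D.A z.1 z.2) :=
    (D.As.continuous.comp continuous_fst).clm_apply continuous_snd
  exact h1.inner continuous_snd

end CHGAux

open CHGAux in
/-- module CHG -/
theorem chg (hS : Stmt_SGS) (hM : Stmt_MPP) : Stmt_CHG := by
  intro a n D ψ φ hψ hφ U T₁ T₂ ε hT hε0 hε1 hZ α hα Ψ hΨ
  have hsg := (hS a D.B ψ hψ).continuous
  have hψc := hψ.smooth.continuous
  have hφc := hφ.smooth.continuous
  have hkc : Continuous D.K.k := k_cont D.K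
  have hkap : Continuous (D.kap ε) := by
    unfold WD.kap
    exact continuous_const.mul hkc
  have hαc : Continuous α := hα.smooth.continuous
  have hΨc : Continuous Ψ := hΨ.smooth.continuous
  -- the combined flow is continuous
  have hcm : Continuous (fun p : ℝ × (P a × P (n + 2)) => D.cm ψ φ ε p.1 p.2) := by
    unfold WD.cm
    have h1 : Continuous (fun p : ℝ × (P a × P (n + 2)) => (D.kap ε p.2.2, p.1, p.2.1)) :=
      (hkap.comp continuous_snd.snd).prodMk (continuous_fst.prodMk continuous_snd.fst)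
    have h2 : Continuous (fun p : ℝ × (P a × P (n + 2)) =>
        ψ (D.kap ε p.2.2) p.1 p.2.1) := hψc.comp h1
    have h3 : Continuous (fun p : ℝ × (P a × P (n + 2)) =>
        D.B.sg ψ (D.kap ε p.2.2) p.1 p.2.1) := hsg.comp h1
    have h4 : Continuous (fun p : ℝ × (P a × P (n + 2)) =>
        φ 0 (ε * D.B.sg ψ (D.kap ε p.2.2) p.1 p.2.1) p.2.2) :=
      hφc.comp (continuous_const.prodMk ((continuous_const.mul h3).prodMk continuous_snd.snd))
    exact h2.prodMk h4
  have hkapcm : ∀ s q, D.kap ε (D.cm ψ φ ε s q).2 = D.kap ε q.2 := by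
    intro s q
    unfold WD.kap WD.cm
    simp only
    rw [k_flow hφ]
  -- the inner integral
  have hin : ∀ s : ℝ, ∫ q : P a × P (n + 2), (D.f q.1.1 q.2.1 : ℂ) *
      ((α (ψ (D.kap ε q.2) (-s) q.1) : ℂ) *
        Ψ (φ 0 (ε * D.B.sg ψ (D.kap ε q.2) (-s) q.1) q.2)) =
      ∫ q : P a × P (n + 2), (D.f (D.cm ψ φ ε s q).1.1 (D.cm ψ φ ε s q).2.1 : ℂ) *
        ((α q.1 : ℂ) * Ψ q.2) := by
    intro s
    have hmp : MeasurePreserving (D.cm ψ φ ε s) volume volume := hM a n D ψ φ hψ hφ ε s
    have hmeas : Measurable (fun q : P a × P (n + 2) => (D.f q.1.1 q.2.1 : ℂ) *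
        ((α (ψ (D.kap ε q.2) (-s) q.1) : ℂ) *
          Ψ (φ 0 (ε * D.B.sg ψ (D.kap ε q.2) (-s) q.1) q.2))) := by
      have h1 : Continuous (fun q : P a × P (n + 2) => (D.kap ε q.2, -s, q.1)) :=
        (hkap.comp continuous_snd).prodMk (continuous_const.prodMk continuous_fst)
      refine Measurable.mul ?_ (Measurable.mul ?_ ?_)
      · exact Complex.measurable_ofReal.comp
          (D.fm.comp (measurable_fst.fst.prodMk measurable_snd.fst))
      · exact Complex.measurable_ofReal.comp (hαc.comp (hψc.comp h1)).measurable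
      · exact (hΨc.comp (hφc.comp (continuous_const.prodMk
          ((continuous_const.mul (hsg.comp h1)).prodMk continuous_snd)))).measurable
    have e2 := integral_map (μ := (volume : Measure (P a × P (n + 2))))
      (φ := D.cm ψ φ ε s) hmp.measurable.aemeasurable hmeas.aestronglyMeasurable
    rw [hmp.map_eq] at e2
    rw [e2]
    refine integral_congr_ae (Eventually.of_forall fun q => ?_)
    simp only
    rw [hkapcm]
    have h3 : ψ (D.kap ε q.2) (-s) (D.cm ψ φ ε s q).1 = q.1 := by
      unfold WD.cm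
      exact flow_back hψ _ _ _
    have h4 : φ 0 (ε * D.B.sg ψ (D.kap ε q.2) (-s) (D.cm ψ φ ε s q).1)
        (D.cm ψ φ ε s q).2 = q.2 := by
      unfold WD.cm
      simp only
      rw [sg_back hψ, mul_neg]
      exact flow_back hφ _ _ _
    rw [h3, h4]
  simp only [hin]
  rw [intervalIntegral.integral_of_le hT]
  -- Fubini
  have hint : Integrable (Function.uncurry fun (s : ℝ) (q : P a × P (n + 2)) =>
      (D.f (D.cm ψ φ ε s q).1.1 (D.cm ψ φ ε s q).2.1 : ℂ) * ((α q.1 : ℂ) * Ψ q.2))
      (((volume : Measure ℝ).restrict (Ioc T₁ T₂)).prod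
        (volume : Measure (P a × P (n + 2)))) := by
    have hαi : Integrable (fun y : P a => ‖α y‖) (volume : Measure (P a)) := by
      have : (volume : Measure (P a)).IsAddHaarMeasure := haarP a
      exact (hαc.integrable_of_hasCompactSupport hα.supp).norm
    have hΨi : Integrable (fun z : P (n + 2) => ‖Ψ z‖) (volume : Measure (P (n + 2))) := by
      have : (volume : Measure (P (n + 2))).IsAddHaarMeasure := haarP (n + 2)
      exact (hΨc.integrable_of_hasCompactSupport hΨ.supp).norm
    have h1 : Integrable (fun q : P a × P (n + 2) => ‖α q.1‖ * ‖Ψ q.2‖)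
        (volume : Measure (P a × P (n + 2))) := Integrable.mul_prod hαi hΨi
    have hI : Integrable (fun p : ℝ × (P a × P (n + 2)) => D.C * (‖α p.2.1‖ * ‖Ψ p.2.2‖))
        (((volume : Measure ℝ).restrict (Ioc T₁ T₂)).prod
          (volume : Measure (P a × P (n + 2)))) := by
      refine Integrable.mul_prod (f := fun _ : ℝ => D.C)
        (g := fun q : P a × P (n + 2) => ‖α q.1‖ * ‖Ψ q.2‖) ?_ h1
      exact integrable_const _
    refine hI.mono' ?_ ?_
    · refine Measurable.aestronglyMeasurable ?_
      refine Measurable.mul ?_ (Measurable.mul ?_ ?_)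
      · exact Complex.measurable_ofReal.comp
          (D.fm.comp (hcm.measurable.fst.fst.prodMk hcm.measurable.snd.fst))
      · exact Complex.measurable_ofReal.comp (hαc.comp continuous_snd.fst).measurable
      · exact (hΨc.comp continuous_snd.snd).measurable
    · refine Eventually.of_forall fun p => ?_
      obtain ⟨s, q⟩ := p
      simp only [Function.uncurry_apply_pair]
      rw [norm_mul, norm_mul, Complex.norm_real, Complex.norm_real, Real.norm_eq_abs]
      exact mul_le_mul_of_nonneg_right (D.fC _ _) (by positivity)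
  rw [integral_integral_swap hint]
  -- the inner integral vanishes
  have hz : ∀ᵐ q : P a × P (n + 2), ∫ s in Ioc T₁ T₂,
      (D.f (D.cm ψ φ ε s q).1.1 (D.cm ψ φ ε s q).2.1 : ℂ) * ((α q.1 : ℂ) * Ψ q.2) = 0 := by
    filter_upwards [hZ] with q hq
    by_cases hU : q.1 ∈ U
    · rcases lt_or_ge (D.K.k q.2) 1 with h | h
      · have h2 := hq hU h
        rw [intervalIntegral.integral_of_le hT] at h2
        rw [integral_mul_const, integral_complex_ofReal, h2]
        simp
      · have h1 : Ψ q.2 = 0 := hΨ.low _ h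
        rw [h1]
        simp
    · have h1 : α q.1 = 0 := by
        by_contra h2
        exact hU (hα.sub (subset_tsupport α h2))
      rw [h1]
      simp
  rw [integral_congr_ae hz]
  simp

end Pool.Agent.WPG
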