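import Mathlib
import Pool.Agent.Lib_helper92.XRay.GeoDefs
import Pool.Agent.WPD.Stmts

/-!
# General warped products: definitions

The metric is `g(x) + ϕ(x) k(y)` on `ℝ^a × ℝ^{n+2}`, `g` and `k` arbitrary Riemannian metrics. `P n` is
the phase space of `ℝ^n`, with the variables `z = (x, p)`. `D : HD n` are the coefficients of the
Hamiltonian `½(⟨A(x)p, p⟩ + κ u(x))`, constant near infinity; for the base `A = g⁻¹`, `u = 1/ϕ`; for the
fibre `A = k⁻¹` and `κ = 0`.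
-/

set_option autoImplicit false

namespace Pool.Agent.WPG

open MeasureTheory Set Filter Topology

abbrev E (n : ℕ) : Type := EuclideanSpace ℝ (Fin n)

/-- the phase space -/
abbrev P (n : ℕ) : Type := E n × E n

theorem haarP (n : ℕ) : (volume : Measure (P n)).IsAddHaarMeasure := by
  show (Measure.prod volume volume).IsAddHaarMeasure
  infer_instance

/-- the coefficients of a Hamiltonian -/
structure HD (n : ℕ) where
  A : E n → E n →L[ℝ] E n
  u : E n → ℝ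
  a : ℝ
  a0 : 0 < a
  As : ContDiff ℝ (⊤ : ℕ∞) A
  us : ContDiff ℝ (⊤ : ℕ∞) u
  sym : ∀ x v w, inner ℝ (A x v) w = inner ℝ v (A x w)
  lo : ∀ x v, a * ‖v‖ ^ 2 ≤ inner ℝ (A x v) v
  ulo : ∀ x, a ≤ u x
  con : ∃ (R u₀ : ℝ) (A₀ : E n →L[ℝ] E n), ∀ x, R ≤ ‖x‖ → A x = A₀ ∧ u x = u₀

namespace HD

variable {n : ℕ} (D : HD n)

/-- the kinetic energy `⟨A(x)p, p⟩` -/
noncomputable def k (z : P n) : ℝ := inner ℝ (D.A z.1 z.2) z.2

/-- the energy `⟨A(x)p, p⟩ + κ u(x)` -/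
noncomputable def en (κ : ℝ) (z : P n) : ℝ := D.k z + κ * D.u z.1

/-- the Hamiltonian vector field of `½ en` -/
noncomputable def Y (κ : ℝ) (z : P n) : P n :=
  (D.A z.1 z.2, -((1 / 2 : ℝ) • gradient (fun x => inner ℝ (D.A x z.2) z.2) z.1) -
    (κ / 2) • gradient D.u z.1)

/-- `φ κ` are flows on the phase space, smooth in all variables; `φ κ` is the flow of `Y κ` for
`0 ≤ κ ≤ 1` and the energies `≤ 4` -/
structure Flow (φ : ℝ → ℝ → P n → P n) : Prop where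
  smooth : ContDiff ℝ (⊤ : ℕ∞) (fun q : ℝ × ℝ × P n => φ q.1 q.2.1 q.2.2)
  zero : ∀ κ z, φ κ 0 z = z
  add : ∀ κ s t z, φ κ (s + t) z = φ κ s (φ κ t z)
  energy : ∀ κ s z, 0 ≤ κ → κ ≤ 1 → D.en κ (φ κ s z) = D.en κ z
  deriv : ∀ κ s z, 0 ≤ κ → κ ≤ 1 → D.en κ z ≤ 4 →
    HasDerivAt (fun r => φ κ r z) (D.Y κ (φ κ s z)) s
  move : ∃ C, ∀ κ s z, ‖φ κ s z - z‖ ≤ C * |s|
  pres : ∀ κ s, MeasurePreserving (φ κ s) volume volume

/-- the integral of `u` along the flow (the time of the fibre) -/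
noncomputable def sg (ψ : ℝ → ℝ → P n → P n) (κ s : ℝ) (y : P n) : ℝ :=
  ∫ r in (0 : ℝ)..s, D.u (ψ κ r y).1

/-- the coefficient of `κ^m` of `α(ψ_κ(s) y) sg(κ, s, y)^i` -/
noncomputable def co (ψ : ℝ → ℝ → P n → P n) (α : P n → ℝ) (i m : ℕ) (s : ℝ) (y : P n) : ℝ :=
  iteratedDeriv m (fun κ => α (ψ κ s y) * D.sg ψ κ s y ^ i) 0 / (m.factorial : ℝ)

/-- test functions: smooth, compact support, zero for the kinetic energies `≥ 1` -/
structure TF (Ψ : P n → ℂ) : Prop where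
  smooth : ContDiff ℝ (⊤ : ℕ∞) Ψ
  supp : HasCompactSupport Ψ
  low : ∀ z, 1 ≤ D.k z → Ψ z = 0

/-- the derivative along the geodesic vector field -/
noncomputable def der (Ψ : P n → ℂ) : P n → ℂ := fun z => fderiv ℝ Ψ z (D.Y 0 z)

end HD

/-- the value of a polynomial -/
noncomputable def ev {n : ℕ} (Q : MvPolynomial (Fin n) ℂ) (q : E n) : ℂ :=
  MvPolynomial.eval (fun i => (q i : ℂ)) Q

/-- smooth with compact support -/
structure Cc {n : ℕ} (g : E n → ℂ) : Prop where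
  smooth : ContDiff ℝ (⊤ : ℕ∞) g
  supp : HasCompactSupport g

/-- `∫ Q(q) k(x, q)^m Ψ(x, q) dq = 0` if `deg Q + 2 m < j`, or `deg Q + 2 m = j` and `m > 0` -/
def HD.CJ {n : ℕ} (D : HD n) (j : ℕ) (Ψ : P n → ℂ) : Prop :=
  ∀ (d m : ℕ) (Q : MvPolynomial (Fin n) ℂ), Q.IsHomogeneous d →
    (d + 2 * m < j ∨ (d + 2 * m = j ∧ 0 < m)) → ∀ x : E n,
    ∫ q : E n, ev Q q * (D.k (x, q) : ℂ) ^ m * Ψ (x, q) = 0

/-! ### isotropic covector fields -/

/-- smooth complex covector fields `b` with `⟨A b, b⟩ = 0` -/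
structure HD.Iso {n : ℕ} (D : HD n) (b : E n → Fin n → ℂ) : Prop where
  smooth : ∀ i, ContDiff ℝ (⊤ : ℕ∞) (fun x => b x i)
  iso : ∀ x, ∑ i, ∑ l, (D.A x (EuclideanSpace.single l 1) i : ℂ) * b x i * b x l = 0

/-- the derivative in the complex direction `v` -/
noncomputable def dq {n : ℕ} (v : Fin n → ℂ) (h : E n → ℂ) : E n → ℂ := fun q =>
  ∑ l, v l * fderiv ℝ h q (EuclideanSpace.single l 1)

/-- a cut-off function on the fibres of the phase space -/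
structure HD.Eta {n : ℕ} (D : HD n) (η : E n → ℂ) : Prop where
  smooth : ContDiff ℝ (⊤ : ℕ∞) η
  supp : HasCompactSupport η
  int : ∫ q, η q = 1
  low : ∀ x q, 1 ≤ D.k (x, q) → η q = 0

/-- the test function `g(x) ((-1)^j / j!) (b(x)·∂_q)^j η(q)` -/
noncomputable def tst {n : ℕ} (b : E n → Fin n → ℂ) (η : E n → ℂ) (j : ℕ) (g : E n → ℂ) :
    P n → ℂ := fun z =>
  g z.1 * ((-1 : ℂ) ^ j / (j.factorial : ℂ)) * ((dq (b z.1))^[j] η) z.2

/-- the operator of order `j` -/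
noncomputable def HD.op {n : ℕ} (D : HD n) (b : E n → Fin n → ℂ) (η : E n → ℂ) (j : ℕ)
    (g : E n → ℂ) : E n → ℂ := fun x => ∫ q : E n, (D.der^[j] (tst b η j g)) (x, q)

/-- the complex vector field `A b` -/
noncomputable def HD.vf {n : ℕ} (D : HD n) (b : E n → Fin n → ℂ) (g : E n → ℂ) : E n → ℂ :=
  fun x => ∑ i, (∑ l, (D.A x (EuclideanSpace.single l 1) i : ℂ) * b x l) *
    fderiv ℝ g x (EuclideanSpace.single i 1)

/-! ### differential operators -/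

/-- iterated partial derivatives -/
noncomputable def dw {n : ℕ} : List (Fin n) → (E n → ℂ) → E n → ℂ
  | [], g => g
  | i :: w, g => fun x => fderiv ℝ (dw w g) x (EuclideanSpace.single i 1)

/-- `Q` is a differential operator of order `≤ r` with smooth coefficients (on smooth functions) -/
def Op {n : ℕ} (r : ℕ) (Q : (E n → ℂ) → E n → ℂ) : Prop :=
  ∃ (S : Finset (List (Fin n))) (c : List (Fin n) → E n → ℂ), (∀ w ∈ S, w.length ≤ r) ∧
    (∀ w, ContDiff ℝ (⊤ : ℕ∞) (c w)) ∧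
    ∀ g : E n → ℂ, ContDiff ℝ (⊤ : ℕ∞) g → ∀ x, Q g x = ∑ w ∈ S, c w x * dw w g x

/-! ### the data -/

/-- the data: the coefficients `B` of the base, `K` of the fibre, and the function `f` -/
structure WD (a n : ℕ) where
  B : HD a
  K : HD (n + 2)
  f : E a → E (n + 2) → ℝ
  C : ℝ
  R : ℝ
  fm : Measurable (fun z : E a × E (n + 2) => f z.1 z.2)
  fC : ∀ x y, |f x y| ≤ C
  f0 : ∀ x y, R ≤ ‖x‖ ∨ R ≤ ‖y‖ → f x y = 0

namespace WD

variable {a n : ℕ} (D : WD a n)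

/-- `κ = ε² k(z)` -/
noncomputable def kap (ε : ℝ) (z : P (n + 2)) : ℝ := ε ^ 2 * D.K.k z

/-- the combined flow at time `s` -/
noncomputable def cm (ψ : ℝ → ℝ → P a → P a) (φ : ℝ → ℝ → P (n + 2) → P (n + 2)) (ε s : ℝ)
    (q : P a × P (n + 2)) : P a × P (n + 2) :=
  (ψ (D.kap ε q.2) s q.1, φ 0 (ε * D.B.sg ψ (D.kap ε q.2) s q.1) q.2)

/-- The integrals of `f` along the curves vanish over the time interval `[T₁, T₂]`, for almost all
initial values in `U` and of fibre energy `< 1`. -/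
def Zero (ψ : ℝ → ℝ → P a → P a) (φ : ℝ → ℝ → P (n + 2) → P (n + 2)) (U : Set (P a))
    (T₁ T₂ ε : ℝ) : Prop :=
  ∀ᵐ q : P a × P (n + 2), q.1 ∈ U → D.K.k q.2 < 1 →
    ∫ s in T₁..T₂, D.f (D.cm ψ φ ε s q).1.1 (D.cm ψ φ ε s q).2.1 = 0

/-- the moments -/
noncomputable def M (ψ : ℝ → ℝ → P a → P a) (T₁ T₂ : ℝ) (α : P a → ℝ) (j : ℕ)
    (Y : E (n + 2)) : ℝ :=
  ∫ s in T₁..T₂, ∫ y : P a, D.f y.1 Y * (α (ψ 0 (-s) y) * D.B.sg ψ 0 (-s) y ^ j)

end WD

/-- test functions on the phase space of the base -/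
structure TB {a : ℕ} (U : Set (P a)) (α : P a → ℝ) : Prop where
  smooth : ContDiff ℝ (⊤ : ℕ∞) α
  supp : HasCompactSupport α
  sub : tsupport α ⊆ U

end Pool.Agent.WPG
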