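import Pool.Agent.WPG.Stmts
import Pool.Agent.Lib_helper30.Tower.Gen

/-!
# General warped products: the statements of the geometric part

The space is `TB a n = ℝ^a × ℝ^{n+2}` with the metric `wf g ϕ k = g(x) + ϕ(x) k(y)`.
-/

set_option autoImplicit false

namespace Pool.Agent.WPG

open MeasureTheory Set Filter Topology Pool.Agent.XRay Pool.Agent.XTower

/-- the space -/
abbrev Sp (a n : ℕ) : Type := E a × E (n + 2)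

/-- the warped product metric `g(x) + ϕ(x) k(y)` -/
noncomputable def wf {a n : ℕ} (g : E a → E a →L[ℝ] E a →L[ℝ] ℝ) (ϕ : E a → ℝ)
    (k : E (n + 2) → E (n + 2) →L[ℝ] E (n + 2) →L[ℝ] ℝ) (z : Sp a n) :
    Sp a n →L[ℝ] Sp a n →L[ℝ] ℝ :=
  (g z.1).bilinearComp (ContinuousLinearMap.fst ℝ (E a) (E (n + 2)))
      (ContinuousLinearMap.fst ℝ (E a) (E (n + 2))) +
    ϕ z.1 • (k z.2).bilinearComp (ContinuousLinearMap.snd ℝ (E a) (E (n + 2)))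
      (ContinuousLinearMap.snd ℝ (E a) (E (n + 2)))

theorem wf_apply {a n : ℕ} (g : E a → E a →L[ℝ] E a →L[ℝ] ℝ) (ϕ : E a → ℝ)
    (k : E (n + 2) → E (n + 2) →L[ℝ] E (n + 2) →L[ℝ] ℝ) (z v w : Sp a n) :
    wf g ϕ k z v w = g z.1 v.1 w.1 + ϕ z.1 * k z.2 v.2 w.2 := by
  simp [wf]

/-- hypotheses on the metric -/
structure Met {a n : ℕ} (g : E a → E a →L[ℝ] E a →L[ℝ] ℝ) (ϕ : E a → ℝ)
    (k : E (n + 2) → E (n + 2) →L[ℝ] E (n + 2) →L[ℝ] ℝ) : Prop where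
  metg : IsMetric g
  metk : IsMetric k
  gs : ContDiff ℝ (⊤ : ℕ∞) g
  ks : ContDiff ℝ (⊤ : ℕ∞) k
  ϕs : ContDiff ℝ (⊤ : ℕ∞) ϕ
  ϕ0 : ∀ x, 0 < ϕ x

/-- the point `x` lies on the arc over `[t₁, t₂]` of a unit speed geodesic of `g`
whose end points are not in `S` -/
def Passes {a : ℕ} (g : E a → E a →L[ℝ] E a →L[ℝ] ℝ) (S : Set (E a)) (x : E a) : Prop :=
  ∃ (c : ℝ → E a) (u t₁ t₂ v : ℝ), u < t₁ ∧ t₁ ≤ 0 ∧ 0 ≤ t₂ ∧ t₂ < v ∧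
    UnitGeodesicOn g c (Ioo u v) ∧ c 0 = x ∧ c t₁ ∉ S ∧ c t₂ ∉ S

/-- modification of a metric and of a function far away -/
def Stmt_MODH : Prop := ∀ (n : ℕ) (g : E n → E n →L[ℝ] E n →L[ℝ] ℝ) (ϕ : E n → ℝ) (R : ℝ),
  IsMetric g → ContDiff ℝ (⊤ : ℕ∞) g → ContDiff ℝ (⊤ : ℕ∞) ϕ → (∀ x, 0 < ϕ x) → ∃ D : HD n,
    ∀ x, ‖x‖ < R → (∀ p v, g x (D.A x p) v = inner ℝ p v) ∧ D.u x = (ϕ x)⁻¹

/-- `D` represents the metric `g` and the function `1/ϕ` near `x` -/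
def Rep {n : ℕ} (D : HD n) (g : E n → E n →L[ℝ] E n →L[ℝ] ℝ) (ϕ : E n → ℝ) (x : E n) : Prop :=
  ∀ᶠ y in 𝓝 x, (∀ p v, g y (D.A y p) v = inner ℝ p v) ∧ D.u y = (ϕ y)⁻¹

/-- the curve with initial values `y`, `z` -/
noncomputable def crv {a n : ℕ} (B : HD a) (K : HD (n + 2)) (ψ : ℝ → ℝ → P a → P a)
    (φ : ℝ → ℝ → P (n + 2) → P (n + 2)) (ε : ℝ) (y : P a) (z : P (n + 2)) (s : ℝ) : Sp a n :=
  ((ψ (ε ^ 2 * K.k z) s y).1, (φ 0 (ε * B.sg ψ (ε ^ 2 * K.k z) s y) z).1)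

/-- **the curves are geodesics**, of constant speed `√(en)` -/
def Stmt_GEO : Prop := ∀ (a n : ℕ) (g : E a → E a →L[ℝ] E a →L[ℝ] ℝ) (ϕ : E a → ℝ)
  (k : E (n + 2) → E (n + 2) →L[ℝ] E (n + 2) →L[ℝ] ℝ), Met g ϕ k → ∀ (B : HD a) (K : HD (n + 2))
  (ψ : ℝ → ℝ → P a → P a) (φ : ℝ → ℝ → P (n + 2) → P (n + 2)), B.Flow ψ → K.Flow φ →
  ∀ (ε : ℝ) (y : P a) (z : P (n + 2)) (r : ℝ), 0 < ε → ε ≤ 1 → K.k z < 1 → 0 < r → r ≤ 2 →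
  B.en (ε ^ 2 * K.k z) y = r ^ 2 → ∀ a' b' : ℝ, a' < b' →
  (∀ s ∈ Ioo a' b', Rep B g ϕ (crv B K ψ φ ε y z s).1 ∧
    Rep K k (fun _ => 1) (crv B K ψ φ ε y z s).2) →
  UnitGeodesicOn (wf g ϕ k) (fun τ => crv B K ψ φ ε y z (τ / r)) (Ioo (r * a') (r * b')) ∧
  ∀ τ ∈ Ioo (r * a') (r * b'),
    ϕ (crv B K ψ φ ε y z (τ / r)).1 ^ 2 * k (crv B K ψ φ ε y z (τ / r)).2
      (deriv (fun τ => crv B K ψ φ ε y z (τ / r)) τ).2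
      (deriv (fun τ => crv B K ψ φ ε y z (τ / r)) τ).2 = ε ^ 2 * K.k z / r ^ 2

/-- null sets along the curves -/
def Stmt_NUL : Prop := ∀ (a n : ℕ) (B : HD a) (K : HD (n + 2)) (ψ : ℝ → ℝ → P a → P a)
  (φ : ℝ → ℝ → P (n + 2) → P (n + 2)), B.Flow ψ → K.Flow φ → ∀ ε : ℝ, ∀ N : Set (Sp a n),
  MeasurableSet N → volume N = 0 →
  ∀ᵐ q : P a × P (n + 2), ∀ᵐ s : ℝ, crv B K ψ φ ε q.1 q.2 s ∉ N

/-- good initial values on the base: the energies are near `1`, the metric is not modified along the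
curves, and the end points are outside of `S` -/
structure Reg {a : ℕ} (g : E a → E a →L[ℝ] E a →L[ℝ] ℝ) (ϕ : E a → ℝ) (B : HD a)
    (ψ : ℝ → ℝ → P a → P a) (S : Set (E a)) (U : Set (P a)) (T₁ T₂ κ₀ : ℝ) : Prop where
  isOpen : IsOpen U
  neg : T₁ < 0
  pos : 0 < T₂
  κpos : 0 < κ₀
  κle : κ₀ ≤ 1
  en : ∀ y ∈ U, ∀ κ, 0 ≤ κ → κ ≤ κ₀ → 1 / 2 < B.en κ y ∧ B.en κ y < 2
  loc : ∀ y ∈ U, ∀ κ, 0 ≤ κ → κ ≤ κ₀ → ∃ u v, u < T₁ ∧ T₂ < v ∧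
    ∀ s ∈ Ioo u v, Rep B g ϕ (ψ κ s y).1
  out : ∀ y ∈ U, ∀ κ, 0 ≤ κ → κ ≤ κ₀ → (ψ κ T₁ y).1 ∉ S ∧ (ψ κ T₂ y).1 ∉ S

/-- good initial values exist over every point which lies on a suitable geodesic -/
def Stmt_ESC : Prop := ∀ (a : ℕ) (g : E a → E a →L[ℝ] E a →L[ℝ] ℝ) (ϕ : E a → ℝ), IsMetric g →
  ContDiff ℝ (⊤ : ℕ∞) g → ContDiff ℝ (⊤ : ℕ∞) ϕ → (∀ x, 0 < ϕ x) → ∀ (S : Set (E a)) (x : E a),
  IsCompact S → x ∈ S → Passes g S x → ∃ (B : HD a) (ψ : ℝ → ℝ → P a → P a) (U : Set (P a))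
    (T₁ T₂ κ₀ : ℝ), B.Flow ψ ∧ Reg g ϕ B ψ S U T₁ T₂ κ₀ ∧ ∃ p, (x, p) ∈ U

/-- the data of `DetOn` imply the data of the analytic part -/
def Stmt_ZER : Prop := ∀ (a n : ℕ) (g : E a → E a →L[ℝ] E a →L[ℝ] ℝ) (ϕ : E a → ℝ)
  (k : E (n + 2) → E (n + 2) →L[ℝ] E (n + 2) →L[ℝ] ℝ), Met g ϕ k → ∀ (δ : ℝ), 0 < δ →
  ∀ (f : Sp a n → ℝ) (S Z : Set (Sp a n)) (R : ℝ), IsCompact S → (∀ z ∈ S, ‖z.2‖ < R) →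
  (∀ z ∉ S, f z = 0) → MeasurableSet Z → volume Z = 0 →
  (∀ (t₁ t₂ : ℝ) (c : ℝ → Sp a n), PArc (wf g ϕ k) (fun z v => ϕ z.1 ^ 2 * k z.2 v.2 v.2 < δ)
    t₁ t₂ c → c t₁ ∉ S → c t₂ ∉ S → (∀ᵐ t ∂(volume.restrict (Ioc t₁ t₂)), c t ∉ Z) →
    ∫ t in t₁..t₂, f (c t) = 0) →
  ∀ D : WD a n, (∀ x y, D.f x y = f (x, y)) → ∀ (ψ : ℝ → ℝ → P a → P a)
  (φ : ℝ → ℝ → P (n + 2) → P (n + 2)), D.B.Flow ψ → D.K.Flow φ →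
  (∀ y, ‖y‖ < R + 2 → Rep D.K k (fun _ => 1) y) → ∀ (U : Set (P a)) (T₁ T₂ κ₀ : ℝ),
  Reg g ϕ D.B ψ (Prod.fst '' S) U T₁ T₂ κ₀ →
  ∃ ε₀ > 0, ∀ ε, 0 < ε → ε < ε₀ → D.Zero ψ φ U T₁ T₂ ε

/-- **the theorem** -/
def Stmt_DET : Prop := ∀ (a n : ℕ) (g : E a → E a →L[ℝ] E a →L[ℝ] ℝ) (ϕ : E a → ℝ)
  (k : E (n + 2) → E (n + 2) →L[ℝ] E (n + 2) →L[ℝ] ℝ), Met g ϕ k → ∀ (S : Set (E a)),
  (∀ x ∈ S, Passes g S x) → ∀ δ : ℝ, 0 < δ →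
  DetOn (volume : Measure (Sp a n)) (S ×ˢ univ)
    (PArc (wf g ϕ k) (fun z v => ϕ z.1 ^ 2 * k z.2 v.2 v.2 < δ))

/-- on the line every geodesic leaves every compact set -/
def Stmt_ONE : Prop := ∀ g : E 1 → E 1 →L[ℝ] E 1 →L[ℝ] ℝ, IsMetric g → ∀ S : Set (E 1),
  IsCompact S → ∀ x, Passes g S x

end Pool.Agent.WPG
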