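import Pool.Agent.WPG.Geo

/-!
# On the line every geodesic leaves every compact set
-/

set_option autoImplicit false

namespace Pool.Agent.WPG

namespace ONEAux

open MeasureTheory Set Filter Topology Pool.Agent.XRay

/-- the basis vector -/
noncomputable def e1 : E 1 := EuclideanSpace.single 0 1

theorem eq_smul (x : E 1) : x = x 0 • e1 := by
  ext i
  have hi : i = 0 := Subsingleton.elim _ _
  subst hi
  simp [e1]

theorem norm_smul_e1 (t : ℝ) : ‖t • e1‖ = |t| := by
  rw [norm_smul, e1]
  simp

theorem isg {q G : ℝ} (h2 : q ≠ 0) (h3 : q * q = G) : q⁻¹ * G = q := by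
  rw [← h3]
  field_simp

/-- a strictly increasing surjective primitive of a positive continuous function which is bounded below -/
theorem prim {lam : ℝ → ℝ} (hc : Continuous lam) {m : ℝ} (hm : 0 < m) (hlo : ∀ t, m ≤ lam t) :
    ∃ L : ℝ ≃o ℝ, ∀ t, HasDerivAt L (lam t) t := by
  set L : ℝ → ℝ := fun t => ∫ s in (0 : ℝ)..t, lam s with hL
  have hd : ∀ t, HasDerivAt L (lam t) t := fun t =>
    intervalIntegral.integral_hasDerivAt_right (hc.intervalIntegrable _ _)
      (hc.stronglyMeasurableAtFilter _ _) hc.continuousAt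
  have hLc : Continuous L := continuous_iff_continuousAt.2 fun t => (hd t).continuousAt
  have hmono : StrictMono L := strictMono_of_deriv_pos fun t => by
    rw [(hd t).deriv]
    exact hm.trans_le (hlo t)
  have hmm : Monotone fun t => L t - m * t := by
    refine monotone_of_deriv_nonneg (fun t => ((hd t).sub ((hasDerivAt_id t).const_mul m)).differentiableAt) ?_
    intro t
    have h := ((hd t).sub ((hasDerivAt_id t).const_mul m)).deriv
    have h' : deriv (fun t => L t - m * t) t = lam t - m * 1 := h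
    rw [h']
    linarith [hlo t]
  have h0 : L 0 = 0 := by simp [hL]
  have htop : Tendsto L atTop atTop := by
    refine tendsto_atTop_mono' _ ?_ (tendsto_id.const_mul_atTop hm)
    filter_upwards [eventually_ge_atTop 0] with t ht
    have := hmm ht
    simp only [h0, mul_zero, sub_zero] at this
    simp only [id]
    linarith
  have hbot : Tendsto L atBot atBot := by
    refine tendsto_atBot_mono' _ ?_ (tendsto_id.const_mul_atBot hm)
    filter_upwards [eventually_le_atBot 0] with t ht
    have := hmm ht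
    simp only [h0, mul_zero, sub_zero] at this
    simp only [id]
    linarith
  exact ⟨hmono.orderIsoOfSurjective L (hLc.surjective htop hbot), hd⟩

end ONEAux

open ONEAux MeasureTheory Set Filter Topology Pool.Agent.XRay in
theorem one_ : Stmt_ONE := by
  intro g hg S hS x
  -- the coefficient of the metric
  set G : ℝ → ℝ := fun t => g (t • e1) e1 e1 with hG
  have he : e1 ≠ 0 := by
    intro h
    have := norm_smul_e1 1
    rw [h, smul_zero, norm_zero] at this
    norm_num at this
  have hG0 : ∀ t, 0 < G t := fun t => hg.pos _ _ he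
  have hGd : ∀ t, HasDerivAt G (fderiv ℝ g (t • e1) e1 e1 e1) t := by
    intro t
    have h1 : HasDerivAt (fun t : ℝ => t • e1) e1 t := by
      have := (hasDerivAt_id t).smul_const e1
      simpa using this
    have h2 : HasDerivAt (fun t : ℝ => g (t • e1)) (fderiv ℝ g (t • e1) e1) t :=
      HasFDerivAt.comp_hasDerivAt (𝕜 := ℝ) (F := E 1) (E := E 1 →L[ℝ] E 1 →L[ℝ] ℝ) (l := g)
        (f := fun t : ℝ => t • e1) t (hg.diff (t • e1)).hasFDerivAt h1
    have h3 := (h2.clm_apply (hasDerivAt_const t e1)).clm_apply (hasDerivAt_const t e1)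
    simpa using h3
  have hGc : Continuous G := continuous_iff_continuousAt.2 fun t => (hGd t).continuousAt
  -- the radius
  obtain ⟨R0, hR0⟩ := hS.isBounded.subset_ball (0 : E 1)
  set R : ℝ := max R0 (|x 0| + 1) with hR
  have hRS : ∀ t : ℝ, R ≤ |t| → t • e1 ∉ S := by
    intro t ht h
    have := hR0 h
    rw [mem_ball_zero_iff, norm_smul_e1] at this
    exact absurd (this.trans_le ((le_max_left _ _).trans ht)) (lt_irrefl _)
  have hRx : |x 0| < R := lt_of_lt_of_le (lt_add_one _) (le_max_right _ _)
  have hRp : 0 < R := (abs_nonneg _).trans_lt hRx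
  -- the modified speed
  set cl : ℝ → ℝ := fun t => max (-(R + 1)) (min t (R + 1)) with hcl
  have hclc : Continuous cl := continuous_const.max (continuous_id.min continuous_const)
  have hclm : ∀ t, cl t ∈ Icc (-(R + 1)) (R + 1) := fun t =>
    ⟨le_max_left _ _, max_le (by linarith) (min_le_right _ _)⟩
  have hcle : ∀ t ∈ Ioo (-(R + 1)) (R + 1), cl t = t := fun t ht => by
    rw [hcl]
    simp only
    rw [min_eq_left ht.2.le, max_eq_right ht.1.le]
  set lam : ℝ → ℝ := fun t => √(G (cl t)) with hlam
  have hlc : Continuous lam := (hGc.comp hclc).sqrt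
  obtain ⟨t0, ht0, hmin⟩ := isCompact_Icc.exists_isMinOn (nonempty_Icc.2 (by linarith : -(R + 1) ≤ R + 1))
    hGc.continuousOn
  obtain ⟨L, hL⟩ := prim hlc (Real.sqrt_pos.2 (hG0 t0)) fun t =>
    Real.sqrt_le_sqrt (hmin (hclm t))
  -- the curve
  set γ : ℝ → ℝ := fun s => L.symm (L (x 0) + s) with hγ
  have hlp : ∀ t, 0 < lam t := fun t => Real.sqrt_pos.2 (hG0 _)
  have hγd : ∀ s, HasDerivAt γ (lam (γ s))⁻¹ s := by
    intro s
    have h1 : HasDerivAt L.symm (lam (L.symm (L (x 0) + s)))⁻¹ (L (x 0) + s) :=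
      HasDerivAt.of_local_left_inverse L.symm.continuous.continuousAt (hL _) (hlp _).ne'
        (Eventually.of_forall fun y => L.apply_symm_apply y)
    have h2 := h1.comp_const_add (L (x 0)) s
    exact h2
  have hγI : ∀ s ∈ Ioo (L (-(R + 1)) - L (x 0)) (L (R + 1) - L (x 0)),
      γ s ∈ Ioo (-(R + 1)) (R + 1) := by
    intro s hs
    constructor
    · rw [hγ]
      simp only
      rw [← L.lt_iff_lt, L.apply_symm_apply]
      linarith [hs.1]
    · rw [hγ]
      simp only
      rw [← L.lt_iff_lt, L.apply_symm_apply]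
      linarith [hs.2]
  have hγL : ∀ t, γ (L t - L (x 0)) = t := by
    intro t
    rw [hγ]
    simp only
    rw [add_sub_cancel, L.symm_apply_apply]
  refine ⟨fun s => γ s • e1, L (-(R + 1)) - L (x 0), L (-R) - L (x 0), L R - L (x 0),
    L (R + 1) - L (x 0), ?_, ?_, ?_, ?_, ?_, ?_, ?_, ?_⟩
  · have := L.lt_iff_lt.2 (show -(R + 1) < -R by linarith)
    linarith
  · have := L.le_iff_le.2 (show -R ≤ x 0 by linarith [neg_abs_le (x 0)])
    linarith
  · have := L.le_iff_le.2 (show x 0 ≤ R by linarith [le_abs_self (x 0)])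
    linarith
  · have := L.lt_iff_lt.2 (show R < R + 1 by linarith)
    linarith
  · have hcd : ∀ s, HasDerivAt (fun s => γ s • e1) ((lam (γ s))⁻¹ • e1) s := fun s =>
      (hγd s).smul_const e1
    have hcd' : deriv (fun s => γ s • e1) = fun s => (lam (γ s))⁻¹ • e1 :=
      funext fun s => (hcd s).deriv
    have hlG : ∀ s ∈ Ioo (L (-(R + 1)) - L (x 0)) (L (R + 1) - L (x 0)),
        lam (γ s) = √(G (γ s)) := by
      intro s hs
      rw [hlam]
      simp only
      rw [hcle _ (hγI s hs)]
    refine ⟨fun s _ => (hcd s).differentiableAt, ?_, ?_⟩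
    · intro s hs w
      have hw := eq_smul w
      have h1 : (fun s => g (γ s • e1) (deriv (fun s => γ s • e1) s) w) =ᶠ[𝓝 s]
          fun s => w 0 * √(G (γ s)) := by
        filter_upwards [isOpen_Ioo.mem_nhds hs] with s' hs'
        rw [hcd']
        beta_reduce
        rw [hlG s' hs']
        conv_lhs => rw [hw]
        simp only [map_smul, smul_apply, smul_eq_mul]
        change w 0 * ((√(G (γ s')))⁻¹ * G (γ s')) = _
        have h2 : √(G (γ s')) ≠ 0 := (Real.sqrt_pos.2 (hG0 _)).ne'
        have h3 : √(G (γ s')) * √(G (γ s')) = G (γ s') := Real.mul_self_sqrt (hG0 _).le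
        rw [isg h2 h3]
      refine HasDerivAt.congr_of_eventuallyEq ?_ h1
      have h4 := ((((hGd (γ s)).comp s (hγd s)).sqrt (hG0 _).ne').const_mul (w 0))
      refine h4.congr_deriv ?_
      rw [hcd']
      beta_reduce
      rw [hlG s hs]
      conv_rhs => rw [hw]
      simp only [map_smul, smul_apply, smul_eq_mul, Function.comp_apply]
      have h2 : √(G (γ s)) ≠ 0 := (Real.sqrt_pos.2 (hG0 _)).ne'
      field_simp
    · intro s hs
      rw [hcd']
      beta_reduce
      rw [hlG s hs]
      simp only [map_smul, smul_apply, smul_eq_mul]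
      change (√(G (γ s)))⁻¹ * ((√(G (γ s)))⁻¹ * G (γ s)) = 1
      have h2 : √(G (γ s)) ≠ 0 := (Real.sqrt_pos.2 (hG0 _)).ne'
      have h3 : √(G (γ s)) * √(G (γ s)) = G (γ s) := Real.mul_self_sqrt (hG0 _).le
      rw [isg h2 h3, inv_mul_cancel₀ h2]
  · have h := hγL (x 0)
    rw [sub_self] at h
    simp only [h]
    exact (eq_smul x).symm
  · simp only [hγL]
    exact hRS _ (by rw [abs_neg, abs_of_pos hRp])
  · simp only [hγL]
    exact hRS _ (by rw [abs_of_pos hRp])

end Pool.Agent.WPG
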